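import Mathlib

set_option autoImplicit false

open MeasureTheory Set Filter Topology
open scoped ENNReal

namespace Pool.Agent.Helper88.SE

/-- Euclidean space `ℝ^(d+1)`. -/
abbrev E (d : ℕ) := EuclideanSpace ℝ (Fin (d + 1))

/-- The unit sphere `S^d` of `ℝ^(d+1)`. -/
abbrev S (d : ℕ) := Metric.sphere (0 : E d) 1

/-- Linear isometries of `ℝ^(d+1)`. -/
abbrev Iso (d : ℕ) := E d ≃ₗᵢ[ℝ] E d

/-- The action of a linear isometry on the sphere. -/
noncomputable def rot {d : ℕ} (g : Iso d) (x : S d) : S d := ⟨g x.1, by simp⟩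

/-- Normalised surface measure on the sphere. -/
noncomputable def sg (d : ℕ) : Measure (S d) :=
  ((volume : Measure (E d)).toSphere Set.univ)⁻¹ • (volume : Measure (E d)).toSphere

/-- The Riesz kernel `|x-y|^(-s)` (with Lean's value `0` on the diagonal when `s ≠ 0`). -/
noncomputable def K {d : ℕ} (s : ℝ) (x y : S d) : ℝ := dist x y ^ (-s)

/-- The Riesz kernel with exponential cutoff, `|x-y|^(-s) exp(-lam |x-y|)`. -/
noncomputable def KL {d : ℕ} (s lam : ℝ) (x y : S d) : ℝ :=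
  dist x y ^ (-s) * Real.exp (-(lam * dist x y))

/-- Energy of a configuration (the diagonal terms are `0` when `s ≠ 0`). -/
noncomputable def En {d : ℕ} (s : ℝ) {N : ℕ} (x : Fin N → S d) : ℝ :=
  ∑ i, ∑ j, K s (x i) (x j)

/-- Energy of a configuration for the kernel `KL`. -/
noncomputable def EL {d : ℕ} (s lam : ℝ) {N : ℕ} (x : Fin N → S d) : ℝ :=
  ∑ i, ∑ j, KL s lam (x i) (x j)

/-- Minimal energy of `N` distinct points. -/
noncomputable def Em (d : ℕ) (s : ℝ) (N : ℕ) : ℝ :=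
  sInf {e : ℝ | ∃ x : Fin N → S d, Function.Injective x ∧ e = En s x}

/-- Continuous energy. -/
noncomputable def Ic (d : ℕ) (s : ℝ) : ℝ := ∫ x : S d, ∫ y : S d, K s x y ∂(sg d) ∂(sg d)

/-- Continuous energy for the kernel `KL`. -/
noncomputable def J (d : ℕ) (s lam : ℝ) : ℝ :=
  ∫ x : S d, ∫ y : S d, KL s lam x y ∂(sg d) ∂(sg d)

/-- The mean of `exp(-u|x-y|)`. -/
noncomputable def gg (d : ℕ) (u : ℝ) : ℝ :=
  ∫ x : S d, ∫ y : S d, Real.exp (-(u * dist x y)) ∂(sg d) ∂(sg d)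

/-- Second order part of the minimal energy. -/
noncomputable def F (d : ℕ) (s : ℝ) (N : ℕ) : ℝ := Em d s N - (N : ℝ) ^ 2 * Ic d s

/-- `sum_{i ≠ j} exp(-u|x_i-x_j|) - N^2 gg u`. -/
noncomputable def ff {d N : ℕ} (x : Fin N → S d) (u : ℝ) : ℝ :=
  (∑ i, ∑ j, Real.exp (-(u * dist (x i) (x j)))) - (N : ℝ) - (N : ℝ) ^ 2 * gg d u

/-- Radial projection to the sphere (a fixed point is used at `0`). -/
noncomputable def nrm {d : ℕ} (v : E d) : S d :=
  if h : v = 0 then ⟨EuclideanSpace.single 0 1, by simp⟩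
  else ⟨‖v‖⁻¹ • v, by simp [norm_smul, h]⟩

/-- The linear map which is `1` on the line of `p` and `r` on its orthogonal complement. -/
noncomputable def Amap {d : ℕ} (p : S d) (r : ℝ) (x : E d) : E d :=
  r • x + ((1 - r) * inner ℝ (p : E d) x) • (p : E d)

/-- The map of the sphere induced by `Amap`. -/
noncomputable def psi {d : ℕ} (p : S d) (r : ℝ) (x : S d) : S d := nrm (Amap p r (x : E d))

/-- Spherical cap around `p` (radius `ρ` in gnomonic coordinates). -/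
def cap {d : ℕ} (p : S d) (ρ : ℝ) : Set (S d) :=
  {x | 0 < inner ℝ (p : E d) (x : E d) ∧
    ‖(x : E d) - (inner ℝ (p : E d) (x : E d)) • (p : E d)‖ < ρ * inner ℝ (p : E d) (x : E d)}

/-- The weight attached to the chart `psi`. -/
noncomputable def wt {d : ℕ} (p : S d) (r ρ : ℝ) (x : S d) : ℝ :=
  (cap p ρ).indicator
    (fun x => (1 + ρ ^ 2) ^ (-(((d : ℝ) + 1) / 2)) * ‖Amap p r (x : E d)‖ ^ (-((d : ℝ) + 1))) x

/-- A random weighted configuration, one for every label `l`, with at most `N` points for each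
label, carried by the region `{L = l}`; the point number `i` of the label `l` has mean
`n / N` times the surface measure of the region. -/
structure Ens {d : ℕ} (n N : ℕ) {ι : Type} [DecidableEq ι] (L : S d → ι)
    {Ω : Type} [MeasurableSpace Ω] (P : Measure Ω)
    (Y : ι → Fin N → Ω → S d) (Θ : ι → Fin N → Ω → ℝ) : Prop where
  mY : ∀ l i, Measurable (Y l i)
  mΘ : ∀ l i, Measurable (Θ l i)
  nonneg : ∀ l i ω, 0 ≤ Θ l i ω
  le_one : ∀ l i ω, Θ l i ω ≤ 1
  supp : ∀ l i ω, 0 < Θ l i ω → L (Y l i ω) = l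
  inj : ∀ l i j ω, i ≠ j → 0 < Θ l i ω → 0 < Θ l j ω → Y l i ω ≠ Y l j ω
  mass : ∀ l i (f : S d → ℝ≥0∞), Measurable f →
    (N : ℝ≥0∞) * ∫⁻ ω, ENNReal.ofReal (Θ l i ω) * f (Y l i ω) ∂P =
      (n : ℝ≥0∞) * ∫⁻ u, (if L u = l then f u else 0) ∂(sg d)

/-- The averaged power kernel of the localisation argument. -/
noncomputable def W (s l L u : ℝ) : ℝ :=
  ∫ lam in l..L, (if lam < u then (u - lam) ^ (s - 1) else 0) / lam

/-- Scale ratio of the transplantation. -/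
noncomputable def rr (d N : ℕ) (ρ : ℝ) (n : ℕ) : ℝ :=
  ((N : ℝ) * (1 + ρ ^ 2) ^ (-(((d : ℝ) + 1) / 2)) / n) ^ (1 / (d : ℝ))

/-- Number of hyperplanes. -/
noncomputable def kk (d N : ℕ) (ρ κ lam : ℝ) (n : ℕ) : ℕ :=
  ⌈lam * (1 + ρ ^ 2) / (κ * rr d N ρ n)⌉₊

/-- The Riesz 2-kernel minus its cut-off version, `|x-y|^(-2) (1 - exp(-mu |x-y|))`. -/
noncomputable def KU {d : ℕ} (mu : ℝ) (x y : S d) : ℝ :=
  dist x y ^ (-(2 : ℝ)) * (1 - Real.exp (-(mu * dist x y)))

/-- Its mean over `S²`. -/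
noncomputable def IU (mu : ℝ) : ℝ := ∫ x : S 2, ∫ y : S 2, KU mu x y ∂(sg 2) ∂(sg 2)

end Pool.Agent.Helper88.SE
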