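import Pool.Agent.Helper88.SE.Defs

set_option autoImplicit false

open MeasureTheory Set Filter Topology
open scoped ENNReal

namespace Pool.Agent.Helper88.SE



theorem Amap_equiv (d : ℕ) (p : S d) (r : ℝ) (hr : 0 < r) :
    ∃ A : E d ≃L[ℝ] E d, (∀ x, A x = Amap p r x) ∧ (A : E d →L[ℝ] E d).det = r ^ d := by
  classical
  set v : Fin (d + 1) → ℝ := fun i => (p : E d) i with hv
  let M : Matrix (Fin (d + 1)) (Fin (d + 1)) ℝ :=
    r • ((1 : Matrix (Fin (d + 1)) (Fin (d + 1)) ℝ) +
      Matrix.replicateCol Unit (((1 - r) / r) • v) * Matrix.replicateRow Unit v)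
  have hvv : v ⬝ᵥ v = 1 := by
    have h1 : ‖(p : E d)‖ = 1 := mem_sphere_zero_iff_norm.1 p.2
    have h2 : ‖(p : E d)‖ ^ 2 = ∑ i, ‖(p : E d) i‖ ^ 2 := EuclideanSpace.norm_sq_eq _
    rw [h1, one_pow] at h2
    simp only [dotProduct]
    rw [h2]
    refine Finset.sum_congr rfl fun i _ => ?_
    rw [Real.norm_eq_abs, sq_abs, sq]
  have hdet : M.det = r ^ d := by
    simp only [M]
    rw [Matrix.det_smul, Matrix.det_one_add_replicateCol_mul_replicateRow, dotProduct_smul, hvv,
      Fintype.card_fin, smul_eq_mul, mul_one, pow_succ]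
    field_simp
    ring
  let f : E d →L[ℝ] E d := LinearMap.toContinuousLinearMap (Matrix.toEuclideanLin M)
  have hfdet : f.det = r ^ d := by
    simp only [f]
    rw [LinearMap.det_toContinuousLinearMap, Matrix.toEuclideanLin_eq_toLin, LinearMap.det_toLin,
      hdet]
  have hne : f.det ≠ 0 := by rw [hfdet]; exact (pow_pos hr d).ne'
  refine ⟨f.toContinuousLinearEquivOfDetNeZero hne, ?_, ?_⟩
  · intro x
    rw [ContinuousLinearMap.toContinuousLinearEquivOfDetNeZero_apply]
    simp only [f, M, Amap, LinearMap.coe_toContinuousLinearMap', Matrix.toEuclideanLin_apply]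
    ext i
    simp only [PiLp.add_apply, PiLp.smul_apply, smul_eq_mul, Matrix.smul_mulVec, Matrix.add_mulVec,
      Matrix.one_mulVec, Pi.smul_apply, Pi.add_apply, ← Matrix.mulVec_mulVec]
    have hin : inner ℝ (p : E d) x = v ⬝ᵥ (fun j => x j) := by
      simp only [PiLp.inner_apply, dotProduct, hv, RCLike.inner_apply, conj_trivial]
      exact Finset.sum_congr rfl fun j _ => mul_comm _ _
    rw [hin]
    have hr0 : r ≠ 0 := hr.ne'
    simp [Matrix.mulVec, dotProduct, Matrix.replicateCol_apply, Matrix.replicateRow_apply]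
    field_simp
    rw [hv]
    ring
  · rw [ContinuousLinearMap.coe_toContinuousLinearEquivOfDetNeZero, hfdet]

end Pool.Agent.Helper88.SE
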