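import Pool.Agent.Helper88.SE.Defs

set_option autoImplicit false

open MeasureTheory Set Filter Topology
open scoped ENNReal

namespace Pool.Agent.Helper88.SE



theorem EL_split (N : ℕ) (x : Fin N → S 2) (lam : ℝ) (hlam : 0 ≤ lam) :
    EL 2 lam x = En 2 x - ∑ i, ∑ j, KU lam (x i) (x j) ∧ 0 ≤ EL 2 lam x := by
  constructor
  · unfold EL En
    rw [← Finset.sum_sub_distrib]
    refine Finset.sum_congr rfl fun i _ => ?_
    rw [← Finset.sum_sub_distrib]
    refine Finset.sum_congr rfl fun j _ => ?_
    unfold KL K KU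
    ring
  · unfold EL
    refine Finset.sum_nonneg fun i _ => Finset.sum_nonneg fun j _ => ?_
    unfold KL
    exact mul_nonneg (Real.rpow_nonneg dist_nonneg _) (Real.exp_pos _).le

end Pool.Agent.Helper88.SE
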