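import Pool.Agent.Helper88.SE.Defs

set_option autoImplicit false

open MeasureTheory Set Filter Topology
open scoped ENNReal

namespace Pool.Agent.Helper88.SE

theorem inj_exists (d : ℕ) (hd : 1 ≤ d) (N : ℕ) : ∃ x : Fin N → S d, Function.Injective x := by
  have hinf : Infinite (S d) := by
    have hne : (⟨0, by omega⟩ : Fin (d + 1)) ≠ ⟨1, by omega⟩ := by
      intro h
      simp at h
    let f : ℝ → E d := fun t => (Real.sqrt (1 + t ^ 2))⁻¹ •
      (EuclideanSpace.single (⟨0, by omega⟩ : Fin (d + 1)) (1 : ℝ) +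
        EuclideanSpace.single (⟨1, by omega⟩ : Fin (d + 1)) t)
    have hpos : ∀ t : ℝ, 0 < 1 + t ^ 2 := fun t => by positivity
    have hnorm : ∀ t, ‖f t‖ = 1 := by
      intro t
      have h1 : ‖EuclideanSpace.single (⟨0, by omega⟩ : Fin (d + 1)) (1 : ℝ) +
        EuclideanSpace.single (⟨1, by omega⟩ : Fin (d + 1)) t‖ ^ 2 = 1 + t ^ 2 := by
        rw [← real_inner_self_eq_norm_sq, inner_add_add_self]
        simp [EuclideanSpace.inner_single_left, hne, hne.symm]
      have h2 : ‖EuclideanSpace.single (⟨0, by omega⟩ : Fin (d + 1)) (1 : ℝ) +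
        EuclideanSpace.single (⟨1, by omega⟩ : Fin (d + 1)) t‖ = Real.sqrt (1 + t ^ 2) := by
        rw [← h1, Real.sqrt_sq (norm_nonneg _)]
      show ‖(Real.sqrt (1 + t ^ 2))⁻¹ • _‖ = 1
      rw [norm_smul, h2, norm_inv, Real.norm_of_nonneg (Real.sqrt_nonneg _)]
      exact inv_mul_cancel₀ (Real.sqrt_pos.2 (hpos t)).ne'
    refine Infinite.of_injective (fun t : ℝ => (⟨f t, by simp [hnorm]⟩ : S d)) ?_
    intro t u htu
    have h := congrArg Subtype.val htu
    have h0 : (f t) (⟨0, by omega⟩ : Fin (d + 1)) = (f u) (⟨0, by omega⟩ : Fin (d + 1)) := by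
      have := congrArg (fun v : E d => v (⟨0, by omega⟩ : Fin (d + 1))) h
      exact this
    have h1 : (f t) (⟨1, by omega⟩ : Fin (d + 1)) = (f u) (⟨1, by omega⟩ : Fin (d + 1)) := by
      have := congrArg (fun v : E d => v (⟨1, by omega⟩ : Fin (d + 1))) h
      exact this
    simp [f, hne, hne.symm] at h0 h1
    rw [h0] at h1
    have h3 := (Real.sqrt_pos.2 (hpos u)).ne'
    have h4 := mul_left_cancel₀ (inv_ne_zero h3) h1
    exact h4
  exact ⟨fun i => Infinite.natEmbedding (S d) i.val, fun i j h =>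
    Fin.ext ((Infinite.natEmbedding (S d)).injective h)⟩

end Pool.Agent.Helper88.SE
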