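import Pool.Agent.Helper88.SE.Defs
import Pool.Agent.Helper88.SE.P_inj_exists

set_option autoImplicit false

open MeasureTheory Set Filter Topology
open scoped ENNReal

namespace Pool.Agent.Helper88.SE



theorem zz_En_nonneg {d N : ℕ} (s : ℝ) (x : Fin N → S d) : 0 ≤ En s x :=
  Finset.sum_nonneg fun _ _ => Finset.sum_nonneg fun _ _ => Real.rpow_nonneg dist_nonneg _

theorem zz_En_zero {d : ℕ} (s : ℝ) (x : Fin 0 → S d) : En s x = 0 := by
  simp [En]

theorem zz_En_one {d : ℕ} (s : ℝ) (hs : 0 < s) (x : Fin 1 → S d) : En s x = 0 := by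
  have : (-s) ≠ 0 := by linarith
  simp [En, K, Real.zero_rpow this]

theorem Em_basic (d : ℕ) (hd : 1 ≤ d) (s : ℝ) (hs : 0 < s) (N : ℕ) :
    0 ≤ Em d s N ∧ (∀ x : Fin N → S d, Function.Injective x → Em d s N ≤ En s x) ∧
    (∀ ε : ℝ, 0 < ε → ∃ x : Fin N → S d, Function.Injective x ∧ En s x < Em d s N + ε) ∧
    Em d s 0 = 0 ∧ Em d s 1 = 0 := by
  have hne : ∀ N : ℕ, {e : ℝ | ∃ x : Fin N → S d, Function.Injective x ∧ e = En s x}.Nonempty := by
    intro N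
    obtain ⟨x, hx⟩ := inj_exists d hd N
    exact ⟨_, x, hx, rfl⟩
  have hbdd : ∀ N : ℕ,
      BddBelow {e : ℝ | ∃ x : Fin N → S d, Function.Injective x ∧ e = En s x} := by
    intro N
    refine ⟨0, ?_⟩
    rintro e ⟨x, -, rfl⟩
    exact zz_En_nonneg s x
  have hnn : ∀ N : ℕ, 0 ≤ Em d s N := by
    intro N
    apply le_csInf (hne N)
    rintro e ⟨x, -, rfl⟩
    exact zz_En_nonneg s x
  have hle : ∀ (N : ℕ) (x : Fin N → S d), Function.Injective x → Em d s N ≤ En s x :=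
    fun N x hx => csInf_le (hbdd N) ⟨x, hx, rfl⟩
  refine ⟨hnn N, hle N, fun ε hε => ?_, ?_, ?_⟩
  · obtain ⟨e, ⟨x, hx, rfl⟩, hlt⟩ := exists_lt_of_csInf_lt (hne N)
      (lt_add_of_pos_right (Em d s N) hε)
    exact ⟨x, hx, hlt⟩
  · obtain ⟨x, hx⟩ := inj_exists d hd 0
    exact le_antisymm ((hle 0 x hx).trans (zz_En_zero s x).le) (hnn 0)
  · obtain ⟨x, hx⟩ := inj_exists d hd 1
    exact le_antisymm ((hle 1 x hx).trans (zz_En_one s hs x).le) (hnn 1)

end Pool.Agent.Helper88.SE
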