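import Pool.Agent.Helper88.SE.Defs

set_option autoImplicit false

open MeasureTheory Set Filter Topology
open scoped ENNReal

namespace Pool.Agent.Helper88.SE



theorem K_meas (d : ℕ) (s : ℝ) : Measurable (fun p : S d × S d => K s p.1 p.2) := by
  unfold K
  exact (continuous_fst.dist continuous_snd).measurable.pow_const (-s)

end Pool.Agent.Helper88.SE
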