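import Pool.Agent.Helper88.SE.Defs
import Pool.Agent.Helper557.Rz.M_meas

set_option autoImplicit false

open MeasureTheory Set Filter Topology
open scoped ENNReal

namespace Pool.Agent.Helper88.SE

theorem rot_mp (d : ℕ) (g : Iso d) : MeasurePreserving (rot g) (sg d) (sg d) :=
  Pool.Agent.Helper557.Rz.rot_mp (d + 1) (Nat.le_add_left 1 d) g

end Pool.Agent.Helper88.SE
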