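import Pool.Agent.Helper88.SE.Defs
import Pool.Agent.Helper88.SE.P_sg_prob
import Pool.Agent.Helper88.SE.P_rot_mp

set_option autoImplicit false

open MeasureTheory Set Filter Topology
open scoped ENNReal

namespace Pool.Agent.Helper88.SE



/-- radial factor -/
noncomputable def zlC (φ : ℝ → ℝ≥0∞) : ℝ≥0∞ := ∫⁻ r in Ioi (0 : ℝ), ENNReal.ofReal (r ^ 2) * φ r

theorem zl_sphere (p : S 2) (h : ℝ → ℝ≥0∞) (hh : Measurable h) (φ : ℝ → ℝ≥0∞) (hφ : Measurable φ) :
    ∫⁻ v : E 2, φ ‖v‖ * h (inner ℝ (p : E 2) v / ‖v‖) =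
      (∫⁻ x : S 2, h (inner ℝ (p : E 2) (x : E 2)) ∂((volume : Measure (E 2)).toSphere)) * zlC φ := by
  have hfin : Module.finrank ℝ (E 2) = 3 := by simp
  have hmp := (volume : Measure (E 2)).measurePreserving_homeomorphUnitSphereProd
  rw [hfin] at hmp
  have h0 : ∫⁻ v : E 2, φ ‖v‖ * h (inner ℝ (p : E 2) v / ‖v‖)
      = ∫⁻ v in ({0}ᶜ : Set (E 2)), φ ‖v‖ * h (inner ℝ (p : E 2) v / ‖v‖) := by
    rw [restrict_compl_singleton]
  rw [h0, ← lintegral_subtype_comap (measurableSet_singleton (0 : E 2)).compl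
    (fun v => φ ‖v‖ * h (inner ℝ (p : E 2) v / ‖v‖))]
  have hk : Measurable (fun x : S 2 => h (inner ℝ (p : E 2) (x : E 2))) := by
    apply hh.comp
    apply Continuous.measurable
    fun_prop
  have hG : Measurable (fun q : S 2 × Ioi (0 : ℝ) => h (inner ℝ (p : E 2) (q.1 : E 2)) * φ q.2) :=
    (hk.comp measurable_fst).mul (hφ.comp (measurable_subtype_coe.comp measurable_snd))
  have h1 := hmp.lintegral_comp hG
  have h2 : (fun v : ({0}ᶜ : Set (E 2)) => φ ‖(v : E 2)‖ * h (inner ℝ (p : E 2) (v : E 2) / ‖(v : E 2)‖))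
      = fun v => h (inner ℝ (p : E 2) ((homeomorphUnitSphereProd (E 2) v).1 : E 2))
        * φ (homeomorphUnitSphereProd (E 2) v).2 := by
    funext v
    rw [homeomorphUnitSphereProd_apply_fst_coe, homeomorphUnitSphereProd_apply_snd_coe,
      inner_smul_right, mul_comm]
    congr 2
    rw [div_eq_inv_mul]
  rw [h2, h1]
  rw [lintegral_prod_mul (f := fun x : S 2 => h (inner ℝ (p : E 2) (x : E 2)))
    (g := fun r : Ioi (0 : ℝ) => φ r) hk.aemeasurable
    (hφ.comp measurable_subtype_coe).aemeasurable]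
  congr 1
  unfold zlC Measure.volumeIoiPow
  have hφs : Measurable (fun y : Ioi (0 : ℝ) => φ y) := hφ.comp measurable_subtype_coe
  rw [lintegral_withDensity_eq_lintegral_mul _ (by fun_prop) hφs]
  rw [← lintegral_subtype_comap measurableSet_Ioi (fun r => ENNReal.ofReal (r ^ 2) * φ r)]
  rfl

theorem zl_rot (p : S 2) (h : ℝ → ℝ≥0∞) (hh : Measurable h) (φ : ℝ → ℝ≥0∞) (hφ : Measurable φ) :
    ∫⁻ v : E 2, φ ‖v‖ * h (inner ℝ (p : E 2) v / ‖v‖) =
      ∫⁻ v : E 2, φ ‖v‖ * h (v 0 / ‖v‖) := by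
  have hp : ‖(p : E 2)‖ = 1 := by simp
  obtain ⟨b, hb⟩ : ∃ b : OrthonormalBasis (Fin 3) ℝ (E 2), b 0 = p := by
    have hv : Orthonormal ℝ (({0} : Set (Fin 3)).domRestrict (fun _ => (p : E 2))) := by
      constructor
      · intro i
        exact hp
      · intro i j hij
        exact absurd (Subsingleton.elim i j) hij
    obtain ⟨b, hb⟩ := hv.exists_orthonormalBasis_extension_of_card_eq (by simp)
    exact ⟨b, hb 0 rfl⟩
  have hm : Measurable (fun v : E 2 => φ ‖v‖ * h (v 0 / ‖v‖)) := by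
    apply Measurable.mul
    · exact hφ.comp measurable_norm
    · apply hh.comp
      apply Measurable.div
      · apply Continuous.measurable
        fun_prop
      · exact measurable_norm
  rw [← b.measurePreserving_repr.lintegral_comp hm]
  apply lintegral_congr
  intro v
  rw [b.repr.norm_map, b.repr_apply_apply, hb]

/-- coordinates -/
theorem zl_coord (G : ℝ × (ℝ × ℝ) → ℝ≥0∞) (hG : Measurable G) :
    ∫⁻ v : E 2, G (v 0, (v 1, v 2)) = ∫⁻ t : ℝ, ∫⁻ w : ℝ × ℝ, G (t, w) := by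
  have e1 := EuclideanSpace.volume_preserving_symm_measurableEquiv_toLp (Fin 3)
  have e2 := volume_preserving_piFinSuccAbove (fun _ : Fin 3 => ℝ) 0
  have e3 := (MeasurePreserving.id (volume : Measure ℝ)).prod (volume_preserving_finTwoArrow ℝ)
  have e4 := (e3.comp e2).comp e1
  have h1 := e4.lintegral_comp hG
  rw [lintegral_prod _ hG.aemeasurable] at h1
  rw [← h1]
  rfl

theorem zl_polar1 (g : ℝ → ℝ → ℝ≥0∞) (hg : Measurable (Function.uncurry g)) (t : ℝ) :
    ∫⁻ w : ℝ × ℝ, g t (Real.sqrt (w.1 ^ 2 + w.2 ^ 2)) =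
      ENNReal.ofReal (2 * Real.pi) * ∫⁻ s : ℝ, ENNReal.ofReal s * g t s := by
  have hgt : Measurable (g t) := hg.comp (measurable_const.prodMk measurable_id)
  rw [← lintegral_comp_polarCoord_symm]
  have h1 : ∫⁻ q in polarCoord.target, ENNReal.ofReal q.1 •
      g t (Real.sqrt ((polarCoord.symm q).1 ^ 2 + (polarCoord.symm q).2 ^ 2))
      = ∫⁻ q in Ioi (0 : ℝ) ×ˢ Ioo (-Real.pi) Real.pi, (ENNReal.ofReal q.1 * g t q.1) * 1 := by
    apply setLIntegral_congr_fun polarCoord.open_target.measurableSet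
    intro q hq
    have hq0 : 0 < q.1 := hq.1
    simp only [polarCoord_symm_apply, smul_eq_mul, mul_one]
    congr 2
    have : (q.1 * Real.cos q.2) ^ 2 + (q.1 * Real.sin q.2) ^ 2 = q.1 ^ 2 := by
      have := Real.sin_sq_add_cos_sq q.2
      linear_combination (q.1 ^ 2) * this
    rw [this, Real.sqrt_sq hq0.le]
  rw [h1]
  rw [show (volume : Measure (ℝ × ℝ)) = (volume : Measure ℝ).prod (volume : Measure ℝ) from rfl,
    ← Measure.prod_restrict, lintegral_prod_mul (f := fun s => ENNReal.ofReal s * g t s)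
      (g := fun _ => 1) (by fun_prop) (by fun_prop)]
  rw [mul_comm]
  congr 1
  · rw [lintegral_one, Measure.restrict_apply_univ, Real.volume_Ioo]
    congr 1
    ring
  · rw [← lintegral_indicator measurableSet_Ioi]
    apply lintegral_congr
    intro s
    by_cases hs : s ∈ Ioi (0 : ℝ)
    · rw [indicator_of_mem hs]
    · rw [indicator_of_notMem hs, ENNReal.ofReal_of_nonpos (not_lt.mp hs), zero_mul]

theorem zl_polar2 (h : ℝ → ℝ≥0∞) (hh : Measurable h) (φ : ℝ → ℝ≥0∞) (hφ : Measurable φ) :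
    ∫⁻ t : ℝ, ∫⁻ s : ℝ, ENNReal.ofReal s *
      (φ (Real.sqrt (t ^ 2 + s ^ 2)) * h (t / Real.sqrt (t ^ 2 + s ^ 2))) =
      zlC φ * ∫⁻ z in Icc (-1 : ℝ) 1, h z := by
  have hm : Measurable (fun q : ℝ × ℝ => ENNReal.ofReal q.2 *
      (φ (Real.sqrt (q.1 ^ 2 + q.2 ^ 2)) * h (q.1 / Real.sqrt (q.1 ^ 2 + q.2 ^ 2)))) := by
    have h1 : Measurable (fun q : ℝ × ℝ => Real.sqrt (q.1 ^ 2 + q.2 ^ 2)) := by fun_prop
    exact (ENNReal.measurable_ofReal.comp measurable_snd).mul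
      ((hφ.comp h1).mul (hh.comp (measurable_fst.div h1)))
  have h0 : ∫⁻ t : ℝ, ∫⁻ s : ℝ, ENNReal.ofReal s *
      (φ (Real.sqrt (t ^ 2 + s ^ 2)) * h (t / Real.sqrt (t ^ 2 + s ^ 2)))
      = ∫⁻ q : ℝ × ℝ, ENNReal.ofReal q.2 *
      (φ (Real.sqrt (q.1 ^ 2 + q.2 ^ 2)) * h (q.1 / Real.sqrt (q.1 ^ 2 + q.2 ^ 2))) := by
    rw [show (volume : Measure (ℝ × ℝ)) = (volume : Measure ℝ).prod (volume : Measure ℝ) from rfl,
      lintegral_prod _ hm.aemeasurable]
  rw [h0, ← lintegral_comp_polarCoord_symm]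
  have h1 : ∫⁻ q in polarCoord.target, ENNReal.ofReal q.1 •
      (ENNReal.ofReal (polarCoord.symm q).2 *
      (φ (Real.sqrt ((polarCoord.symm q).1 ^ 2 + (polarCoord.symm q).2 ^ 2)) *
        h ((polarCoord.symm q).1 / Real.sqrt ((polarCoord.symm q).1 ^ 2 + (polarCoord.symm q).2 ^ 2))))
      = ∫⁻ q in Ioi (0 : ℝ) ×ˢ Ioo (-Real.pi) Real.pi, (ENNReal.ofReal (q.1 ^ 2) * φ q.1) *
        (ENNReal.ofReal (Real.sin q.2) * h (Real.cos q.2)) := by
    apply setLIntegral_congr_fun polarCoord.open_target.measurableSet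
    intro q hq
    have hq0 : 0 < q.1 := hq.1
    simp only [polarCoord_symm_apply, smul_eq_mul]
    have h2 : (q.1 * Real.cos q.2) ^ 2 + (q.1 * Real.sin q.2) ^ 2 = q.1 ^ 2 := by
      have := Real.sin_sq_add_cos_sq q.2
      linear_combination (q.1 ^ 2) * this
    rw [h2, Real.sqrt_sq hq0.le, mul_div_cancel_left₀ _ hq0.ne', ENNReal.ofReal_mul hq0.le,
      sq, ENNReal.ofReal_mul hq0.le]
    ring
  rw [h1]
  rw [show (volume : Measure (ℝ × ℝ)) = (volume : Measure ℝ).prod (volume : Measure ℝ) from rfl,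
    ← Measure.prod_restrict, lintegral_prod_mul (f := fun r => ENNReal.ofReal (r ^ 2) * φ r)
      (g := fun θ => ENNReal.ofReal (Real.sin θ) * h (Real.cos θ)) (by fun_prop) (by fun_prop)]
  unfold zlC
  congr 1
  have h3 : ∫⁻ θ in Ioo (-Real.pi) Real.pi, ENNReal.ofReal (Real.sin θ) * h (Real.cos θ)
      = ∫⁻ θ in Ioo 0 Real.pi, ENNReal.ofReal |-(Real.sin θ)| * h (Real.cos θ) := by
    rw [← lintegral_indicator measurableSet_Ioo, ← lintegral_indicator measurableSet_Ioo]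
    apply lintegral_congr
    intro θ
    by_cases hθ : θ ∈ Ioo 0 Real.pi
    · have hθ' : θ ∈ Ioo (-Real.pi) Real.pi := ⟨by linarith [hθ.1, Real.pi_pos], hθ.2⟩
      rw [indicator_of_mem hθ, indicator_of_mem hθ', abs_neg,
        abs_of_pos (Real.sin_pos_of_mem_Ioo hθ)]
    · rw [indicator_of_notMem hθ]
      by_cases hθ' : θ ∈ Ioo (-Real.pi) Real.pi
      · rw [indicator_of_mem hθ', ENNReal.ofReal_of_nonpos, zero_mul]
        apply Real.sin_nonpos_of_nonpos_of_neg_pi_le _ hθ'.1.le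
        by_contra hlt
        exact hθ ⟨not_le.mp hlt, hθ'.2⟩
      · rw [indicator_of_notMem hθ']
  rw [h3, ← lintegral_image_eq_lintegral_abs_deriv_mul measurableSet_Ioo
    (fun x _ => (Real.hasDerivAt_cos x).hasDerivWithinAt)
    (Real.injOn_cos.mono Ioo_subset_Icc_self) h]
  have h4 : Real.cos '' Ioo 0 Real.pi = Ioo (-1) 1 := by
    ext z
    constructor
    · rintro ⟨θ, hθ, rfl⟩
      have hs := Real.sin_pos_of_mem_Ioo hθ
      have := Real.sin_sq_add_cos_sq θ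
      constructor
      · by_contra hlt
        push Not at hlt
        nlinarith [Real.neg_one_le_cos θ]
      · by_contra hlt
        push Not at hlt
        nlinarith [Real.cos_le_one θ]
    · rintro ⟨h1, h2⟩
      refine ⟨Real.arccos z, ⟨Real.arccos_pos.mpr h2, ?_⟩, Real.cos_arccos h1.le h2.le⟩
      rcases (Real.arccos_le_pi z).lt_or_eq with h5 | h5
      · exact h5
      · rw [Real.arccos_eq_pi] at h5
        linarith
  rw [h4]
  exact setLIntegral_congr Ioo_ae_eq_Icc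

theorem zl_main (p : S 2) (h : ℝ → ℝ≥0∞) (hh : Measurable h) :
    ∫⁻ x : S 2, h (inner ℝ (p : E 2) (x : E 2)) ∂((volume : Measure (E 2)).toSphere) =
      ENNReal.ofReal (2 * Real.pi) * ∫⁻ z in Icc (-1 : ℝ) 1, h z := by
  obtain ⟨φ, hφd⟩ : ∃ φ : ℝ → ℝ≥0∞, φ = (Ioo (1 : ℝ) 2).indicator (fun _ => 1) := ⟨_, rfl⟩
  have hφ : Measurable φ := by
    rw [hφd]
    exact measurable_const.indicator measurableSet_Ioo
  have h1 := zl_sphere p h hh φ hφ
  rw [zl_rot p h hh φ hφ] at h1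
  obtain ⟨g, hg⟩ : ∃ g : ℝ → ℝ → ℝ≥0∞, g = fun t s =>
    φ (Real.sqrt (t ^ 2 + s ^ 2)) * h (t / Real.sqrt (t ^ 2 + s ^ 2)) := ⟨_, rfl⟩
  have hgm : Measurable (Function.uncurry g) := by
    have h2 : Measurable (fun q : ℝ × ℝ => Real.sqrt (q.1 ^ 2 + q.2 ^ 2)) := by fun_prop
    rw [hg]
    exact (hφ.comp h2).mul (hh.comp (measurable_fst.div h2))
  have hGm : Measurable (fun q : ℝ × (ℝ × ℝ) => g q.1 (Real.sqrt (q.2.1 ^ 2 + q.2.2 ^ 2))) := by
    have h2 : Measurable (fun q : ℝ × (ℝ × ℝ) => Real.sqrt (q.2.1 ^ 2 + q.2.2 ^ 2)) := by fun_prop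
    exact hgm.comp (measurable_fst.prodMk h2)
  have h2 : ∫⁻ v : E 2, φ ‖v‖ * h (v 0 / ‖v‖)
      = ∫⁻ v : E 2, g (v 0) (Real.sqrt ((v 1) ^ 2 + (v 2) ^ 2)) := by
    apply lintegral_congr
    intro v
    have h3 : ‖v‖ = Real.sqrt ((v 0) ^ 2 + (Real.sqrt ((v 1) ^ 2 + (v 2) ^ 2)) ^ 2) := by
      rw [EuclideanSpace.norm_eq, Fin.sum_univ_three, Real.sq_sqrt (by positivity)]
      simp only [Real.norm_eq_abs, sq_abs]
      rw [add_assoc]
    rw [hg]
    simp only
    rw [← h3]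
  have h3 := zl_coord (fun q => g q.1 (Real.sqrt (q.2.1 ^ 2 + q.2.2 ^ 2))) hGm
  simp only at h3
  rw [h2, h3] at h1
  simp only [zl_polar1 g hgm] at h1
  have h4 : Measurable (fun t : ℝ => ∫⁻ s : ℝ, ENNReal.ofReal s * g t s) := by
    apply Measurable.lintegral_prod_right'
      (f := fun q : ℝ × ℝ => ENNReal.ofReal q.2 * g q.1 q.2)
    exact (ENNReal.measurable_ofReal.comp measurable_snd).mul hgm
  rw [lintegral_const_mul _ h4] at h1
  have h5 := zl_polar2 h hh φ hφ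
  rw [hg] at h1
  simp only at h1
  rw [h5] at h1
  -- cancel
  have hC : zlC φ = ∫⁻ r in Ioo (1 : ℝ) 2, ENNReal.ofReal (r ^ 2) := by
    unfold zlC
    rw [← lintegral_indicator measurableSet_Ioi, ← lintegral_indicator measurableSet_Ioo]
    apply lintegral_congr
    intro r
    rw [hφd]
    by_cases hr : r ∈ Ioo (1 : ℝ) 2
    · have hr' : r ∈ Ioi (0 : ℝ) := by
        have := hr.1
        exact (by linarith : (0 : ℝ) < r)
      simp only [indicator_of_mem hr, indicator_of_mem hr', mul_one]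
    · rw [indicator_of_notMem hr]
      by_cases hr' : r ∈ Ioi (0 : ℝ)
      · rw [indicator_of_mem hr', indicator_of_notMem hr, mul_zero]
      · rw [indicator_of_notMem hr']
  have hC0 : zlC φ ≠ 0 := by
    have h6 : ∫⁻ r in Ioo (1 : ℝ) 2, (1 : ℝ≥0∞) ≤ ∫⁻ r in Ioo (1 : ℝ) 2, ENNReal.ofReal (r ^ 2) := by
      apply setLIntegral_mono' measurableSet_Ioo
      intro r hr
      rw [← ENNReal.ofReal_one]
      apply ENNReal.ofReal_le_ofReal
      nlinarith [hr.1]
    rw [← hC, lintegral_one, Measure.restrict_apply_univ, Real.volume_Ioo] at h6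
    intro h7
    rw [h7] at h6
    norm_num at h6
  have hCt : zlC φ ≠ ∞ := by
    have h6 : ∫⁻ r in Ioo (1 : ℝ) 2, ENNReal.ofReal (r ^ 2) ≤ ∫⁻ r in Ioo (1 : ℝ) 2, ENNReal.ofReal 4 := by
      apply setLIntegral_mono' measurableSet_Ioo
      intro r hr
      apply ENNReal.ofReal_le_ofReal
      nlinarith [hr.1, hr.2]
    rw [← hC, setLIntegral_const, Real.volume_Ioo] at h6
    exact ne_top_of_le_ne_top (ENNReal.mul_ne_top ENNReal.ofReal_ne_top ENNReal.ofReal_ne_top) h6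
  have h6 : (∫⁻ x : S 2, h (inner ℝ (p : E 2) (x : E 2)) ∂((volume : Measure (E 2)).toSphere))
      * zlC φ = (ENNReal.ofReal (2 * Real.pi) * ∫⁻ z in Icc (-1 : ℝ) 1, h z) * zlC φ := by
    rw [← h1]
    ring
  exact (ENNReal.mul_left_inj hC0 hCt).mp h6

theorem zlaw (p : S 2) (h : ℝ → ℝ≥0∞) (hh : Measurable h) :
    ∫⁻ x : S 2, h (inner ℝ (p : E 2) (x : E 2)) ∂(sg 2) =
      ENNReal.ofReal (1 / 2) * ∫⁻ z in Icc (-1 : ℝ) 1, h z := by
  have h1 := zl_main p (fun _ => 1) measurable_const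
  simp only [lintegral_one] at h1
  rw [Measure.restrict_apply_univ, Real.volume_Icc] at h1
  unfold sg
  rw [lintegral_smul_measure, zl_main p h hh, h1, smul_eq_mul, ← mul_assoc]
  congr 1
  have hpi := Real.pi_pos
  rw [← ENNReal.ofReal_mul (by positivity), ← ENNReal.ofReal_inv_of_pos (by positivity),
    ← ENNReal.ofReal_mul (by positivity)]
  congr 1
  field_simp
  norm_num

end Pool.Agent.Helper88.SE
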