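import Pool.Agent.Helper88.SE.Defs
import Pool.Agent.Helper88.SE.P_zlaw

set_option autoImplicit false

open MeasureTheory Set Filter Topology
open scoped ENNReal

namespace Pool.Agent.Helper88.SE



theorem law2 (h : ℝ → ℝ≥0∞) (hh : Measurable h) (x : S 2) :
    ∫⁻ y, h (dist x y) ∂(sg 2) = ∫⁻ t in Icc (0 : ℝ) 2, h t * ENNReal.ofReal (t / 2) := by
  have hd : ∀ y : S 2, dist x y = √(2 - 2 * inner ℝ (x : E 2) (y : E 2)) := by
    intro y
    have hx : ‖(x : E 2)‖ = 1 := by simp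
    have hy : ‖(y : E 2)‖ = 1 := by simp
    have h1 : dist x y = ‖(x : E 2) - (y : E 2)‖ := by
      rw [Subtype.dist_eq, dist_eq_norm]
    have h2 : ‖(x : E 2) - (y : E 2)‖ ^ 2 = 2 - 2 * inner ℝ (x : E 2) (y : E 2) := by
      rw [norm_sub_sq_real, hx, hy]
      ring
    rw [h1, ← h2, Real.sqrt_sq (norm_nonneg _)]
  have hm : Measurable (fun z : ℝ => h (√(2 - 2 * z))) :=
    hh.comp (Real.continuous_sqrt.measurable.comp (by fun_prop))
  have h1 : ∫⁻ y, h (dist x y) ∂(sg 2) =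
      ∫⁻ y : S 2, (fun z : ℝ => h (√(2 - 2 * z))) (inner ℝ (x : E 2) (y : E 2)) ∂(sg 2) :=
    lintegral_congr fun y => by rw [hd y]
  rw [h1, zlaw x _ hm]
  have himg : (fun t : ℝ => 1 - t ^ 2 / 2) '' Icc 0 2 = Icc (-1 : ℝ) 1 := by
    ext z
    constructor
    · rintro ⟨t, ⟨ht0, ht2⟩, rfl⟩
      constructor
      · show (-1 : ℝ) ≤ 1 - t ^ 2 / 2
        nlinarith
      · show 1 - t ^ 2 / 2 ≤ (1 : ℝ)
        nlinarith
    · rintro ⟨hz1, hz2⟩
      refine ⟨√(2 - 2 * z), ⟨Real.sqrt_nonneg _, ?_⟩, ?_⟩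
      · rw [Real.sqrt_le_left (by norm_num)]
        linarith
      · show 1 - √(2 - 2 * z) ^ 2 / 2 = z
        rw [Real.sq_sqrt (by linarith)]
        ring
  have hinj : InjOn (fun t : ℝ => 1 - t ^ 2 / 2) (Icc 0 2) := by
    intro a ha b hb hab
    have h2 : a ^ 2 = b ^ 2 := by
      have : 1 - a ^ 2 / 2 = 1 - b ^ 2 / 2 := hab
      linarith
    exact (sq_eq_sq₀ ha.1 hb.1).1 h2
  have hcv := lintegral_image_eq_lintegral_abs_deriv_mul (s := Icc (0 : ℝ) 2)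
    (f := fun t : ℝ => 1 - t ^ 2 / 2) (f' := fun t : ℝ => -t) measurableSet_Icc
    (fun t _ => by
      have h3 : HasDerivAt (fun t : ℝ => 1 - t ^ 2 / 2) (-t) t := by
        have h5 := (((hasDerivAt_id t).pow 2).div_const 2).const_sub 1
        have h6 : -((((2 : ℕ) : ℝ) * id t ^ (2 - 1) * 1) / 2) = -t := by simp
        rw [h6] at h5
        exact h5
      exact h3.hasDerivWithinAt) hinj (fun z : ℝ => h (√(2 - 2 * z)))
  rw [himg] at hcv
  rw [hcv, ← lintegral_const_mul' _ _ ENNReal.ofReal_ne_top]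
  refine setLIntegral_congr_fun measurableSet_Icc ?_
  intro t ht
  have ht0 : 0 ≤ t := ht.1
  simp only
  have h4 : √(2 - 2 * (1 - t ^ 2 / 2)) = t := by
    have : 2 - 2 * (1 - t ^ 2 / 2) = t ^ 2 := by ring
    rw [this, Real.sqrt_sq ht0]
  rw [h4, abs_neg, abs_of_nonneg ht0, ← mul_assoc, ← ENNReal.ofReal_mul (by norm_num), mul_comm]
  congr 2
  ring

end Pool.Agent.Helper88.SE
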