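import Pool.Agent.Helper88.SE.Defs
import Pool.Agent.Helper88.SE.P_sg_prob
import Pool.Agent.Helper88.SE.P_Em_basic
import Pool.Agent.Helper88.SE.P_K_meas
import Pool.Agent.Helper88.SE.P_law2

set_option autoImplicit false

open MeasureTheory Set Filter Topology
open scoped ENNReal

namespace Pool.Agent.Helper88.SE



theorem e2_inv (a : ℝ) (ha : 0 < a) (ha2 : a ≤ 2) :
    ∫⁻ t in Icc (0 : ℝ) 2, (Ioi a).indicator (fun t => ENNReal.ofReal (t ^ (-(2 : ℝ)))) t *
      ENNReal.ofReal (t / 2) = ENNReal.ofReal (1 / 2 * Real.log (2 / a)) := by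
  have h1 : ∀ t : ℝ, (Ioi a).indicator (fun t => ENNReal.ofReal (t ^ (-(2 : ℝ)))) t *
      ENNReal.ofReal (t / 2) = (Ioi a).indicator (fun t => ENNReal.ofReal (1 / 2 * t⁻¹)) t := by
    intro t
    by_cases ht : t ∈ Ioi a
    · rw [indicator_of_mem ht, indicator_of_mem ht]
      have ht0 : 0 < t := lt_trans ha ht
      rw [← ENNReal.ofReal_mul (Real.rpow_nonneg ht0.le _)]
      congr 1
      rw [Real.rpow_neg ht0.le, Real.rpow_two]
      field_simp
    · rw [indicator_of_notMem ht, indicator_of_notMem ht, zero_mul]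
  simp_rw [h1]
  rw [setLIntegral_indicator measurableSet_Ioi]
  have h2 : Ioi a ∩ Icc 0 2 = Ioc a 2 := by
    ext t
    simp only [mem_inter_iff, mem_Ioi, mem_Icc, mem_Ioc]
    constructor
    · rintro ⟨h1, h2, h3⟩; exact ⟨h1, h3⟩
    · rintro ⟨h1, h3⟩; exact ⟨h1, by linarith, h3⟩
  rw [h2]
  have hcont : ContinuousOn (fun t : ℝ => 1 / 2 * t⁻¹) (uIcc a 2) := by
    refine ContinuousOn.mul continuousOn_const (continuousOn_inv₀.mono ?_)
    intro t ht
    rw [uIcc_of_le ha2] at ht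
    exact (lt_of_lt_of_le ha ht.1).ne'
  have hint : IntervalIntegrable (fun t : ℝ => 1 / 2 * t⁻¹) volume a 2 := hcont.intervalIntegrable
  rw [← ofReal_integral_eq_lintegral_ofReal]
  · rw [← intervalIntegral.integral_of_le ha2, intervalIntegral.integral_const_mul,
      integral_inv_of_pos ha (by norm_num)]
  · exact (intervalIntegrable_iff_integrableOn_Ioc_of_le ha2).mp hint
  · rw [Filter.EventuallyLE, ae_restrict_iff' measurableSet_Ioc]
    refine Filter.Eventually.of_forall fun t ht => ?_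
    have : 0 < t := lt_trans ha ht.1
    simp only [Pi.zero_apply]
    positivity

theorem e2_ball (a : ℝ) (ha : 0 < a) (ha2 : a ≤ 2) :
    ∫⁻ t in Icc (0 : ℝ) 2, (Iic a).indicator (fun _ => (1 : ℝ≥0∞)) t *
      ENNReal.ofReal (t / 2) = ENNReal.ofReal (a ^ 2 / 4) := by
  have h1 : ∀ t : ℝ, (Iic a).indicator (fun _ => (1 : ℝ≥0∞)) t *
      ENNReal.ofReal (t / 2) = (Iic a).indicator (fun t => ENNReal.ofReal (t / 2)) t := by
    intro t
    by_cases ht : t ∈ Iic a
    · rw [indicator_of_mem ht, indicator_of_mem ht, one_mul]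
    · rw [indicator_of_notMem ht, indicator_of_notMem ht, zero_mul]
  simp_rw [h1]
  rw [setLIntegral_indicator measurableSet_Iic]
  have h2 : Iic a ∩ Icc 0 2 = Icc 0 a := by
    ext t
    simp only [mem_inter_iff, mem_Iic, mem_Icc]
    constructor
    · rintro ⟨h1, h2, h3⟩; exact ⟨h2, h1⟩
    · rintro ⟨h1, h3⟩; exact ⟨h3, h1, by linarith⟩
  rw [h2, ← setLIntegral_congr (Ioc_ae_eq_Icc (a := (0 : ℝ)) (b := a))]
  have hint : IntervalIntegrable (fun t : ℝ => t / 2) volume 0 a :=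
    (by fun_prop : Continuous (fun t : ℝ => t / 2)).intervalIntegrable _ _
  rw [← ofReal_integral_eq_lintegral_ofReal]
  · rw [← intervalIntegral.integral_of_le ha.le, intervalIntegral.integral_div, integral_id]
    congr 1
    ring
  · exact (intervalIntegrable_iff_integrableOn_Ioc_of_le ha.le).mp hint
  · rw [Filter.EventuallyLE, ae_restrict_iff' measurableSet_Ioc]
    refine Filter.Eventually.of_forall fun t ht => ?_
    have : 0 < t := ht.1
    simp only [Pi.zero_apply]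
    positivity

theorem e2_Um {M : ℕ} (x : Fin M → S 2) (a : ℝ) :
    MeasurableSet {y : S 2 | ∀ i, a < dist (x i) y} := by
  rw [Set.ofPred_forall]
  refine MeasurableSet.iInter fun i => ?_
  exact measurableSet_lt measurable_const (measurable_const.dist measurable_id)

theorem e2_sball (a : ℝ) (ha : 0 < a) (ha2 : a ≤ 2) (x : S 2) :
    sg 2 {y | dist x y ≤ a} = ENNReal.ofReal (a ^ 2 / 4) := by
  rw [← e2_ball a ha ha2, ← law2 _ (measurable_const.indicator measurableSet_Iic) x]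
  have : ∀ y : S 2, (Iic a).indicator (fun _ => (1 : ℝ≥0∞)) (dist x y) =
      {y : S 2 | dist x y ≤ a}.indicator (fun _ => (1 : ℝ≥0∞)) y := by
    intro y
    by_cases h : dist x y ≤ a
    · rw [indicator_of_mem (show dist x y ∈ Iic a from h),
        indicator_of_mem (show y ∈ {y : S 2 | dist x y ≤ a} from h)]
    · rw [indicator_of_notMem (show dist x y ∉ Iic a from h),
        indicator_of_notMem (show y ∉ {y : S 2 | dist x y ≤ a} from h)]
  simp_rw [this]
  have hms : MeasurableSet {y : S 2 | dist x y ≤ a} :=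
    measurableSet_le (measurable_const.dist measurable_id) measurable_const
  rw [lintegral_indicator_const hms, one_mul]

theorem e2_Uc {M : ℕ} (x : Fin M → S 2) (a : ℝ) (ha : 0 < a) (ha2 : a ≤ 2) :
    sg 2 {y : S 2 | ∀ i, a < dist (x i) y}ᶜ ≤ ENNReal.ofReal (M * a ^ 2 / 4) := by
  have hsub : {y : S 2 | ∀ i, a < dist (x i) y}ᶜ ⊆ ⋃ i, {y | dist (x i) y ≤ a} := by
    intro y hy
    rw [mem_compl_iff, Set.mem_ofPred_eq] at hy
    push Not at hy
    obtain ⟨i, hi⟩ := hy
    exact mem_iUnion.mpr ⟨i, hi⟩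
  refine (measure_mono hsub).trans ((measure_iUnion_fintype_le _ _).trans ?_)
  rw [Finset.sum_congr rfl fun i _ => e2_sball a ha ha2 (x i), Finset.sum_const, Finset.card_univ,
    Fintype.card_fin, nsmul_eq_mul, mul_div_assoc, ENNReal.ofReal_mul (Nat.cast_nonneg M),
    ENNReal.ofReal_natCast]

theorem e2_Uge {M : ℕ} (x : Fin M → S 2) (a : ℝ) (ha : 0 < a) (ha2 : a ≤ 2) :
    ENNReal.ofReal (1 - M * a ^ 2 / 4) ≤ sg 2 {y : S 2 | ∀ i, a < dist (x i) y} := by
  have := sg_prob 2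
  have h2 := prob_compl_eq_one_sub (μ := sg 2) (e2_Um x a)
  have hUc := e2_Uc x a ha ha2
  rw [h2] at hUc
  rw [ENNReal.ofReal_sub _ (by positivity), ENNReal.ofReal_one]
  exact tsub_le_iff_right.mpr (by
    have := tsub_le_iff_right.mp hUc
    rwa [add_comm] at this)

theorem e2_Km (x : S 2) : Measurable (fun y : S 2 => K 2 x y) := by
  have h2 := K_meas 2 2
  exact h2.of_uncurry_left

theorem e2_int {M : ℕ} (x : Fin M → S 2) (a : ℝ) (ha : 0 < a) (ha2 : a ≤ 2) :
    ∫⁻ y in {y : S 2 | ∀ i, a < dist (x i) y}, ENNReal.ofReal (∑ i, K 2 (x i) y) ∂(sg 2) ≤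
      ENNReal.ofReal (M * (1 / 2 * Real.log (2 / a))) := by
  have hKnn : ∀ u v : S 2, 0 ≤ K 2 u v := fun u v => Real.rpow_nonneg dist_nonneg _
  have hKm : ∀ i, Measurable (fun y : S 2 => K 2 (x i) y) := fun i => e2_Km (x i)
  have h1 : ∀ y, ENNReal.ofReal (∑ i, K 2 (x i) y) = ∑ i, ENNReal.ofReal (K 2 (x i) y) := by
    intro y
    exact ENNReal.ofReal_sum_of_nonneg fun i _ => hKnn _ _
  simp_rw [h1]
  rw [lintegral_finsetSum _ fun i _ => (hKm i).ennreal_ofReal]
  have h2 : ∀ i, ∫⁻ y in {y : S 2 | ∀ i, a < dist (x i) y}, ENNReal.ofReal (K 2 (x i) y) ∂(sg 2) ≤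
      ENNReal.ofReal (1 / 2 * Real.log (2 / a)) := by
    intro i
    rw [← e2_inv a ha ha2, ← law2 _ ((by fun_prop :
      Measurable (fun t : ℝ => ENNReal.ofReal (t ^ (-(2 : ℝ))))).indicator measurableSet_Ioi) (x i),
      ← lintegral_indicator (e2_Um x a)]
    refine lintegral_mono fun y => ?_
    by_cases hy : y ∈ {y : S 2 | ∀ i, a < dist (x i) y}
    · rw [indicator_of_mem hy, indicator_of_mem (show dist (x i) y ∈ Ioi a from hy i)]
      exact le_rfl
    · rw [indicator_of_notMem hy]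
      exact bot_le
  refine (Finset.sum_le_sum fun i _ => h2 i).trans (le_of_eq ?_)
  rw [Finset.sum_const, Finset.card_univ, Fintype.card_fin, nsmul_eq_mul,
    ENNReal.ofReal_mul (Nat.cast_nonneg M), ENNReal.ofReal_natCast]

theorem e2_pt {M : ℕ} (x : Fin M → S 2) (a : ℝ) (ha : 0 < a) (ha2 : a ≤ 2)
    (hM : (M : ℝ) * a ^ 2 / 4 < 1) : ∃ y : S 2, y ∉ Set.range x ∧
      ∑ i, K 2 (x i) y ≤ M * (1 / 2 * Real.log (2 / a)) / (1 - M * a ^ 2 / 4) := by
  have := sg_prob 2
  have hlog : 0 ≤ Real.log (2 / a) := Real.log_nonneg (by rw [le_div_iff₀ ha]; linarith)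
  have hden : 0 < 1 - (M : ℝ) * a ^ 2 / 4 := by linarith
  have hUge := e2_Uge x a ha ha2
  have hInt := e2_int x a ha ha2
  have hKm : ∀ i, Measurable (fun y : S 2 => K 2 (x i) y) := fun i => e2_Km (x i)
  have hfm : Measurable (fun y : S 2 => ENNReal.ofReal (∑ i, K 2 (x i) y)) :=
    ENNReal.measurable_ofReal.comp (Finset.measurable_sum _ fun i _ => hKm i)
  have hUpos : sg 2 {y : S 2 | ∀ i, a < dist (x i) y} ≠ 0 := by
    intro h
    rw [h] at hUge
    have := ENNReal.ofReal_pos.mpr hden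
    exact absurd (lt_of_lt_of_le this hUge) (lt_irrefl _)
  obtain ⟨y, hyU, hy⟩ := exists_le_setLAverage hUpos (measure_ne_top _ _) hfm.aemeasurable.restrict
  rw [setLAverage_eq] at hy
  refine ⟨y, ?_, ?_⟩
  · rintro ⟨i, rfl⟩
    have := hyU i
    rw [dist_self] at this
    linarith
  · have h3 : ENNReal.ofReal (∑ i, K 2 (x i) y) ≤
        ENNReal.ofReal (M * (1 / 2 * Real.log (2 / a)) / (1 - M * a ^ 2 / 4)) := by
      rw [ENNReal.ofReal_div_of_pos hden]
      exact hy.trans (ENNReal.div_le_div hInt hUge)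
    rwa [ENNReal.ofReal_le_ofReal_iff (div_nonneg (mul_nonneg (Nat.cast_nonneg M)
      (mul_nonneg (by norm_num) hlog)) hden.le)] at h3

theorem e2_En {M : ℕ} (x : Fin M → S 2) (y : S 2) :
    En 2 (Fin.cons y x : Fin (M + 1) → S 2) = En 2 x + 2 * ∑ i, K 2 (x i) y := by
  have hsymm : ∀ a b : S 2, K 2 a b = K 2 b a := by
    intro a b
    unfold K
    rw [dist_comm]
  have hdiag : ∀ a : S 2, K 2 a a = 0 := by
    intro a
    unfold K
    rw [dist_self]
    exact Real.zero_rpow (by norm_num)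
  unfold En
  rw [Fin.sum_univ_succ]
  simp only [Fin.sum_univ_succ, Fin.cons_zero, Fin.cons_succ]
  rw [hdiag y, Finset.sum_add_distrib]
  rw [Finset.sum_congr rfl fun i _ => hsymm y (x i)]
  ring

theorem Em2_add (M : ℕ) (a : ℝ) (ha : 0 < a) (ha2 : a ≤ 2) (hM : (M : ℝ) * a ^ 2 / 4 < 1) :
    Em 2 2 (M + 1) ≤ Em 2 2 M + 2 * (M * (1 / 2 * Real.log (2 / a)) / (1 - M * a ^ 2 / 4)) := by
  refine le_of_forall_pos_le_add fun ε hε => ?_
  obtain ⟨x, hx, hxe⟩ := (Em_basic 2 (by norm_num) 2 (by norm_num) M).2.2.1 ε hε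
  obtain ⟨y, hyr, hle⟩ := e2_pt x a ha ha2 hM
  have hinj : Function.Injective (Fin.cons y x : Fin (M + 1) → S 2) := by
    rw [Fin.cons_injective_iff]
    exact ⟨hyr, hx⟩
  have h1 := (Em_basic 2 (by norm_num) 2 (by norm_num) (M + 1)).2.1 _ hinj
  rw [e2_En] at h1
  linarith

end Pool.Agent.Helper88.SE
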