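import Pool.Agent.Helper88.SE.Defs
import Pool.Agent.Helper88.SE.P_sg_prob
import Pool.Agent.Helper88.SE.P_law2

set_option autoImplicit false

open MeasureTheory Set Filter Topology
open scoped ENNReal

namespace Pool.Agent.Helper88.SE



theorem IU_formula (mu : ℝ) (hmu : 0 ≤ mu) :
    (∀ x : S 2, Integrable (fun y => KU mu x y) (sg 2) ∧ ∫ y, KU mu x y ∂(sg 2) = IU mu ∧
      ∫⁻ y, ENNReal.ofReal (KU mu x y) ∂(sg 2) = ENNReal.ofReal (IU mu)) ∧
    0 ≤ IU mu ∧ IU mu = ∫ t in (0 : ℝ)..2, (1 - Real.exp (-(mu * t))) / (2 * t) := by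
  haveI := sg_prob 2
  obtain ⟨A, hA⟩ : ∃ A : ℝ, A = ∫ t in (0 : ℝ)..2, (1 - Real.exp (-(mu * t))) / (2 * t) := ⟨_, rfl⟩
  have hφn : ∀ t : ℝ, 0 ≤ t → 0 ≤ (1 - Real.exp (-(mu * t))) / (2 * t) := by
    intro t ht
    have h1 : Real.exp (-(mu * t)) ≤ 1 := Real.exp_le_one_iff.2 (by
      have := mul_nonneg hmu ht; linarith)
    exact div_nonneg (by linarith) (by linarith)
  have hφb : ∀ t : ℝ, 0 ≤ t → (1 - Real.exp (-(mu * t))) / (2 * t) ≤ mu / 2 := by
    intro t ht
    rcases eq_or_lt_of_le ht with h0 | h0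
    · rw [← h0]; simp; exact div_nonneg hmu (by norm_num)
    · rw [div_le_div_iff₀ (by linarith) (by norm_num)]
      have h1 := Real.add_one_le_exp (-(mu * t))
      nlinarith
  have hφm : Measurable (fun t : ℝ => (1 - Real.exp (-(mu * t))) / (2 * t)) := by fun_prop
  have hφi : IntegrableOn (fun t : ℝ => (1 - Real.exp (-(mu * t))) / (2 * t)) (Icc 0 2) := by
    refine Measure.integrableOn_of_bounded (M := mu / 2) (by simp) hφm.aestronglyMeasurable ?_
    refine (ae_restrict_iff' measurableSet_Icc).2 (Eventually.of_forall (fun t ht => ?_))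
    rw [Real.norm_eq_abs, abs_of_nonneg (hφn t ht.1)]
    exact hφb t ht.1
  have hAI : A = ∫ t in Icc (0 : ℝ) 2, (1 - Real.exp (-(mu * t))) / (2 * t) := by
    rw [hA, intervalIntegral.integral_of_le (by norm_num), ← integral_Icc_eq_integral_Ioc]
  have hA0 : 0 ≤ A := by
    rw [hAI]
    exact setIntegral_nonneg measurableSet_Icc (fun t ht => hφn t ht.1)
  have hkm : Measurable (fun t : ℝ => t ^ (-(2 : ℝ)) * (1 - Real.exp (-(mu * t)))) := by fun_prop
  have hlin : ∀ x : S 2, ∫⁻ y, ENNReal.ofReal (KU mu x y) ∂(sg 2) = ENNReal.ofReal A := by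
    intro x
    have h1 := law2 (fun t => ENNReal.ofReal (t ^ (-(2 : ℝ)) * (1 - Real.exp (-(mu * t)))))
      hkm.ennreal_ofReal x
    have h2 : ∫⁻ y, ENNReal.ofReal (KU mu x y) ∂(sg 2) =
      ∫⁻ y, (fun t => ENNReal.ofReal (t ^ (-(2 : ℝ)) * (1 - Real.exp (-(mu * t))))) (dist x y)
        ∂(sg 2) := rfl
    rw [h2, h1, hAI, ofReal_integral_eq_lintegral_ofReal hφi]
    · refine setLIntegral_congr_fun measurableSet_Icc (fun t ht => ?_)
      have ht0 : 0 ≤ t := ht.1
      have hk0 : 0 ≤ t ^ (-(2 : ℝ)) * (1 - Real.exp (-(mu * t))) := by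
        have h1 : Real.exp (-(mu * t)) ≤ 1 := Real.exp_le_one_iff.2 (by
          have := mul_nonneg hmu ht0; linarith)
        exact mul_nonneg (Real.rpow_nonneg ht0 _) (by linarith)
      show ENNReal.ofReal _ * ENNReal.ofReal _ = ENNReal.ofReal _
      rw [← ENNReal.ofReal_mul hk0]
      congr 1
      rcases eq_or_lt_of_le ht0 with h0 | h0
      · rw [← h0]; simp
      · rw [Real.rpow_neg ht0, show (2 : ℝ) = ((2 : ℕ) : ℝ) by norm_num, Real.rpow_natCast]
        field_simp
    · refine (ae_restrict_iff' measurableSet_Icc).2 (Eventually.of_forall (fun t ht => ?_))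
      exact hφn t ht.1
  have hKn : ∀ x y : S 2, 0 ≤ KU mu x y := by
    intro x y
    have h0 : 0 ≤ dist x y := dist_nonneg
    have h1 : Real.exp (-(mu * dist x y)) ≤ 1 := Real.exp_le_one_iff.2 (by
      have := mul_nonneg hmu h0; linarith)
    exact mul_nonneg (Real.rpow_nonneg h0 _) (by linarith)
  have hKm : ∀ x : S 2, Measurable (fun y => KU mu x y) := by
    intro x
    have hd : Measurable (fun y : S 2 => dist x y) := (continuous_const.dist continuous_id).measurable
    exact hkm.comp hd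
  have hint : ∀ x : S 2, Integrable (fun y => KU mu x y) (sg 2) := by
    intro x
    refine ⟨(hKm x).aestronglyMeasurable, ?_⟩
    rw [hasFiniteIntegral_iff_ofReal (Eventually.of_forall (hKn x)), hlin x]
    exact ENNReal.ofReal_lt_top
  have hval : ∀ x : S 2, ∫ y, KU mu x y ∂(sg 2) = A := by
    intro x
    rw [integral_eq_lintegral_of_nonneg_ae (Eventually.of_forall (hKn x))
      (hKm x).aestronglyMeasurable, hlin x, ENNReal.toReal_ofReal hA0]
  have hIU : IU mu = A := by
    unfold IU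
    simp only [hval]
    simp
  rw [hIU]
  exact ⟨fun x => ⟨hint x, hval x, hlin x⟩, hA0, hA⟩

end Pool.Agent.Helper88.SE
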