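import Pool.Agent.Helper88.SE.Defs
import Pool.Agent.Helper88.SE.P_IU_formula

set_option autoImplicit false

open MeasureTheory Set Filter Topology
open scoped ENNReal

namespace Pool.Agent.Helper88.SE



theorem IU_low_g (mu : ℝ) (hmu : 1 ≤ mu) (t : ℝ) (ht : 0 < t) :
    1 / 2 * (mu / (1 + mu * t)) ≤ (1 - Real.exp (-(mu * t))) / (2 * t) := by
  have hmt : 0 < mu * t := by positivity
  have h1 : Real.exp (-(mu * t)) ≤ 1 / (1 + mu * t) := by
    rw [Real.exp_neg, ← one_div]
    apply one_div_le_one_div_of_le (by positivity)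
    linarith [Real.add_one_le_exp (mu * t)]
  have h2 : mu * t / (1 + mu * t) ≤ 1 - Real.exp (-(mu * t)) := by
    have e : mu * t / (1 + mu * t) = 1 - 1 / (1 + mu * t) := by
      field_simp
      ring
    rw [e]
    linarith
  have e : 1 / 2 * (mu / (1 + mu * t)) = (mu * t / (1 + mu * t)) / (2 * t) := by
    field_simp
  rw [e]
  exact div_le_div_of_nonneg_right h2 (by positivity)

theorem IU_low_int (mu : ℝ) (hmu : 1 ≤ mu) :
    IntervalIntegrable (fun t => (1 - Real.exp (-(mu * t))) / (2 * t)) volume 0 2 := by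
  rw [intervalIntegrable_iff_integrableOn_Ioc_of_le (by norm_num)]
  have hm : Measurable (fun t : ℝ => (1 - Real.exp (-(mu * t))) / (2 * t)) := by fun_prop
  apply MeasureTheory.Measure.integrableOn_of_bounded (M := mu / 2) (by simp)
    hm.aestronglyMeasurable
  refine (ae_restrict_mem measurableSet_Ioc).mono (fun t ht => ?_)
  have ht0 : 0 < t := ht.1
  have hmt : 0 < mu * t := by positivity
  have h1 : 1 - Real.exp (-(mu * t)) ≤ mu * t := by
    linarith [Real.add_one_le_exp (-(mu * t))]
  have h0 : 0 ≤ 1 - Real.exp (-(mu * t)) := by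
    have : Real.exp (-(mu * t)) ≤ 1 := Real.exp_le_one_iff.mpr (by linarith)
    linarith
  rw [Real.norm_eq_abs, abs_of_nonneg (by positivity), div_le_iff₀ (by positivity)]
  calc 1 - Real.exp (-(mu * t)) ≤ mu * t := h1
    _ = mu / 2 * (2 * t) := by ring

theorem IU_low (mu : ℝ) (hmu : 1 ≤ mu) : 1 / 2 * Real.log mu - 1 ≤ IU mu := by
  obtain ⟨-, -, hI⟩ := IU_formula mu (by linarith)
  rw [hI]
  have hpos : ∀ t ∈ Set.uIcc (0 : ℝ) 2, 0 < 1 + mu * t := by
    intro t ht
    rw [Set.uIcc_of_le (by norm_num)] at ht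
    have := ht.1
    positivity
  have hcont : IntervalIntegrable (fun t : ℝ => 1 / 2 * (mu / (1 + mu * t))) volume 0 2 := by
    apply ContinuousOn.intervalIntegrable
    refine ContinuousOn.mul continuousOn_const (ContinuousOn.div continuousOn_const ?_ ?_)
    · fun_prop
    · intro t ht
      exact (hpos t ht).ne'
  have h1 : ∫ t in (0 : ℝ)..2, 1 / 2 * (mu / (1 + mu * t)) =
      1 / 2 * Real.log (1 + mu * 2) - 1 / 2 * Real.log (1 + mu * 0) := by
    apply intervalIntegral.integral_eq_sub_of_hasDerivAt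
      (f := fun t => 1 / 2 * Real.log (1 + mu * t)) _ hcont
    intro t ht
    have h2 : HasDerivAt (fun t : ℝ => 1 + mu * t) mu t := by
      simpa using ((hasDerivAt_id t).const_mul mu).const_add 1
    exact (h2.log (hpos t ht).ne').const_mul (1 / 2)
  have h2 : ∫ t in (0 : ℝ)..2, 1 / 2 * (mu / (1 + mu * t)) ≤
      ∫ t in (0 : ℝ)..2, (1 - Real.exp (-(mu * t))) / (2 * t) :=
    intervalIntegral.integral_mono_on_of_le_Ioo (by norm_num) hcont (IU_low_int mu hmu)
      (fun t ht => IU_low_g mu hmu t ht.1)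
  have h3 : Real.log mu ≤ Real.log (1 + mu * 2) :=
    Real.log_le_log (by linarith) (by linarith)
  rw [h1, mul_zero, add_zero, Real.log_one, mul_zero, sub_zero] at h2
  linarith

end Pool.Agent.Helper88.SE
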