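import Pool.Agent.Helper88.SE.Defs

set_option autoImplicit false

open MeasureTheory Set Filter Topology
open scoped ENNReal

namespace Pool.Agent.Helper88.SE



theorem cap_ball (d : ℕ) (p : S d) (ρ : ℝ) (hρ : 0 < ρ) :
    cap p ρ = {x | dist x p < Real.sqrt (2 - 2 / Real.sqrt (1 + ρ ^ 2))} := by
  ext x
  obtain ⟨z, hz⟩ : ∃ z, z = inner ℝ (p : E d) (x : E d) := ⟨_, rfl⟩
  have hp : ‖(p : E d)‖ = 1 := mem_sphere_zero_iff_norm.mp p.2
  have hx : ‖(x : E d)‖ = 1 := mem_sphere_zero_iff_norm.mp x.2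
  have h1 : dist x p ^ 2 = 2 - 2 * z := by
    rw [Subtype.dist_eq, dist_eq_norm, norm_sub_sq_real, hx, hp, real_inner_comm, ← hz]
    ring
  have h2 : ‖(x : E d) - z • (p : E d)‖ ^ 2 = 1 - z ^ 2 := by
    rw [norm_sub_sq_real, hx, norm_smul, hp, inner_smul_right, real_inner_comm, ← hz,
      Real.norm_eq_abs, mul_one, sq_abs]
    ring
  have hs : 0 < Real.sqrt (1 + ρ ^ 2) := Real.sqrt_pos.mpr (by positivity)
  have hs2 : Real.sqrt (1 + ρ ^ 2) ^ 2 = 1 + ρ ^ 2 := Real.sq_sqrt (by positivity)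
  show (0 < inner ℝ (p : E d) (x : E d) ∧
    ‖(x : E d) - (inner ℝ (p : E d) (x : E d)) • (p : E d)‖ < ρ * inner ℝ (p : E d) (x : E d)) ↔
    dist x p < Real.sqrt (2 - 2 / Real.sqrt (1 + ρ ^ 2))
  rw [Real.lt_sqrt dist_nonneg, h1, ← hz]
  have h3 : 2 - 2 * z < 2 - 2 / Real.sqrt (1 + ρ ^ 2) ↔ 1 < z * Real.sqrt (1 + ρ ^ 2) := by
    constructor
    · intro h
      have h4 : 2 / Real.sqrt (1 + ρ ^ 2) < 2 * z := by linarith
      rw [div_lt_iff₀ hs] at h4
      linarith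
    · intro h
      have h4 : 2 / Real.sqrt (1 + ρ ^ 2) < 2 * z := by
        rw [div_lt_iff₀ hs]
        linarith
      linarith
  rw [h3]
  constructor
  · rintro ⟨h4, h5⟩
    have h6 : ‖(x : E d) - z • (p : E d)‖ ^ 2 < (ρ * z) ^ 2 :=
      pow_lt_pow_left₀ h5 (norm_nonneg _) two_ne_zero
    rw [h2] at h6
    have h7 : 1 < (z * Real.sqrt (1 + ρ ^ 2)) ^ 2 := by
      rw [mul_pow, hs2]; nlinarith
    by_contra hcon
    push Not at hcon
    have h8 : 0 ≤ z * Real.sqrt (1 + ρ ^ 2) := by positivity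
    nlinarith
  · intro h4
    have hz0 : 0 < z := by
      by_contra hcon
      push Not at hcon
      have := mul_nonpos_of_nonpos_of_nonneg hcon hs.le
      linarith
    refine ⟨hz0, ?_⟩
    have h7 : 1 < (z * Real.sqrt (1 + ρ ^ 2)) ^ 2 := by nlinarith
    rw [mul_pow, hs2] at h7
    have h8 : ‖(x : E d) - z • (p : E d)‖ ^ 2 < (ρ * z) ^ 2 := by
      rw [h2]; nlinarith
    exact lt_of_pow_lt_pow_left₀ 2 (by positivity) h8

end Pool.Agent.Helper88.SE
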