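import Pool.Agent.Helper88.SE.Defs

set_option autoImplicit false

open MeasureTheory Set Filter Topology
open scoped ENNReal

namespace Pool.Agent.Helper88.SE



theorem chart_image (d : ℕ) (p : S d) (r ρ : ℝ) (hr : 0 < r) (hρ : 0 < ρ) (x : S d) :
    psi p r x ∈ cap p (r * ρ) ↔ x ∈ cap p ρ := by
  have hp1 : ‖(p : E d)‖ = 1 := mem_sphere_zero_iff_norm.1 p.2
  have hx1 : ‖(x : E d)‖ = 1 := mem_sphere_zero_iff_norm.1 x.2
  have hpp : inner ℝ (p : E d) (p : E d) = 1 := by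
    rw [real_inner_self_eq_norm_sq, hp1, one_pow]
  obtain ⟨z, hz⟩ : ∃ z, z = inner ℝ (p : E d) (x : E d) := ⟨_, rfl⟩
  obtain ⟨A, hA⟩ : ∃ A, A = Amap p r (x : E d) := ⟨_, rfl⟩
  have hA' : A = r • (x : E d) + ((1 - r) * z) • (p : E d) := by
    rw [hA, hz]
    rfl
  have hpA : inner ℝ (p : E d) A = z := by
    rw [hA', inner_add_right, real_inner_smul_right, real_inner_smul_right, ← hz, hpp]
    ring
  have hperp : A - z • (p : E d) = r • ((x : E d) - z • (p : E d)) := by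
    rw [hA']
    module
  have hA0 : A ≠ 0 := by
    intro h
    have h1 : z = 0 := by
      rw [← hpA, h, inner_zero_right]
    rw [h, h1, zero_smul, sub_zero, sub_zero] at hperp
    have h2 := (smul_eq_zero.1 hperp.symm).resolve_left hr.ne'
    rw [h2, norm_zero] at hx1
    exact zero_ne_one hx1
  have hn : 0 < ‖A‖⁻¹ := inv_pos.2 (norm_pos_iff.2 hA0)
  obtain ⟨c, hc⟩ : ∃ c, c = ‖A‖⁻¹ := ⟨_, rfl⟩
  rw [← hc] at hn
  have hpsi : ((psi p r x : S d) : E d) = c • A := by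
    unfold psi nrm
    rw [← hA, dif_neg hA0, hc]
  show (0 < inner ℝ (p : E d) ((psi p r x : S d) : E d) ∧
    ‖((psi p r x : S d) : E d) - (inner ℝ (p : E d) ((psi p r x : S d) : E d)) • (p : E d)‖ <
      r * ρ * inner ℝ (p : E d) ((psi p r x : S d) : E d)) ↔
    (0 < inner ℝ (p : E d) (x : E d) ∧
    ‖(x : E d) - (inner ℝ (p : E d) (x : E d)) • (p : E d)‖ < ρ * inner ℝ (p : E d) (x : E d))
  rw [hpsi, real_inner_smul_right, hpA, ← hz]
  have h1 : c • A - (c * z) • (p : E d) = (c * r) • ((x : E d) - z • (p : E d)) := by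
    rw [mul_smul c z, ← smul_sub, hperp, mul_smul]
  rw [h1, norm_smul, Real.norm_of_nonneg (mul_pos hn hr).le]
  have h2 : r * ρ * (c * z) = (c * r) * (ρ * z) := by ring
  rw [h2, mul_lt_mul_iff_right₀ (mul_pos hn hr)]
  constructor
  · rintro ⟨h3, h4⟩
    exact ⟨(mul_pos_iff_of_pos_left hn).1 h3, h4⟩
  · rintro ⟨h3, h4⟩
    exact ⟨mul_pos hn h3, h4⟩

end Pool.Agent.Helper88.SE
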