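import Pool.Agent.Helper88.SE.Defs
import Pool.Agent.Helper88.SE.P_Amap_equiv

set_option autoImplicit false

open MeasureTheory Set Filter Topology
open scoped ENNReal

namespace Pool.Agent.Helper88.SE



theorem chart_meas_cont {d : ℕ} (p : S d) (r : ℝ) : Continuous (fun x : S d => Amap p r (x : E d)) := by
  unfold Amap
  have h1 : Continuous (fun x : S d => (x : E d)) := continuous_subtype_val
  have h2 : Continuous (fun x : S d => inner ℝ (p : E d) (x : E d)) := continuous_const.inner h1
  have h3 : Continuous (fun x : S d => r • (x : E d)) := h1.const_smul r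
  have h4 : Continuous (fun x : S d => ((1 - r) * inner ℝ (p : E d) (x : E d)) • (p : E d)) :=
    (continuous_const.mul h2).smul continuous_const
  exact h3.add h4

theorem chart_meas_ne {d : ℕ} (p : S d) (r : ℝ) (hr : 0 < r) (x : S d) :
    Amap p r (x : E d) ≠ 0 := by
  obtain ⟨A, hA, -⟩ := Amap_equiv d p r hr
  rw [← hA]
  intro h
  have h1 : (x : E d) = 0 := by
    apply A.injective
    rw [h, map_zero]
  have h2 : ‖(x : E d)‖ = 1 := mem_sphere_zero_iff_norm.1 x.2
  rw [h1, norm_zero] at h2
  exact zero_ne_one h2

theorem chart_meas (d : ℕ) (p : S d) (r ρ : ℝ) (hr : 0 < r) :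
    Measurable (psi p r) ∧ Measurable (wt p r ρ) ∧ MeasurableSet (cap p ρ) := by
  have hc := chart_meas_cont p r
  have hinn : Continuous (fun x : S d => inner ℝ (p : E d) (x : E d)) :=
    continuous_const.inner continuous_subtype_val
  have hcap : MeasurableSet (cap p ρ) := by
    apply IsOpen.measurableSet
    have h1 : IsOpen {x : S d | 0 < inner ℝ (p : E d) (x : E d)} :=
      isOpen_lt continuous_const hinn
    have h2 : IsOpen {x : S d | ‖(x : E d) - (inner ℝ (p : E d) (x : E d)) • (p : E d)‖ <
        ρ * inner ℝ (p : E d) (x : E d)} :=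
      isOpen_lt (continuous_subtype_val.sub (hinn.smul continuous_const)).norm
        (continuous_const.mul hinn)
    exact h1.inter h2
  refine ⟨?_, ?_, hcap⟩
  · apply Continuous.measurable
    apply continuous_induced_rng.2
    have h1 : (Subtype.val ∘ psi p r : S d → E d) =
        fun x : S d => ‖Amap p r (x : E d)‖⁻¹ • Amap p r (x : E d) := by
      funext x
      show ((psi p r x : S d) : E d) = _
      unfold psi nrm
      rw [dif_neg (chart_meas_ne p r hr x)]
    rw [h1]
    exact (hc.norm.inv₀ fun x => norm_ne_zero_iff.2 (chart_meas_ne p r hr x)).smul hc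
  · unfold wt
    refine Measurable.indicator ?_ hcap
    exact measurable_const.mul (hc.norm.measurable.pow_const _)

end Pool.Agent.Helper88.SE
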