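import Pool.Agent.Helper88.SE.Defs

set_option autoImplicit false

open MeasureTheory Set Filter Topology
open scoped ENNReal

namespace Pool.Agent.Helper88.SE



theorem lc_nrm_smul {d : ℕ} (t : ℝ) (ht : 0 < t) (v : E d) : nrm (t • v) = nrm v := by
  unfold nrm
  by_cases hv : v = 0
  · have : t • v = 0 := by rw [hv, smul_zero]
    rw [dif_pos hv, dif_pos this]
  · have : t • v ≠ 0 := smul_ne_zero ht.ne' hv
    rw [dif_neg hv, dif_neg this]
    apply Subtype.ext
    show ‖t • v‖⁻¹ • t • v = ‖v‖⁻¹ • v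
    rw [norm_smul, Real.norm_eq_abs, abs_of_pos ht, smul_smul]
    congr 1
    field_simp

theorem lc_ne {d : ℕ} (x : S d) : (x : E d) ≠ 0 := by
  have h1 : ‖(x : E d)‖ = 1 := by simp
  intro h
  rw [h, norm_zero] at h1
  norm_num at h1

theorem lc_nrm_coe {d : ℕ} (x : S d) : nrm (x : E d) = x := by
  have h1 : ‖(x : E d)‖ = 1 := by simp
  unfold nrm
  rw [dif_neg (lc_ne x)]
  apply Subtype.ext
  show ‖(x : E d)‖⁻¹ • (x : E d) = x
  rw [h1, inv_one, one_smul]

theorem lc_nrm_norm {d : ℕ} (v : E d) (hv : v ≠ 0) : v = ‖v‖ • (nrm v : E d) := by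
  unfold nrm
  rw [dif_neg hv]
  show v = ‖v‖ • ‖v‖⁻¹ • v
  rw [smul_smul, mul_inv_cancel₀ (norm_ne_zero_iff.2 hv), one_smul]

theorem lc_nrm_meas {d : ℕ} : Measurable (nrm : E d → S d) := by
  rw [← (MeasurableEmbedding.subtype_coe (Metric.isClosed_sphere (x := (0 : E d)) (ε := 1)).measurableSet).measurable_comp_iff]
  have h1 : (Subtype.val ∘ (nrm : E d → S d)) = fun v : E d => if v = 0 then
      (EuclideanSpace.single 0 1 : E d) else ‖v‖⁻¹ • v := by
    funext v
    unfold nrm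
    by_cases h : v = 0
    · simp [h]
    · simp [h]
  rw [h1]
  exact Measurable.ite (measurableSet_singleton 0) measurable_const
    (measurable_norm.inv.smul measurable_id)

theorem lc_polar (d : ℕ) (h : S d → ℝ≥0∞) (hh : Measurable h) (a : S d → ℝ) (ha : Measurable a)
    (ha0 : ∀ x, 0 < a x) :
    ∫⁻ v : E d, h (nrm v) * (if ‖v‖ * a (nrm v) < 1 then 1 else 0) =
      ∫⁻ x : S d, h x * ENNReal.ofReal ((1 / a x) ^ (d + 1) / ((d : ℝ) + 1)) ∂((volume : Measure (E d)).toSphere) := by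
  have mp := (volume : Measure (E d)).measurePreserving_homeomorphUnitSphereProd
  have hd : Module.finrank ℝ (E d) - 1 = d := by simp
  rw [hd] at mp
  obtain ⟨Gf, hGf⟩ : ∃ Gf : S d × Ioi (0 : ℝ) → ℝ≥0∞, Gf = fun p =>
    h p.1 * (if (p.2 : ℝ) * a p.1 < 1 then 1 else 0) := ⟨_, rfl⟩
  have hGm : Measurable Gf := by
    rw [hGf]
    apply (hh.comp measurable_fst).mul
    apply Measurable.ite _ measurable_const measurable_const
    exact measurableSet_lt ((measurable_subtype_coe.comp measurable_snd).mul (ha.comp measurable_fst))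
      measurable_const
  have h1 : ∫⁻ v : E d, h (nrm v) * (if ‖v‖ * a (nrm v) < 1 then 1 else 0) =
      ∫⁻ v : ({0}ᶜ : Set (E d)), h (nrm (v : E d)) * (if ‖(v : E d)‖ * a (nrm (v : E d)) < 1 then 1 else 0)
        ∂((volume : Measure (E d)).comap (↑)) := by
    rw [lintegral_subtype_comap (measurableSet_singleton 0).compl
      (fun v : E d => h (nrm v) * (if ‖v‖ * a (nrm v) < 1 then 1 else 0)),
      restrict_compl_singleton]
  rw [h1]
  have h2 : ∀ v : ({0}ᶜ : Set (E d)), h (nrm (v : E d)) * (if ‖(v : E d)‖ * a (nrm (v : E d)) < 1 then 1 else 0) =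
      Gf (homeomorphUnitSphereProd (E d) v) := by
    intro v
    have e1 : (homeomorphUnitSphereProd (E d) v).1 = nrm (v : E d) := by
      apply Subtype.ext
      rw [homeomorphUnitSphereProd_apply_fst_coe]
      have hv : (v : E d) ≠ 0 := v.2
      unfold nrm
      rw [dif_neg hv]
    have e2 : ((homeomorphUnitSphereProd (E d) v).2 : ℝ) = ‖(v : E d)‖ := by
      rw [homeomorphUnitSphereProd_apply_snd_coe]
    rw [hGf]
    simp only [e1, e2]
  rw [lintegral_congr h2, mp.lintegral_comp hGm, lintegral_prod _ hGm.aemeasurable]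
  apply lintegral_congr
  intro x
  rw [hGf]
  simp only
  have h3 : ∀ t : Ioi (0 : ℝ), (if (t : ℝ) * a x < 1 then (1 : ℝ≥0∞) else 0) =
      (Iio (⟨1 / a x, by have := ha0 x; show 0 < 1 / a x; positivity⟩ : Ioi (0 : ℝ))).indicator (fun _ => 1) t := by
    intro t
    rw [Set.indicator_apply]
    have : (t : ℝ) * a x < 1 ↔ t ∈ Iio (⟨1 / a x, by have := ha0 x; show 0 < 1 / a x; positivity⟩ : Ioi (0 : ℝ)) := by
      rw [mem_Iio, ← Subtype.coe_lt_coe]
      show (t : ℝ) * a x < 1 ↔ (t : ℝ) < 1 / a x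
      rw [lt_div_iff₀ (ha0 x)]
    simp only [this]
  simp_rw [h3]
  rw [lintegral_const_mul _ (measurable_const.indicator measurableSet_Iio),
    lintegral_indicator measurableSet_Iio, lintegral_const, one_mul, Measure.restrict_apply_univ,
    MeasureTheory.Measure.volumeIoiPow_apply_Iio]

theorem lc_nu (d : ℕ) (A : E d ≃L[ℝ] E d) (f : S d → ℝ≥0∞) (hf : Measurable f) :
    ∫⁻ x : S d, f (nrm (A (x : E d))) *
      ENNReal.ofReal (‖A (x : E d)‖ ^ (-((d : ℝ) + 1)) * |(A : E d →L[ℝ] E d).det|)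
        ∂((volume : Measure (E d)).toSphere) =
      ∫⁻ x, f x ∂((volume : Measure (E d)).toSphere) := by
  obtain ⟨φ, hφ⟩ : ∃ φ : E d → ℝ≥0∞, φ = fun v => f (nrm v) * (if ‖v‖ * 1 < 1 then 1 else 0) := ⟨_, rfl⟩
  have hφm : Measurable φ := by
    rw [hφ]
    apply (hf.comp lc_nrm_meas).mul
    apply Measurable.ite _ measurable_const measurable_const
    exact measurableSet_lt (measurable_norm.mul measurable_const) measurable_const
  have p1 := lc_polar d f hf (fun _ => 1) measurable_const (fun _ => one_pos)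
  have hA0 : ∀ x : S d, 0 < ‖A (x : E d)‖ := by
    intro x
    rw [norm_pos_iff]
    intro h
    exact lc_ne x ((map_eq_zero_iff A A.injective).1 h)
  have hAm : Measurable (fun x : S d => ‖A (x : E d)‖) :=
    (A.continuous.measurable.comp measurable_subtype_coe).norm
  have hfAm : Measurable (fun x : S d => f (nrm (A (x : E d)))) :=
    hf.comp (lc_nrm_meas.comp (A.continuous.measurable.comp measurable_subtype_coe))
  have p2 := lc_polar d (fun x => f (nrm (A (x : E d)))) hfAm (fun x => ‖A (x : E d)‖) hAm hA0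
  have h1 : ∫⁻ v : E d, f (nrm (A (nrm v : E d))) * (if ‖v‖ * ‖A (nrm v : E d)‖ < 1 then 1 else 0) =
      ∫⁻ v : E d, φ (A v) := by
    apply lintegral_congr_ae
    have h0 : ∀ᵐ v : E d ∂volume, v ≠ 0 := by
      have : (volume : Measure (E d)) {0} = 0 := measure_singleton 0
      exact compl_mem_ae_iff.2 this
    filter_upwards [h0] with v hv
    have hv1 : A v = ‖v‖ • A (nrm v : E d) := by
      conv_lhs => rw [lc_nrm_norm v hv]
      rw [map_smul]
    have hvp : 0 < ‖v‖ := norm_pos_iff.2 hv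
    rw [hφ]
    simp only
    rw [hv1, lc_nrm_smul _ hvp, norm_smul, norm_norm, mul_one]
  have hdet : LinearMap.det (A : E d →ₗ[ℝ] E d) ≠ 0 := by
    have := A.toLinearEquiv.isUnit_det'
    exact this.ne_zero
  have h2 : ∫⁻ v : E d, φ (A v) = ENNReal.ofReal |(LinearMap.det (A : E d →ₗ[ℝ] E d))⁻¹| * ∫⁻ v : E d, φ v := by
    have h3 := Measure.map_linearMap_addHaar_eq_smul_addHaar (volume : Measure (E d)) hdet
    rw [← smul_eq_mul, ← lintegral_smul_measure, ← h3]
    exact (lintegral_map hφm A.continuous.measurable).symm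
  have h4 : ∫⁻ v : E d, φ v = ∫⁻ x : S d, f x * ENNReal.ofReal ((1 / 1) ^ (d + 1) / ((d : ℝ) + 1))
      ∂((volume : Measure (E d)).toSphere) := by
    rw [← p1, hφ]
  rw [h1, h2, h4] at p2
  -- combine
  obtain ⟨D, hD⟩ : ∃ D, D = |LinearMap.det (A : E d →ₗ[ℝ] E d)| := ⟨_, rfl⟩
  have hD0 : 0 < D := by rw [hD]; exact abs_pos.2 hdet
  have hdet' : |(A : E d →L[ℝ] E d).det| = D := by rw [hD]; rfl
  have hd0 : (0 : ℝ) < (d : ℝ) + 1 := by positivity
  rw [abs_inv, ← hD] at p2
  have e1 : ∀ x : S d, f (nrm (A (x : E d))) *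
      ENNReal.ofReal (‖A (x : E d)‖ ^ (-((d : ℝ) + 1)) * |(A : E d →L[ℝ] E d).det|) =
      ENNReal.ofReal (D * ((d : ℝ) + 1)) * (f (nrm (A (x : E d))) *
        ENNReal.ofReal ((1 / ‖A (x : E d)‖) ^ (d + 1) / ((d : ℝ) + 1))) := by
    intro x
    rw [mul_left_comm, ← ENNReal.ofReal_mul (by positivity), hdet']
    congr 2
    rw [Real.rpow_neg (norm_nonneg _)]
    have : ‖A (x : E d)‖ ^ ((d : ℝ) + 1) = ‖A (x : E d)‖ ^ (d + 1) := by
      rw [← Real.rpow_natCast]
      push_cast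
      rfl
    rw [this, one_div, inv_pow]
    field_simp
  have hm1 : Measurable (fun x : S d => f (nrm (A (x : E d))) *
        ENNReal.ofReal ((1 / ‖A (x : E d)‖) ^ (d + 1) / ((d : ℝ) + 1))) :=
    hfAm.mul (((measurable_const.div hAm).pow_const _).div_const _).ennreal_ofReal
  rw [lintegral_congr e1, lintegral_const_mul _ hm1, ← p2, lintegral_mul_const _ hf, ← mul_assoc,
    mul_comm (∫⁻ x : S d, f x ∂((volume : Measure (E d)).toSphere)), ← mul_assoc,
    ← ENNReal.ofReal_mul (by positivity), ← ENNReal.ofReal_mul (by positivity)]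
  have e2 : D * ((d : ℝ) + 1) * D⁻¹ * ((1 / 1) ^ (d + 1) / ((d : ℝ) + 1)) = 1 := by
    rw [div_one, one_pow]
    field_simp
  rw [e2, ENNReal.ofReal_one, one_mul]

theorem lin_change (d : ℕ) (A : E d ≃L[ℝ] E d) (f : S d → ℝ≥0∞) (hf : Measurable f) :
    ∫⁻ x : S d, f (nrm (A (x : E d))) *
      ENNReal.ofReal (‖A (x : E d)‖ ^ (-((d : ℝ) + 1)) * |(A : E d →L[ℝ] E d).det|) ∂(sg d) =
      ∫⁻ x, f x ∂(sg d) := by
  unfold sg
  rw [lintegral_smul_measure, lintegral_smul_measure, lc_nu d A f hf]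

end Pool.Agent.Helper88.SE
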