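import Pool.Agent.Helper88.SE.Defs
import Pool.Agent.Helper88.SE.P_lin_change
import Pool.Agent.Helper88.SE.P_Amap_equiv
import Pool.Agent.Helper88.SE.P_chart_meas
import Pool.Agent.Helper88.SE.P_chart_image

set_option autoImplicit false

open MeasureTheory Set Filter Topology
open scoped ENNReal

namespace Pool.Agent.Helper88.SE



theorem chart_int (d : ℕ) (p : S d) (r ρ : ℝ) (hr : 0 < r) (hρ : 0 < ρ)
    (f : S d → ℝ≥0∞) (hf : Measurable f) :
    ∫⁻ x in cap p ρ, f (psi p r x) * ENNReal.ofReal (‖Amap p r (x : E d)‖ ^ (-((d : ℝ) + 1))) ∂(sg d)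
      = ENNReal.ofReal (r ^ (-(d : ℝ))) * ∫⁻ x in cap p (r * ρ), f x ∂(sg d) := by
  classical
  obtain ⟨hm1, -, -⟩ := chart_meas d p r ρ hr
  have hcapρ : MeasurableSet (cap p ρ) := (chart_meas d p r ρ hr).2.2
  have hcapr : MeasurableSet (cap p (r * ρ)) := (chart_meas d p r (r * ρ) hr).2.2
  obtain ⟨A, hA, hdet⟩ := Amap_equiv d p r hr
  have h1 := lin_change d A ((cap p (r * ρ)).indicator f) (hf.indicator hcapr)
  rw [lintegral_indicator hcapr] at h1
  rw [← h1, ← lintegral_indicator hcapρ]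
  rw [hdet, abs_of_pos (by positivity : (0 : ℝ) < r ^ d)]
  rw [← lintegral_const_mul' _ _ ENNReal.ofReal_ne_top]
  refine lintegral_congr (fun x => ?_)
  have hx : nrm (A (x : E d)) = psi p r x := by
    unfold psi
    rw [hA]
  rw [hx, hA]
  by_cases hc : x ∈ cap p ρ
  · rw [Set.indicator_of_mem hc, Set.indicator_of_mem ((chart_image d p r ρ hr hρ x).2 hc)]
    rw [ENNReal.ofReal_mul (by positivity)]
    have h3 : ENNReal.ofReal (r ^ (-(d : ℝ))) * ENNReal.ofReal (r ^ d) = 1 := by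
      rw [← ENNReal.ofReal_mul (by positivity), Real.rpow_neg hr.le, Real.rpow_natCast,
        inv_mul_cancel₀ (by positivity), ENNReal.ofReal_one]
    calc f (psi p r x) * ENNReal.ofReal (‖Amap p r (x : E d)‖ ^ (-((d : ℝ) + 1)))
        = f (psi p r x) * ENNReal.ofReal (‖Amap p r (x : E d)‖ ^ (-((d : ℝ) + 1))) *
          (ENNReal.ofReal (r ^ (-(d : ℝ))) * ENNReal.ofReal (r ^ d)) := by rw [h3, mul_one]
      _ = _ := by ring
  · rw [Set.indicator_of_notMem hc, Set.indicator_of_notMem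
      (fun h => hc ((chart_image d p r ρ hr hρ x).1 h))]
    simp

end Pool.Agent.Helper88.SE
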