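import Pool.Agent.Helper88.SE.Defs
import Pool.Agent.Helper88.SE.P_sg_prob
import Pool.Agent.Helper88.SE.P_chart_meas
import Pool.Agent.Helper88.SE.P_chart_int

set_option autoImplicit false

open MeasureTheory Set Filter Topology
open scoped ENNReal

namespace Pool.Agent.Helper88.SE



theorem cs_norm {d : ℕ} (p x : S d) (r ρ : ℝ) (hr : 0 < r) (hr1 : r ≤ 1) (hx : x ∈ cap p ρ) :
    0 < ‖Amap p r (x : E d)‖ ∧ ‖Amap p r (x : E d)‖ ≤ 1 ∧
      (1 + ρ ^ 2)⁻¹ ≤ ‖Amap p r (x : E d)‖ ^ 2 := by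
  obtain ⟨z, hz⟩ : ∃ z : ℝ, z = inner ℝ (p : E d) (x : E d) := ⟨_, rfl⟩
  obtain ⟨w, hw⟩ : ∃ w : E d, w = (x : E d) - z • (p : E d) := ⟨_, rfl⟩
  obtain ⟨h1, h2⟩ := hx
  rw [← hz] at h1 h2
  rw [← hw] at h2
  have hp : ‖(p : E d)‖ = 1 := by simp
  have hxn : ‖(x : E d)‖ = 1 := by simp
  have hpp : inner ℝ (p : E d) (p : E d) = (1 : ℝ) := by
    rw [real_inner_self_eq_norm_sq, hp]; norm_num
  have hpw : inner ℝ (p : E d) w = (0 : ℝ) := by
    rw [hw, inner_sub_right, inner_smul_right, hpp, ← hz]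
    ring
  have hwp : inner ℝ w (p : E d) = (0 : ℝ) := by rw [real_inner_comm]; exact hpw
  have hxw : (x : E d) = w + z • (p : E d) := by rw [hw]; abel
  have hA : Amap p r (x : E d) = r • w + z • (p : E d) := by
    unfold Amap
    rw [← hz]
    rw [hxw]
    module
  have hn1 : ‖w‖ ^ 2 + z ^ 2 = 1 := by
    have h3 := norm_add_sq_real w (z • (p : E d))
    rw [← hxw, hxn, inner_smul_right, hwp, norm_smul, hp, mul_one, Real.norm_eq_abs, sq_abs] at h3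
    linarith
  have hn2 : ‖Amap p r (x : E d)‖ ^ 2 = r ^ 2 * ‖w‖ ^ 2 + z ^ 2 := by
    have h3 := norm_add_sq_real (r • w) (z • (p : E d))
    rw [← hA, inner_smul_right, inner_smul_left, hwp, norm_smul, norm_smul, hp, mul_one,
      Real.norm_eq_abs, Real.norm_eq_abs, sq_abs, mul_pow, sq_abs] at h3
    linarith
  have hw0 := norm_nonneg w
  have hw2 : ‖w‖ ^ 2 ≤ ρ ^ 2 * z ^ 2 := by
    have := pow_le_pow_left₀ hw0 h2.le 2
    rwa [mul_pow] at this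
  have hz2 : (1 + ρ ^ 2)⁻¹ ≤ z ^ 2 := by
    rw [inv_le_iff_one_le_mul₀ (by positivity)]
    nlinarith
  have hr2 : r ^ 2 ≤ 1 := pow_le_one₀ hr.le hr1
  have hA0 := norm_nonneg (Amap p r (x : E d))
  have hz3 : 0 < z ^ 2 := by positivity
  refine ⟨?_, ?_, ?_⟩
  · rcases hA0.lt_or_eq with h | h
    · exact h
    · rw [← h] at hn2
      have : 0 ≤ r ^ 2 * ‖w‖ ^ 2 := by positivity
      norm_num at hn2
      linarith
  · have h3 : ‖Amap p r (x : E d)‖ ^ 2 ≤ 1 := by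
      rw [hn2]
      have : r ^ 2 * ‖w‖ ^ 2 ≤ 1 * ‖w‖ ^ 2 := mul_le_mul_of_nonneg_right hr2 (sq_nonneg _)
      linarith
    nlinarith
  · rw [hn2]
    have : 0 ≤ r ^ 2 * ‖w‖ ^ 2 := by positivity
    linarith

theorem cs_pow (d : ℕ) {N ρ : ℝ} (h0 : 0 < N) (h1 : N ≤ 1) (h2 : (1 + ρ ^ 2)⁻¹ ≤ N ^ 2) :
    1 ≤ N ^ (-((d : ℝ) + 1)) ∧ N ^ (-((d : ℝ) + 1)) ≤ (1 + ρ ^ 2) ^ (((d : ℝ) + 1) / 2) := by
  have hd : (0 : ℝ) ≤ (d : ℝ) + 1 := by positivity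
  refine ⟨Real.one_le_rpow_of_pos_of_le_one_of_nonpos h0 h1 (by linarith), ?_⟩
  have e1 : N ^ (-((d : ℝ) + 1)) = (N ^ 2) ^ (-(((d : ℝ) + 1) / 2)) := by
    rw [← Real.rpow_natCast, ← Real.rpow_mul h0.le]
    congr 1
    push_cast
    ring
  have e2 : (1 + ρ ^ 2) ^ (((d : ℝ) + 1) / 2) = ((1 + ρ ^ 2)⁻¹) ^ (-(((d : ℝ) + 1) / 2)) := by
    rw [Real.inv_rpow (by positivity), Real.rpow_neg (by positivity), inv_inv]
  rw [e1, e2]
  exact Real.rpow_le_rpow_of_nonpos (by positivity) h2 (by linarith)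

theorem cap_scale (d : ℕ) (p : S d) (r ρ : ℝ) (hr : 0 < r) (hr1 : r ≤ 1) (hρ : 0 < ρ) :
    r ^ d * (sg d (cap p ρ)).toReal ≤ (sg d (cap p (r * ρ))).toReal ∧
    (sg d (cap p (r * ρ))).toReal ≤
      r ^ d * (1 + ρ ^ 2) ^ (((d : ℝ) + 1) / 2) * (sg d (cap p ρ)).toReal := by
  haveI := sg_prob d
  have hmeas := (chart_meas d p r ρ hr).2.2
  have h := chart_int d p r ρ hr hρ (fun _ => 1) measurable_const
  simp only [one_mul, lintegral_const, Measure.restrict_apply, MeasurableSet.univ,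
    Set.univ_inter] at h
  obtain ⟨C, hC⟩ : ∃ C : ℝ, C = (1 + ρ ^ 2) ^ (((d : ℝ) + 1) / 2) := ⟨_, rfl⟩
  have hC0 : 0 ≤ C := by rw [hC]; positivity
  have lo : sg d (cap p ρ) ≤ ENNReal.ofReal (r ^ (-(d : ℝ))) * sg d (cap p (r * ρ)) := by
    rw [← h, ← setLIntegral_one]
    refine setLIntegral_mono' hmeas fun x hx => ?_
    obtain ⟨a1, a2, a3⟩ := cs_norm p x r ρ hr hr1 hx
    rw [ENNReal.one_le_ofReal]
    exact (cs_pow d a1 a2 a3).1
  have up : ENNReal.ofReal (r ^ (-(d : ℝ))) * sg d (cap p (r * ρ)) ≤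
      ENNReal.ofReal C * sg d (cap p ρ) := by
    rw [← h, ← setLIntegral_const]
    refine setLIntegral_mono' hmeas fun x hx => ?_
    obtain ⟨a1, a2, a3⟩ := cs_norm p x r ρ hr hr1 hx
    rw [hC]
    exact ENNReal.ofReal_le_ofReal (cs_pow d a1 a2 a3).2
  have hrd : 0 < r ^ d := by positivity
  have hrr : (0 : ℝ) ≤ r ^ (-(d : ℝ)) := by positivity
  have er : r ^ (-(d : ℝ)) = (r ^ d)⁻¹ := by
    rw [Real.rpow_neg hr.le, Real.rpow_natCast]
  have lo' := ENNReal.toReal_mono (ENNReal.mul_ne_top ENNReal.ofReal_ne_top (measure_ne_top _ _)) lo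
  have up' := ENNReal.toReal_mono (ENNReal.mul_ne_top ENNReal.ofReal_ne_top (measure_ne_top _ _)) up
  rw [ENNReal.toReal_mul, ENNReal.toReal_ofReal hrr, er] at lo'
  rw [ENNReal.toReal_mul, ENNReal.toReal_mul, ENNReal.toReal_ofReal hrr,
    ENNReal.toReal_ofReal hC0, er] at up'
  rw [← hC]
  constructor
  · have h1 := mul_le_mul_of_nonneg_left lo' hrd.le
    rwa [← mul_assoc, mul_inv_cancel₀ hrd.ne', one_mul] at h1
  · have h1 := mul_le_mul_of_nonneg_left up' hrd.le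
    rwa [← mul_assoc, mul_inv_cancel₀ hrd.ne', one_mul, ← mul_assoc] at h1

end Pool.Agent.Helper88.SE
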