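import Pool.Agent.Helper88.SE.Defs
import Pool.Agent.Helper557.Rz.M_meas

set_option autoImplicit false

open MeasureTheory Set Filter Topology
open scoped ENNReal

namespace Pool.Agent.Helper88.SE

theorem sg_open (d : ℕ) : (sg d).IsOpenPosMeasure :=
  Pool.Agent.Helper557.Rz.sg_open_pos (d + 1) (Nat.le_add_left 1 d)

end Pool.Agent.Helper88.SE
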