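import Pool.Agent.Helper88.SE.Defs
import Pool.Agent.Helper88.SE.P_sg_prob
import Pool.Agent.Helper88.SE.P_sg_open
import Pool.Agent.Helper88.SE.P_cap_scale

set_option autoImplicit false

open MeasureTheory Set Filter Topology
open scoped ENNReal

namespace Pool.Agent.Helper88.SE



theorem cap_lim (d : ℕ) (p : S d) :
    ∃ c : ℝ, 0 < c ∧
      Tendsto (fun ρ : ℝ => (sg d (cap p ρ)).toReal / ρ ^ d) (𝓝[>] 0) (𝓝 c) := by
  have := sg_prob d
  have := sg_open d
  set q : ℝ → ℝ := fun ρ => (sg d (cap p ρ)).toReal / ρ ^ d with hq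
  have hanti : ∀ ρ' ρ : ℝ, 0 < ρ' → ρ' ≤ ρ → q ρ ≤ q ρ' := by
    intro ρ' ρ h1 h2
    have hρ : 0 < ρ := h1.trans_le h2
    have h3 := (cap_scale d p (ρ' / ρ) ρ (div_pos h1 hρ) ((div_le_one hρ).2 h2) hρ).1
    rw [div_mul_cancel₀ _ hρ.ne'] at h3
    rw [hq]
    simp only
    rw [le_div_iff₀ (pow_pos h1 d)]
    refine le_trans (le_of_eq ?_) h3
    rw [div_pow]
    ring
  have hbdd : ∀ r : ℝ, 0 < r → r ≤ 1 → q r ≤ 2 ^ (((d : ℝ) + 1) / 2) * q 1 := by
    intro r h1 h2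
    have h3 := (cap_scale d p r 1 h1 h2 one_pos).2
    rw [mul_one] at h3
    rw [hq]
    simp only
    rw [div_le_iff₀ (pow_pos h1 d)]
    refine h3.trans (le_of_eq ?_)
    norm_num
    ring
  have hq1 : 0 < q 1 := by
    rw [hq]
    simp only
    rw [one_pow, div_one]
    apply ENNReal.toReal_pos _ (measure_ne_top _ _)
    have hopen : IsOpen (cap p 1) := by
      have c1 : Continuous (fun x : S d => inner ℝ (p : E d) (x : E d)) :=
        continuous_const.inner continuous_subtype_val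
      have c2 : Continuous (fun x : S d =>
          ‖(x : E d) - (inner ℝ (p : E d) (x : E d)) • (p : E d)‖) :=
        (continuous_subtype_val.sub (c1.smul continuous_const)).norm
      have c3 : Continuous (fun x : S d => (1 : ℝ) * inner ℝ (p : E d) (x : E d)) :=
        continuous_const.mul c1
      exact (isOpen_lt continuous_const c1).inter (isOpen_lt c2 c3)
    have hmem : p ∈ cap p 1 := by
      have hp : ‖(p : E d)‖ = 1 := by simp
      have h1 : inner ℝ (p : E d) (p : E d) = (1 : ℝ) := by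
        rw [real_inner_self_eq_norm_sq, hp]; norm_num
      refine ⟨?_, ?_⟩
      · rw [h1]; exact one_pos
      · rw [h1, one_smul, sub_self, norm_zero]; norm_num
    exact (hopen.measure_pos (sg d) ⟨p, hmem⟩).ne'
  have hBA : BddAbove (q '' Ioc 0 1) := by
    refine ⟨2 ^ (((d : ℝ) + 1) / 2) * q 1, ?_⟩
    rintro _ ⟨r, hr, rfl⟩
    exact hbdd r hr.1 hr.2
  have hle : ∀ r : ℝ, 0 < r → r ≤ 1 → q r ≤ sSup (q '' Ioc 0 1) := fun r h1 h2 =>
    le_csSup hBA ⟨r, ⟨h1, h2⟩, rfl⟩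
  refine ⟨sSup (q '' Ioc 0 1), hq1.trans_le (hle 1 one_pos le_rfl), ?_⟩
  rw [tendsto_order]
  constructor
  · intro a ha
    have hne : (q '' Ioc 0 1).Nonempty := ⟨q 1, 1, ⟨one_pos, le_rfl⟩, rfl⟩
    obtain ⟨_, ⟨r, hr, rfl⟩, har⟩ := exists_lt_of_lt_csSup hne ha
    filter_upwards [Ioo_mem_nhdsGT hr.1] with ρ hρ
    exact har.trans_le (hanti ρ r hρ.1 hρ.2.le)
  · intro a ha
    filter_upwards [Ioo_mem_nhdsGT (one_pos : (0 : ℝ) < 1)] with ρ hρ
    exact (hle ρ hρ.1 hρ.2.le).trans_lt ha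

end Pool.Agent.Helper88.SE
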