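import Pool.Agent.Helper88.SE.Defs
import Pool.Agent.Helper88.SE.P_rot_mp

set_option autoImplicit false

open MeasureTheory Set Filter Topology
open scoped ENNReal

namespace Pool.Agent.Helper88.SE



theorem radial (d : ℕ) (h : ℝ → ℝ≥0∞) (hh : Measurable h) (x x' : S d) :
    ∫⁻ y, h (dist x y) ∂(sg d) = ∫⁻ y, h (dist x' y) ∂(sg d) := by
  have hn : ‖(x : E d)‖ = ‖(x' : E d)‖ := by
    rw [norm_eq_of_mem_sphere, norm_eq_of_mem_sphere]
  obtain ⟨g, hg⟩ : ∃ g : Iso d, g (x : E d) = (x' : E d) :=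
    ⟨(Submodule.span ℝ {(x : E d) - (x' : E d)})ᗮ.reflection, Submodule.reflection_sub hn⟩
  have hgx : rot g x = x' := Subtype.ext hg
  have hm : Measurable (fun y : S d => h (dist x' y)) :=
    hh.comp (by fun_prop)
  rw [← (rot_mp d g).lintegral_comp hm]
  congr 1
  ext y
  have : dist x' (rot g y) = dist x y := by
    rw [← hgx, Subtype.dist_eq, Subtype.dist_eq]
    exact g.dist_map _ _
  rw [this]

end Pool.Agent.Helper88.SE
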