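import Pool.Agent.Helper88.SE.Defs
import Pool.Agent.Helper88.SE.P_sg_prob
import Pool.Agent.Helper88.SE.P_radial
import Pool.Agent.Helper88.SE.P_cap_lim
import Pool.Agent.Helper88.SE.P_cap_ball

set_option autoImplicit false

open MeasureTheory Set Filter Topology
open scoped ENNReal

namespace Pool.Agent.Helper88.SE



theorem h208_cb (d : ℕ) (x x' : S d) (t : ℝ) :
    sg d (Metric.closedBall x t) = sg d (Metric.closedBall x' t) := by
  have h := radial d ((Set.Iic t).indicator 1) (measurable_one.indicator measurableSet_Iic) x x'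
  have e : ∀ z : S d, ∫⁻ y, ((Set.Iic t).indicator (1 : ℝ → ℝ≥0∞)) (dist z y) ∂(sg d) =
      sg d (Metric.closedBall z t) := by
    intro z
    have : (fun y => ((Set.Iic t).indicator (1 : ℝ → ℝ≥0∞)) (dist z y)) =
        (Metric.closedBall z t).indicator 1 := by
      funext y
      by_cases hy : dist z y ≤ t
      · have h1 : dist z y ∈ Set.Iic t := hy
        have h2 : y ∈ Metric.closedBall z t := by
          rw [Metric.mem_closedBall, dist_comm]; exact hy
        rw [indicator_of_mem h1, indicator_of_mem h2]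
        rfl
      · have h1 : dist z y ∉ Set.Iic t := hy
        have h2 : y ∉ Metric.closedBall z t := by
          rw [Metric.mem_closedBall, dist_comm]; exact hy
        rw [indicator_of_notMem h1, indicator_of_notMem h2]
    rw [this, lintegral_indicator_one Metric.isClosed_closedBall.measurableSet]
  rw [e, e] at h
  exact h

/-- gnomonic radius of the ball of radius `t` -/
noncomputable def h208_rho (t : ℝ) : ℝ := t * (Real.sqrt (1 - t ^ 2 / 4) / (1 - t ^ 2 / 2))

theorem h208_rho_pos (t : ℝ) (h0 : 0 < t) (h1 : t < 1) : 0 < h208_rho t := by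
  unfold h208_rho
  have a : 0 < 1 - t ^ 2 / 4 := by nlinarith
  have b : 0 < 1 - t ^ 2 / 2 := by nlinarith
  positivity

theorem h208_ball (d : ℕ) (p : S d) (t : ℝ) (h0 : 0 < t) (h1 : t < 1) :
    Metric.ball p t = cap p (h208_rho t) := by
  have a : 0 < 1 - t ^ 2 / 4 := by nlinarith
  have b : 0 < 1 - t ^ 2 / 2 := by nlinarith
  rw [cap_ball d p _ (h208_rho_pos t h0 h1)]
  have e1 : 1 + h208_rho t ^ 2 = (1 / (1 - t ^ 2 / 2)) ^ 2 := by
    unfold h208_rho
    rw [mul_pow, div_pow, Real.sq_sqrt a.le]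
    have key : (1 - t ^ 2 / 2) ^ 2 + t ^ 2 * (1 - t ^ 2 / 4) = 1 := by ring
    have hb2 : (1 - t ^ 2 / 2) ^ 2 ≠ 0 := by positivity
    have e3 : 1 + t ^ 2 * ((1 - t ^ 2 / 4) / (1 - t ^ 2 / 2) ^ 2) =
        ((1 - t ^ 2 / 2) ^ 2 + t ^ 2 * (1 - t ^ 2 / 4)) / (1 - t ^ 2 / 2) ^ 2 := by
      rw [add_div, div_self hb2, mul_div_assoc]
    rw [e3, key, div_pow, one_pow]
  rw [e1, Real.sqrt_sq (by positivity)]
  have e2 : 2 - 2 / (1 / (1 - t ^ 2 / 2)) = t ^ 2 := by
    field_simp
    ring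
  rw [e2, Real.sqrt_sq h0.le]
  rfl

theorem h208_rho_div : Tendsto (fun t : ℝ => h208_rho t / t) (𝓝[>] 0) (𝓝 1) := by
  have hc : ContinuousAt (fun t : ℝ => Real.sqrt (1 - t ^ 2 / 4) / (1 - t ^ 2 / 2)) 0 := by
    apply ContinuousAt.div
    · fun_prop
    · fun_prop
    · norm_num
  have h1 : Tendsto (fun t : ℝ => Real.sqrt (1 - t ^ 2 / 4) / (1 - t ^ 2 / 2)) (𝓝[>] 0) (𝓝 1) := by
    have := hc.tendsto
    simp only [ne_eq, OfNat.ofNat_ne_zero, not_false_eq_true, zero_pow, zero_div, sub_zero,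
      Real.sqrt_one, div_one] at this
    exact this.mono_left nhdsWithin_le_nhds
  refine h1.congr' ?_
  filter_upwards [self_mem_nhdsWithin] with t ht
  unfold h208_rho
  have : t ≠ 0 := ne_of_gt ht
  field_simp

theorem h208_rho_lim : Tendsto h208_rho (𝓝[>] 0) (𝓝[>] 0) := by
  rw [tendsto_nhdsWithin_iff]
  constructor
  · have h1 : Tendsto (fun t : ℝ => t) (𝓝[>] 0) (𝓝 0) := tendsto_id.mono_left nhdsWithin_le_nhds
    have h2 := h208_rho_div.mul h1
    rw [one_mul] at h2
    refine h2.congr' ?_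
    filter_upwards [self_mem_nhdsWithin] with t ht
    have : t ≠ 0 := ne_of_gt ht
    field_simp
  · have : Set.Ioo (0:ℝ) 1 ∈ 𝓝[>] (0:ℝ) := Ioo_mem_nhdsGT one_pos
    filter_upwards [this] with t ht
    exact h208_rho_pos t ht.1 ht.2

theorem h208_ball_lim (d : ℕ) (p : S d) (c : ℝ)
    (h : Tendsto (fun ρ : ℝ => (sg d (cap p ρ)).toReal / ρ ^ d) (𝓝[>] 0) (𝓝 c)) :
    Tendsto (fun t : ℝ => (sg d (Metric.ball p t)).toReal / t ^ d) (𝓝[>] 0) (𝓝 c) := by
  have h1 := (h.comp h208_rho_lim).mul (h208_rho_div.pow d)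
  rw [one_pow, mul_one] at h1
  refine h1.congr' ?_
  have : Set.Ioo (0:ℝ) 1 ∈ 𝓝[>] (0:ℝ) := Ioo_mem_nhdsGT one_pos
  filter_upwards [this] with t ht
  have e := h208_ball d p t ht.1 ht.2
  rw [e]
  have hp := h208_rho_pos t ht.1 ht.2
  have ht0 : t ≠ 0 := ne_of_gt ht.1
  simp only [Function.comp]
  rw [div_pow]
  field_simp

theorem ball_lim (d : ℕ) :
    ∃ c : ℝ, 0 < c ∧ ∀ x : S d,
      Tendsto (fun t : ℝ => (sg d (Metric.closedBall x t)).toReal / t ^ d) (𝓝[>] 0) (𝓝 c) := by
  obtain ⟨p, -⟩ : ∃ p : S d, True := ⟨nrm 0, trivial⟩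
  obtain ⟨c, hc, hlim⟩ := cap_lim d p
  refine ⟨c, hc, fun x => ?_⟩
  have hb := h208_ball_lim d p c hlim
  haveI := sg_prob d
  have hg : Tendsto (fun t : ℝ => t * (1 + t)) (𝓝[>] 0) (𝓝[>] 0) := by
    rw [tendsto_nhdsWithin_iff]
    constructor
    · have : ContinuousAt (fun t : ℝ => t * (1 + t)) 0 := by fun_prop
      have h2 := this.tendsto
      rw [zero_mul] at h2
      exact h2.mono_left nhdsWithin_le_nhds
    · filter_upwards [self_mem_nhdsWithin] with t ht
      have : 0 < t := ht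
      show 0 < t * (1 + t)
      positivity
  have h1 : Tendsto (fun t : ℝ => (1 + t) ^ d) (𝓝[>] 0) (𝓝 1) := by
    have : ContinuousAt (fun t : ℝ => (1 + t) ^ d) 0 := by fun_prop
    have h2 := this.tendsto
    rw [add_zero, one_pow] at h2
    exact h2.mono_left nhdsWithin_le_nhds
  have hb2 := (hb.comp hg).mul h1
  rw [mul_one] at hb2
  refine tendsto_of_tendsto_of_tendsto_of_le_of_le' hb hb2 ?_ ?_
  · filter_upwards [self_mem_nhdsWithin] with t ht
    have ht0 : 0 < t := ht
    rw [h208_cb d x p t]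
    apply div_le_div_of_nonneg_right _ (by positivity)
    exact ENNReal.toReal_mono (measure_ne_top _ _) (measure_mono Metric.ball_subset_closedBall)
  · filter_upwards [self_mem_nhdsWithin] with t ht
    have ht0 : 0 < t := ht
    rw [h208_cb d x p t]
    simp only [Function.comp]
    have e : (sg d (Metric.ball p (t * (1 + t)))).toReal / (t * (1 + t)) ^ d * (1 + t) ^ d =
        (sg d (Metric.ball p (t * (1 + t)))).toReal / t ^ d := by
      rw [mul_pow]
      field_simp
    rw [e]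
    apply div_le_div_of_nonneg_right _ (by positivity)
    apply ENNReal.toReal_mono (measure_ne_top _ _)
    apply measure_mono
    apply Metric.closedBall_subset_ball
    nlinarith

end Pool.Agent.Helper88.SE
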