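import Pool.Agent.Helper88.SE.Defs
import Pool.Agent.Helper88.SE.P_sg_prob
import Pool.Agent.Helper88.SE.P_radial
import Pool.Agent.Helper88.SE.P_ball_lim

set_option autoImplicit false

open MeasureTheory Set Filter Topology
open scoped ENNReal

namespace Pool.Agent.Helper88.SE



theorem auxBB_ball_eq {d : ℕ} (x x' : S d) (t : ℝ) :
    sg d (Metric.closedBall x t) = sg d (Metric.closedBall x' t) := by
  have key : ∀ z : S d, ∫⁻ y, ((Set.Iic t).indicator (fun _ => (1 : ℝ≥0∞))) (dist z y) ∂(sg d) =
      sg d (Metric.closedBall z t) := by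
    intro z
    rw [← lintegral_indicator_one (Metric.isClosed_closedBall.measurableSet)]
    refine lintegral_congr fun y => ?_
    by_cases h : dist z y ≤ t
    · rw [Set.indicator_of_mem (show dist z y ∈ Set.Iic t from h),
        Set.indicator_of_mem (show y ∈ Metric.closedBall z t by
          rw [Metric.mem_closedBall, dist_comm]; exact h)]
      rfl
    · rw [Set.indicator_of_notMem (show dist z y ∉ Set.Iic t from h),
        Set.indicator_of_notMem (show y ∉ Metric.closedBall z t by
          rw [Metric.mem_closedBall, dist_comm]; exact h)]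
  rw [← key x, ← key x']
  exact radial d _ (measurable_const.indicator measurableSet_Iic) x x'

theorem ball_bound (d : ℕ) :
    ∃ C : ℝ, 0 < C ∧ ∀ (x : S d) (t : ℝ), 0 ≤ t →
      (sg d (Metric.closedBall x t)).toReal ≤ C * t ^ d := by
  have := sg_prob d
  obtain ⟨c, hc, hlim⟩ := ball_lim d
  let p : S d := nrm 0
  have h1 := (hlim p).eventually (gt_mem_nhds (show c < c + 1 by linarith))
  rw [eventually_nhdsWithin_iff, Metric.eventually_nhds_iff] at h1
  obtain ⟨t0, ht0, h2⟩ := h1
  have h3 : ∀ (x : S d) (t : ℝ), 0 < t → t < t0 →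
      (sg d (Metric.closedBall x t)).toReal ≤ (c + 1) * t ^ d := by
    intro x t ht htt
    rw [auxBB_ball_eq x p t]
    have h4 := h2 (y := t) (by rw [Real.dist_eq, sub_zero, abs_of_pos ht]; exact htt) ht
    rw [div_lt_iff₀ (pow_pos ht d)] at h4
    exact h4.le
  have h5 : ∀ (x : S d) (t : ℝ), 0 < t →
      (sg d (Metric.closedBall x t)).toReal ≤ ((c + 1) + (t0 ^ d)⁻¹) * t ^ d := by
    intro x t ht
    rcases lt_or_ge t t0 with h | h
    · refine (h3 x t ht h).trans ?_
      have : 0 ≤ (t0 ^ d)⁻¹ * t ^ d := by positivity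
      nlinarith
    · have h6 : (sg d (Metric.closedBall x t)).toReal ≤ 1 := by
        have := prob_le_one (μ := sg d) (s := Metric.closedBall x t)
        exact ENNReal.toReal_le_of_le_ofReal zero_le_one (by simpa using this)
      refine h6.trans ?_
      have h7 : 1 ≤ (t0 ^ d)⁻¹ * t ^ d := by
        rw [← div_eq_inv_mul, one_le_div (pow_pos ht0 d)]
        exact pow_le_pow_left₀ ht0.le h d
      have : 0 ≤ (c + 1) * t ^ d := by positivity
      nlinarith
  refine ⟨(c + 1) + (t0 ^ d)⁻¹, by positivity, ?_⟩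
  intro x t ht
  rcases ht.eq_or_lt with h | h
  · subst h
    have h8 : Tendsto (fun u : ℝ => ((c + 1) + (t0 ^ d)⁻¹) * u ^ d) (𝓝[>] 0)
        (𝓝 (((c + 1) + (t0 ^ d)⁻¹) * 0 ^ d)) := by
      have : Continuous (fun u : ℝ => ((c + 1) + (t0 ^ d)⁻¹) * u ^ d) := by fun_prop
      exact (this.tendsto 0).mono_left nhdsWithin_le_nhds
    refine ge_of_tendsto h8 ?_
    filter_upwards [self_mem_nhdsWithin] with u hu
    refine le_trans ?_ (h5 x u hu)
    refine ENNReal.toReal_mono (measure_ne_top _ _) (measure_mono ?_)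
    exact Metric.closedBall_subset_closedBall (le_of_lt hu)
  · exact h5 x t h

end Pool.Agent.Helper88.SE
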