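import Pool.Agent.Helper88.SE.Defs
import Pool.Agent.Helper88.SE.P_sg_prob
import Pool.Agent.Helper88.SE.P_radial

set_option autoImplicit false

open MeasureTheory Set Filter Topology
open scoped ENNReal

namespace Pool.Agent.Helper88.SE



theorem gg_const (d : ℕ) (u : ℝ) (x : S d) :
    ∫ y, Real.exp (-(u * dist x y)) ∂(sg d) = gg d u := by
  have := sg_prob d
  have hc : ∀ x x' : S d, (∫ y, Real.exp (-(u * dist x y)) ∂(sg d)) = ∫ y, Real.exp (-(u * dist x' y)) ∂(sg d) := by
    intro x x'
    have h1 : ∀ z : S d, (∫ y, Real.exp (-(u * dist z y)) ∂(sg d)) =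
        (∫⁻ y, ENNReal.ofReal (Real.exp (-(u * dist z y))) ∂(sg d)).toReal := by
      intro z
      refine integral_eq_lintegral_of_nonneg_ae (Filter.Eventually.of_forall (fun y => (Real.exp_pos _).le)) ?_
      refine Continuous.aestronglyMeasurable ?_
      fun_prop
    rw [h1, h1]
    congr 1
    exact radial d (fun r => ENNReal.ofReal (Real.exp (-(u * r)))) (by fun_prop) x x'
  unfold gg
  have h2 : (fun x' : S d => ∫ y, Real.exp (-(u * dist x' y)) ∂(sg d)) = fun _ => ∫ y, Real.exp (-(u * dist x y)) ∂(sg d) := by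
    funext x'
    exact hc x' x
  rw [h2, integral_const]
  simp
end Pool.Agent.Helper88.SE
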