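import Pool.Agent.Helper88.SE.Defs
import Pool.Agent.Helper88.SE.P_sg_prob
import Pool.Agent.Helper88.SE.P_gg_const

set_option autoImplicit false

open MeasureTheory Set Filter Topology
open scoped ENNReal

namespace Pool.Agent.Helper88.SE



theorem gg_layer (d : ℕ) (u : ℝ) (hu : 0 < u) (x : S d) :
    gg d u = ∫ v in Ioi (0 : ℝ), Real.exp (-v) * (sg d (Metric.closedBall x (v / u))).toReal := by
  have hprob := sg_prob d
  rw [← gg_const d u x]
  set T : Set (S d × ℝ) := {p | u * dist x p.1 ≤ p.2} with hT
  have hTm : MeasurableSet T := by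
    refine measurableSet_le ?_ measurable_snd
    exact (measurable_const.mul ((continuous_const.dist continuous_fst).measurable))
  have hexp : IntegrableOn (fun v : ℝ => Real.exp (-v)) (Ioi 0) := by
    simpa using integrableOn_exp_neg_Ioi (0 : ℝ)
  have hint : Integrable (T.indicator (fun p : S d × ℝ => Real.exp (-p.2)))
      ((sg d).prod (volume.restrict (Ioi 0))) :=
    (hexp.integrable.comp_snd (sg d)).indicator hTm
  have hswap := integral_integral_swap (f := fun (y : S d) (v : ℝ) =>
    T.indicator (fun p : S d × ℝ => Real.exp (-p.2)) (y, v)) (μ := sg d)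
    (ν := volume.restrict (Ioi (0:ℝ))) hint
  have h1 : ∀ y : S d, ∫ v in Ioi (0 : ℝ), T.indicator (fun p : S d × ℝ => Real.exp (-p.2)) (y, v) =
      Real.exp (-(u * dist x y)) := by
    intro y
    have hr : 0 ≤ u * dist x y := by positivity
    have h2 : ∀ v : ℝ, T.indicator (fun p : S d × ℝ => Real.exp (-p.2)) (y, v) =
        (Ici (u * dist x y)).indicator (fun v => Real.exp (-v)) v := by
      intro v
      by_cases hv : u * dist x y ≤ v
      · rw [indicator_of_mem (show (y, v) ∈ T from hv), indicator_of_mem (show v ∈ Ici _ from hv)]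
      · rw [indicator_of_notMem (show (y, v) ∉ T from hv),
          indicator_of_notMem (show v ∉ Ici _ from hv)]
    simp_rw [h2]
    rw [setIntegral_indicator measurableSet_Ici]
    rcases hr.eq_or_lt with h0 | h0
    · rw [← h0, inter_eq_left.mpr Ioi_subset_Ici_self]
      simpa using integral_exp_neg_Ioi (0 : ℝ)
    · have hsub : Ici (u * dist x y) ⊆ Ioi 0 := fun v hv => lt_of_lt_of_le h0 hv
      rw [inter_eq_right.mpr hsub, integral_Ici_eq_integral_Ioi]
      exact integral_exp_neg_Ioi _
  simp_rw [h1] at hswap
  rw [hswap]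
  refine integral_congr_ae (Eventually.of_forall fun v => ?_)
  beta_reduce
  have h3 : ∀ y : S d, T.indicator (fun p : S d × ℝ => Real.exp (-p.2)) (y, v) =
      (Metric.closedBall x (v / u)).indicator (fun _ => Real.exp (-v)) y := by
    intro y
    by_cases hv : u * dist x y ≤ v
    · rw [indicator_of_mem (show (y, v) ∈ T from hv), indicator_of_mem]
      rw [Metric.mem_closedBall, dist_comm, le_div_iff₀ hu, mul_comm]
      exact hv
    · rw [indicator_of_notMem (show (y, v) ∉ T from hv), indicator_of_notMem]
      rw [Metric.mem_closedBall, dist_comm, le_div_iff₀ hu, mul_comm]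
      exact hv
  simp_rw [h3]
  rw [integral_indicator_const _ Metric.isClosed_closedBall.measurableSet, smul_eq_mul, mul_comm]
  rfl

end Pool.Agent.Helper88.SE
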