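import Pool.Agent.Helper88.SE.Defs
import Pool.Agent.Helper88.SE.P_sg_prob
import Pool.Agent.Helper88.SE.P_ball_bound
import Pool.Agent.Helper88.SE.P_gg_const
import Pool.Agent.Helper88.SE.P_gg_layer

set_option autoImplicit false

open MeasureTheory Set Filter Topology
open scoped ENNReal

namespace Pool.Agent.Helper88.SE



theorem gg_bound (d : ℕ) :
    ∃ C : ℝ, 0 < C ∧ ∀ u : ℝ, 0 < u → 0 < gg d u ∧ gg d u ≤ 1 ∧ gg d u ≤ C * u ^ (-(d : ℝ)) := by
  obtain ⟨C, hC, hb⟩ := ball_bound d
  haveI := sg_prob d
  have hG : 0 < Real.Gamma ((d : ℝ) + 1) := Real.Gamma_pos_of_pos (by positivity)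
  refine ⟨C * Real.Gamma ((d : ℝ) + 1), by positivity, fun u hu => ?_⟩
  let x : S d := ⟨EuclideanSpace.single 0 1, by simp⟩
  have hcont : Continuous fun y : S d => Real.exp (-(u * dist x y)) := by fun_prop
  have hle : ∀ y : S d, Real.exp (-(u * dist x y)) ≤ 1 := fun y => by
    rw [Real.exp_le_one_iff]
    have : 0 ≤ u * dist x y := by positivity
    linarith
  have hint : Integrable (fun y : S d => Real.exp (-(u * dist x y))) (sg d) := by
    refine Integrable.of_bound hcont.aestronglyMeasurable 1 (Eventually.of_forall fun y => ?_)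
    rw [Real.norm_eq_abs, abs_of_pos (Real.exp_pos _)]
    exact hle y
  refine ⟨?_, ?_, ?_⟩
  · rw [← gg_const d u x, integral_pos_iff_support_of_nonneg (fun y => (Real.exp_pos _).le) hint]
    have : Function.support (fun y : S d => Real.exp (-(u * dist x y))) = univ := by
      ext y; simp [Real.exp_ne_zero]
    rw [this, measure_univ]
    exact zero_lt_one
  · rw [← gg_const d u x]
    calc ∫ y, Real.exp (-(u * dist x y)) ∂(sg d) ≤ ∫ _y : S d, (1 : ℝ) ∂(sg d) :=
          integral_mono hint (integrable_const _) hle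
      _ = 1 := by simp
  · rw [gg_layer d u hu x]
    have hconv := Real.GammaIntegral_convergent (s := (d : ℝ) + 1) (by positivity)
    have hconv2 : IntegrableOn (fun v : ℝ => (C * u ^ (-(d : ℝ))) *
        (Real.exp (-v) * v ^ ((d : ℝ) + 1 - 1))) (Ioi 0) := hconv.const_mul _
    calc ∫ v in Ioi (0 : ℝ), Real.exp (-v) * (sg d (Metric.closedBall x (v / u))).toReal
        ≤ ∫ v in Ioi (0 : ℝ), (C * u ^ (-(d : ℝ))) * (Real.exp (-v) * v ^ ((d : ℝ) + 1 - 1)) := by
          refine integral_mono_of_nonneg ?_ hconv2 ?_
          · exact Eventually.of_forall fun v => by positivity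
          · refine (ae_restrict_iff' measurableSet_Ioi).2 (Eventually.of_forall fun v hv => ?_)
            have hv' : (0 : ℝ) < v := hv
            have h1 := hb x (v / u) (by positivity)
            have h2 : C * (v / u) ^ d = (C * u ^ (-(d : ℝ))) * v ^ ((d : ℝ) + 1 - 1) := by
              rw [add_sub_cancel_right, Real.rpow_natCast, Real.rpow_neg hu.le, Real.rpow_natCast,
                div_pow]
              ring
            calc Real.exp (-v) * (sg d (Metric.closedBall x (v / u))).toReal
                ≤ Real.exp (-v) * (C * (v / u) ^ d) :=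
                  mul_le_mul_of_nonneg_left h1 (Real.exp_pos _).le
              _ = (C * u ^ (-(d : ℝ))) * (Real.exp (-v) * v ^ ((d : ℝ) + 1 - 1)) := by
                  rw [h2]; ring
      _ = C * Real.Gamma ((d : ℝ) + 1) * u ^ (-(d : ℝ)) := by
          rw [integral_const_mul, ← Real.Gamma_eq_integral (by positivity)]
          ring

end Pool.Agent.Helper88.SE
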