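import Pool.Agent.Helper88.SE.Defs
import Pool.Agent.Helper88.SE.P_sg_prob
import Pool.Agent.Helper88.SE.P_rot_mp
import Pool.Agent.Helper88.SE.P_sg_open
import Pool.Agent.Helper88.SE.P_radial

set_option autoImplicit false

open MeasureTheory Set Filter Topology
open scoped ENNReal

namespace Pool.Agent.Helper88.SE



theorem hyp1_oneD_aux (a b : ℝ) (ha : a ∈ Icc (-1:ℝ) 1) (hb : b ∈ Icc (-1:ℝ) 1) (hab : a ≤ b) :
    ∫⁻ t, (if decide (a ≤ t) = decide (b ≤ t) then (1:ℝ≥0∞) else 0)
      ∂((2⁻¹ : ℝ≥0∞) • (volume : Measure ℝ).restrict (Icc (-1) 1)) =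
      ENNReal.ofReal (1 - |a - b| / 2) := by
  rw [lintegral_smul_measure]
  have h1 : (fun t : ℝ => if decide (a ≤ t) = decide (b ≤ t) then (1:ℝ≥0∞) else 0) =
      (Ico a b)ᶜ.indicator (fun _ => (1:ℝ≥0∞)) := by
    funext t
    by_cases h : t ∈ Ico a b
    · have h' : t ∉ (Ico a b)ᶜ := fun h2 => h2 h
      rw [Set.indicator_of_notMem h']
      have e1 : decide (a ≤ t) = true := by simpa using h.1
      have e2 : decide (b ≤ t) = false := by simpa using h.2
      rw [e1, e2]; simp
    · have h' : t ∈ (Ico a b)ᶜ := h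
      rw [Set.indicator_of_mem h']
      have e1 : decide (a ≤ t) = decide (b ≤ t) := by
        by_cases h3 : a ≤ t
        · have h4 : b ≤ t := by
            by_contra h5
            exact h ⟨h3, not_le.mp h5⟩
          simp [h3, h4]
        · have h4 : ¬ b ≤ t := fun h5 => h3 (hab.trans h5)
          simp [h3, h4]
      rw [if_pos e1]
  rw [h1, lintegral_indicator (measurableSet_Ico.compl), setLIntegral_const, one_mul,
    Measure.restrict_apply (measurableSet_Ico.compl)]
  have h2 : (Ico a b)ᶜ ∩ Icc (-1:ℝ) 1 = Icc (-1:ℝ) 1 \ Ico a b := by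
    rw [Set.inter_comm]; rfl
  have h3 : Ico a b ⊆ Icc (-1:ℝ) 1 := fun t ht => ⟨ha.1.trans ht.1, ht.2.le.trans hb.2⟩
  rw [h2, measure_diff h3 measurableSet_Ico.nullMeasurableSet (by simp), Real.volume_Icc,
    Real.volume_Ico, ← ENNReal.ofReal_sub _ (sub_nonneg.mpr hab), smul_eq_mul]
  have h4 : (2⁻¹ : ℝ≥0∞) = ENNReal.ofReal (2⁻¹ : ℝ) := by
    rw [ENNReal.ofReal_inv_of_pos (by norm_num)]; simp
  rw [h4, ← ENNReal.ofReal_mul (by norm_num), abs_of_nonpos (sub_nonpos.mpr hab)]
  congr 1
  ring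

theorem hyp1_oneD (a b : ℝ) (ha : a ∈ Icc (-1:ℝ) 1) (hb : b ∈ Icc (-1:ℝ) 1) :
    ∫⁻ t, (if decide (a ≤ t) = decide (b ≤ t) then (1:ℝ≥0∞) else 0)
      ∂((2⁻¹ : ℝ≥0∞) • (volume : Measure ℝ).restrict (Icc (-1) 1)) =
      ENNReal.ofReal (1 - |a - b| / 2) := by
  rcases le_total a b with hab | hab
  · exact hyp1_oneD_aux a b ha hb hab
  · rw [abs_sub_comm a b, ← hyp1_oneD_aux b a hb ha hab]
    refine lintegral_congr fun t => ?_
    simp only [eq_comm]

theorem hyp1_cont (d : ℕ) (w : E d) : Continuous fun n : S d => |inner ℝ (n : E d) w| := by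
  fun_prop

theorem hyp1_rot (d : ℕ) (e w : E d) (he : ‖e‖ = 1) :
    ∫ n : S d, |inner ℝ (n : E d) w| ∂(sg d) = ‖w‖ * ∫ n : S d, |inner ℝ (n : E d) e| ∂(sg d) := by
  rcases eq_or_ne w 0 with rfl | hw
  · simp
  have hn : ‖w‖ ≠ 0 := norm_ne_zero_iff.mpr hw
  set w' : E d := ‖w‖⁻¹ • w with hw'
  have hw1 : ‖w'‖ = 1 := by rw [hw', norm_smul, norm_inv, norm_norm, inv_mul_cancel₀ hn]
  have hww : w = ‖w‖ • w' := by rw [hw', smul_smul, mul_inv_cancel₀ hn, one_smul]
  let g : Iso d := (ℝ ∙ (e - w'))ᗮ.reflection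
  have hg : g e = w' := Submodule.reflection_sub (by rw [he, hw1])
  have h1 : ∫ n : S d, |inner ℝ (n : E d) w'| ∂(sg d) = ∫ n : S d, |inner ℝ (n : E d) e| ∂(sg d) := by
    have hm := rot_mp d g
    conv_lhs => rw [← hm.map_eq]
    rw [integral_map hm.measurable.aemeasurable (hyp1_cont d w').aestronglyMeasurable]
    refine integral_congr_ae (Filter.Eventually.of_forall fun n => ?_)
    show |inner ℝ (g (n : E d)) w'| = |inner ℝ (n : E d) e|
    rw [← hg, g.inner_map_map]
  rw [← h1, ← integral_const_mul]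
  refine integral_congr_ae (Filter.Eventually.of_forall fun n => ?_)
  show |inner ℝ (n : E d) w| = ‖w‖ * |inner ℝ (n : E d) w'|
  conv_lhs => rw [hww]
  rw [inner_smul_right, abs_mul, abs_of_nonneg (norm_nonneg w)]

theorem hyp1 (d : ℕ) :
    ∃ κ : ℝ, 0 < κ ∧ κ ≤ 1 / 2 ∧ ∃ (Ω : Type) (_ : MeasurableSpace Ω) (P : Measure Ω)
      (A : Ω → S d → Bool), IsProbabilityMeasure P ∧
      Measurable (fun p : Ω × S d => A p.1 p.2) ∧
      ∀ u v : S d, ∫⁻ ω, (if A ω u = A ω v then (1 : ℝ≥0∞) else 0) ∂P =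
        ENNReal.ofReal (1 - κ * dist u v) := by
  classical
  haveI := sg_prob d
  haveI := sg_open d
  let e0 : E d := EuclideanSpace.single 0 1
  have he0 : ‖e0‖ = 1 := by simp [e0]
  let eS : S d := ⟨e0, by simp [he0]⟩
  have hb1 : ∀ (w : E d) (n : S d), |inner ℝ (n : E d) w| ≤ ‖w‖ := by
    intro w n
    have h := abs_real_inner_le_norm (n : E d) w
    have h2 : ‖(n : E d)‖ = 1 := by simpa using n.2
    rw [h2, one_mul] at h
    exact h
  have hint : ∀ w : E d, Integrable (fun n : S d => |inner ℝ (n : E d) w|) (sg d) := by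
    intro w
    refine Integrable.of_bound (hyp1_cont d w).aestronglyMeasurable ‖w‖
      (Filter.Eventually.of_forall fun n => ?_)
    rw [Real.norm_eq_abs, abs_abs]
    exact hb1 w n
  set c : ℝ := ∫ n : S d, |inner ℝ (n : E d) e0| ∂(sg d) with hc
  have hc1 : c ≤ 1 := by
    have h := integral_mono (hint e0) (integrable_const (1:ℝ)) (fun n => (hb1 e0 n).trans he0.le)
    simpa using h
  have hc0 : 0 < c := by
    rw [hc, integral_pos_iff_support_of_nonneg (fun n => abs_nonneg _) (hint e0)]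
    have ho : IsOpen (Function.support fun n : S d => |inner ℝ (n : E d) e0|) :=
      (hyp1_cont d e0).isOpen_support
    refine ho.measure_pos (sg d) ⟨eS, ?_⟩
    show |inner ℝ e0 e0| ≠ 0
    rw [real_inner_self_eq_norm_sq, he0]; norm_num
  refine ⟨c / 2, by positivity, by linarith, S d × ℝ, inferInstance,
    (sg d).prod ((2⁻¹ : ℝ≥0∞) • (volume : Measure ℝ).restrict (Icc (-1) 1)),
    fun p u => decide (inner ℝ (p.1 : E d) (u : E d) ≤ p.2), ?_, ?_, ?_⟩
  · haveI : IsProbabilityMeasure ((2⁻¹ : ℝ≥0∞) • (volume : Measure ℝ).restrict (Icc (-1) 1)) := by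
      constructor
      rw [Measure.smul_apply, Measure.restrict_apply MeasurableSet.univ, Set.univ_inter,
        Real.volume_Icc, smul_eq_mul]
      have h2 : ENNReal.ofReal (1 - (-1)) = 2 := by norm_num
      rw [h2]
      exact ENNReal.inv_mul_cancel (by norm_num) (by norm_num)
    infer_instance
  · refine measurable_to_bool ?_
    have h1 : Measurable fun p : (S d × ℝ) × S d => inner ℝ (p.1.1 : E d) (p.2 : E d) :=
      (measurable_subtype_coe.comp (measurable_fst.comp measurable_fst)).inner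
        (measurable_subtype_coe.comp measurable_snd)
    have h2 : Measurable fun p : (S d × ℝ) × S d => p.1.2 := measurable_snd.comp measurable_fst
    have h3 := measurableSet_le h1 h2
    convert h3 using 1
    ext p
    simp
  · intro u v
    have hmem : ∀ (n w : S d), inner ℝ (n : E d) (w : E d) ∈ Icc (-1:ℝ) 1 := by
      intro n w
      have h := hb1 (w : E d) n
      have h2 : ‖(w : E d)‖ = 1 := by simpa using w.2
      rw [h2] at h
      exact abs_le.mp h
    have hmeas : Measurable fun p : S d × ℝ =>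
        (if decide (inner ℝ (p.1 : E d) (u : E d) ≤ p.2) = decide (inner ℝ (p.1 : E d) (v : E d) ≤ p.2)
          then (1:ℝ≥0∞) else 0) := by
      have hA : ∀ w : S d, Measurable fun p : S d × ℝ => decide (inner ℝ (p.1 : E d) (w : E d) ≤ p.2) := by
        intro w
        refine measurable_to_bool ?_
        have h1 : Measurable fun p : S d × ℝ => inner ℝ (p.1 : E d) (w : E d) :=
          (measurable_subtype_coe.comp measurable_fst).inner measurable_const
        have h3 := measurableSet_le h1 (measurable_snd : Measurable fun p : S d × ℝ => p.2)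
        convert h3 using 1
        ext p
        simp
      refine Measurable.ite ?_ measurable_const measurable_const
      exact measurableSet_eq_fun (hA u) (hA v)
    rw [lintegral_prod _ hmeas.aemeasurable]
    have h1 : ∀ n : S d, ∫⁻ t, (if decide (inner ℝ (n : E d) (u : E d) ≤ t) =
        decide (inner ℝ (n : E d) (v : E d) ≤ t) then (1:ℝ≥0∞) else 0)
        ∂((2⁻¹ : ℝ≥0∞) • (volume : Measure ℝ).restrict (Icc (-1) 1)) =
        ENNReal.ofReal (1 - |inner ℝ (n : E d) ((u : E d) - v)| / 2) := by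
      intro n
      rw [hyp1_oneD _ _ (hmem n u) (hmem n v), inner_sub_right]
    simp only [h1]
    have hi : Integrable (fun n : S d => 1 - |inner ℝ (n : E d) ((u : E d) - v)| / 2) (sg d) :=
      (integrable_const 1).sub ((hint _).div_const 2)
    rw [← ofReal_integral_eq_lintegral_ofReal hi, integral_sub (integrable_const 1) ((hint _).div_const 2),
      integral_div, hyp1_rot d e0 _ he0]
    · congr 1
      rw [← hc, ← dist_eq_norm, Subtype.dist_eq]
      simp
      ring
    · refine Filter.Eventually.of_forall fun n => ?_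
      show (0:ℝ) ≤ 1 - |inner ℝ (n : E d) ((u : E d) - v)| / 2
      have h2 := hmem n u
      have h3 := hmem n v
      rw [inner_sub_right]
      have h4 : |inner ℝ (n : E d) (u : E d) - inner ℝ (n : E d) (v : E d)| ≤ 2 := by
        rw [abs_le]
        constructor <;> linarith [h2.1, h2.2, h3.1, h3.2]
      linarith

end Pool.Agent.Helper88.SE
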