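import Pool.Agent.Helper88.SE.Defs
import Pool.Agent.Helper88.SE.P_hyp1

set_option autoImplicit false

open MeasureTheory Set Filter Topology
open scoped ENNReal

namespace Pool.Agent.Helper88.SE



theorem hyp (d : ℕ) :
    ∃ κ : ℝ, 0 < κ ∧ κ ≤ 1 / 2 ∧ ∀ k : ℕ, ∃ (Ω : Type) (_ : MeasurableSpace Ω) (P : Measure Ω)
      (A : Ω → S d → (Fin k → Bool)), IsProbabilityMeasure P ∧
      Measurable (fun p : Ω × S d => A p.1 p.2) ∧
      ∀ u v : S d, ∫⁻ ω, (if A ω u = A ω v then (1 : ℝ≥0∞) else 0) ∂P =
        ENNReal.ofReal ((1 - κ * dist u v) ^ k) := by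
  obtain ⟨κ, hκ0, hκ1, Ω, mΩ, P, A, hP, hA, hint⟩ := hyp1 d
  refine ⟨κ, hκ0, hκ1, fun k => ⟨Fin k → Ω, inferInstance, Measure.pi (fun _ => P),
    fun w u i => A (w i) u, inferInstance, ?_, fun u v => ?_⟩⟩
  · rw [measurable_pi_iff]
    intro i
    have h0 : Measurable (fun p : (Fin k → Ω) × S d => (p.1 i, p.2)) :=
      ((measurable_pi_apply i).comp measurable_fst).prodMk measurable_snd
    exact hA.comp h0
  · have hT : MeasurableSet {ω : Ω | A ω u = A ω v} := by
      have h1 : Measurable (fun ω => (A ω u, A ω v)) :=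
        (hA.comp (measurable_id.prodMk measurable_const)).prodMk
          (hA.comp (measurable_id.prodMk measurable_const))
      exact h1 (MeasurableSet.of_discrete (s := {q : Bool × Bool | q.1 = q.2}))
    have hPT : P {ω : Ω | A ω u = A ω v} = ENNReal.ofReal (1 - κ * dist u v) := by
      rw [← hint u v, ← lintegral_indicator_one hT]
      refine lintegral_congr fun ω => ?_
      by_cases h : A ω u = A ω v
      · rw [if_pos h, Set.indicator_of_mem (show ω ∈ {ω | A ω u = A ω v} from h)]
        rfl
      · rw [if_neg h, Set.indicator_of_notMem (show ω ∉ {ω | A ω u = A ω v} from h)]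
    have hpi : {w : Fin k → Ω | (fun i => A (w i) u) = fun i => A (w i) v} =
        Set.pi Set.univ (fun _ : Fin k => {ω : Ω | A ω u = A ω v}) := by
      ext w
      simp only [Set.mem_setOf_eq, Set.mem_pi, Set.mem_univ, true_implies]
      exact funext_iff
    have hmeas : MeasurableSet {w : Fin k → Ω | (fun i => A (w i) u) = fun i => A (w i) v} := by
      rw [hpi]
      exact MeasurableSet.univ_pi fun _ => hT
    have h2 : ∫⁻ w : Fin k → Ω, (if (fun i => A (w i) u) = (fun i => A (w i) v)
        then (1 : ℝ≥0∞) else 0) ∂(Measure.pi (fun _ => P)) =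
        (Measure.pi (fun _ : Fin k => P)) {w | (fun i => A (w i) u) = fun i => A (w i) v} := by
      rw [← lintegral_indicator_one hmeas]
      refine lintegral_congr fun w => ?_
      by_cases h : (fun i => A (w i) u) = fun i => A (w i) v
      · rw [if_pos h, Set.indicator_of_mem (show w ∈ {w : Fin k → Ω | (fun i => A (w i) u) =
          fun i => A (w i) v} from h)]
        rfl
      · rw [if_neg h, Set.indicator_of_notMem (show w ∉ {w : Fin k → Ω | (fun i => A (w i) u) =
          fun i => A (w i) v} from h)]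
    rw [h2, hpi, Measure.pi_pi, Finset.prod_const, Finset.card_univ, Fintype.card_fin, hPT,
      ENNReal.ofReal_pow]
    have hd : dist u v ≤ 2 := by
      have h3 : dist (u : E d) (v : E d) ≤ dist (u : E d) 0 + dist 0 (v : E d) :=
        dist_triangle _ _ _
      have h4 : dist (u : E d) 0 = 1 := u.2
      have h5 : dist (0 : E d) (v : E d) = 1 := by rw [dist_comm]; exact v.2
      rw [h4, h5] at h3
      calc dist u v = dist (u : E d) (v : E d) := rfl
        _ ≤ 1 + 1 := h3
        _ = 2 := by norm_num
    nlinarith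

end Pool.Agent.Helper88.SE
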