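import Pool.Agent.Helper88.SE.Defs
import Pool.Agent.Helper88.SE.P_sg_prob
import Pool.Agent.Helper88.SE.P_radial

set_option autoImplicit false

open MeasureTheory Set Filter Topology
open scoped ENNReal

namespace Pool.Agent.Helper88.SE



section pdkAux

set_option linter.unusedSectionVars false

variable {X Ω L : Type} [MeasurableSpace X] [MeasurableSpace Ω] [MeasurableSpace L]
  [Fintype L] [DecidableEq L] [MeasurableSingletonClass L]

/-- indicator of a label -/
noncomputable def chiA (A : Ω → X → L) (a : L) (ω : Ω) (u : X) : ℝ := if A ω u = a then 1 else 0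

theorem chiA_meas (A : Ω → X → L) (hA : Measurable (fun p : Ω × X => A p.1 p.2)) (a : L) :
    Measurable (fun p : Ω × X => chiA A a p.1 p.2) := by
  unfold chiA
  exact Measurable.ite (hA (measurableSet_singleton a)) measurable_const measurable_const

theorem chiA_nonneg (A : Ω → X → L) (a : L) (ω : Ω) (u : X) : 0 ≤ chiA A a ω u := by
  unfold chiA
  split_ifs <;> norm_num

theorem chiA_le (A : Ω → X → L) (a : L) (ω : Ω) (u : X) : chiA A a ω u ≤ 1 := by
  unfold chiA
  split_ifs <;> norm_num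

theorem phi_eq (A : Ω → X → L) (ω : Ω) (u v : X) :
    (if A ω u = A ω v then (1 : ℝ) else 0) = ∑ a, chiA A a ω u * chiA A a ω v := by
  unfold chiA
  simp only [ite_mul, one_mul, zero_mul]
  rw [Finset.sum_ite_eq]
  simp [eq_comm]

theorem pdk_aux (σ : Measure X) [IsProbabilityMeasure σ] (P : Measure Ω) [IsProbabilityMeasure P]
    (A : Ω → X → L) (hA : Measurable (fun p : Ω × X => A p.1 p.2)) (p : X → X → ℝ)
    (hp : ∀ u v, ∫ ω, (if A ω u = A ω v then (1 : ℝ) else 0) ∂P = p u v) (N : ℕ)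
    (x : Fin N → X) :
    0 ≤ ∑ i, ∑ j, p (x i) (x j) - 2 * N * ∑ i, ∫ v, p (x i) v ∂σ +
      (N : ℝ) ^ 2 * ∫ u, ∫ v, p u v ∂σ ∂σ := by
  -- measurability in one variable
  have hχm := fun a => chiA_meas A hA a
  have hχω : ∀ a u, Measurable (fun ω => chiA A a ω u) := fun a u =>
    (hχm a).comp (measurable_id.prodMk measurable_const)
  have hχu : ∀ a ω, Measurable (fun u => chiA A a ω u) := fun a ω =>
    (hχm a).comp (measurable_const.prodMk measurable_id)
  have hχb : ∀ a ω u, ‖chiA A a ω u‖ ≤ 1 := fun a ω u => by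
    rw [Real.norm_of_nonneg (chiA_nonneg A a ω u)]
    exact chiA_le A a ω u
  have hχi : ∀ a ω, Integrable (fun u => chiA A a ω u) σ := fun a ω =>
    Integrable.of_bound (hχu a ω).aestronglyMeasurable 1 (Eventually.of_forall (hχb a ω))
  -- the integrated labels
  set q : L → Ω → ℝ := fun a ω => ∫ u, chiA A a ω u ∂σ with hq
  have hqm : ∀ a, Measurable (q a) := fun a =>
    ((hχm a).stronglyMeasurable.integral_prod_right').measurable
  have hqb : ∀ a ω, ‖q a ω‖ ≤ 1 := fun a ω => by
    have := norm_integral_le_of_norm_le_const (μ := σ) (Eventually.of_forall (hχb a ω))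
    simpa using this
  -- the kernel
  set φ : Ω → X → X → ℝ := fun ω u v => ∑ a, chiA A a ω u * chiA A a ω v with hφ
  have hφp : ∀ u v, ∫ ω, φ ω u v ∂P = p u v := by
    intro u v
    rw [← hp u v]
    congr 1
    funext ω
    exact (phi_eq A ω u v).symm
  have hφv : ∀ ω u, ∫ v, φ ω u v ∂σ = ∑ a, chiA A a ω u * q a ω := by
    intro ω u
    rw [hφ]
    simp only
    rw [integral_finsetSum _ (fun a _ => (hχi a ω).const_mul _)]
    exact Finset.sum_congr rfl fun a _ => integral_const_mul _ _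
  have hφuv : ∀ ω, ∫ u, ∫ v, φ ω u v ∂σ ∂σ = ∑ a, q a ω ^ 2 := by
    intro ω
    simp only [hφv]
    rw [integral_finsetSum _ (fun a _ => (hχi a ω).mul_const _)]
    refine Finset.sum_congr rfl fun a _ => ?_
    rw [integral_mul_const]
    exact (sq _).symm
  -- joint measurability of the kernel
  have hφm3 : Measurable (fun t : Ω × (X × X) => φ t.1 t.2.1 t.2.2) := by
    rw [hφ]
    refine Finset.measurable_sum _ fun a _ => ?_
    exact ((hχm a).comp (measurable_fst.prodMk (measurable_fst.comp measurable_snd))).mul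
      ((hχm a).comp (measurable_fst.prodMk (measurable_snd.comp measurable_snd)))
  have hφb : ∀ ω u v, ‖φ ω u v‖ ≤ 1 := by
    intro ω u v
    show ‖∑ a, chiA A a ω u * chiA A a ω v‖ ≤ 1
    rw [← phi_eq]
    split_ifs <;> simp
  -- Fubini
  have F1 : ∀ u, ∫ ω, ∫ v, φ ω u v ∂σ ∂P = ∫ v, p u v ∂σ := by
    intro u
    rw [integral_integral_swap]
    · exact integral_congr_ae (Eventually.of_forall fun v => hφp u v)
    · refine Integrable.of_bound ?_ 1 (Eventually.of_forall fun t => hφb _ _ _)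
      exact (hφm3.comp (measurable_fst.prodMk
        (measurable_const.prodMk measurable_snd))).aestronglyMeasurable
  have F2 : ∫ ω, ∫ u, ∫ v, φ ω u v ∂σ ∂σ ∂P = ∫ u, ∫ v, p u v ∂σ ∂σ := by
    rw [integral_integral_swap]
    · exact integral_congr_ae (Eventually.of_forall fun u => F1 u)
    · refine Integrable.of_bound ?_ 1 (Eventually.of_forall fun t => ?_)
      · have : StronglyMeasurable (fun t : (Ω × X) × X => φ t.1.1 t.1.2 t.2) :=
          (hφm3.comp ((measurable_fst.comp measurable_fst).prodMk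
            ((measurable_snd.comp measurable_fst).prodMk measurable_snd))).stronglyMeasurable
        exact (this.integral_prod_right').aestronglyMeasurable
      · have := norm_integral_le_of_norm_le_const (μ := σ)
          (Eventually.of_forall (hφb t.1 t.2))
        show ‖∫ v, φ t.1 t.2 v ∂σ‖ ≤ 1
        simpa using this
  -- the main inequality
  have hpt : ∀ ω, 0 ≤ ∑ i, ∑ j, φ ω (x i) (x j) - 2 * N * ∑ i, ∫ v, φ ω (x i) v ∂σ +
      (N : ℝ) ^ 2 * ∫ u, ∫ v, φ ω u v ∂σ ∂σ := by
    intro ω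
    rw [hφuv ω]
    simp only [hφv]
    have e : ∑ i, ∑ j, φ ω (x i) (x j) - 2 * N * ∑ i, ∑ a, chiA A a ω (x i) * q a ω +
        (N : ℝ) ^ 2 * ∑ a, q a ω ^ 2 =
        ∑ a, ((∑ i, chiA A a ω (x i)) - N * q a ω) ^ 2 := by
      have e1 : ∑ i, ∑ j, φ ω (x i) (x j) = ∑ a, (∑ i, chiA A a ω (x i)) ^ 2 := by
        show ∑ i, ∑ j, ∑ a, chiA A a ω (x i) * chiA A a ω (x j) = _
        rw [Finset.sum_congr rfl fun i _ => Finset.sum_comm, Finset.sum_comm]
        refine Finset.sum_congr rfl fun a _ => ?_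
        rw [sq, Finset.sum_mul_sum]
      have e2 : ∑ i, ∑ a, chiA A a ω (x i) * q a ω = ∑ a, (∑ i, chiA A a ω (x i)) * q a ω := by
        rw [Finset.sum_comm]
        exact Finset.sum_congr rfl fun a _ => (Finset.sum_mul _ _ _).symm
      rw [e1, e2, Finset.mul_sum, Finset.mul_sum, ← Finset.sum_sub_distrib,
        ← Finset.sum_add_distrib]
      exact Finset.sum_congr rfl fun a _ => by ring
    rw [e]
    exact Finset.sum_nonneg fun a _ => sq_nonneg _
  have I1 : ∀ i j, Integrable (fun ω => φ ω (x i) (x j)) P := fun i j =>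
    Integrable.of_bound (hφm3.comp (measurable_id.prodMk
      (measurable_const.prodMk measurable_const))).aestronglyMeasurable 1
      (Eventually.of_forall fun ω => hφb _ _ _)
  have I2 : ∀ i, Integrable (fun ω => ∫ v, φ ω (x i) v ∂σ) P := by
    intro i
    simp only [hφv]
    refine integrable_finsetSum _ fun a _ => ?_
    refine Integrable.of_bound ((hχω a _).mul (hqm a)).aestronglyMeasurable 1
      (Eventually.of_forall fun ω => ?_)
    rw [norm_mul]
    exact mul_le_one₀ (hχb _ _ _) (norm_nonneg _) (hqb _ _)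
  have I3 : Integrable (fun ω => ∫ u, ∫ v, φ ω u v ∂σ ∂σ) P := by
    simp only [hφuv]
    refine integrable_finsetSum _ fun a _ => ?_
    refine Integrable.of_bound ((hqm a).pow_const 2).aestronglyMeasurable 1
      (Eventually.of_forall fun ω => ?_)
    rw [norm_pow]
    exact pow_le_one₀ (norm_nonneg _) (hqb _ _)
  have J1 : Integrable (fun ω => ∑ i, ∑ j, φ ω (x i) (x j)) P :=
    integrable_finsetSum _ fun i _ => integrable_finsetSum _ fun j _ => I1 i j
  have J2 : Integrable (fun ω => ∑ i, ∫ v, φ ω (x i) v ∂σ) P :=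
    integrable_finsetSum _ fun i _ => I2 i
  have h0 : 0 ≤ ∫ ω, (∑ i, ∑ j, φ ω (x i) (x j) - 2 * N * ∑ i, ∫ v, φ ω (x i) v ∂σ +
      (N : ℝ) ^ 2 * ∫ u, ∫ v, φ ω u v ∂σ ∂σ) ∂P := integral_nonneg hpt
  have J2' : Integrable (fun ω => 2 * (N : ℝ) * ∑ i, ∫ v, φ ω (x i) v ∂σ) P := J2.const_mul _
  have J12 : Integrable (fun ω => ∑ i, ∑ j, φ ω (x i) (x j) -
      2 * (N : ℝ) * ∑ i, ∫ v, φ ω (x i) v ∂σ) P := J1.sub J2'
  have J3 : Integrable (fun ω => (N : ℝ) ^ 2 * ∫ u, ∫ v, φ ω u v ∂σ ∂σ) P := I3.const_mul _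
  rw [integral_add J12 J3, integral_sub J1 J2',
    integral_const_mul, integral_const_mul, F2,
    integral_finsetSum _ (fun i _ => integrable_finsetSum _ fun j _ => I1 i j),
    integral_finsetSum _ (fun i _ => I2 i)] at h0
  simp only [F1] at h0
  have e3 : ∀ i, ∫ ω, ∑ j, φ ω (x i) (x j) ∂P = ∑ j, p (x i) (x j) := by
    intro i
    rw [integral_finsetSum _ (fun j _ => I1 i j)]
    exact Finset.sum_congr rfl fun j _ => hφp _ _
  simp only [e3] at h0
  exact h0

end pdkAux

theorem pdk (d k : ℕ) (κ : ℝ) (hκ : 0 < κ) (hκ2 : κ ≤ 1 / 2)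
    (Ω : Type) [MeasurableSpace Ω] (P : Measure Ω) [IsProbabilityMeasure P]
    (A : Ω → S d → (Fin k → Bool)) (hA : Measurable (fun p : Ω × S d => A p.1 p.2))
    (hp : ∀ u v : S d, ∫⁻ ω, (if A ω u = A ω v then (1 : ℝ≥0∞) else 0) ∂P =
        ENNReal.ofReal ((1 - κ * dist u v) ^ k)) (N : ℕ) (x : Fin N → S d) :
    (N : ℝ) ^ 2 * ∫ u : S d, ∫ v : S d, (1 - κ * dist u v) ^ k ∂(sg d) ∂(sg d) ≤
      ∑ i, ∑ j, (1 - κ * dist (x i) (x j)) ^ k := by
  have hprob := sg_prob d
  have hd2 : ∀ u v : S d, dist u v ≤ 2 := by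
    intro u v
    rw [Subtype.dist_eq]
    have hu : dist (u : E d) 0 = 1 := by simp
    have hv : dist 0 (v : E d) = 1 := by simp
    have := dist_triangle (u : E d) 0 v
    linarith
  have hnn : ∀ u v : S d, 0 ≤ 1 - κ * dist u v := by
    intro u v
    have h1 := hd2 u v
    have h2 : 0 ≤ dist u v := dist_nonneg
    nlinarith
  have hpk : ∀ u v : S d, 0 ≤ (1 - κ * dist u v) ^ k := fun u v => pow_nonneg (hnn u v) k
  have hpr : ∀ u v : S d, ∫ ω, (if A ω u = A ω v then (1 : ℝ) else 0) ∂P =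
      (1 - κ * dist u v) ^ k := by
    intro u v
    have hm : Measurable (fun ω => (if A ω u = A ω v then (1 : ℝ) else 0)) := by
      simp only [phi_eq A _ u v]
      refine Finset.measurable_sum _ fun a _ => ?_
      exact ((chiA_meas A hA a).comp (measurable_id.prodMk measurable_const)).mul
        ((chiA_meas A hA a).comp (measurable_id.prodMk measurable_const))
    rw [integral_eq_lintegral_of_nonneg_ae (Eventually.of_forall fun ω => by
      show (0 : ℝ) ≤ if A ω u = A ω v then (1 : ℝ) else 0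
      split_ifs <;> norm_num) hm.aestronglyMeasurable]
    have : ∀ ω, ENNReal.ofReal (if A ω u = A ω v then (1 : ℝ) else 0) =
        if A ω u = A ω v then (1 : ℝ≥0∞) else 0 := by
      intro ω
      split_ifs <;> simp
    simp only [this]
    rw [hp u v, ENNReal.toReal_ofReal (hpk u v)]
  have hmain := pdk_aux (sg d) P A hA (fun u v => (1 - κ * dist u v) ^ k) hpr N x
  have hconst : ∀ u u' : S d, ∫ v : S d, (1 - κ * dist u v) ^ k ∂(sg d) =
      ∫ v : S d, (1 - κ * dist u' v) ^ k ∂(sg d) := by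
    intro u u'
    have hc : ∀ w : S d, Continuous (fun v : S d => (1 - κ * dist w v) ^ k) := by
      intro w
      fun_prop
    rw [integral_eq_lintegral_of_nonneg_ae (Eventually.of_forall fun v => hpk u v)
        (hc u).aestronglyMeasurable,
      integral_eq_lintegral_of_nonneg_ae (Eventually.of_forall fun v => hpk u' v)
        (hc u').aestronglyMeasurable]
    congr 1
    exact radial d (fun t => ENNReal.ofReal ((1 - κ * t) ^ k)) (by fun_prop) u u'
  have hI : ∀ w : S d, ∫ v : S d, (1 - κ * dist w v) ^ k ∂(sg d) =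
      ∫ u : S d, ∫ v : S d, (1 - κ * dist u v) ^ k ∂(sg d) ∂(sg d) := by
    intro w
    have : (fun u : S d => ∫ v : S d, (1 - κ * dist u v) ^ k ∂(sg d)) =
        fun _ => ∫ v : S d, (1 - κ * dist w v) ^ k ∂(sg d) := funext fun u => hconst u w
    rw [this, integral_const]
    simp
  have hsum : ∑ i, ∫ v : S d, (1 - κ * dist (x i) v) ^ k ∂(sg d) =
      N * ∫ u : S d, ∫ v : S d, (1 - κ * dist u v) ^ k ∂(sg d) ∂(sg d) := by
    rw [Finset.sum_congr rfl fun i _ => hI (x i)]
    simp
  rw [hsum] at hmain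
  nlinarith

end Pool.Agent.Helper88.SE
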