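import Pool.Agent.Helper88.SE.Defs
import Pool.Agent.Helper88.SE.P_sg_prob
import Pool.Agent.Helper88.SE.P_hyp
import Pool.Agent.Helper88.SE.P_pdk

set_option autoImplicit false

open MeasureTheory Set Filter Topology
open scoped ENNReal

namespace Pool.Agent.Helper88.SE



theorem pdx_exp (L : ℝ) (y : ℝ) :
    HasSum (fun k : ℕ => Real.exp (-L) * (L ^ k / (k.factorial : ℝ)) * y ^ k)
      (Real.exp (L * y - L)) := by
  have h1 := (NormedSpace.expSeries_div_hasSum_exp (L * y : ℝ)).mul_left (Real.exp (-L))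
  rw [← Real.exp_eq_exp_ℝ, ← Real.exp_add] at h1
  have h2 : -L + L * y = L * y - L := by ring
  rw [h2] at h1
  have h3 : (fun k : ℕ => Real.exp (-L) * (L ^ k / (k.factorial : ℝ)) * y ^ k) =
      fun i : ℕ => Real.exp (-L) * ((L * y) ^ i / (i.factorial : ℝ)) := by
    funext k
    rw [mul_pow]
    ring
  rw [h3]
  exact h1

theorem pdx_int {d : ℕ} (f : S d × S d → ℝ) (hf : Continuous f) :
    Integrable f ((sg d).prod (sg d)) ∧
      ∫ z, f z ∂((sg d).prod (sg d)) = ∫ x : S d, ∫ y : S d, f (x, y) ∂(sg d) ∂(sg d) := by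
  have := sg_prob d
  have h1 : Integrable f ((sg d).prod (sg d)) :=
    hf.integrable_of_hasCompactSupport (HasCompactSupport.of_compactSpace f)
  exact ⟨h1, integral_prod f h1⟩

theorem pd (d : ℕ) (u : ℝ) (hu : 0 ≤ u) (N : ℕ) (x : Fin N → S d) :
    (N : ℝ) ^ 2 * gg d u ≤ ∑ i, ∑ j, Real.exp (-(u * dist (x i) (x j))) := by
  have := sg_prob d
  obtain ⟨κ, hκ, hκ2, H⟩ := hyp d
  set L := u / κ with hL
  have hL0 : 0 ≤ L := div_nonneg hu hκ.le
  have hLκ : L * κ = u := by rw [hL, div_mul_cancel₀ _ hκ.ne']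
  set c : ℕ → ℝ := fun k => Real.exp (-L) * (L ^ k / (k.factorial : ℝ)) with hc
  have hc0 : ∀ k, 0 ≤ c k := fun k => by
    show 0 ≤ Real.exp (-L) * (L ^ k / (k.factorial : ℝ))
    positivity
  have hcs : Summable c := by
    have h1 := (pdx_exp L 1).summable
    refine h1.congr (fun k => ?_)
    rw [one_pow, mul_one]
  have hpt : ∀ r : ℝ, HasSum (fun k => c k * (1 - κ * r) ^ k) (Real.exp (-(u * r))) := by
    intro r
    have h1 := pdx_exp L (1 - κ * r)
    have h2 : L * (1 - κ * r) - L = -(u * r) := by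
      rw [← hLκ]
      ring
    rw [h2] at h1
    exact h1
  have hk : ∀ k : ℕ, (N : ℝ) ^ 2 * ∫ u : S d, ∫ v : S d, (1 - κ * dist u v) ^ k ∂(sg d) ∂(sg d) ≤
      ∑ i, ∑ j, (1 - κ * dist (x i) (x j)) ^ k := by
    intro k
    obtain ⟨Ω, mΩ, P, A, hP, hA, hp⟩ := H k
    exact pdk d k κ hκ hκ2 Ω P A hA hp N x
  -- the sum on the right
  have hR : HasSum (fun k => ∑ i, ∑ j, c k * (1 - κ * dist (x i) (x j)) ^ k)
      (∑ i, ∑ j, Real.exp (-(u * dist (x i) (x j)))) := by
    apply hasSum_sum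
    intro i _
    apply hasSum_sum
    intro j _
    exact hpt _
  -- the integral on the left
  have hcont : ∀ k : ℕ, Continuous (fun z : S d × S d => c k * (1 - κ * dist z.1 z.2) ^ k) := by
    intro k
    fun_prop
  have hrng : ∀ z : S d × S d, 0 ≤ 1 - κ * dist z.1 z.2 ∧ 1 - κ * dist z.1 z.2 ≤ 1 := by
    intro z
    have h1 : dist z.1 z.2 ≤ 2 := by
      rw [Subtype.dist_eq]
      have h2 := dist_triangle_right (z.1 : E d) (z.2 : E d) 0
      have h3 : dist (z.1 : E d) 0 = 1 := z.1.2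
      have h4 : dist (z.2 : E d) 0 = 1 := z.2.2
      rw [h3, h4] at h2
      linarith
    have h2 : 0 ≤ dist z.1 z.2 := dist_nonneg
    constructor
    · nlinarith
    · have := mul_nonneg hκ.le h2
      linarith
  have hI : HasSum (fun k => ∫ z : S d × S d, c k * (1 - κ * dist z.1 z.2) ^ k
        ∂((sg d).prod (sg d)))
      (∫ z : S d × S d, ∑' k, c k * (1 - κ * dist z.1 z.2) ^ k ∂((sg d).prod (sg d))) := by
    apply hasSum_integral_of_summable_integral_norm
    · intro k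
      exact (pdx_int _ (hcont k)).1
    · refine Summable.of_nonneg_of_le (fun k => integral_nonneg (fun z => norm_nonneg _))
        (fun k => ?_) hcs
      have h1 : ∫ z : S d × S d, ‖c k * (1 - κ * dist z.1 z.2) ^ k‖ ∂((sg d).prod (sg d)) ≤
          ∫ z : S d × S d, c k ∂((sg d).prod (sg d)) := by
        apply integral_mono (pdx_int _ (hcont k)).1.norm (integrable_const _)
        intro z
        show ‖c k * (1 - κ * dist z.1 z.2) ^ k‖ ≤ c k
        rw [Real.norm_eq_abs, abs_of_nonneg (mul_nonneg (hc0 k) (pow_nonneg (hrng z).1 k))]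
        exact mul_le_of_le_one_right (hc0 k) (pow_le_one₀ (hrng z).1 (hrng z).2)
      refine h1.trans (le_of_eq ?_)
      simp
  have hsum : ∀ z : S d × S d, ∑' k, c k * (1 - κ * dist z.1 z.2) ^ k =
      Real.exp (-(u * dist z.1 z.2)) := fun z => (hpt _).tsum_eq
  simp only [hsum] at hI
  have hexpc : Continuous (fun z : S d × S d => Real.exp (-(u * dist z.1 z.2))) := by
    fun_prop
  rw [(pdx_int _ hexpc).2] at hI
  have hL' := hI.mul_left ((N : ℝ) ^ 2)
  refine hasSum_le (fun k => ?_) hL' hR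
  rw [(pdx_int _ (hcont k)).2]
  simp only [integral_const_mul]
  have h1 := mul_le_mul_of_nonneg_left (hk k) (hc0 k)
  have h2 : ∑ i, ∑ j, c k * (1 - κ * dist (x i) (x j)) ^ k =
      c k * ∑ i, ∑ j, (1 - κ * dist (x i) (x j)) ^ k := by
    rw [Finset.mul_sum]
    apply Finset.sum_congr rfl
    intro i _
    rw [Finset.mul_sum]
  rw [h2]
  calc (N : ℝ) ^ 2 * (c k * ∫ u : S d, ∫ v : S d, (1 - κ * dist u v) ^ k ∂(sg d) ∂(sg d))
      = c k * ((N : ℝ) ^ 2 * ∫ u : S d, ∫ v : S d, (1 - κ * dist u v) ^ k ∂(sg d) ∂(sg d)) := by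
        ring
    _ ≤ _ := h1

end Pool.Agent.Helper88.SE
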