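import Pool.Agent.Helper88.SE.Defs
import Pool.Agent.Helper88.SE.P_gg_bound
import Pool.Agent.Helper88.SE.P_pd

set_option autoImplicit false

open MeasureTheory Set Filter Topology
open scoped ENNReal

namespace Pool.Agent.Helper88.SE



theorem ff_lower (d : ℕ) : ∃ C : ℝ, 0 < C ∧ ∀ (N : ℕ) (x : Fin N → S d) (u : ℝ), 0 < u →
    -(N : ℝ) ≤ ff x u ∧ -(C * (N : ℝ) ^ 2 * u ^ (-(d : ℝ))) ≤ ff x u := by
  obtain ⟨C, hC, h⟩ := gg_bound d
  refine ⟨C, hC, fun N x u hu => ⟨?_, ?_⟩⟩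
  · have h1 := pd d u hu.le N x
    unfold ff
    linarith
  · obtain ⟨-, -, h2⟩ := h u hu
    have h3 : (N : ℝ) ≤ ∑ i, ∑ j, Real.exp (-(u * dist (x i) (x j))) := by
      have h4 : ∀ i : Fin N, (1 : ℝ) ≤ ∑ j, Real.exp (-(u * dist (x i) (x j))) := by
        intro i
        have h5 : Real.exp (-(u * dist (x i) (x i))) ≤ ∑ j, Real.exp (-(u * dist (x i) (x j))) :=
          Finset.single_le_sum (f := fun j => Real.exp (-(u * dist (x i) (x j))))
            (fun j _ => (Real.exp_pos _).le) (Finset.mem_univ i)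
        rw [dist_self, mul_zero, neg_zero, Real.exp_zero] at h5
        exact h5
      calc (N : ℝ) = ∑ _i : Fin N, (1 : ℝ) := by
            rw [Finset.sum_const, Finset.card_univ, Fintype.card_fin, nsmul_eq_mul, mul_one]
        _ ≤ _ := Finset.sum_le_sum (fun i _ => h4 i)
    have h6 : (N : ℝ) ^ 2 * gg d u ≤ C * (N : ℝ) ^ 2 * u ^ (-(d : ℝ)) := by
      refine (mul_le_mul_of_nonneg_left h2 (by positivity)).trans (le_of_eq ?_)
      ring
    unfold ff
    linarith

end Pool.Agent.Helper88.SE
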