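import Pool.Agent.Helper88.SE.Defs
import Pool.Agent.Helper88.SE.P_sg_prob
import Pool.Agent.Helper88.SE.P_gg_const

set_option autoImplicit false

open MeasureTheory Set Filter Topology
open scoped ENNReal

namespace Pool.Agent.Helper88.SE



theorem gg_cont (d : ℕ) : Continuous (gg d) := by
  haveI := sg_prob d
  let x0 : S d := ⟨EuclideanSpace.single 0 1, by simp⟩
  have h : gg d = fun u : ℝ => ∫ y in (Set.univ : Set (S d)), Real.exp (-(u * dist x0 y)) ∂(sg d) := by
    funext u
    rw [Measure.restrict_univ, gg_const d u x0]
  rw [h]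
  refine continuous_parametric_integral_of_continuous
    (f := fun (u : ℝ) (y : S d) => Real.exp (-(u * dist x0 y))) ?_ isCompact_univ
  simp only [Function.uncurry_def]
  fun_prop

end Pool.Agent.Helper88.SE
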