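import Pool.Agent.Helper88.SE.Defs
import Pool.Agent.Helper88.SE.P_gg_bound
import Pool.Agent.Helper88.SE.P_gg_cont

set_option autoImplicit false

open MeasureTheory Set Filter Topology
open scoped ENNReal

namespace Pool.Agent.Helper88.SE



theorem ff_bdd (d N : ℕ) (x : Fin N → S d) (hx : Function.Injective x) :
    Continuous (ff x) ∧ ∃ B : ℝ, ∀ u : ℝ, 0 < u → |ff x u| ≤ B ∧ |ff x u| ≤ B * u ^ (-(d : ℝ)) := by
  constructor
  · unfold ff
    apply Continuous.sub
    · apply Continuous.sub _ continuous_const
      apply continuous_finsetSum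
      intro i _
      apply continuous_finsetSum
      intro j _
      fun_prop
    · exact continuous_const.mul (gg_cont d)
  · obtain ⟨C, hC, hgg⟩ := gg_bound d
    set c : Fin N → Fin N → ℝ := fun i j => (d.factorial : ℝ) / dist (x i) (x j) ^ d with hc
    have hc0 : ∀ i j, 0 ≤ c i j := fun i j => by positivity
    set A : ℝ := ∑ i, ∑ j, (1 + c i j) with hA
    refine ⟨A + (N : ℝ) ^ 2 * (1 + C), ?_⟩
    intro u hu
    have hgu := hgg u hu
    have hup : 0 < u ^ (-(d : ℝ)) := Real.rpow_pos_of_pos hu _
    have hupd : u ^ (-(d : ℝ)) = 1 / u ^ d := by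
      rw [Real.rpow_neg hu.le, Real.rpow_natCast, one_div]
    have hff : ff x u = (∑ i, ∑ j, (if i = j then (0 : ℝ) else Real.exp (-(u * dist (x i) (x j))))) -
        (N : ℝ) ^ 2 * gg d u := by
      unfold ff
      congr 1
      have h1 : ∀ i : Fin N, ∑ j, Real.exp (-(u * dist (x i) (x j))) =
          (∑ j, (if i = j then (0 : ℝ) else Real.exp (-(u * dist (x i) (x j))))) + 1 := by
        intro i
        have h2 : (1 : ℝ) = ∑ j, (if i = j then (1 : ℝ) else 0) := by simp
        rw [h2, ← Finset.sum_add_distrib]
        apply Finset.sum_congr rfl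
        intro j _
        by_cases hij : i = j
        · subst hij; simp
        · simp [hij]
      simp_rw [h1]
      rw [Finset.sum_add_distrib]
      simp
    have hT0 : 0 ≤ ∑ i, ∑ j, (if i = j then (0 : ℝ) else Real.exp (-(u * dist (x i) (x j)))) := by
      apply Finset.sum_nonneg
      intro i _
      apply Finset.sum_nonneg
      intro j _
      split_ifs
      · exact le_rfl
      · exact (Real.exp_pos _).le
    have hT1 : ∑ i, ∑ j, (if i = j then (0 : ℝ) else Real.exp (-(u * dist (x i) (x j)))) ≤ A := by
      rw [hA]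
      apply Finset.sum_le_sum
      intro i _
      apply Finset.sum_le_sum
      intro j _
      have := hc0 i j
      split_ifs
      · linarith
      · have h1 : Real.exp (-(u * dist (x i) (x j))) ≤ 1 := by
          rw [Real.exp_le_one_iff]
          have : 0 ≤ u * dist (x i) (x j) := by positivity
          linarith
        linarith
    have hT2 : ∑ i, ∑ j, (if i = j then (0 : ℝ) else Real.exp (-(u * dist (x i) (x j)))) ≤
        A * u ^ (-(d : ℝ)) := by
      rw [hA, Finset.sum_mul]
      apply Finset.sum_le_sum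
      intro i _
      rw [Finset.sum_mul]
      apply Finset.sum_le_sum
      intro j _
      have hcij := hc0 i j
      split_ifs with hij
      · positivity
      · have hr : 0 < dist (x i) (x j) := dist_pos.2 (fun h => hij (hx h))
        have h1 := Real.pow_div_factorial_le_exp (u * dist (x i) (x j)) (by positivity) d
        have h2 : Real.exp (-(u * dist (x i) (x j))) ≤ c i j * u ^ (-(d : ℝ)) := by
          rw [Real.exp_neg, hupd, hc]
          have h3 : 0 < (u * dist (x i) (x j)) ^ d / (d.factorial : ℝ) := by positivity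
          have h4 := inv_anti₀ h3 h1
          refine h4.trans (le_of_eq ?_)
          rw [inv_div, mul_pow]
          field_simp
        have h5 : c i j * u ^ (-(d : ℝ)) ≤ (1 + c i j) * u ^ (-(d : ℝ)) :=
          mul_le_mul_of_nonneg_right (by linarith) hup.le
        exact h2.trans h5
    have hN : 0 ≤ (N : ℝ) ^ 2 := by positivity
    have g1 : (N : ℝ) ^ 2 * gg d u ≤ (N : ℝ) ^ 2 * (1 + C) :=
      mul_le_mul_of_nonneg_left (by linarith [hgu.2.1]) hN
    have g2 : (N : ℝ) ^ 2 * gg d u ≤ (N : ℝ) ^ 2 * (1 + C) * u ^ (-(d : ℝ)) := by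
      rw [mul_assoc]
      apply mul_le_mul_of_nonneg_left _ hN
      refine hgu.2.2.trans ?_
      exact mul_le_mul_of_nonneg_right (by linarith) hup.le
    have g0 : 0 ≤ (N : ℝ) ^ 2 * gg d u := mul_nonneg hN hgu.1.le
    have hA0 : 0 ≤ A := hT0.trans hT1
    have hB0 : 0 ≤ (N : ℝ) ^ 2 * (1 + C) := by positivity
    have hA1 : 0 ≤ A * u ^ (-(d : ℝ)) := by positivity
    have hB1 : 0 ≤ (N : ℝ) ^ 2 * (1 + C) * u ^ (-(d : ℝ)) := by positivity
    rw [hff]
    constructor
    · rw [abs_le]
      constructor <;> linarith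
    · rw [abs_le, add_mul]
      constructor <;> linarith

end Pool.Agent.Helper88.SE
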