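import Pool.Agent.Helper88.SE.Defs

set_option autoImplicit false

open MeasureTheory Set Filter Topology
open scoped ENNReal

namespace Pool.Agent.Helper88.SE



theorem kern2 (lam r : ℝ) (hlam : 0 ≤ lam) (hr : 0 < r) :
    ENNReal.ofReal (r ^ (-(2 : ℝ)) * (1 - Real.exp (-(lam * r)))) =
      ∫⁻ u in Ioi (0 : ℝ), ENNReal.ofReal (min u lam * Real.exp (-(u * r))) := by
  have hdA : ∀ u : ℝ, HasDerivAt (fun u : ℝ => -(u / r + 1 / r ^ 2) * Real.exp (-(u * r)))
      (u * Real.exp (-(u * r))) u := by
    intro u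
    have h1 : HasDerivAt (fun u : ℝ => -(u / r + 1 / r ^ 2)) (-(1 / r)) u := by
      have := ((hasDerivAt_id u).div_const r).add_const (1 / r ^ 2)
      exact this.neg
    have h2 : HasDerivAt (fun u : ℝ => Real.exp (-(u * r))) (Real.exp (-(u * r)) * (-(1 * r))) u :=
      (((hasDerivAt_id u).mul_const r).neg).exp
    have h3 := h1.mul h2
    have h4 : u * Real.exp (-(u * r)) = -(1 / r) * Real.exp (-(u * r)) +
        -(u / r + 1 / r ^ 2) * (Real.exp (-(u * r)) * (-(1 * r))) := by
      field_simp
      ring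
    rw [h4]
    exact h3
  have hcA : Continuous (fun u : ℝ => u * Real.exp (-(u * r))) := by fun_prop
  have hA : ∫ u in (0 : ℝ)..lam, u * Real.exp (-(u * r)) =
      1 / r ^ 2 - (lam / r + 1 / r ^ 2) * Real.exp (-(lam * r)) := by
    rw [intervalIntegral.integral_eq_sub_of_hasDerivAt (fun u _ => hdA u)
      (hcA.intervalIntegrable _ _)]
    simp
    ring
  have hiA : IntegrableOn (fun u : ℝ => min u lam * Real.exp (-(u * r))) (Ioc 0 lam) := by
    have h1 : Continuous (fun u : ℝ => min u lam * Real.exp (-(u * r))) := by fun_prop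
    exact (h1.integrableOn_Icc).mono_set Ioc_subset_Icc_self
  have hvA : ∫ u in Ioc 0 lam, min u lam * Real.exp (-(u * r)) =
      1 / r ^ 2 - (lam / r + 1 / r ^ 2) * Real.exp (-(lam * r)) := by
    rw [← hA, intervalIntegral.integral_of_le hlam]
    refine setIntegral_congr_fun measurableSet_Ioc fun u hu => ?_
    rw [min_eq_left hu.2]
  have hr' : -r < 0 := by linarith
  have hiB0 : IntegrableOn (fun u : ℝ => Real.exp (-r * u)) (Ioi lam) :=
    integrableOn_exp_mul_Ioi hr' lam
  have heB : ∀ u ∈ Ioi lam, lam * Real.exp (-r * u) = min u lam * Real.exp (-(u * r)) := by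
    intro u hu
    rw [min_eq_right (le_of_lt hu)]
    congr 2
    ring
  have hiB : IntegrableOn (fun u : ℝ => min u lam * Real.exp (-(u * r))) (Ioi lam) :=
    IntegrableOn.congr_fun (hiB0.const_mul lam) heB measurableSet_Ioi
  have hvB : ∫ u in Ioi lam, min u lam * Real.exp (-(u * r)) =
      lam * Real.exp (-(lam * r)) / r := by
    rw [← setIntegral_congr_fun measurableSet_Ioi heB, integral_const_mul,
      integral_exp_mul_Ioi hr' lam]
    have : -r * lam = -(lam * r) := by ring
    rw [this]
    field_simp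
  have hunion : Ioc 0 lam ∪ Ioi lam = Ioi (0 : ℝ) := Ioc_union_Ioi_eq_Ioi hlam
  have hi : IntegrableOn (fun u : ℝ => min u lam * Real.exp (-(u * r))) (Ioi 0) := by
    rw [← hunion]; exact hiA.union hiB
  have hv : ∫ u in Ioi (0 : ℝ), min u lam * Real.exp (-(u * r)) =
      r ^ (-(2 : ℝ)) * (1 - Real.exp (-(lam * r))) := by
    have h1 : ∫ u in Ioc 0 lam ∪ Ioi lam, min u lam * Real.exp (-(u * r)) =
        (∫ u in Ioc 0 lam, min u lam * Real.exp (-(u * r))) +
          ∫ u in Ioi lam, min u lam * Real.exp (-(u * r)) :=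
      setIntegral_union (by
        rw [Set.disjoint_left]
        intro u hu hu'
        exact absurd hu.2 (not_le.2 hu')) measurableSet_Ioi hiA hiB
    rw [← hunion, h1, hvA, hvB, Real.rpow_neg hr.le, Real.rpow_two]
    field_simp
    ring
  rw [← hv, ofReal_integral_eq_lintegral_ofReal hi]
  rw [Filter.EventuallyLE, ae_restrict_iff' measurableSet_Ioi]
  refine Filter.Eventually.of_forall fun u hu => ?_
  exact mul_nonneg (le_min (le_of_lt hu) hlam) (Real.exp_pos _).le

end Pool.Agent.Helper88.SE
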