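import Pool.Agent.Helper88.SE.Defs
import Pool.Agent.Helper88.SE.P_sg_prob
import Pool.Agent.Helper88.SE.P_ball_bound

set_option autoImplicit false

open MeasureTheory Set Filter Topology
open scoped ENNReal

namespace Pool.Agent.Helper88.SE



theorem no_atom (d : ℕ) (hd : 1 ≤ d) (x : S d) : sg d {x} = 0 := by
  have hP := sg_prob d
  obtain ⟨C, hC, h⟩ := ball_bound d
  have h1 := h x 0 le_rfl
  rw [zero_pow (by omega), mul_zero, Metric.closedBall_zero] at h1
  have h2 : (sg d {x}).toReal = 0 := le_antisymm h1 ENNReal.toReal_nonneg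
  rcases (ENNReal.toReal_eq_zero_iff _).1 h2 with h3 | h3
  · exact h3
  · exact absurd h3 (measure_ne_top _ _)

end Pool.Agent.Helper88.SE
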