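import Pool.Agent.Helper88.SE.Defs
import Pool.Agent.Helper88.SE.P_sg_prob
import Pool.Agent.Helper88.SE.P_no_atom
import Pool.Agent.Helper88.SE.P_ff_bdd
import Pool.Agent.Helper88.SE.P_K_meas
import Pool.Agent.Helper88.SE.P_IU_formula
import Pool.Agent.Helper88.SE.P_kern2

set_option autoImplicit false

open MeasureTheory Set Filter Topology
open scoped ENNReal

namespace Pool.Agent.Helper88.SE



theorem ffm_kern (lam r : ℝ) (hlam : 0 ≤ lam) (hr : 0 < r) :
    IntegrableOn (fun u => min u lam * Real.exp (-(u * r))) (Ioi 0) ∧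
    ∫ u in Ioi (0 : ℝ), min u lam * Real.exp (-(u * r)) =
      r ^ (-(2 : ℝ)) * (1 - Real.exp (-(lam * r))) := by
  have hcont : Continuous (fun u : ℝ => min u lam * Real.exp (-(u * r))) := by fun_prop
  have hk := kern2 lam r hlam hr
  have hnn : 0 ≤ᵐ[volume.restrict (Ioi (0:ℝ))] (fun u => min u lam * Real.exp (-(u * r))) := by
    filter_upwards [ae_restrict_mem measurableSet_Ioi] with u hu
    have hu' : (0:ℝ) < u := hu
    have : 0 ≤ min u lam := le_min hu'.le hlam
    show 0 ≤ min u lam * Real.exp (-(u * r))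
    positivity
  have h0 : 0 ≤ r ^ (-(2 : ℝ)) * (1 - Real.exp (-(lam * r))) := by
    have h1 : Real.exp (-(lam * r)) ≤ 1 := by
      rw [Real.exp_le_one_iff]
      have : 0 ≤ lam * r := by positivity
      linarith
    have h2 : 0 ≤ r ^ (-(2:ℝ)) := Real.rpow_nonneg hr.le _
    exact mul_nonneg h2 (by linarith)
  refine ⟨⟨hcont.aestronglyMeasurable, ?_⟩, ?_⟩
  · rw [hasFiniteIntegral_iff_ofReal hnn, ← hk]
    exact ENNReal.ofReal_lt_top
  · rw [integral_eq_lintegral_of_nonneg_ae hnn hcont.aestronglyMeasurable, ← hk,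
      ENNReal.toReal_ofReal h0]

theorem ffm_gg_cont : Continuous (gg 2) := by
  have h := (ff_bdd 2 1 (fun _ => nrm 0) (fun i j _ => Subsingleton.elim i j)).1
  have h2 : gg 2 = fun u => -(ff (fun _ : Fin 1 => (nrm 0 : S 2)) u) := by
    funext u
    simp [ff]
  rw [h2]
  exact h.neg

theorem ffm_gg_nonneg (u : ℝ) : 0 ≤ gg 2 u := by
  unfold gg
  apply integral_nonneg
  intro x
  apply integral_nonneg
  intro y
  positivity

theorem ffm_gg_lint (u : ℝ) (hu : 0 < u) (lam : ℝ) (hlam : 0 < lam) :
    ENNReal.ofReal (min u lam * gg 2 u) =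
      ∫⁻ x : S 2, ∫⁻ y : S 2, ENNReal.ofReal (min u lam * Real.exp (-(u * dist x y))) ∂(sg 2) ∂(sg 2) := by
  haveI := sg_prob 2
  have hm : 0 ≤ min u lam := le_min hu.le hlam.le
  have hc : Continuous (fun p : S 2 × S 2 => Real.exp (-(u * dist p.1 p.2))) := by fun_prop
  have hb : ∀ x y : S 2, ‖Real.exp (-(u * dist x y))‖ ≤ 1 := by
    intro x y
    rw [Real.norm_of_nonneg (Real.exp_pos _).le, Real.exp_le_one_iff]
    have : 0 ≤ u * dist x y := by positivity
    linarith
  have hi : ∀ x : S 2, Integrable (fun y => Real.exp (-(u * dist x y))) (sg 2) := by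
    intro x
    refine Integrable.of_bound ?_ 1 (Eventually.of_forall (hb x))
    have : Continuous (fun y : S 2 => Real.exp (-(u * dist x y))) := by fun_prop
    exact this.aestronglyMeasurable
  have hi2 : Integrable (fun x => ∫ y, Real.exp (-(u * dist x y)) ∂(sg 2)) (sg 2) := by
    refine Integrable.of_bound ?_ 1 (Eventually.of_forall ?_)
    · exact (hc.stronglyMeasurable.integral_prod_right (ν := sg 2)).aestronglyMeasurable
    · intro x
      refine (norm_integral_le_of_norm_le_const (Eventually.of_forall (hb x))).trans ?_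
      simp
  rw [ENNReal.ofReal_mul hm]
  unfold gg
  rw [ofReal_integral_eq_lintegral_ofReal hi2 (Eventually.of_forall (fun x => integral_nonneg
    (fun y => (Real.exp_pos _).le)))]
  have hmeas : Measurable (fun p : S 2 × S 2 => ENNReal.ofReal (Real.exp (-(u * dist p.1 p.2)))) :=
    ENNReal.measurable_ofReal.comp hc.measurable
  have h1 : ∀ x : S 2, ENNReal.ofReal (∫ y, Real.exp (-(u * dist x y)) ∂(sg 2)) =
      ∫⁻ y, ENNReal.ofReal (Real.exp (-(u * dist x y))) ∂(sg 2) := by
    intro x
    exact ofReal_integral_eq_lintegral_ofReal (hi x) (Eventually.of_forall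
      (fun y => (Real.exp_pos _).le))
  simp only [h1]
  rw [← lintegral_const_mul _ hmeas.lintegral_prod_right']
  refine lintegral_congr fun x => ?_
  rw [← lintegral_const_mul]
  · refine lintegral_congr fun y => ?_
    rw [ENNReal.ofReal_mul hm]
  · exact hmeas.comp measurable_prodMk_left

theorem ffm_gg (lam : ℝ) (hlam : 0 < lam) :
    IntegrableOn (fun u => min u lam * gg 2 u) (Ioi 0) ∧
    ∫ u in Ioi (0 : ℝ), min u lam * gg 2 u = IU lam := by
  haveI := sg_prob 2
  have hcont : Continuous (fun u : ℝ => min u lam * gg 2 u) :=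
    (continuous_id.min continuous_const).mul ffm_gg_cont
  have hnn : 0 ≤ᵐ[volume.restrict (Ioi (0:ℝ))] (fun u => min u lam * gg 2 u) := by
    filter_upwards [ae_restrict_mem measurableSet_Ioi] with u hu
    have hu' : (0:ℝ) < u := hu
    exact mul_nonneg (le_min hu'.le hlam.le) (ffm_gg_nonneg u)
  have hcu : Continuous (fun p : ℝ × S 2 × S 2 => min p.1 lam * Real.exp (-(p.1 * dist p.2.1 p.2.2))) := by
    fun_prop
  have hmu : Measurable (fun p : ℝ × S 2 × S 2 =>
      ENNReal.ofReal (min p.1 lam * Real.exp (-(p.1 * dist p.2.1 p.2.2)))) :=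
    ENNReal.measurable_ofReal.comp hcu.measurable
  have hint : ∫⁻ u in Ioi (0:ℝ), ENNReal.ofReal (min u lam * gg 2 u) = ENNReal.ofReal (IU lam) := by
    calc ∫⁻ u in Ioi (0:ℝ), ENNReal.ofReal (min u lam * gg 2 u)
        = ∫⁻ u in Ioi (0:ℝ), ∫⁻ x : S 2, ∫⁻ y : S 2,
            ENNReal.ofReal (min u lam * Real.exp (-(u * dist x y))) ∂(sg 2) ∂(sg 2) := by
          apply setLIntegral_congr_fun measurableSet_Ioi
          intro u hu
          exact ffm_gg_lint u hu lam hlam
      _ = ∫⁻ x : S 2, (∫⁻ u in Ioi (0:ℝ), (∫⁻ y : S 2,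
            ENNReal.ofReal (min u lam * Real.exp (-(u * dist x y))) ∂(sg 2))) ∂(sg 2) := by
          apply lintegral_lintegral_swap
          have h1 : Measurable (fun q : (ℝ × S 2) × S 2 =>
              ENNReal.ofReal (min q.1.1 lam * Real.exp (-(q.1.1 * dist q.1.2 q.2)))) :=
            hmu.comp (measurable_fst.fst.prodMk (measurable_fst.snd.prodMk measurable_snd))
          exact h1.lintegral_prod_right'.aemeasurable
      _ = ∫⁻ x : S 2, (∫⁻ y : S 2, (∫⁻ u in Ioi (0:ℝ),
            ENNReal.ofReal (min u lam * Real.exp (-(u * dist x y)))) ∂(sg 2)) ∂(sg 2) := by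
          refine lintegral_congr fun x => ?_
          apply lintegral_lintegral_swap
          have h1 : Measurable (fun q : ℝ × S 2 =>
              ENNReal.ofReal (min q.1 lam * Real.exp (-(q.1 * dist x q.2)))) :=
            hmu.comp (measurable_fst.prodMk (measurable_const.prodMk measurable_snd))
          exact h1.aemeasurable
      _ = ∫⁻ x : S 2, ∫⁻ y : S 2, ENNReal.ofReal (KU lam x y) ∂(sg 2) ∂(sg 2) := by
          refine lintegral_congr fun x => ?_
          apply lintegral_congr_ae
          have h1 : ∀ᵐ y ∂(sg 2), y ≠ x := by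
            rw [ae_iff]
            simpa using no_atom 2 (by norm_num) x
          filter_upwards [h1] with y hy
          have hd : 0 < dist x y := dist_pos.mpr (Ne.symm hy)
          rw [← kern2 lam (dist x y) hlam.le hd]
          rfl
      _ = ∫⁻ x : S 2, ENNReal.ofReal (IU lam) ∂(sg 2) := by
          refine lintegral_congr fun x => ?_
          exact ((IU_formula lam hlam.le).1 x).2.2
      _ = ENNReal.ofReal (IU lam) := by
          rw [lintegral_const, measure_univ, mul_one]
  refine ⟨⟨hcont.aestronglyMeasurable, ?_⟩, ?_⟩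
  · rw [hasFiniteIntegral_iff_ofReal hnn, hint]
    exact ENNReal.ofReal_lt_top
  · rw [integral_eq_lintegral_of_nonneg_ae hnn hcont.aestronglyMeasurable, hint,
      ENNReal.toReal_ofReal (IU_formula lam hlam.le).2.1]

theorem ff_min (N : ℕ) (x : Fin N → S 2) (hx : Function.Injective x) (lam : ℝ) (hlam : 0 < lam) :
    IntegrableOn (fun u => min u lam * ff x u) (Ioi 0) ∧
    ∫ u in Ioi (0 : ℝ), min u lam * ff x u =
      ∑ i, ∑ j, KU lam (x i) (x j) - (N : ℝ) ^ 2 * IU lam := by
  have hrew : ∀ u : ℝ, min u lam * ff x u =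
      (∑ i, ∑ j, (if i = j then 0 else min u lam * Real.exp (-(u * dist (x i) (x j))))) -
        (N : ℝ) ^ 2 * (min u lam * gg 2 u) := by
    intro u
    have h1 : (∑ i, ∑ j, Real.exp (-(u * dist (x i) (x j)))) - (N : ℝ) =
        ∑ i, ∑ j, (if i = j then 0 else Real.exp (-(u * dist (x i) (x j)))) := by
      have h2 : ∀ i, ∑ j, Real.exp (-(u * dist (x i) (x j))) - 1 =
          ∑ j, (if i = j then 0 else Real.exp (-(u * dist (x i) (x j)))) := by
        intro i
        rw [sub_eq_iff_eq_add]
        have h3 : ∑ j : Fin N, (if i = j then (1:ℝ) else 0) = 1 := by simp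
        rw [← h3, ← Finset.sum_add_distrib]
        refine Finset.sum_congr rfl fun j _ => ?_
        by_cases hij : i = j
        · subst hij
          simp
        · simp [hij]
      have h4 : (N:ℝ) = ∑ i : Fin N, (1:ℝ) := by simp
      rw [h4, ← Finset.sum_sub_distrib]
      exact Finset.sum_congr rfl fun i _ => h2 i
    unfold ff
    rw [h1, mul_sub, Finset.mul_sum]
    congr 1
    · refine Finset.sum_congr rfl fun i _ => ?_
      rw [Finset.mul_sum]
      refine Finset.sum_congr rfl fun j _ => ?_
      split_ifs <;> simp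
    · ring
  have hij : ∀ i j : Fin N, IntegrableOn (fun u => if i = j then (0:ℝ) else
      min u lam * Real.exp (-(u * dist (x i) (x j)))) (Ioi 0) ∧
      ∫ u in Ioi (0 : ℝ), (if i = j then (0:ℝ) else
        min u lam * Real.exp (-(u * dist (x i) (x j)))) = KU lam (x i) (x j) := by
    intro i j
    by_cases h : i = j
    · subst h
      simp [KU]
    · simp only [h, if_false]
      exact ffm_kern lam _ hlam.le (dist_pos.mpr (fun h' => h (hx h')))
  have hI1 : IntegrableOn (fun u => ∑ i, ∑ j, (if i = j then (0:ℝ) else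
      min u lam * Real.exp (-(u * dist (x i) (x j))))) (Ioi 0) := by
    apply integrable_finsetSum
    intro i _
    apply integrable_finsetSum
    intro j _
    exact (hij i j).1
  have hI2 : IntegrableOn (fun u => (N : ℝ) ^ 2 * (min u lam * gg 2 u)) (Ioi 0) :=
    (ffm_gg lam hlam).1.const_mul _
  simp only [hrew]
  refine ⟨hI1.sub hI2, ?_⟩
  rw [integral_sub hI1 hI2, integral_const_mul, (ffm_gg lam hlam).2]
  congr 1
  rw [integral_finsetSum]
  · refine Finset.sum_congr rfl fun i _ => ?_
    rw [integral_finsetSum]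
    · exact Finset.sum_congr rfl fun j _ => (hij i j).2
    · intro j _
      exact (hij i j).1
  · intro i _
    apply integrable_finsetSum
    intro j _
    exact (hij i j).1

end Pool.Agent.Helper88.SE
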