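import Pool.Agent.Helper88.SE.Defs
import Pool.Agent.Helper88.SE.P_ff_lower
import Pool.Agent.Helper88.SE.P_ff_min

set_option autoImplicit false

open MeasureTheory Set Filter Topology
open scoped ENNReal

namespace Pool.Agent.Helper88.SE



theorem LOC2 : ∃ C : ℝ, 0 < C ∧ ∀ (N : ℕ) (x : Fin N → S 2) (ε : ℝ), 1 ≤ N →
    Function.Injective x → 0 < ε → ε ≤ 1 →
    (N : ℝ) ^ 2 * IU (ε * Real.sqrt N) - C * ε * (N : ℝ) ^ 2 ≤
      ∑ i, ∑ j, KU (ε * Real.sqrt N) (x i) (x j) := by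
  obtain ⟨C1, hC1, hff⟩ := ff_lower 2
  refine ⟨1 + C1, by linarith, ?_⟩
  intro N x ε hN hx hε hε1
  have hN0 : (0 : ℝ) < N := by exact_mod_cast hN
  set s : ℝ := Real.sqrt N with hs
  have hs0 : 0 < s := Real.sqrt_pos.mpr hN0
  have hss : s * s = N := Real.mul_self_sqrt hN0.le
  set lam : ℝ := ε * s with hlam
  have hlam0 : 0 < lam := mul_pos hε hs0
  obtain ⟨hint, heq⟩ := ff_min N x hx lam hlam0
  have e2 : (-((2 : ℕ) : ℝ)) = -2 := by norm_num
  have hsplit : ∫ u in Ioi (0 : ℝ), min u lam * ff x u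
      = (∫ u in Ioc (0 : ℝ) s, min u lam * ff x u) + ∫ u in Ioi s, min u lam * ff x u := by
    rw [← setIntegral_union (Set.Ioc_disjoint_Ioi le_rfl) measurableSet_Ioi
      (hint.mono_set Ioc_subset_Ioi_self) (hint.mono_set (Ioi_subset_Ioi hs0.le)),
      Ioc_union_Ioi_eq_Ioi hs0.le]
  have h1 : -(lam * N) * s ≤ ∫ u in Ioc (0 : ℝ) s, min u lam * ff x u := by
    have h2 : ∫ u in Ioc (0 : ℝ) s, (-(lam * N)) = -(lam * N) * s := by
      rw [setIntegral_const]
      simp only [measureReal_def, Real.volume_Ioc, sub_zero, smul_eq_mul]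
      rw [ENNReal.toReal_ofReal hs0.le]
      ring
    rw [← h2]
    apply setIntegral_mono_on
    · exact integrableOn_const (by simp)
    · exact hint.mono_set Ioc_subset_Ioi_self
    · exact measurableSet_Ioc
    · intro u hu
      have hu0 : 0 < u := hu.1
      have h3 := (hff N x u hu0).1
      have h4 : 0 ≤ min u lam := le_min hu0.le hlam0.le
      have h5 : min u lam ≤ lam := min_le_right _ _
      calc -(lam * N) ≤ -(min u lam * N) := by nlinarith
        _ = min u lam * (-(N : ℝ)) := by ring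
        _ ≤ min u lam * ff x u := mul_le_mul_of_nonneg_left h3 h4
  have h1' : -(lam * C1 * (N : ℝ) ^ 2) * s⁻¹ ≤ ∫ u in Ioi s, min u lam * ff x u := by
    have h2 : ∫ u in Ioi s, (-(lam * C1 * (N : ℝ) ^ 2) * u ^ (-2 : ℝ))
        = -(lam * C1 * (N : ℝ) ^ 2) * s⁻¹ := by
      rw [integral_const_mul, integral_Ioi_rpow_of_lt (by norm_num) hs0]
      congr 1
      have : ((-2 : ℝ) + 1) = -1 := by norm_num
      rw [this, Real.rpow_neg_one]
      ring
    rw [← h2]
    apply setIntegral_mono_on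
    · exact (integrableOn_Ioi_rpow_of_lt (by norm_num) hs0).const_mul _
    · exact hint.mono_set (Ioi_subset_Ioi hs0.le)
    · exact measurableSet_Ioi
    · intro u hu
      have hu0 : 0 < u := hs0.trans hu
      have h3 := (hff N x u hu0).2
      rw [e2] at h3
      have h4 : 0 ≤ min u lam := le_min hu0.le hlam0.le
      have h5 : min u lam ≤ lam := min_le_right _ _
      have h6 : 0 ≤ C1 * (N : ℝ) ^ 2 * u ^ (-2 : ℝ) := by positivity
      calc -(lam * C1 * (N : ℝ) ^ 2) * u ^ (-2 : ℝ)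
          = -(lam * (C1 * (N : ℝ) ^ 2 * u ^ (-2 : ℝ))) := by ring
        _ ≤ -(min u lam * (C1 * (N : ℝ) ^ 2 * u ^ (-2 : ℝ))) := by nlinarith
        _ = min u lam * (-(C1 * (N : ℝ) ^ 2 * u ^ (-2 : ℝ))) := by ring
        _ ≤ min u lam * ff x u := mul_le_mul_of_nonneg_left h3 h4
  have h7 : -(lam * N) * s = -(ε * (N : ℝ) ^ 2) := by
    rw [hlam, ← hss]
    ring
  have h8 : -(lam * C1 * (N : ℝ) ^ 2) * s⁻¹ = -(C1 * ε * (N : ℝ) ^ 2) := by
    rw [hlam]
    field_simp
  rw [h7] at h1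
  rw [h8] at h1'
  rw [hsplit] at heq
  have h9 : (1 + C1) * ε * (N : ℝ) ^ 2 = ε * (N : ℝ) ^ 2 + C1 * ε * (N : ℝ) ^ 2 := by ring
  rw [h9]
  linarith

end Pool.Agent.Helper88.SE
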