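import Pool.Agent.Helper88.SE.Defs
import Pool.Agent.Helper88.SE.P_Em_basic
import Pool.Agent.Helper88.SE.P_IU_low
import Pool.Agent.Helper88.SE.P_LOC2
import Pool.Agent.Helper88.SE.P_EL_split

set_option autoImplicit false

open MeasureTheory Set Filter Topology
open scoped ENNReal

namespace Pool.Agent.Helper88.SE



theorem Em2_low : ∃ C : ℝ, 0 < C ∧ ∀ N : ℕ, 1 ≤ N →
    1 / 4 * (N : ℝ) ^ 2 * Real.log N - C * (N : ℝ) ^ 2 ≤ Em 2 2 N := by
  obtain ⟨C, hC, hloc⟩ := LOC2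
  refine ⟨C + 1, by positivity, ?_⟩
  intro N hN
  have hN1 : (1 : ℝ) ≤ (N : ℝ) := by exact_mod_cast hN
  have hs1 : 1 ≤ Real.sqrt N := Real.one_le_sqrt.2 hN1
  refine le_of_forall_pos_le_add fun ε hε => ?_
  obtain ⟨x, hx, hxε⟩ := (Em_basic 2 (by norm_num) 2 (by norm_num) N).2.2.1 ε hε
  have h1 := hloc N x 1 hN hx one_pos le_rfl
  rw [one_mul] at h1
  obtain ⟨h2, h3⟩ := EL_split N x (Real.sqrt N) (Real.sqrt_nonneg _)
  have h4 := IU_low (Real.sqrt N) hs1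
  have h5 : Real.log (Real.sqrt N) = 1 / 2 * Real.log N := by
    rw [Real.log_sqrt (by positivity)]; ring
  rw [h5] at h4
  have h6 : (N : ℝ) ^ 2 * (1 / 2 * (1 / 2 * Real.log N) - 1) ≤ (N : ℝ) ^ 2 * IU (Real.sqrt N) :=
    mul_le_mul_of_nonneg_left h4 (by positivity)
  nlinarith [h1, h2, h3, h6, hxε]

end Pool.Agent.Helper88.SE
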