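import Pool.Agent.Helper88.SE.Defs
import Pool.Agent.Helper88.SE.P_Em2_add

set_option autoImplicit false

open MeasureTheory Set Filter Topology
open scoped ENNReal

namespace Pool.Agent.Helper88.SE



theorem Em2_slope_aux (n : ℕ) (hn : 3 ≤ n) (m : ℕ) (hm : m < n) :
    Em 2 2 (m + 1) ≤ Em 2 2 m + (1 / 2 * n * Real.log n + 2 * n * (1 + Real.log (Real.log n))) := by
  have hn3 : (3 : ℝ) ≤ n := by exact_mod_cast hn
  have hn0 : (0 : ℝ) < n := by linarith
  set l := Real.log n with hl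
  have hl1 : 1 ≤ l := by
    rw [hl, Real.le_log_iff_exp_le hn0]
    have := Real.exp_one_lt_d9
    linarith
  have hl0 : 0 < l := by linarith
  set LL := Real.log l with hLL
  have hLL0 : 0 ≤ LL := Real.log_nonneg hl1
  have hnl : 0 < n * l := mul_pos hn0 hl0
  have hnl1 : 1 ≤ n * l := by nlinarith
  have hsq : 0 < Real.sqrt (n * l) := Real.sqrt_pos.mpr hnl
  have hsq1 : 1 ≤ Real.sqrt (n * l) := by
    rw [show (1:ℝ) = Real.sqrt 1 by simp]
    exact Real.sqrt_le_sqrt hnl1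
  set a : ℝ := 1 / Real.sqrt (n * l) with ha
  have ha0 : 0 < a := by positivity
  have ha2 : a ≤ 2 := by
    rw [ha, div_le_iff₀ hsq]
    linarith
  have hasq : a ^ 2 = 1 / (n * l) := by
    rw [ha, div_pow, Real.sq_sqrt hnl.le, one_pow]
  have hmn : (m : ℝ) ≤ n := by exact_mod_cast hm.le
  have hm0 : (0 : ℝ) ≤ m := Nat.cast_nonneg m
  have hδ : (m : ℝ) * a ^ 2 / 4 ≤ 1 / (4 * l) := by
    rw [hasq]
    rw [show (m : ℝ) * (1 / (n * l)) / 4 = m / (n * (4 * l)) by field_simp]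
    rw [div_le_div_iff₀ (by positivity) (by positivity)]
    nlinarith
  have h4l : 1 / (4 * l) ≤ 1 / 4 := by
    apply one_div_le_one_div_of_le (by norm_num)
    linarith
  have hδ1 : (m : ℝ) * a ^ 2 / 4 < 1 := by linarith
  have hlog : Real.log (2 / a) = Real.log 2 + 1 / 2 * (l + LL) := by
    have h1 : 2 / a = 2 * Real.sqrt (n * l) := by
      rw [ha]; field_simp
    rw [h1, Real.log_mul (by norm_num) hsq.ne', Real.log_sqrt hnl.le, Real.log_mul hn0.ne' hl0.ne']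
    ring
  refine (Em2_add m a ha0 ha2 hδ1).trans ?_
  rw [hlog]
  apply add_le_add_right
  have hden : 0 < 1 - (m : ℝ) * a ^ 2 / 4 := by linarith
  have hlog2 : Real.log 2 < 0.6931471808 := Real.log_two_lt_d9
  have hlog20 : 0 < Real.log 2 := Real.log_pos (by norm_num)
  have hB0 : 0 ≤ 1 / 2 * n * l + 2 * n * (1 + LL) := by positivity
  rw [show 2 * ((m : ℝ) * (1 / 2 * (Real.log 2 + 1 / 2 * (l + LL))) / (1 - m * a ^ 2 / 4)) =
    (m * (Real.log 2 + 1 / 2 * (l + LL))) / (1 - m * a ^ 2 / 4) by ring]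
  rw [div_le_iff₀ hden]
  have h1 : (m : ℝ) * (Real.log 2 + 1 / 2 * (l + LL)) ≤ n * (Real.log 2 + 1 / 2 * (l + LL)) :=
    mul_le_mul_of_nonneg_right hmn (by positivity)
  have h2 : (1 / 2 * n * l + 2 * n * (1 + LL)) * (1 - 1 / (4 * l)) ≤
      (1 / 2 * n * l + 2 * n * (1 + LL)) * (1 - m * a ^ 2 / 4) :=
    mul_le_mul_of_nonneg_left (by linarith) hB0
  refine h1.trans (le_trans ?_ h2)
  have h3 : (1 / 2 * n * l + 2 * n * (1 + LL)) * (1 - 1 / (4 * l)) =
      1 / 2 * n * l + 2 * n * (1 + LL) - n / 8 - n * (1 + LL) / 2 * (1 / l) := by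
    field_simp
    ring
  rw [h3]
  have h4 : 1 / l ≤ 1 := by
    rw [div_le_one hl0]; exact hl1
  have h5 : (n : ℝ) * (1 + LL) / 2 * (1 / l) ≤ n * (1 + LL) / 2 * 1 :=
    mul_le_mul_of_nonneg_left h4 (by positivity)
  nlinarith [mul_nonneg hn0.le hLL0]

theorem Em2_slope : ∃ (C : ℝ) (n₀ : ℕ), 0 < C ∧ 3 ≤ n₀ ∧ ∀ n : ℕ, n₀ ≤ n → ∀ M : ℕ, M ≤ n →
    Em 2 2 n ≤ Em 2 2 M + ((n : ℝ) - M) *
      (1 / 2 * n * Real.log n + C * n * (1 + Real.log (Real.log n))) := by
  refine ⟨2, 3, by norm_num, le_refl 3, ?_⟩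
  intro n hn M hM
  have key : ∀ k : ℕ, M + k ≤ n → Em 2 2 (M + k) ≤ Em 2 2 M + (k : ℝ) *
      (1 / 2 * n * Real.log n + 2 * n * (1 + Real.log (Real.log n))) := by
    intro k
    induction k with
    | zero => intro _; simp
    | succ k ih =>
      intro hk
      have h1 := ih (by omega)
      have h2 := Em2_slope_aux n hn (M + k) (by omega)
      rw [← add_assoc]
      push_cast
      linarith
  have h := key (n - M) (by omega)
  rw [Nat.add_sub_cancel' hM, Nat.cast_sub hM] at h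
  exact h

end Pool.Agent.Helper88.SE
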