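import Pool.Agent.Helper88.SE.Defs

set_option autoImplicit false

open MeasureTheory Set Filter Topology
open scoped ENNReal

namespace Pool.Agent.Helper88.SE



theorem KL_gamma (s lam r : ℝ) (hs : 0 < s) (hlam : 0 ≤ lam) (hr : 0 < r) :
    ENNReal.ofReal (Real.Gamma s * (r ^ (-s) * Real.exp (-(lam * r)))) =
      ∫⁻ w in Ioi (0 : ℝ), ENNReal.ofReal (w ^ (s - 1) * Real.exp (-((lam + w) * r))) := by
  have h1 : ∫ w in Ioi (0 : ℝ), w ^ (s - 1) * Real.exp (-((lam + w) * r)) =
      Real.Gamma s * (r ^ (-s) * Real.exp (-(lam * r))) := by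
    have h2 : ∀ w : ℝ, w ^ (s - 1) * Real.exp (-((lam + w) * r)) =
        Real.exp (-(lam * r)) * (w ^ (s - 1) * Real.exp (-(r * w))) := by
      intro w
      have : -((lam + w) * r) = -(lam * r) + -(r * w) := by ring
      rw [this, Real.exp_add]
      ring
    simp only [h2]
    rw [MeasureTheory.integral_const_mul, Real.integral_rpow_mul_exp_neg_mul_Ioi hs hr]
    rw [one_div, Real.inv_rpow hr.le, Real.rpow_neg hr.le]
    ring
  have hpos : 0 < Real.Gamma s * (r ^ (-s) * Real.exp (-(lam * r))) := by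
    have := Real.Gamma_pos_of_pos hs
    positivity
  have hint : MeasureTheory.Integrable
      (fun w : ℝ => w ^ (s - 1) * Real.exp (-((lam + w) * r)))
      (MeasureTheory.volume.restrict (Ioi (0 : ℝ))) := by
    by_contra hcon
    rw [MeasureTheory.integral_undef hcon] at h1
    linarith
  rw [← h1]
  refine MeasureTheory.ofReal_integral_eq_lintegral_ofReal hint ?_
  refine (MeasureTheory.ae_restrict_iff' measurableSet_Ioi).mpr (Filter.Eventually.of_forall ?_)
  intro w hw
  have hw' : (0 : ℝ) < w := hw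
  show (0 : ℝ) ≤ _
  positivity

end Pool.Agent.Helper88.SE
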