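import Pool.Agent.Helper88.SE.Defs
import Pool.Agent.Helper88.SE.P_gg_bound
import Pool.Agent.Helper88.SE.P_gg_cont

set_option autoImplicit false

open MeasureTheory Set Filter Topology
open scoped ENNReal

namespace Pool.Agent.Helper88.SE



theorem gg_mellin (d : ℕ) (s lam : ℝ) (hs : 0 < s) (hsd : s < d) (hlam : 0 ≤ lam) :
    IntegrableOn (fun w : ℝ => w ^ (s - 1) * gg d (lam + w)) (Ioi 0) := by
  obtain ⟨C, hC, hb⟩ := gg_bound d
  have hmeas : Measurable (fun w : ℝ => w ^ (s - 1) * gg d (lam + w)) := by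
    have h1 : Measurable (fun w : ℝ => w ^ (s - 1)) := by fun_prop
    have h2 : Measurable (fun w : ℝ => gg d (lam + w)) :=
      ((gg_cont d).comp (continuous_const.add continuous_id)).measurable
    exact h1.mul h2
  have hU : Ioi (0 : ℝ) = Ioc 0 1 ∪ Ioi 1 := by
    rw [Ioc_union_Ioi_eq_Ioi]; norm_num
  rw [hU]
  refine IntegrableOn.union ?_ ?_
  · have h0 : IntegrableOn (fun w : ℝ => w ^ (s - 1)) (Ioc 0 1) := by
      have := intervalIntegral.intervalIntegrable_rpow' (a := 0) (b := 1) (r := s - 1) (by linarith)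
      rwa [intervalIntegrable_iff_integrableOn_Ioc_of_le (by norm_num)] at this
    refine Integrable.mono' h0 hmeas.aestronglyMeasurable ?_
    refine (ae_restrict_iff' measurableSet_Ioc).2 (Eventually.of_forall fun w hw => ?_)
    obtain ⟨hg0, hg1, _⟩ := hb (lam + w) (by linarith [hw.1])
    have hw0 : 0 ≤ w ^ (s - 1) := Real.rpow_nonneg hw.1.le _
    rw [Real.norm_eq_abs, abs_of_nonneg (mul_nonneg hw0 hg0.le)]
    calc w ^ (s - 1) * gg d (lam + w) ≤ w ^ (s - 1) * 1 := mul_le_mul_of_nonneg_left hg1 hw0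
      _ = w ^ (s - 1) := mul_one _
  · have h0 : IntegrableOn (fun w : ℝ => C * w ^ (s - 1 - d)) (Ioi 1) := by
      exact (integrableOn_Ioi_rpow_of_lt (by linarith) (by norm_num)).const_mul C
    refine Integrable.mono' h0 hmeas.aestronglyMeasurable ?_
    refine (ae_restrict_iff' measurableSet_Ioi).2 (Eventually.of_forall fun w hw => ?_)
    have hw1 : (1 : ℝ) < w := hw
    have hwp : (0 : ℝ) < w := by linarith
    obtain ⟨hg0, _, hg2⟩ := hb (lam + w) (by linarith)
    have hw0 : 0 ≤ w ^ (s - 1) := Real.rpow_nonneg hwp.le _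
    rw [Real.norm_eq_abs, abs_of_nonneg (mul_nonneg hw0 hg0.le)]
    have h3 : (lam + w) ^ (-(d : ℝ)) ≤ w ^ (-(d : ℝ)) :=
      Real.rpow_le_rpow_of_nonpos hwp (by linarith) (by simp)
    calc w ^ (s - 1) * gg d (lam + w) ≤ w ^ (s - 1) * (C * w ^ (-(d : ℝ))) :=
          mul_le_mul_of_nonneg_left (hg2.trans (mul_le_mul_of_nonneg_left h3 hC.le)) hw0
      _ = C * w ^ (s - 1 - d) := by
          rw [show s - 1 - (d : ℝ) = (s - 1) + (-(d : ℝ)) by ring, Real.rpow_add hwp]; ring

end Pool.Agent.Helper88.SE
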