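import Pool.Agent.Helper88.SE.Defs
import Pool.Agent.Helper88.SE.P_sg_prob
import Pool.Agent.Helper88.SE.P_no_atom
import Pool.Agent.Helper88.SE.P_gg_const
import Pool.Agent.Helper88.SE.P_gg_bound
import Pool.Agent.Helper88.SE.P_gg_cont
import Pool.Agent.Helper88.SE.P_KL_gamma
import Pool.Agent.Helper88.SE.P_gg_mellin

set_option autoImplicit false

open MeasureTheory Set Filter Topology
open scoped ENNReal

namespace Pool.Agent.Helper88.SE



theorem KL_const (d : ℕ) (hd : 1 ≤ d) (s lam : ℝ) (hs : 0 < s) (hsd : s < d) (hlam : 0 ≤ lam) :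
    (∀ x : S d, Integrable (fun y => KL s lam x y) (sg d) ∧
      ∫ y, KL s lam x y ∂(sg d) = J d s lam ∧
      ∫⁻ y, ENNReal.ofReal (KL s lam x y) ∂(sg d) = ENNReal.ofReal (J d s lam)) ∧
    0 < J d s lam ∧
    ∫ w in Ioi (0 : ℝ), w ^ (s - 1) * gg d (lam + w) = Real.Gamma s * J d s lam := by
  have hprob := sg_prob d
  obtain ⟨C, hC, hgb⟩ := gg_bound d
  have hΓ : 0 < Real.Gamma s := Real.Gamma_pos_of_pos hs
  have hint := gg_mellin d s lam hs hsd hlam
  have hpos : ∀ w ∈ Ioi (0 : ℝ), 0 < w ^ (s - 1) * gg d (lam + w) := by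
    intro w hw
    have hw' : 0 < w := hw
    exact mul_pos (Real.rpow_pos_of_pos hw' _) (hgb _ (by linarith)).1
  have hnn : 0 ≤ᵐ[volume.restrict (Ioi (0 : ℝ))] (fun w : ℝ => w ^ (s - 1) * gg d (lam + w)) :=
    (ae_restrict_iff' measurableSet_Ioi).mpr (Eventually.of_forall fun w hw => (hpos w hw).le)
  have hIpos : 0 < ∫ w in Ioi (0 : ℝ), w ^ (s - 1) * gg d (lam + w) := by
    rw [setIntegral_pos_iff_support_of_nonneg_ae hnn hint]
    have h1 : Ioi (0 : ℝ) ⊆ Function.support (fun w : ℝ => w ^ (s - 1) * gg d (lam + w))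
        ∩ Ioi 0 := fun w hw => ⟨(hpos w hw).ne', hw⟩
    refine lt_of_lt_of_le ?_ (measure_mono h1)
    rw [Real.volume_Ioi]
    exact ENNReal.zero_lt_top
  generalize hI : (∫ w in Ioi (0 : ℝ), w ^ (s - 1) * gg d (lam + w)) = I at hIpos
  have hstep1 : ∀ x : S d, ∫⁻ y, ENNReal.ofReal (Real.Gamma s * KL s lam x y) ∂(sg d)
      = ENNReal.ofReal I := by
    intro x
    have h1 : ∫⁻ y, ENNReal.ofReal (Real.Gamma s * KL s lam x y) ∂(sg d)
        = ∫⁻ y, (∫⁻ w in Ioi (0 : ℝ),
          ENNReal.ofReal (w ^ (s - 1) * Real.exp (-((lam + w) * dist x y)))) ∂(sg d) := by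
      apply lintegral_congr_ae
      have h2 : ({x} : Set (S d))ᶜ ∈ ae (sg d) := compl_mem_ae_iff.mpr (no_atom d hd x)
      filter_upwards [h2] with y hy
      have hd0 : 0 < dist x y := dist_pos.mpr (fun h => hy (by rw [h]; exact rfl))
      exact KL_gamma s lam (dist x y) hs hlam hd0
    rw [h1, lintegral_lintegral_swap]
    · have h3 : ∀ w ∈ Ioi (0 : ℝ), ∫⁻ y, ENNReal.ofReal
          (w ^ (s - 1) * Real.exp (-((lam + w) * dist x y))) ∂(sg d)
          = ENNReal.ofReal (w ^ (s - 1) * gg d (lam + w)) := by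
        intro w hw
        have hw' : 0 < w := hw
        rw [← gg_const d (lam + w) x, ← integral_const_mul]
        rw [ofReal_integral_eq_lintegral_ofReal]
        · apply Integrable.const_mul
          refine Integrable.of_bound (Continuous.aestronglyMeasurable (by fun_prop)) 1
            (Eventually.of_forall fun y => ?_)
          rw [Real.norm_eq_abs, Real.abs_exp, Real.exp_le_one_iff]
          have : 0 ≤ dist x y := dist_nonneg
          nlinarith
        · exact Eventually.of_forall fun y =>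
            mul_nonneg (Real.rpow_nonneg hw'.le _) (Real.exp_pos _).le
      rw [setLIntegral_congr_fun measurableSet_Ioi h3, ← hI,
        ofReal_integral_eq_lintegral_ofReal hint hnn]
    · apply Measurable.aemeasurable
      unfold Function.uncurry
      apply ENNReal.measurable_ofReal.comp
      apply Measurable.mul
      · exact measurable_snd.pow_const _
      · have : Continuous (fun p : S d × ℝ => Real.exp (-((lam + p.2) * dist x p.1))) := by
          fun_prop
        exact this.measurable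
  have hKL0 : ∀ x y : S d, 0 ≤ KL s lam x y := fun x y =>
    mul_nonneg (Real.rpow_nonneg dist_nonneg _) (Real.exp_pos _).le
  have hKLm : ∀ x : S d, Measurable (fun y => KL s lam x y) := by
    intro x
    unfold KL
    have hdm : Measurable (fun y : S d => dist x y) :=
      (Continuous.dist continuous_const continuous_id).measurable
    exact (hdm.pow_const _).mul (Real.measurable_exp.comp ((hdm.const_mul lam).neg))
  have hstep2 : ∀ x : S d, ∫⁻ y, ENNReal.ofReal (KL s lam x y) ∂(sg d)
      = ENNReal.ofReal (I / Real.Gamma s) := by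
    intro x
    have h1 := hstep1 x
    have h2 : ∀ y, ENNReal.ofReal (Real.Gamma s * KL s lam x y)
        = ENNReal.ofReal (Real.Gamma s) * ENNReal.ofReal (KL s lam x y) := fun y =>
      ENNReal.ofReal_mul hΓ.le
    simp only [h2] at h1
    have hm1 : Measurable (fun y => ENNReal.ofReal (KL s lam x y)) := (hKLm x).ennreal_ofReal
    rw [lintegral_const_mul _ hm1] at h1
    have h3 : ENNReal.ofReal I = ENNReal.ofReal (Real.Gamma s) * ENNReal.ofReal (I / Real.Gamma s) := by
      rw [← ENNReal.ofReal_mul hΓ.le, mul_div_cancel₀ _ hΓ.ne']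
    rw [h3] at h1
    exact (ENNReal.mul_right_inj (ENNReal.ofReal_pos.mpr hΓ).ne' ENNReal.ofReal_ne_top).mp h1
  have hc0 : 0 < I / Real.Gamma s := div_pos hIpos hΓ
  have hinteg : ∀ x : S d, Integrable (fun y => KL s lam x y) (sg d) := by
    intro x
    refine ⟨(hKLm x).aestronglyMeasurable, ?_⟩
    rw [hasFiniteIntegral_iff_ofReal (Eventually.of_forall (hKL0 x)), hstep2 x]
    exact ENNReal.ofReal_lt_top
  have hval : ∀ x : S d, ∫ y, KL s lam x y ∂(sg d) = I / Real.Gamma s := by
    intro x
    rw [integral_eq_lintegral_of_nonneg_ae (Eventually.of_forall (hKL0 x))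
      (hKLm x).aestronglyMeasurable, hstep2 x, ENNReal.toReal_ofReal hc0.le]
  have hJ : J d s lam = I / Real.Gamma s := by
    unfold J
    simp only [hval]
    simp
  refine ⟨fun x => ⟨hinteg x, by rw [hval x, hJ], by rw [hstep2 x, hJ]⟩, by rw [hJ]; exact hc0, ?_⟩
  rw [hJ, mul_div_cancel₀ _ hΓ.ne']

end Pool.Agent.Helper88.SE
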