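import Pool.Agent.Helper88.SE.Defs
import Pool.Agent.Helper88.SE.P_sg_prob
import Pool.Agent.Helper88.SE.P_no_atom
import Pool.Agent.Helper88.SE.P_KL_const
import Pool.Agent.Helper88.SE.P_Em_basic

set_option autoImplicit false

open MeasureTheory Set Filter Topology
open scoped ENNReal

namespace Pool.Agent.Helper88.SE



theorem Em_add (d : ℕ) (hd : 1 ≤ d) (s : ℝ) (hs : 0 < s) (hsd : s < d) (N : ℕ) :
    Em d s (N + 1) ≤ Em d s N + 2 * N * Ic d s := by
  haveI := sg_prob d
  have hKL : ∀ x y : S d, KL s 0 x y = K s x y := by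
    intro x y
    unfold KL K
    simp
  have hJ : J d s 0 = Ic d s := by
    unfold J Ic
    simp only [hKL]
  have hI := (KL_const d hd s 0 hs hsd le_rfl).1
  have hKint : ∀ x : S d, Integrable (fun y => K s x y) (sg d) ∧
      ∫ y, K s x y ∂(sg d) = Ic d s := by
    intro x
    obtain ⟨h1, h2, -⟩ := hI x
    refine ⟨?_, ?_⟩
    · have : (fun y => K s x y) = (fun y => KL s 0 x y) := funext fun y => (hKL x y).symm
      rw [this]
      exact h1
    · rw [← hJ, ← h2]
      exact integral_congr_ae (Filter.Eventually.of_forall fun y => (hKL x y).symm)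
  refine le_of_forall_pos_le_add fun ε hε => ?_
  obtain ⟨x, hx, hxe⟩ := (Em_basic d hd s hs N).2.2.1 ε hε
  have hfint : Integrable (fun y => ∑ i, K s (x i) y) (sg d) :=
    integrable_finsetSum _ fun i _ => (hKint (x i)).1
  have hfval : ∫ y, (∑ i, K s (x i) y) ∂(sg d) = N * Ic d s := by
    rw [integral_finsetSum _ fun i _ => (hKint (x i)).1]
    rw [Finset.sum_congr rfl fun i _ => (hKint (x i)).2]
    simp
  have hnull : sg d (Set.range x) = 0 := by
    rw [← Set.iUnion_singleton_eq_range]
    exact measure_iUnion_null fun i => no_atom d hd (x i)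
  obtain ⟨y, hy, hle⟩ := exists_notMem_null_le_integral hfint hnull
  rw [hfval] at hle
  have hinj : Function.Injective (Fin.cons y x : Fin (N + 1) → S d) := by
    rw [Fin.cons_injective_iff]
    exact ⟨hy, hx⟩
  have hsymm : ∀ a b : S d, K s a b = K s b a := by
    intro a b
    unfold K
    rw [dist_comm]
  have hdiag : ∀ a : S d, K s a a = 0 := by
    intro a
    unfold K
    rw [dist_self]
    exact Real.zero_rpow (by linarith)
  have hEn : En s (Fin.cons y x : Fin (N + 1) → S d) = En s x + 2 * ∑ i, K s (x i) y := by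
    unfold En
    rw [Fin.sum_univ_succ]
    simp only [Fin.sum_univ_succ, Fin.cons_zero, Fin.cons_succ]
    rw [hdiag y, Finset.sum_add_distrib]
    rw [Finset.sum_congr rfl fun i _ => hsymm y (x i)]
    ring
  have h1 := (Em_basic d hd s hs (N + 1)).2.1 _ hinj
  rw [hEn] at h1
  linarith

end Pool.Agent.Helper88.SE
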