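import Pool.Agent.Helper88.SE.Defs
import Pool.Agent.Helper88.SE.P_Em_basic

set_option autoImplicit false

open MeasureTheory Set Filter Topology
open scoped ENNReal

namespace Pool.Agent.Helper88.SE



theorem K_self {d : ℕ} (s : ℝ) (hs : 0 < s) (y : S d) : K s y y = 0 := by
  unfold K
  rw [dist_self, Real.zero_rpow (by linarith)]

theorem En_succAbove {d M : ℕ} (s : ℝ) (hs : 0 < s) (x : Fin (M + 1) → S d) (i : Fin (M + 1)) :
    En s (fun a => x (i.succAbove a)) =
      En s x - ∑ k, K s (x i) (x k) - ∑ j, K s (x j) (x i) := by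
  have hsum : ∀ f : Fin (M + 1) → ℝ, ∑ a, f (i.succAbove a) = ∑ j, f j - f i := by
    intro f
    rw [Fin.sum_univ_succAbove f i]
    ring
  unfold En
  have h1 : ∀ a, ∑ b, K s (x (i.succAbove a)) (x (i.succAbove b)) =
      ∑ k, K s (x (i.succAbove a)) (x k) - K s (x (i.succAbove a)) (x i) := fun a =>
    hsum (fun k => K s (x (i.succAbove a)) (x k))
  simp only [h1]
  rw [Finset.sum_sub_distrib, hsum (fun j => ∑ k, K s (x j) (x k)),
    hsum (fun j => K s (x j) (x i)), K_self s hs]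
  ring

theorem sum_En_succAbove {d M : ℕ} (s : ℝ) (hs : 0 < s) (x : Fin (M + 1) → S d) :
    ∑ i : Fin (M + 1), En s (fun a => x (i.succAbove a)) = ((M : ℝ) - 1) * En s x := by
  simp only [En_succAbove s hs x]
  rw [Finset.sum_sub_distrib, Finset.sum_sub_distrib]
  have h1 : ∑ i, ∑ k, K s (x i) (x k) = En s x := rfl
  have h2 : ∑ i, ∑ j, K s (x j) (x i) = En s x := by
    rw [Finset.sum_comm]
    rfl
  rw [h1, h2]
  simp
  ring

theorem Em_mul (d : ℕ) (hd : 1 ≤ d) (s : ℝ) (hs : 0 < s) (M : ℕ) (hM : 1 ≤ M) :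
    ((M : ℝ) + 1) * Em d s M ≤ ((M : ℝ) - 1) * Em d s (M + 1) := by
  have hM1 : (1 : ℝ) ≤ M := by exact_mod_cast hM
  apply le_of_forall_pos_le_add
  intro δ hδ
  obtain ⟨-, -, hε, -, -⟩ := Em_basic d hd s hs (M + 1)
  obtain ⟨x, hx, hxE⟩ := hε (δ / M) (by positivity)
  have h1 : ∀ i : Fin (M + 1), Em d s M ≤ En s (fun a => x (i.succAbove a)) := fun i =>
    (Em_basic d hd s hs M).2.1 _ (hx.comp Fin.succAbove_right_injective)
  have h2 : ((M : ℝ) + 1) * Em d s M ≤ ∑ i : Fin (M + 1), En s (fun a => x (i.succAbove a)) := by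
    calc ((M : ℝ) + 1) * Em d s M = ∑ _i : Fin (M + 1), Em d s M := by simp
      _ ≤ _ := Finset.sum_le_sum fun i _ => h1 i
  rw [sum_En_succAbove s hs x] at h2
  have h3 : ((M : ℝ) - 1) * En s x ≤ ((M : ℝ) - 1) * (Em d s (M + 1) + δ / M) :=
    mul_le_mul_of_nonneg_left hxE.le (by linarith)
  have h4 : ((M : ℝ) - 1) * (δ / M) ≤ δ := by
    rw [mul_div_assoc']
    rw [div_le_iff₀ (by linarith)]
    nlinarith
  linarith

end Pool.Agent.Helper88.SE
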