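import Pool.Agent.Helper88.SE.Defs
import Pool.Agent.Helper88.SE.P_Em_basic
import Pool.Agent.Helper88.SE.P_Em_mul

set_option autoImplicit false

open MeasureTheory Set Filter Topology
open scoped ENNReal

namespace Pool.Agent.Helper88.SE



theorem Em_ratio (d : ℕ) (hd : 1 ≤ d) (s : ℝ) (hs : 0 < s) (n M : ℕ) (hn : 2 ≤ n) (h : n ≤ M) :
    (M : ℝ) * (M - 1) * Em d s n ≤ (n : ℝ) * (n - 1) * Em d s M := by
  induction M, h using Nat.le_induction with
  | base => exact le_rfl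
  | succ M hM ih =>
    have h1 := Em_mul d hd s hs M (by omega)
    have hM2 : (2 : ℝ) ≤ M := by exact_mod_cast hn.trans hM
    have hn2 : (2 : ℝ) ≤ n := by exact_mod_cast hn
    have hM1 : (0 : ℝ) < (M : ℝ) - 1 := by linarith
    push_cast
    have h2 : ((M : ℝ) + 1) * ((M : ℝ) * (M - 1) * Em d s n) ≤
        ((M : ℝ) + 1) * ((n : ℝ) * (n - 1) * Em d s M) :=
      mul_le_mul_of_nonneg_left ih (by linarith)
    have h3 : ((n : ℝ) * (n - 1)) * (((M : ℝ) + 1) * Em d s M) ≤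
        ((n : ℝ) * (n - 1)) * (((M : ℝ) - 1) * Em d s (M + 1)) :=
      mul_le_mul_of_nonneg_left h1 (mul_nonneg (by linarith) (by linarith))
    refine le_of_mul_le_mul_left ?_ hM1
    calc ((M : ℝ) - 1) * (((M : ℝ) + 1) * ((M : ℝ) + 1 - 1) * Em d s n)
        = ((M : ℝ) + 1) * ((M : ℝ) * (M - 1) * Em d s n) := by ring
      _ ≤ ((M : ℝ) + 1) * ((n : ℝ) * (n - 1) * Em d s M) := h2
      _ = ((n : ℝ) * (n - 1)) * (((M : ℝ) + 1) * Em d s M) := by ring
      _ ≤ ((n : ℝ) * (n - 1)) * (((M : ℝ) - 1) * Em d s (M + 1)) := h3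
      _ = ((M : ℝ) - 1) * ((n : ℝ) * (n - 1) * Em d s (M + 1)) := by ring

end Pool.Agent.Helper88.SE
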