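import Pool.Agent.Helper88.SE.Defs
import Pool.Agent.Helper88.SE.P_Em_add

set_option autoImplicit false

open MeasureTheory Set Filter Topology
open scoped ENNReal

namespace Pool.Agent.Helper88.SE



theorem Em_upper (d : ℕ) (hd : 1 ≤ d) (s : ℝ) (hs : 0 < s) (hsd : s < d) (M N : ℕ) (h : M ≤ N) :
    Em d s N ≤ Em d s M + ((N : ℝ) * (N - 1) - M * (M - 1)) * Ic d s := by
  induction N, h using Nat.le_induction with
  | base => simp
  | succ n hn ih =>
    have h1 := Em_add d hd s hs hsd n
    have h2 : ((((n + 1 : ℕ) : ℝ)) * (((n + 1 : ℕ) : ℝ) - 1) - M * (M - 1)) * Ic d s =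
      ((n : ℝ) * (n - 1) - M * (M - 1)) * Ic d s + 2 * n * Ic d s := by
      push_cast
      ring
    rw [h2]
    linarith

end Pool.Agent.Helper88.SE
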