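import Pool.Agent.Helper88.SE.Defs

set_option autoImplicit false

open MeasureTheory Set Filter Topology
open scoped ENNReal

namespace Pool.Agent.Helper88.SE



theorem gnom_sq {V : Type*} [NormedAddCommGroup V] [InnerProductSpace ℝ V] (p a b : V)
    (hp : ‖p‖ = 1) (ha : inner ℝ p a = 0) (hb : inner ℝ p b = 0) (A B : ℝ) (hA : 0 < A)
    (hB : 0 < B) (hA2 : A ^ 2 = 1 + ‖a‖ ^ 2) (hB2 : B ^ 2 = 1 + ‖b‖ ^ 2) :
    ‖A⁻¹ • (a + p) - B⁻¹ • (b + p)‖ ^ 2 * (A * B) = ‖a - b‖ ^ 2 - (A - B) ^ 2 := by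
  have h1 : ‖a + p‖ ^ 2 = A ^ 2 := by
    rw [norm_add_sq_real, real_inner_comm, ha, hp, hA2]; ring
  have h2 : ‖b + p‖ ^ 2 = B ^ 2 := by
    rw [norm_add_sq_real, real_inner_comm, hb, hp, hB2]; ring
  have h3 : inner ℝ (a + p) (b + p) = inner ℝ a b + 1 := by
    rw [inner_add_left, inner_add_right, inner_add_right, hb, real_inner_self_eq_norm_sq, hp,
      real_inner_comm p a, ha]
    ring
  rw [norm_sub_sq_real, norm_sub_sq_real, norm_smul, norm_smul, mul_pow, mul_pow, h1, h2,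
    real_inner_smul_left, real_inner_smul_right, h3, norm_inv, norm_inv, Real.norm_of_nonneg hA.le,
    Real.norm_of_nonneg hB.le]
  field_simp
  linear_combination hA2 + hB2

theorem gnom_upper {V : Type*} [NormedAddCommGroup V] [InnerProductSpace ℝ V] (p a b : V)
    (hp : ‖p‖ = 1) (ha : inner ℝ p a = 0) (hb : inner ℝ p b = 0) (A B : ℝ) (hA : 0 < A)
    (hB : 0 < B) (hA2 : A ^ 2 = 1 + ‖a‖ ^ 2) (hB2 : B ^ 2 = 1 + ‖b‖ ^ 2) :
    ‖A⁻¹ • (a + p) - B⁻¹ • (b + p)‖ ≤ ‖a - b‖ := by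
  have h := gnom_sq p a b hp ha hb A B hA hB hA2 hB2
  have hA1 : 1 ≤ A := by nlinarith [sq_nonneg ‖a‖]
  have hB1 : 1 ≤ B := by nlinarith [sq_nonneg ‖b‖]
  have hAB : 1 ≤ A * B := one_le_mul_of_one_le_of_one_le hA1 hB1
  refine le_of_sq_le_sq ?_ (norm_nonneg _)
  nlinarith [sq_nonneg ‖A⁻¹ • (a + p) - B⁻¹ • (b + p)‖, sq_nonneg (A - B)]

theorem gnom_lower {V : Type*} [NormedAddCommGroup V] [InnerProductSpace ℝ V] (p a b : V)
    (hp : ‖p‖ = 1) (ha : inner ℝ p a = 0) (hb : inner ℝ p b = 0) (A B : ℝ) (hA : 0 < A)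
    (hB : 0 < B) (hA2 : A ^ 2 = 1 + ‖a‖ ^ 2) (hB2 : B ^ 2 = 1 + ‖b‖ ^ 2) (ρ : ℝ) (hρ : 0 < ρ)
    (haρ : ‖a‖ ≤ ρ) (hbρ : ‖b‖ ≤ ρ) :
    ‖a - b‖ / (1 + ρ ^ 2) ≤ ‖A⁻¹ • (a + p) - B⁻¹ • (b + p)‖ := by
  have h := gnom_sq p a b hp ha hb A B hA hB hA2 hB2
  obtain ⟨R, hR⟩ : ∃ R : ℝ, R = 1 + ρ ^ 2 := ⟨_, rfl⟩
  have hR0 : 0 < R := by rw [hR]; positivity
  obtain ⟨Q, hQ0, hQ⟩ : ∃ Q : ℝ, 0 < Q ∧ Q ^ 2 = R :=
    ⟨Real.sqrt R, Real.sqrt_pos.2 hR0, Real.sq_sqrt hR0.le⟩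
  obtain ⟨D, hD⟩ : ∃ D : ℝ, D = ‖A⁻¹ • (a + p) - B⁻¹ • (b + p)‖ := ⟨_, rfl⟩
  obtain ⟨δ, hδ⟩ : ∃ δ : ℝ, δ = ‖a - b‖ := ⟨_, rfl⟩
  obtain ⟨u, hu⟩ : ∃ u : ℝ, u = ‖a‖ := ⟨_, rfl⟩
  obtain ⟨v, hv⟩ : ∃ v : ℝ, v = ‖b‖ := ⟨_, rfl⟩
  have hD0 : 0 ≤ D := hD ▸ norm_nonneg _
  have hδ0 : 0 ≤ δ := hδ ▸ norm_nonneg _
  have hu0 : 0 ≤ u := hu ▸ norm_nonneg _
  have hv0 : 0 ≤ v := hv ▸ norm_nonneg _
  have huv : |u - v| ≤ δ := by
    rw [hu, hv, hδ]; exact abs_norm_sub_norm_le a b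
  rw [← hD, ← hδ] at h
  rw [← hD, ← hδ, ← hR]
  rw [← hu] at hA2 haρ
  rw [← hv] at hB2 hbρ
  have hAQ : A ≤ Q := by
    refine le_of_sq_le_sq ?_ hQ0.le
    rw [hQ, hA2, hR]; nlinarith
  have hBQ : B ≤ Q := by
    refine le_of_sq_le_sq ?_ hQ0.le
    rw [hQ, hB2, hR]; nlinarith
  have huQ : u * Q ≤ ρ * A := by
    refine le_of_sq_le_sq ?_ (by positivity)
    rw [mul_pow, mul_pow, hQ, hA2, hR]; nlinarith
  have hvQ : v * Q ≤ ρ * B := by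
    refine le_of_sq_le_sq ?_ (by positivity)
    rw [mul_pow, mul_pow, hQ, hB2, hR]; nlinarith
  -- (A - B) (A + B) = (u - v) (u + v)
  have hdiff : (A - B) * (A + B) = (u - v) * (u + v) := by
    linear_combination hA2 - hB2
  have hAB : |A - B| * Q ≤ δ * ρ := by
    have h1 : |A - B| * (A + B) = |u - v| * (u + v) := by
      have := congrArg abs hdiff
      rw [abs_mul, abs_mul, abs_of_pos (by linarith : 0 < A + B),
        abs_of_nonneg (by linarith : 0 ≤ u + v)] at this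
      exact this
    have h2 : |A - B| * Q * (A + B) ≤ δ * ρ * (A + B) := by
      calc |A - B| * Q * (A + B) = (|A - B| * (A + B)) * Q := by ring
        _ = |u - v| * ((u + v) * Q) := by rw [h1]; ring
        _ ≤ δ * (ρ * (A + B)) := by
          refine mul_le_mul huv ?_ (by positivity) hδ0
          linarith
        _ = δ * ρ * (A + B) := by ring
    exact le_of_mul_le_mul_right h2 (by linarith)
  have hAB2 : (A - B) ^ 2 * R ≤ δ ^ 2 * ρ ^ 2 := by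
    have := pow_le_pow_left₀ (by positivity) hAB 2
    rw [mul_pow, mul_pow, sq_abs, hQ] at this
    exact this
  have hABR : A * B ≤ R := by
    rw [← hQ, sq]; exact mul_le_mul hAQ hBQ hB.le hQ0.le
  rw [div_le_iff₀ hR0]
  refine le_of_sq_le_sq ?_ (by positivity)
  have h5 : δ ^ 2 ≤ (D ^ 2 * (A * B)) * R := by
    rw [h, hR]
    rw [hR] at hAB2
    nlinarith
  calc δ ^ 2 ≤ (D ^ 2 * (A * B)) * R := h5
    _ ≤ (D ^ 2 * R) * R := by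
      refine mul_le_mul_of_nonneg_right ?_ hR0.le
      exact mul_le_mul_of_nonneg_left hABR (sq_nonneg _)
    _ = (D * R) ^ 2 := by ring

theorem cap_rep (d : ℕ) (p : S d) (r ρ : ℝ) (hr : 0 < r)
    (x : S d) (hx : x ∈ cap p ρ) :
    ∃ a : E d, inner ℝ (p : E d) a = 0 ∧ ‖a‖ ≤ ρ ∧
      (∀ A : ℝ, 0 < A → A ^ 2 = 1 + ‖a‖ ^ 2 → (x : E d) = A⁻¹ • (a + (p : E d))) ∧
      (∀ A : ℝ, 0 < A → A ^ 2 = 1 + ‖r • a‖ ^ 2 →
        (psi p r x : E d) = A⁻¹ • (r • a + (p : E d))) := by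
  obtain ⟨z, hz⟩ : ∃ z : ℝ, z = inner ℝ (p : E d) (x : E d) := ⟨_, rfl⟩
  have hx' := hx
  unfold cap at hx'
  rw [Set.mem_ofPred_eq, ← hz] at hx'
  obtain ⟨hz0, hzρ⟩ := hx'
  have hp1 : ‖(p : E d)‖ = 1 := by simpa using p.2
  have hx1 : ‖(x : E d)‖ = 1 := by simpa using x.2
  obtain ⟨a, ha⟩ : ∃ a : E d, a = z⁻¹ • ((x : E d) - z • (p : E d)) := ⟨_, rfl⟩
  have hpa : inner ℝ (p : E d) a = 0 := by
    rw [ha, real_inner_smul_right, inner_sub_right, real_inner_smul_right,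
      real_inner_self_eq_norm_sq, hp1, ← hz]
    ring
  have hxa : (x : E d) = z • (a + (p : E d)) := by
    rw [ha, smul_add, smul_smul, mul_inv_cancel₀ hz0.ne', one_smul]
    abel
  have hna : ‖a‖ ≤ ρ := by
    rw [ha, norm_smul, norm_inv, Real.norm_of_nonneg hz0.le, inv_mul_le_iff₀ hz0]
    linarith
  have hnap : ‖a + (p : E d)‖ ^ 2 = 1 + ‖a‖ ^ 2 := by
    rw [norm_add_sq_real, real_inner_comm, hpa, hp1]; ring
  have hnrap : ‖r • a + (p : E d)‖ ^ 2 = 1 + ‖r • a‖ ^ 2 := by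
    rw [norm_add_sq_real, real_inner_comm, real_inner_smul_right, hpa, hp1]; ring
  refine ⟨a, hpa, hna, ?_, ?_⟩
  · intro A hA hA2
    have h1 : ‖a + (p : E d)‖ = A := by
      have := hnap.trans hA2.symm
      exact (pow_left_inj₀ (norm_nonneg _) hA.le two_ne_zero).1 this
    have h2 : z * A = 1 := by
      rw [← hx1, hxa, norm_smul, Real.norm_of_nonneg hz0.le, h1]
    have h3 : z = A⁻¹ := eq_inv_of_mul_eq_one_left h2
    rw [hxa, h3]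
  · intro A hA hA2
    have h1 : ‖r • a + (p : E d)‖ = A := by
      have := hnrap.trans hA2.symm
      exact (pow_left_inj₀ (norm_nonneg _) hA.le two_ne_zero).1 this
    have hAm : Amap p r (x : E d) = z • (r • a + (p : E d)) := by
      unfold Amap
      rw [← hz]
      nth_rewrite 1 [hxa]
      module
    have hne : Amap p r (x : E d) ≠ 0 := by
      rw [hAm]
      refine smul_ne_zero hz0.ne' ?_
      rw [← norm_ne_zero_iff, h1]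
      exact hA.ne'
    unfold psi nrm
    rw [dif_neg hne]
    show ‖Amap p r (x : E d)‖⁻¹ • Amap p r (x : E d) = _
    rw [hAm, norm_smul, h1, Real.norm_of_nonneg hz0.le, smul_smul]
    congr 1
    field_simp

theorem chart_dist (d : ℕ) (p : S d) (r ρ : ℝ) (hr : 0 < r) (hr1 : r ≤ 1) (hρ : 0 < ρ)
    (x y : S d) (hx : x ∈ cap p ρ) (hy : y ∈ cap p ρ) :
    r / (1 + ρ ^ 2) * dist x y ≤ dist (psi p r x) (psi p r y) := by
  obtain ⟨a, hpa, hna, ha1, ha2⟩ := cap_rep d p r ρ hr x hx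
  obtain ⟨b, hpb, hnb, hb1, hb2⟩ := cap_rep d p r ρ hr y hy
  have hp1 : ‖(p : E d)‖ = 1 := by simpa using p.2
  have hsq : ∀ c : E d, ∃ A : ℝ, 0 < A ∧ A ^ 2 = 1 + ‖c‖ ^ 2 := fun c =>
    ⟨Real.sqrt (1 + ‖c‖ ^ 2), Real.sqrt_pos.2 (by positivity), Real.sq_sqrt (by positivity)⟩
  obtain ⟨A, hA, hA2⟩ := hsq a
  obtain ⟨B, hB, hB2⟩ := hsq b
  obtain ⟨A', hA', hA2'⟩ := hsq (r • a)
  obtain ⟨B', hB', hB2'⟩ := hsq (r • b)
  rw [Subtype.dist_eq, Subtype.dist_eq, dist_eq_norm, dist_eq_norm, ha1 A hA hA2, hb1 B hB hB2,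
    ha2 A' hA' hA2', hb2 B' hB' hB2']
  have h1 := gnom_upper (p : E d) a b hp1 hpa hpb A B hA hB hA2 hB2
  have hra : ‖r • a‖ ≤ ρ := by
    rw [norm_smul, Real.norm_of_nonneg hr.le]
    nlinarith [norm_nonneg a]
  have hrb : ‖r • b‖ ≤ ρ := by
    rw [norm_smul, Real.norm_of_nonneg hr.le]
    nlinarith [norm_nonneg b]
  have h2 := gnom_lower (p : E d) (r • a) (r • b) hp1 (by rw [real_inner_smul_right, hpa, mul_zero])
    (by rw [real_inner_smul_right, hpb, mul_zero]) A' B' hA' hB' hA2' hB2' ρ hρ hra hrb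
  rw [← smul_sub, norm_smul, Real.norm_of_nonneg hr.le] at h2
  refine le_trans ?_ h2
  calc r / (1 + ρ ^ 2) * ‖A⁻¹ • (a + (p : E d)) - B⁻¹ • (b + (p : E d))‖
      ≤ r / (1 + ρ ^ 2) * ‖a - b‖ := mul_le_mul_of_nonneg_left h1 (by positivity)
    _ = r * ‖a - b‖ / (1 + ρ ^ 2) := by ring

end Pool.Agent.Helper88.SE
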