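import Pool.Agent.Helper88.SE.Defs

set_option autoImplicit false

open MeasureTheory Set Filter Topology
open scoped ENNReal

namespace Pool.Agent.Helper88.SE



theorem ball_in_cap (d : ℕ) (p : S d) (t : ℝ) (ht : 0 < t) (ht1 : t ≤ 1) (x : S d)
    (hx : dist x p ≤ t / 2) : x ∈ cap p t := by
  have hp : ‖(p : E d)‖ = 1 := by simp
  have hx1 : ‖(x : E d)‖ = 1 := by simp
  set z : ℝ := inner ℝ (p : E d) (x : E d) with hz
  have hD : dist x p ^ 2 = 2 - 2 * z := by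
    rw [Subtype.dist_eq, dist_eq_norm, @norm_sub_sq_real, hp, hx1, real_inner_comm, ← hz]
    ring
  have hD2 : dist x p ^ 2 ≤ (t / 2) ^ 2 := pow_le_pow_left₀ dist_nonneg hx 2
  have hz1 : 1 - t ^ 2 / 8 ≤ z := by nlinarith
  have hz2 : 7 / 8 ≤ z := by nlinarith
  have hn : ‖(x : E d) - z • (p : E d)‖ ^ 2 = 1 - z ^ 2 := by
    rw [@norm_sub_sq_real, norm_smul, hp, hx1, real_inner_smul_right, real_inner_comm, ← hz,
      Real.norm_eq_abs, mul_one, sq_abs]
    ring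
  refine ⟨by linarith, ?_⟩
  rw [← hz]
  apply lt_of_pow_lt_pow_left₀ 2 (by positivity)
  rw [hn, mul_pow]
  have h1 : 1 - z ^ 2 ≤ t ^ 2 / 4 := by nlinarith [sq_nonneg (1 - z)]
  have h2 : (49 / 64 : ℝ) ≤ z ^ 2 := by nlinarith
  have h3 : 0 < t ^ 2 := by positivity
  nlinarith

end Pool.Agent.Helper88.SE
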