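import Pool.Agent.Helper88.SE.Defs
import Pool.Agent.Helper88.SE.P_chart_meas
import Pool.Agent.Helper88.SE.P_chart_int
import Pool.Agent.Helper88.SE.P_ball_in_cap

set_option autoImplicit false

open MeasureTheory Set Filter Topology
open scoped ENNReal

namespace Pool.Agent.Helper88.SE



theorem chart_mass (d : ℕ) (p : S d) (r ρ : ℝ) (hr : 0 < r) (hr1 : r ≤ 1) (hρ : 0 < ρ)
    (hρ1 : ρ ≤ 1) (f : S d → ℝ≥0∞) (hf : Measurable f)
    (hs : ∀ x, r * ρ / 2 < dist x p → f x = 0) :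
    ∫⁻ x, ENNReal.ofReal (wt p r ρ x) * f (psi p r x) ∂(sg d) =
      ENNReal.ofReal ((1 + ρ ^ 2) ^ (-(((d : ℝ) + 1) / 2)) * r ^ (-(d : ℝ))) *
        ∫⁻ x, f x ∂(sg d) := by
  have hcap : MeasurableSet (cap p ρ) := (chart_meas d p r ρ hr).2.2
  have hcap2 : MeasurableSet (cap p (r * ρ)) := (chart_meas d p r (r * ρ) hr).2.2
  set C : ℝ := (1 + ρ ^ 2) ^ (-(((d : ℝ) + 1) / 2)) with hC
  have hC0 : 0 ≤ C := by positivity
  have h1 : (fun x : S d => ENNReal.ofReal (wt p r ρ x) * f (psi p r x)) =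
      (cap p ρ).indicator (fun x => ENNReal.ofReal C *
        (f (psi p r x) * ENNReal.ofReal (‖Amap p r (x : E d)‖ ^ (-((d : ℝ) + 1))))) := by
    funext x
    by_cases hx : x ∈ cap p ρ
    · rw [Set.indicator_of_mem hx]
      unfold wt
      rw [Set.indicator_of_mem hx, ENNReal.ofReal_mul hC0]
      ring
    · rw [Set.indicator_of_notMem hx]
      unfold wt
      rw [Set.indicator_of_notMem hx]
      simp
  rw [h1, lintegral_indicator hcap, lintegral_const_mul' _ _ ENNReal.ofReal_ne_top,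
    chart_int d p r ρ hr hρ f hf]
  have h2 : ∫⁻ x in cap p (r * ρ), f x ∂(sg d) = ∫⁻ x, f x ∂(sg d) := by
    rw [← lintegral_indicator hcap2]
    congr 1
    funext x
    by_cases hx : x ∈ cap p (r * ρ)
    · rw [Set.indicator_of_mem hx]
    · rw [Set.indicator_of_notMem hx]
      refine (hs x ?_).symm
      by_contra hcon
      push Not at hcon
      exact hx (ball_in_cap d p (r * ρ) (by positivity) (mul_le_one₀ hr1 hρ.le hρ1) x hcon)
  rw [h2, ENNReal.ofReal_mul hC0, mul_assoc]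

end Pool.Agent.Helper88.SE
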