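import Pool.Agent.Helper88.SE.Defs

set_option autoImplicit false

open MeasureTheory Set Filter Topology
open scoped ENNReal

namespace Pool.Agent.Helper88.SE



theorem chart_wt (d : ℕ) (p : S d) (r ρ : ℝ) (hr : 0 < r) (hr1 : r ≤ 1) (hρ : 0 < ρ) (x : S d) :
    0 ≤ wt p r ρ x ∧ wt p r ρ x ≤ 1 ∧ (0 < wt p r ρ x → x ∈ cap p ρ) := by
  unfold wt
  by_cases hx : x ∈ cap p ρ
  · rw [Set.indicator_of_mem hx]
    refine ⟨mul_nonneg (Real.rpow_nonneg (by positivity) _) (Real.rpow_nonneg (norm_nonneg _) _),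
      ?_, fun _ => hx⟩
    obtain ⟨h1, h2⟩ := hx
    have hpn : ‖(p : E d)‖ = 1 := by
      have := p.2
      rwa [mem_sphere_zero_iff_norm] at this
    have hxn : ‖(x : E d)‖ = 1 := by
      have := x.2
      rwa [mem_sphere_zero_iff_norm] at this
    have hcomm : inner ℝ (x : E d) (p : E d) = inner ℝ (p : E d) (x : E d) := real_inner_comm _ _
    set z := inner ℝ (p : E d) (x : E d) with hz
    have h3 : ‖(x : E d) - z • (p : E d)‖ ^ 2 = 1 - z ^ 2 := by
      rw [norm_sub_sq_real, inner_smul_right, norm_smul, hxn, hpn, hcomm, mul_one,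
        Real.norm_eq_abs, sq_abs]
      ring
    have h4 : 1 < (1 + ρ ^ 2) * z ^ 2 := by
      have : ‖(x : E d) - z • (p : E d)‖ ^ 2 < (ρ * z) ^ 2 :=
        pow_lt_pow_left₀ h2 (norm_nonneg _) two_ne_zero
      rw [h3] at this
      nlinarith
    have h5 : ‖Amap p r (x : E d)‖ ^ 2 = r ^ 2 * (1 - z ^ 2) + z ^ 2 := by
      unfold Amap
      rw [norm_add_sq_real, inner_smul_left, inner_smul_right, norm_smul, norm_smul, hxn, hpn,
        ← hz, hcomm, mul_one, mul_one, Real.norm_eq_abs, Real.norm_eq_abs, sq_abs, sq_abs]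
      simp only [conj_trivial]
      ring
    have h6 : 0 ≤ 1 - z ^ 2 := by rw [← h3]; positivity
    have h7 : 1 ≤ (1 + ρ ^ 2) * ‖Amap p r (x : E d)‖ ^ 2 := by
      rw [h5]
      have : 0 ≤ r ^ 2 * (1 - z ^ 2) := mul_nonneg (sq_nonneg _) h6
      nlinarith [mul_nonneg (by positivity : (0 : ℝ) ≤ 1 + ρ ^ 2) this]
    have h8 : ‖Amap p r (x : E d)‖ ^ (-((d : ℝ) + 1)) =
        (‖Amap p r (x : E d)‖ ^ 2) ^ (-(((d : ℝ) + 1) / 2)) := by
      rw [← Real.rpow_natCast, ← Real.rpow_mul (norm_nonneg _)]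
      congr 1
      push_cast
      ring
    rw [h8, ← Real.mul_rpow (by positivity) (by positivity)]
    exact Real.rpow_le_one_of_one_le_of_nonpos h7 (by
      have : (0 : ℝ) ≤ ((d : ℝ) + 1) / 2 := by positivity
      linarith)
  · rw [Set.indicator_of_notMem hx]
    exact ⟨le_rfl, zero_le_one, fun h => absurd h (lt_irrefl _)⟩

end Pool.Agent.Helper88.SE
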