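import Pool.Agent.Helper88.SE.Defs
import Pool.Agent.Helper557.Rz.M_haar

set_option autoImplicit false

open MeasureTheory Set Filter Topology
open scoped ENNReal

namespace Pool.Agent.Helper88.SE

theorem exists_haar (d : ℕ) : ∃ (Ω : Type) (_ : MeasurableSpace Ω) (P : Measure Ω)
    (G : Ω → Iso d), IsProbabilityMeasure P ∧
    Measurable (fun p : Ω × S d => rot (G p.1) p.2) ∧
    ∀ (x : S d) (f : S d → ℝ≥0∞), Measurable f →
      ∫⁻ ω, f (rot (G ω) x) ∂P = ∫⁻ y, f y ∂(sg d) := by
  obtain ⟨Ω, mΩ, P, hP, G, h1, h2⟩ :=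
    Pool.Agent.Helper557.Rz.exists_haar (d + 1) (Nat.le_add_left 1 d)
  have hsg : IsProbabilityMeasure (sg d) :=
    Pool.Agent.Helper557.Rz.sg_prob (d + 1) (Nat.le_add_left 1 d)
  refine ⟨Ω, mΩ, P, G, hP, h1, ?_⟩
  intro x f hf
  have hm : Measurable (fun ω => rot (G ω) x) := h1.comp (measurable_id.prodMk measurable_const)
  have hmap : P.map (fun ω => rot (G ω) x) = sg d := by
    ext s hs
    have h3 := h2 x (s.indicator (fun _ => (1 : ℝ))) (measurable_const.indicator hs)
      ⟨1, fun y => by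
        by_cases hy : y ∈ s <;> simp [hy]⟩
    have h4 : ∫ ω, s.indicator (fun _ => (1 : ℝ)) (rot (G ω) x) ∂P =
        (P ((fun ω => rot (G ω) x) ⁻¹' s)).toReal := by
      have : (fun ω => s.indicator (fun _ => (1 : ℝ)) (rot (G ω) x)) =
          ((fun ω => rot (G ω) x) ⁻¹' s).indicator (fun _ => (1 : ℝ)) := by
        ext ω
        by_cases hω : rot (G ω) x ∈ s
        · rw [Set.indicator_of_mem hω, Set.indicator_of_mem (show ω ∈ (fun ω => rot (G ω) x) ⁻¹' s from hω)]
        · rw [Set.indicator_of_notMem hω, Set.indicator_of_notMem (show ω ∉ (fun ω => rot (G ω) x) ⁻¹' s from hω)]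
      rw [this, integral_indicator (hm hs)]
      simp [Measure.real]
    have h5 : ∫ y, s.indicator (fun _ => (1 : ℝ)) y ∂(sg d) = (sg d s).toReal := by
      rw [integral_indicator hs]
      simp [Measure.real]
    rw [Measure.map_apply hm hs]
    have h6 : (P ((fun ω => rot (G ω) x) ⁻¹' s)).toReal = (sg d s).toReal := by
      rw [← h4, ← h5]
      exact h3
    exact (ENNReal.toReal_eq_toReal_iff' (measure_ne_top _ _) (measure_ne_top _ _)).1 h6
  rw [← hmap, lintegral_map hf hm]

end Pool.Agent.Helper88.SE
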