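import Pool.Agent.Helper88.SE.Defs
import Pool.Agent.Helper88.SE.P_exists_haar
import Pool.Agent.Helper88.SE.P_chart_meas
import Pool.Agent.Helper88.SE.P_chart_wt
import Pool.Agent.Helper88.SE.P_chart_dist
import Pool.Agent.Helper88.SE.P_chart_mass

set_option autoImplicit false

open MeasureTheory Set Filter Topology
open scoped ENNReal

namespace Pool.Agent.Helper88.SE



theorem Ens_chart (d : ℕ) (n N : ℕ) (hN : 1 ≤ N) (x : Fin N → S d)
    (hx : Function.Injective x) (r ρ : ℝ) (hr : 0 < r) (hr1 : r ≤ 1) (hρ : 0 < ρ) (hρ1 : ρ ≤ 1)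
    (hrel : (N : ℝ) * ((1 + ρ ^ 2) ^ (-(((d : ℝ) + 1) / 2)) * r ^ (-(d : ℝ))) = n)
    {M : ℕ} (L : S d → Fin M) (hL : Measurable L)
    (hdiam : ∀ u v, L u = L v → dist u v ≤ r * ρ / 2) :
    ∃ (Ω : Type) (_ : MeasurableSpace Ω) (P : Measure Ω)
      (Y : Fin M → Fin N → Ω → S d) (Θ : Fin M → Fin N → Ω → ℝ), IsProbabilityMeasure P ∧
      Ens n N L P Y Θ ∧
      ∀ l i j ω, 0 < Θ l i ω → 0 < Θ l j ω →
        r / (1 + ρ ^ 2) * dist (x i) (x j) ≤ dist (Y l i ω) (Y l j ω) := by
  classical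
  obtain ⟨Ω, mΩ, P, G, hP, hG, hint⟩ := exists_haar d
  obtain ⟨p, hp⟩ : ∃ p : Fin M → S d, ∀ l, (∃ u, L u = l) → L (p l) = l := by
    have hne : Nonempty (S d) := ⟨x ⟨0, hN⟩⟩
    refine ⟨fun l => if h : ∃ u, L u = l then h.choose else Classical.arbitrary _, fun l hl => ?_⟩
    simp only [dif_pos hl]
    exact hl.choose_spec
  have hR : ∀ i, Measurable (fun ω => rot (G ω) (x i)) := fun i =>
    hG.comp (measurable_id.prodMk measurable_const)
  have hY : ∀ l i, Measurable (fun ω => psi (p l) r (rot (G ω) (x i))) := fun l i =>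
    (chart_meas d (p l) r ρ hr).1.comp (hR i)
  have hrot : ∀ (g : Iso d) (a b : S d), dist (rot g a) (rot g b) = dist a b := by
    intro g a b
    rw [Subtype.dist_eq, Subtype.dist_eq]
    exact g.dist_map _ _
  have hsupp : ∀ (l : Fin M) (i : Fin N) (ω : Ω),
      0 < (if L (psi (p l) r (rot (G ω) (x i))) = l then wt (p l) r ρ (rot (G ω) (x i)) else 0) →
      L (psi (p l) r (rot (G ω) (x i))) = l ∧ rot (G ω) (x i) ∈ cap (p l) ρ := by
    intro l i ω h
    split_ifs at h with h2
    · exact ⟨h2, (chart_wt d (p l) r ρ hr hr1 hρ _).2.2 h⟩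
    · exact absurd h (lt_irrefl _)
  have hexp : ∀ (l : Fin M) (i j : Fin N) (ω : Ω),
      0 < (if L (psi (p l) r (rot (G ω) (x i))) = l then wt (p l) r ρ (rot (G ω) (x i)) else 0) →
      0 < (if L (psi (p l) r (rot (G ω) (x j))) = l then wt (p l) r ρ (rot (G ω) (x j)) else 0) →
      r / (1 + ρ ^ 2) * dist (x i) (x j) ≤
        dist (psi (p l) r (rot (G ω) (x i))) (psi (p l) r (rot (G ω) (x j))) := by
    intro l i j ω h1 h2
    have h3 := chart_dist d (p l) r ρ hr hr1 hρ _ _ (hsupp l i ω h1).2 (hsupp l j ω h2).2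
    rwa [hrot] at h3
  refine ⟨Ω, mΩ, P, fun l i ω => psi (p l) r (rot (G ω) (x i)),
    fun l i ω => if L (psi (p l) r (rot (G ω) (x i))) = l then wt (p l) r ρ (rot (G ω) (x i)) else 0,
    hP, ⟨hY, ?_, ?_, ?_, ?_, ?_, ?_⟩, hexp⟩
  · intro l i
    refine Measurable.ite ?_ ((chart_meas d (p l) r ρ hr).2.1.comp (hR i)) measurable_const
    exact (hL.comp (hY l i)) (measurableSet_singleton l)
  · intro l i ω
    show 0 ≤ if L (psi (p l) r (rot (G ω) (x i))) = l then wt (p l) r ρ (rot (G ω) (x i)) else 0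
    split_ifs
    · exact (chart_wt d (p l) r ρ hr hr1 hρ _).1
    · exact le_rfl
  · intro l i ω
    show (if L (psi (p l) r (rot (G ω) (x i))) = l then wt (p l) r ρ (rot (G ω) (x i)) else 0) ≤ 1
    split_ifs
    · exact (chart_wt d (p l) r ρ hr hr1 hρ _).2.1
    · exact zero_le_one
  · intro l i ω h
    exact (hsupp l i ω h).1
  · intro l i j ω hij h1 h2 heq
    have h3 := hexp l i j ω h1 h2
    have h4 : dist (psi (p l) r (rot (G ω) (x i))) (psi (p l) r (rot (G ω) (x j))) = 0 := by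
      rw [dist_eq_zero]
      exact heq
    rw [h4] at h3
    have h5 : 0 < dist (x i) (x j) := dist_pos.2 (fun h => hij (hx h))
    have h6 : 0 < r / (1 + ρ ^ 2) * dist (x i) (x j) := by positivity
    linarith
  · intro l i f hf
    have hfm : Measurable (fun u : S d => if L u = l then f u else 0) :=
      Measurable.ite (hL (measurableSet_singleton l)) hf measurable_const
    have e1 : ∀ ω, ENNReal.ofReal (if L (psi (p l) r (rot (G ω) (x i))) = l then
        wt (p l) r ρ (rot (G ω) (x i)) else 0) * f (psi (p l) r (rot (G ω) (x i))) =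
        (fun y : S d => ENNReal.ofReal (wt (p l) r ρ y) *
          (fun u : S d => if L u = l then f u else 0) (psi (p l) r y)) (rot (G ω) (x i)) := by
      intro ω
      show _ = ENNReal.ofReal (wt (p l) r ρ (rot (G ω) (x i))) *
        (if L (psi (p l) r (rot (G ω) (x i))) = l then f (psi (p l) r (rot (G ω) (x i))) else 0)
      split_ifs with h
      · rfl
      · simp
    have hm : Measurable (fun y : S d => ENNReal.ofReal (wt (p l) r ρ y) *
          (fun u : S d => if L u = l then f u else 0) (psi (p l) r y)) :=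
      ((chart_meas d (p l) r ρ hr).2.1.ennreal_ofReal).mul
        (hfm.comp (chart_meas d (p l) r ρ hr).1)
    have e2 := hint (x i) _ hm
    have e3 := chart_mass d (p l) r ρ hr hr1 hρ hρ1 (fun u : S d => if L u = l then f u else 0) hfm (by
      intro y hy
      show (if L y = l then f y else 0) = 0
      rw [if_neg]
      intro h
      have h2 := hp l ⟨y, h⟩
      have h3 := hdiam y (p l) (by rw [h, h2])
      linarith)
    calc (N : ℝ≥0∞) * ∫⁻ ω, ENNReal.ofReal (if L (psi (p l) r (rot (G ω) (x i))) = l then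
        wt (p l) r ρ (rot (G ω) (x i)) else 0) * f (psi (p l) r (rot (G ω) (x i))) ∂P
        = (N : ℝ≥0∞) * ∫⁻ ω, (fun y : S d => ENNReal.ofReal (wt (p l) r ρ y) *
          (fun u : S d => if L u = l then f u else 0) (psi (p l) r y)) (rot (G ω) (x i)) ∂P := by
          rw [lintegral_congr e1]
      _ = (N : ℝ≥0∞) * (ENNReal.ofReal ((1 + ρ ^ 2) ^ (-(((d : ℝ) + 1) / 2)) * r ^ (-(d : ℝ))) *
        ∫⁻ x, (fun u : S d => if L u = l then f u else 0) x ∂(sg d)) := by
          rw [e2, e3]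
      _ = _ := by
          rw [← mul_assoc, ← ENNReal.ofReal_natCast, ← ENNReal.ofReal_mul (Nat.cast_nonneg N), hrel,
            ENNReal.ofReal_natCast]

end Pool.Agent.Helper88.SE
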