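import Pool.Agent.Helper88.SE.Defs

set_option autoImplicit false

open MeasureTheory Set Filter Topology
open scoped ENNReal

namespace Pool.Agent.Helper88.SE



theorem Ens_refine (d n N : ℕ) {M k : ℕ} (L : S d → Fin M) (hL : Measurable L)
    {Ω : Type} [MeasurableSpace Ω] (P : Measure Ω) [IsProbabilityMeasure P]
    (Y : Fin M → Fin N → Ω → S d) (Θ : Fin M → Fin N → Ω → ℝ) (hE : Ens n N L P Y Θ)
    (A : S d → (Fin k → Bool)) (hA : Measurable A) :
    Ens n N (fun u => (L u, A u)) P (fun (l : Fin M × (Fin k → Bool)) i ω => Y l.1 i ω)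
      (fun (l : Fin M × (Fin k → Bool)) i ω => if A (Y l.1 i ω) = l.2 then Θ l.1 i ω else 0) := by
  have hs : ∀ a : Fin k → Bool, MeasurableSet {u | A u = a} := fun a =>
    hA (measurableSet_singleton a)
  refine ⟨?_, ?_, ?_, ?_, ?_, ?_, ?_⟩
  · intro l i
    exact hE.mY l.1 i
  · intro l i
    exact Measurable.ite (hE.mY l.1 i (hs l.2)) (hE.mΘ l.1 i) measurable_const
  · intro l i ω
    split_ifs
    · exact hE.nonneg _ _ _
    · exact le_rfl
  · intro l i ω
    split_ifs
    · exact hE.le_one _ _ _
    · exact zero_le_one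
  · intro l i ω h
    split_ifs at h with h1
    · rw [hE.supp _ _ _ h, h1]
    · exact absurd h (lt_irrefl _)
  · intro l i j ω hij h h'
    split_ifs at h with h1
    · split_ifs at h' with h2
      · exact hE.inj _ _ _ _ hij h h'
      · exact absurd h' (lt_irrefl _)
    · exact absurd h (lt_irrefl _)
  · intro l i f hf
    have h := hE.mass l.1 i (fun u => if A u = l.2 then f u else 0)
      (Measurable.ite (hs l.2) hf measurable_const)
    have e1 : ∀ ω, ENNReal.ofReal (if A (Y l.1 i ω) = l.2 then Θ l.1 i ω else 0) * f (Y l.1 i ω) =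
        ENNReal.ofReal (Θ l.1 i ω) * (if A (Y l.1 i ω) = l.2 then f (Y l.1 i ω) else 0) := by
      intro ω
      split_ifs <;> simp
    have e2 : ∀ u, (if (L u, A u) = l then f u else 0) =
        if L u = l.1 then (if A u = l.2 then f u else 0) else 0 := by
      intro u
      by_cases h1 : L u = l.1
      · by_cases h2 : A u = l.2
        · rw [if_pos h1, if_pos h2, if_pos (Prod.ext h1 h2)]
        · rw [if_pos h1, if_neg h2, if_neg]
          intro h3
          exact h2 (congrArg Prod.snd h3)
      · rw [if_neg h1, if_neg]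
        intro h3
        exact h1 (congrArg Prod.fst h3)
    simp_rw [e1, e2]
    exact h

end Pool.Agent.Helper88.SE
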