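import Pool.Agent.Helper88.SE.Defs
import Pool.Agent.Helper88.SE.P_sg_prob
import Pool.Agent.Helper88.SE.P_K_meas

set_option autoImplicit false

open MeasureTheory Set Filter Topology
open scoped ENNReal

namespace Pool.Agent.Helper88.SE



theorem FLc_aux (d : ℕ) (u : S d) (f : S d × S d → ℝ≥0∞) (hf : Measurable f) :
    Measurable (fun v : S d => f (u, v)) := hf.comp measurable_prodMk_left

theorem FL_cross (d : ℕ) (s : ℝ) (n N : ℕ) (hN : 1 ≤ N) {ι : Type} [Fintype ι] [DecidableEq ι]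
    [MeasurableSpace ι] [MeasurableSingletonClass ι] (L : S d → ι) (hL : Measurable L)
    {Ω : Type} [MeasurableSpace Ω] (P : Measure Ω) [IsProbabilityMeasure P]
    (Y : ι → Fin N → Ω → S d) (Θ : ι → Fin N → Ω → ℝ) (hE : Ens n N L P Y Θ) (l l' : ι) :
    ∑ i, ∑ j, ∫⁻ ω, ∫⁻ ω', ENNReal.ofReal (Θ l i ω * Θ l' j ω' * K s (Y l i ω) (Y l' j ω')) ∂P ∂P =
      (n : ℝ≥0∞) ^ 2 * ∫⁻ u, ∫⁻ v, (if L u = l ∧ L v = l' then ENNReal.ofReal (K s u v) else 0)
        ∂(sg d) ∂(sg d) := by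
  haveI := sg_prob d
  have hK0 : ∀ x y : S d, 0 ≤ K s x y := fun x y => Real.rpow_nonneg dist_nonneg _
  have hKm : Measurable (fun p : S d × S d => ENNReal.ofReal (K s p.1 p.2)) :=
    (K_meas d s).ennreal_ofReal
  have hKu : ∀ u : S d, Measurable (fun v : S d => ENNReal.ofReal (K s u v)) :=
    fun u => FLc_aux d u _ hKm
  set g : S d → ℝ≥0∞ := fun u => ∫⁻ v, (if L v = l' then ENNReal.ofReal (K s u v) else 0) ∂(sg d)
    with hg
  have hgm : Measurable g := by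
    have h1 : Measurable (fun p : S d × S d =>
        if L p.2 = l' then ENNReal.ofReal (K s p.1 p.2) else 0) := by
      refine Measurable.ite ?_ hKm measurable_const
      exact (hL.comp measurable_snd) (measurableSet_singleton l')
    exact h1.lintegral_prod_right'
  set I : ℝ≥0∞ := ∫⁻ u, ∫⁻ v, (if L u = l ∧ L v = l' then ENNReal.ofReal (K s u v) else 0)
        ∂(sg d) ∂(sg d) with hI
  have hIg : I = ∫⁻ u, (if L u = l then g u else 0) ∂(sg d) := by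
    rw [hI]
    refine lintegral_congr (fun u => ?_)
    by_cases hu : L u = l
    · simp [hu, hg]
    · simp [hu]
  have hN0 : (N : ℝ≥0∞) ≠ 0 := by
    have : N ≠ 0 := by omega
    exact_mod_cast this
  have hNt : (N : ℝ≥0∞) ≠ ⊤ := ENNReal.natCast_ne_top N
  have key : ∀ i j : Fin N, (N : ℝ≥0∞) ^ 2 *
      ∫⁻ ω, ∫⁻ ω', ENNReal.ofReal (Θ l i ω * Θ l' j ω' * K s (Y l i ω) (Y l' j ω')) ∂P ∂P =
      (n : ℝ≥0∞) ^ 2 * I := by
    intro i j
    have hin : ∀ ω, (N : ℝ≥0∞) *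
        ∫⁻ ω', ENNReal.ofReal (Θ l i ω * Θ l' j ω' * K s (Y l i ω) (Y l' j ω')) ∂P =
        (n : ℝ≥0∞) * (ENNReal.ofReal (Θ l i ω) * g (Y l i ω)) := by
      intro ω
      have h1 : ∫⁻ ω', ENNReal.ofReal (Θ l i ω * Θ l' j ω' * K s (Y l i ω) (Y l' j ω')) ∂P =
          ENNReal.ofReal (Θ l i ω) *
            ∫⁻ ω', ENNReal.ofReal (Θ l' j ω') * ENNReal.ofReal (K s (Y l i ω) (Y l' j ω')) ∂P := by
        rw [← lintegral_const_mul' _ _ ENNReal.ofReal_ne_top]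
        refine lintegral_congr (fun ω' => ?_)
        rw [← ENNReal.ofReal_mul (hE.nonneg l' j ω'), ← ENNReal.ofReal_mul (hE.nonneg l i ω),
          mul_assoc]
      have h2 := hE.mass l' j (fun v => ENNReal.ofReal (K s (Y l i ω) v)) (hKu (Y l i ω))
      rw [h1, ← mul_assoc, mul_comm (N : ℝ≥0∞) (ENNReal.ofReal _), mul_assoc, h2, hg]
      ring
    have hT : (N : ℝ≥0∞) * ∫⁻ ω, ∫⁻ ω', ENNReal.ofReal (Θ l i ω * Θ l' j ω' *
        K s (Y l i ω) (Y l' j ω')) ∂P ∂P =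
        (n : ℝ≥0∞) * ∫⁻ ω, ENNReal.ofReal (Θ l i ω) * g (Y l i ω) ∂P := by
      exact (lintegral_const_mul' _ _ hNt).symm.trans ((lintegral_congr hin).trans
        (lintegral_const_mul' _ _ (ENNReal.natCast_ne_top n)))
    have h3 := hE.mass l i g hgm
    have halg : ∀ (a b x y z : ℝ≥0∞), a * x = b * y → a * y = b * z →
        a ^ 2 * x = b ^ 2 * z := by
      intro a b x y z h1 h2
      rw [sq, mul_assoc, h1, mul_left_comm, h2, sq, mul_assoc]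
    exact halg _ _ _ _ _ hT (h3.trans (congrArg _ hIg.symm))
  have hsumgen : ∀ (c C : ℝ≥0∞) (T : Fin N → Fin N → ℝ≥0∞), (∀ i j, (N : ℝ≥0∞) ^ 2 * T i j = C) →
      (N : ℝ≥0∞) ^ 2 * ∑ i, ∑ j, T i j = (N : ℝ≥0∞) ^ 2 * C := by
    intro c C T hT
    rw [Finset.mul_sum]
    simp_rw [Finset.mul_sum, hT]
    simp only [Finset.sum_const, Finset.card_univ, Fintype.card_fin, nsmul_eq_mul]
    rw [← mul_assoc, sq]
  have hsum : (N : ℝ≥0∞) ^ 2 * ∑ i : Fin N, ∑ j : Fin N, ∫⁻ ω, ∫⁻ ω', ENNReal.ofReal (Θ l i ω *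
      Θ l' j ω' * K s (Y l i ω) (Y l' j ω')) ∂P ∂P = (N : ℝ≥0∞) ^ 2 * ((n : ℝ≥0∞) ^ 2 * I) := by
    exact hsumgen 0 _ _ key
  exact (ENNReal.mul_right_inj (pow_ne_zero 2 hN0) (ENNReal.pow_ne_top hNt)).1 hsum

end Pool.Agent.Helper88.SE
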