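import Pool.Agent.Helper88.SE.Defs
import Pool.Agent.Helper88.SE.P_sg_prob

set_option autoImplicit false

open MeasureTheory Set Filter Topology
open scoped ENNReal

namespace Pool.Agent.Helper88.SE



theorem FL_tot (d : ℕ) (n N : ℕ) (hN : 1 ≤ N) {ι : Type} [Fintype ι] [DecidableEq ι]
    [MeasurableSpace ι] [MeasurableSingletonClass ι] (L : S d → ι) (hL : Measurable L)
    {Ω : Type} [MeasurableSpace Ω] (P : Measure Ω) [IsProbabilityMeasure P]
    (Y : ι → Fin N → Ω → S d) (Θ : ι → Fin N → Ω → ℝ) (hE : Ens n N L P Y Θ) :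
    (∀ i, (N : ℝ≥0∞) * ∑ l, ∫⁻ ω, ENNReal.ofReal (Θ l i ω) ∂P = n) ∧
    ∑ l, ∑ i, ∫⁻ ω, ENNReal.ofReal (Θ l i ω) ∂P = n := by
  haveI := sg_prob d
  have h1 : ∀ i, (N : ℝ≥0∞) * ∑ l, ∫⁻ ω, ENNReal.ofReal (Θ l i ω) ∂P = n := by
    intro i
    rw [Finset.mul_sum]
    have h2 : ∀ l ∈ (Finset.univ : Finset ι), (N : ℝ≥0∞) * ∫⁻ ω, ENNReal.ofReal (Θ l i ω) ∂P =
        (n : ℝ≥0∞) * ∫⁻ u, (if L u = l then (1 : ℝ≥0∞) else 0) ∂(sg d) := by
      intro l _
      have h3 := hE.mass l i (fun _ => 1) measurable_const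
      simpa using h3
    rw [Finset.sum_congr rfl h2, ← Finset.mul_sum, ← lintegral_finsetSum]
    · have h4 : ∀ u, ∑ l, (if L u = l then (1 : ℝ≥0∞) else 0) = 1 := by
        intro u
        rw [Finset.sum_ite_eq]
        simp
      simp only [h4]
      rw [lintegral_one, measure_univ, mul_one]
    · intro l _
      exact Measurable.ite (hL (measurableSet_singleton l)) measurable_const measurable_const
  refine ⟨h1, ?_⟩
  rw [Finset.sum_comm]
  have hN0 : (N : ℝ≥0∞) ≠ 0 := by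
    rw [Ne, Nat.cast_eq_zero]
    omega
  have hNt : (N : ℝ≥0∞) ≠ ⊤ := ENNReal.natCast_ne_top N
  have h5 : (N : ℝ≥0∞) * ∑ i, ∑ l, ∫⁻ ω, ENNReal.ofReal (Θ l i ω) ∂P = (N : ℝ≥0∞) * n := by
    rw [Finset.mul_sum, Finset.sum_congr rfl (fun i _ => h1 i), Finset.sum_const, Finset.card_univ,
      Fintype.card_fin, nsmul_eq_mul]
  exact (ENNReal.mul_right_inj hN0 hNt).mp h5

end Pool.Agent.Helper88.SE
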