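import Pool.Agent.Helper88.SE.Defs

set_option autoImplicit false

open MeasureTheory Set Filter Topology
open scoped ENNReal

namespace Pool.Agent.Helper88.SE



theorem vertex_affine {d : ℕ} (s c₁ c₀ : ℝ) (hs : s ≠ 0) {α : Type} [Fintype α] [DecidableEq α]
    (y : α → S d) (θ : α → ℝ) (a0 : α) :
    ∃ A B : ℝ, ∀ x : ℝ, ∑ a, ∑ b, Function.update θ a0 x a * Function.update θ a0 x b *
      K s (y a) (y b) - c₁ * ∑ a, Function.update θ a0 x a + c₀ = A + B * x := by
  have hK : K s (y a0) (y a0) = 0 := by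
    unfold K
    rw [dist_self, Real.zero_rpow (neg_ne_zero.2 hs)]
  let e : α → ℝ := fun a => if a = a0 then 1 else 0
  let θ0 : α → ℝ := Function.update θ a0 0
  have hup : ∀ (x : ℝ) (a : α), Function.update θ a0 x a = θ0 a + x * e a := by
    intro x a
    by_cases h : a = a0
    · subst h
      simp [θ0, e]
    · simp [θ0, e, h]
  have hee : ∑ a, ∑ b, e a * e b * K s (y a) (y b) = 0 := by
    simp only [e, ite_mul, one_mul, zero_mul, Finset.sum_ite_eq', Finset.mem_univ, if_true,
      Finset.sum_const_zero, mul_ite, mul_one, mul_zero]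
    simp [hK]
  refine ⟨∑ a, ∑ b, θ0 a * θ0 b * K s (y a) (y b) - c₁ * ∑ a, θ0 a + c₀,
    ∑ a, ∑ b, (θ0 a * e b + e a * θ0 b) * K s (y a) (y b) - c₁ * ∑ a, e a, fun x => ?_⟩
  simp only [hup]
  have h1 : ∑ a, ∑ b, (θ0 a + x * e a) * (θ0 b + x * e b) * K s (y a) (y b) =
      ∑ a, ∑ b, θ0 a * θ0 b * K s (y a) (y b) +
      x * ∑ a, ∑ b, (θ0 a * e b + e a * θ0 b) * K s (y a) (y b) +
      x ^ 2 * ∑ a, ∑ b, e a * e b * K s (y a) (y b) := by
    simp only [Finset.mul_sum, ← Finset.sum_add_distrib]
    refine Finset.sum_congr rfl fun a _ => Finset.sum_congr rfl fun b _ => ?_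
    ring
  rw [h1, hee, Finset.sum_add_distrib, ← Finset.mul_sum]
  ring

theorem vertex_base {d : ℕ} (s c₁ c₀ m₀ : ℝ)
    (h : ∀ (M : ℕ) (y : Fin M → S d), Function.Injective y → m₀ ≤ En s y - c₁ * M + c₀)
    {α : Type} [Fintype α] [DecidableEq α] (y : α → S d) (θ : α → ℝ) (h01 : ∀ a, θ a = 0 ∨ θ a = 1)
    (hinj : ∀ a b, a ≠ b → 0 < θ a → 0 < θ b → y a ≠ y b) :
    m₀ ≤ ∑ a, ∑ b, θ a * θ b * K s (y a) (y b) - c₁ * ∑ a, θ a + c₀ := by
  classical
  let T : Finset α := Finset.univ.filter (fun a => θ a = 1)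
  have hθ : ∀ a, θ a = if a ∈ T then 1 else 0 := by
    intro a
    by_cases ha : θ a = 1
    · rw [if_pos (by simp [T, ha]), ha]
    · rw [if_neg (by simp [T, ha])]
      exact (h01 a).resolve_right ha
  have hsum : ∀ f : α → ℝ, ∑ a, θ a * f a = ∑ a ∈ T, f a := by
    intro f
    have h2 : ∀ a ∈ (Finset.univ : Finset α), θ a * f a = if a ∈ T then f a else 0 := by
      intro a _
      rw [hθ a]
      split_ifs <;> simp
    rw [Finset.sum_congr rfl h2, Finset.sum_ite_mem, Finset.univ_inter]
  let y' : Fin T.card → S d := fun i => y ((T.equivFin.symm i : T) : α)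
  have hy' : Function.Injective y' := by
    intro i j hij
    by_contra hne
    have h3 : ((T.equivFin.symm i : T) : α) ≠ ((T.equivFin.symm j : T) : α) := by
      intro h4
      exact hne (T.equivFin.symm.injective (Subtype.ext h4))
    have hpos : ∀ k : Fin T.card, 0 < θ ((T.equivFin.symm k : T) : α) := by
      intro k
      rw [hθ, if_pos (T.equivFin.symm k).2]
      exact one_pos
    exact hinj _ _ h3 (hpos i) (hpos j) hij
  have h5 := h T.card y' hy'
  have h6 : ∑ a, θ a = (T.card : ℝ) := by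
    have := hsum (fun _ => 1)
    simpa using this
  have h7 : ∑ a, ∑ b, θ a * θ b * K s (y a) (y b) = En s y' := by
    have h8 : ∑ a, ∑ b, θ a * θ b * K s (y a) (y b) =
        ∑ a, θ a * ∑ b, θ b * K s (y a) (y b) := by
      refine Finset.sum_congr rfl fun a _ => ?_
      rw [Finset.mul_sum]
      exact Finset.sum_congr rfl fun b _ => by ring
    rw [h8, hsum]
    simp only [hsum]
    unfold En
    have h9 : ∀ f : α → ℝ, ∑ a ∈ T, f a = ∑ i : Fin T.card, f ((T.equivFin.symm i : T) : α) := by
      intro f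
      rw [Equiv.sum_comp T.equivFin.symm (fun a : T => f (a : α)), Finset.sum_coe_sort]
    rw [h9]
    refine Finset.sum_congr rfl fun i _ => ?_
    rw [h9]
  rw [h6, h7]
  exact h5

theorem vertex_ind {d : ℕ} (s c₁ c₀ m₀ : ℝ) (hs : s ≠ 0)
    (h : ∀ (M : ℕ) (y : Fin M → S d), Function.Injective y → m₀ ≤ En s y - c₁ * M + c₀)
    {α : Type} [Fintype α] [DecidableEq α] (y : α → S d) (n : ℕ) : ∀ (θ : α → ℝ),
    (Finset.univ.filter (fun a => θ a ≠ 0 ∧ θ a ≠ 1)).card ≤ n → (∀ a, 0 ≤ θ a) → (∀ a, θ a ≤ 1) →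
    (∀ a b, a ≠ b → 0 < θ a → 0 < θ b → y a ≠ y b) →
    m₀ ≤ ∑ a, ∑ b, θ a * θ b * K s (y a) (y b) - c₁ * ∑ a, θ a + c₀ := by
  induction n with
  | zero =>
    intro θ hn h0 h1 hinj
    apply vertex_base s c₁ c₀ m₀ h y θ _ hinj
    intro a
    by_contra hc
    push Not at hc
    have : a ∈ Finset.univ.filter (fun a => θ a ≠ 0 ∧ θ a ≠ 1) := by simp [hc]
    have h2 := Finset.card_pos.2 ⟨a, this⟩
    omega
  | succ n ih =>
    intro θ hn h0 h1 hinj
    by_cases hall : ∀ a, θ a = 0 ∨ θ a = 1
    · exact vertex_base s c₁ c₀ m₀ h y θ hall hinj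
    · push Not at hall
      obtain ⟨a0, ha0, ha1⟩ := hall
      have hstep : ∀ x : ℝ, (x = 0 ∨ x = 1) → m₀ ≤ ∑ a, ∑ b, Function.update θ a0 x a *
          Function.update θ a0 x b * K s (y a) (y b) - c₁ * ∑ a, Function.update θ a0 x a + c₀ := by
        intro x hx
        have hx0 : 0 ≤ x ∧ x ≤ 1 := by rcases hx with rfl | rfl <;> norm_num
        apply ih
        · have hsub : Finset.univ.filter (fun a => Function.update θ a0 x a ≠ 0 ∧
              Function.update θ a0 x a ≠ 1) ⊆
              (Finset.univ.filter (fun a => θ a ≠ 0 ∧ θ a ≠ 1)).erase a0 := by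
            intro a ha
            rw [Finset.mem_filter] at ha
            by_cases h2 : a = a0
            · subst h2
              rw [Function.update_self] at ha
              rcases hx with h3 | h3
              · exact absurd h3 ha.2.1
              · exact absurd h3 ha.2.2
            · rw [Function.update_of_ne h2] at ha
              rw [Finset.mem_erase, Finset.mem_filter]
              exact ⟨h2, Finset.mem_univ _, ha.2⟩
          have h3 := Finset.card_le_card hsub
          have h4 : a0 ∈ Finset.univ.filter (fun a => θ a ≠ 0 ∧ θ a ≠ 1) := by simp [ha0, ha1]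
          rw [Finset.card_erase_of_mem h4] at h3
          omega
        · intro a
          by_cases h2 : a = a0
          · subst h2
            rw [Function.update_self]
            exact hx0.1
          · rw [Function.update_of_ne h2]
            exact h0 a
        · intro a
          by_cases h2 : a = a0
          · subst h2
            rw [Function.update_self]
            exact hx0.2
          · rw [Function.update_of_ne h2]
            exact h1 a
        · have hpos : ∀ a, 0 < Function.update θ a0 x a → 0 < θ a := by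
            intro a ha
            by_cases h2 : a = a0
            · subst h2
              exact lt_of_le_of_ne (h0 a) (Ne.symm ha0)
            · rwa [Function.update_of_ne h2] at ha
          exact fun a b hab ha hb => hinj a b hab (hpos a ha) (hpos b hb)
      obtain ⟨A, B, hAB⟩ := vertex_affine s c₁ c₀ hs y θ a0
      have e0 := hstep 0 (Or.inl rfl)
      have e1 := hstep 1 (Or.inr rfl)
      rw [hAB] at e0 e1
      have e2 := hAB (θ a0)
      rw [Function.update_eq_self] at e2
      rw [e2]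
      have h5 := h0 a0
      have h6 := h1 a0
      nlinarith

theorem vertex (d : ℕ) (s c₁ c₀ m₀ : ℝ) (hs : s ≠ 0)
    (h : ∀ (M : ℕ) (y : Fin M → S d), Function.Injective y → m₀ ≤ En s y - c₁ * M + c₀)
    {α : Type} [Fintype α] (y : α → S d) (θ : α → ℝ) (h0 : ∀ a, 0 ≤ θ a) (h1 : ∀ a, θ a ≤ 1)
    (hinj : ∀ a b, a ≠ b → 0 < θ a → 0 < θ b → y a ≠ y b) :
    m₀ ≤ ∑ a, ∑ b, θ a * θ b * K s (y a) (y b) - c₁ * ∑ a, θ a + c₀ := by
  classical
  exact vertex_ind s c₁ c₀ m₀ hs h y _ θ le_rfl h0 h1 hinj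

end Pool.Agent.Helper88.SE
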