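import Pool.Agent.Helper88.SE.Defs
import Pool.Agent.Helper88.SE.P_vertex

set_option autoImplicit false

open MeasureTheory Set Filter Topology
open scoped ENNReal

namespace Pool.Agent.Helper88.SE



theorem FLpt (d : ℕ) (s : ℝ) (hs : 0 < s) (n : ℕ) (m₀ : ℝ) (hm₀ : m₀ ≤ 0) (hI : 0 ≤ Ic d s)
    (hstar : ∀ (M : ℕ) (y : Fin M → S d), Function.Injective y →
      m₀ ≤ En s y - 2 * n * Ic d s * M + (n : ℝ) ^ 2 * Ic d s)
    {α : Type} [Fintype α] (y : α → S d) (θ : α → ℝ) (h0 : ∀ a, 0 ≤ θ a) (h1 : ∀ a, θ a ≤ 1)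
    (hinj : ∀ a b, a ≠ b → 0 < θ a → 0 < θ b → y a ≠ y b) :
    ENNReal.ofReal (2 * n * Ic d s) * ∑ a, ENNReal.ofReal (θ a) ≤
      ∑ a, ∑ b, ENNReal.ofReal (θ a * θ b * K s (y a) (y b)) +
        ENNReal.ofReal ((n : ℝ) ^ 2 * Ic d s - m₀) := by
  have hv := vertex d s (2 * n * Ic d s) ((n : ℝ) ^ 2 * Ic d s) m₀ hs.ne'
    (fun M yy hyy => hstar M yy hyy) y θ h0 h1 hinj
  have hK : ∀ a b, 0 ≤ θ a * θ b * K s (y a) (y b) := by
    intro a b
    unfold K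
    have := h0 a
    have := h0 b
    positivity
  have hn : 0 ≤ (n : ℝ) ^ 2 * Ic d s - m₀ := by
    have : 0 ≤ (n : ℝ) ^ 2 * Ic d s := by positivity
    linarith
  have hS : 0 ≤ ∑ a, ∑ b, θ a * θ b * K s (y a) (y b) :=
    Finset.sum_nonneg fun a _ => Finset.sum_nonneg fun b _ => hK a b
  have e1 : ENNReal.ofReal (2 * n * Ic d s) * ∑ a, ENNReal.ofReal (θ a) =
      ENNReal.ofReal (2 * n * Ic d s * ∑ a, θ a) := by
    rw [ENNReal.ofReal_mul (p := 2 * n * Ic d s) (q := ∑ a, θ a) (by positivity),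
      ENNReal.ofReal_sum_of_nonneg (fun a _ => h0 a)]
  have e2 : ∑ a, ∑ b, ENNReal.ofReal (θ a * θ b * K s (y a) (y b)) =
      ENNReal.ofReal (∑ a, ∑ b, θ a * θ b * K s (y a) (y b)) := by
    rw [ENNReal.ofReal_sum_of_nonneg (fun a _ => Finset.sum_nonneg fun b _ => hK a b)]
    apply Finset.sum_congr rfl
    intro a _
    rw [ENNReal.ofReal_sum_of_nonneg (fun b _ => hK a b)]
  rw [e1, e2, ← ENNReal.ofReal_add hS hn]
  apply ENNReal.ofReal_le_ofReal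
  linarith

end Pool.Agent.Helper88.SE
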