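import Pool.Agent.Helper88.SE.Defs

set_option autoImplicit false

open MeasureTheory Set Filter Topology
open scoped ENNReal

namespace Pool.Agent.Helper88.SE

theorem pi_one {ι Ω : Type} [Fintype ι] [MeasurableSpace Ω] (P : Measure Ω)
    [IsProbabilityMeasure P] (a : ι) (f : Ω → ℝ≥0∞) (hf : Measurable f) :
    ∫⁻ ω : ι → Ω, f (ω a) ∂(Measure.pi fun _ => P) = ∫⁻ x, f x ∂P := by
  have h := MeasureTheory.measurePreserving_eval (fun _ : ι => P) a
  exact h.lintegral_comp hf

end Pool.Agent.Helper88.SE
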