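import Pool.Agent.Helper88.SE.Defs

set_option autoImplicit false

open MeasureTheory Set Filter Topology
open scoped ENNReal

namespace Pool.Agent.Helper88.SE



theorem pi_two {ι Ω : Type} [Fintype ι] [MeasurableSpace Ω] (P : Measure Ω)
    [IsProbabilityMeasure P] (a b : ι) (hab : a ≠ b) (f : Ω → Ω → ℝ≥0∞)
    (hf : Measurable (fun p : Ω × Ω => f p.1 p.2)) :
    ∫⁻ ω : ι → Ω, f (ω a) (ω b) ∂(Measure.pi fun _ => P) = ∫⁻ x, ∫⁻ y, f x y ∂P ∂P := by
  have hind := (ProbabilityTheory.iIndepFun_pi (μ := fun _ : ι => P)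
    (X := fun (_ : ι) (x : Ω) => x) (fun i => aemeasurable_id)).indepFun hab
  have hma : Measurable (fun ω : ι → Ω => ω a) := measurable_pi_apply a
  have hmb : Measurable (fun ω : ι → Ω => ω b) := measurable_pi_apply b
  have h1 := (ProbabilityTheory.indepFun_iff_map_prod_eq_prod_map_map
    hma.aemeasurable hmb.aemeasurable).mp hind
  have ha : (Measure.pi fun _ : ι => P).map (fun ω : ι → Ω => ω a) = P :=
    (measurePreserving_eval (fun _ : ι => P) a).map_eq
  have hb : (Measure.pi fun _ : ι => P).map (fun ω : ι → Ω => ω b) = P :=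
    (measurePreserving_eval (fun _ : ι => P) b).map_eq
  rw [ha, hb] at h1
  have h2 : ∫⁻ ω : ι → Ω, f (ω a) (ω b) ∂(Measure.pi fun _ => P) =
      ∫⁻ p : Ω × Ω, f p.1 p.2 ∂((Measure.pi fun _ : ι => P).map
        (fun ω : ι → Ω => (ω a, ω b))) := by
    rw [lintegral_map hf (hma.prodMk hmb)]
  rw [h2, h1]
  exact lintegral_prod _ hf.aemeasurable

end Pool.Agent.Helper88.SE
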