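import Pool.Agent.Helper88.SE.Defs
import Pool.Agent.Helper88.SE.P_sg_prob
import Pool.Agent.Helper88.SE.P_pi_one
import Pool.Agent.Helper88.SE.P_pi_two
import Pool.Agent.Helper88.SE.P_K_meas
import Pool.Agent.Helper88.SE.P_FLpt
import Pool.Agent.Helper88.SE.P_FL_cross
import Pool.Agent.Helper88.SE.P_FL_tot

set_option autoImplicit false

open MeasureTheory Set Filter Topology
open scoped ENNReal

namespace Pool.Agent.Helper88.SE



theorem FL_int (d : ℕ) (s : ℝ) (hs : 0 < s) (n N : ℕ) (hN : 1 ≤ N) (m₀ : ℝ) (hm₀ : m₀ ≤ 0)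
    (hI : 0 ≤ Ic d s)
    (hstar : ∀ (M : ℕ) (y : Fin M → S d), Function.Injective y →
      m₀ ≤ En s y - 2 * n * Ic d s * M + (n : ℝ) ^ 2 * Ic d s)
    {ι : Type} [Fintype ι] [DecidableEq ι]
    [MeasurableSpace ι] [MeasurableSingletonClass ι] (L : S d → ι) (hL : Measurable L)
    {Ω : Type} [MeasurableSpace Ω] (P : Measure Ω) [IsProbabilityMeasure P]
    (Y : ι → Fin N → Ω → S d) (Θ : ι → Fin N → Ω → ℝ) (hE : Ens n N L P Y Θ) :
    ENNReal.ofReal (2 * n * Ic d s) * n ≤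
      (∑ l, ∑ i, ∑ j, ∫⁻ ω, ENNReal.ofReal (Θ l i ω * Θ l j ω * K s (Y l i ω) (Y l j ω)) ∂P) +
      (∑ l, ∑ l', if l = l' then 0 else (n : ℝ≥0∞) ^ 2 *
        ∫⁻ u, ∫⁻ v, (if L u = l ∧ L v = l' then ENNReal.ofReal (K s u v) else 0)
          ∂(sg d) ∂(sg d)) +
      ENNReal.ofReal ((n : ℝ) ^ 2 * Ic d s - m₀) := by
  classical
  have hKm : ∀ (l l' : ι) (i j : Fin N), Measurable (fun p : Ω × Ω =>
      ENNReal.ofReal (Θ l i p.1 * Θ l' j p.2 * K s (Y l i p.1) (Y l' j p.2))) := by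
    intro l l' i j
    exact ((((hE.mΘ l i).comp measurable_fst).mul ((hE.mΘ l' j).comp measurable_snd)).mul
      ((K_meas d s).comp (((hE.mY l i).comp measurable_fst).prodMk
        ((hE.mY l' j).comp measurable_snd)))).ennreal_ofReal
  have hpt : ∀ w : ι → Ω, ENNReal.ofReal (2 * n * Ic d s) *
      ∑ a : ι × Fin N, ENNReal.ofReal (Θ a.1 a.2 (w a.1)) ≤
      ∑ a : ι × Fin N, ∑ b : ι × Fin N, ENNReal.ofReal (Θ a.1 a.2 (w a.1) * Θ b.1 b.2 (w b.1) *
        K s (Y a.1 a.2 (w a.1)) (Y b.1 b.2 (w b.1))) +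
        ENNReal.ofReal ((n : ℝ) ^ 2 * Ic d s - m₀) := by
    intro w
    refine FLpt d s hs n m₀ hm₀ hI hstar (α := ι × Fin N) (fun a => Y a.1 a.2 (w a.1))
      (fun a => Θ a.1 a.2 (w a.1)) (fun a => hE.nonneg _ _ _) (fun a => hE.le_one _ _ _) ?_
    rintro ⟨l, i⟩ ⟨l', j⟩ hab ha hb
    by_cases hl : l = l'
    · subst hl
      have hij : i ≠ j := fun h => hab (by rw [h])
      exact hE.inj l i j (w l) hij ha hb
    · intro h
      apply hl
      rw [← hE.supp l i (w l) ha, ← hE.supp l' j (w l') hb]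
      exact congrArg L h
  have hmeas1 : ∀ a : ι × Fin N, Measurable (fun w : ι → Ω => ENNReal.ofReal (Θ a.1 a.2 (w a.1))) := by
    intro a
    exact ((hE.mΘ a.1 a.2).comp (measurable_pi_apply a.1)).ennreal_ofReal
  have hmeas2 : ∀ a b : ι × Fin N, Measurable (fun w : ι → Ω =>
      ENNReal.ofReal (Θ a.1 a.2 (w a.1) * Θ b.1 b.2 (w b.1) *
        K s (Y a.1 a.2 (w a.1)) (Y b.1 b.2 (w b.1)))) := by
    intro a b
    have h : Measurable (fun w : ι → Ω => (w a.1, w b.1)) :=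
      (measurable_pi_apply a.1).prodMk (measurable_pi_apply b.1)
    exact (hKm a.1 b.1 a.2 b.2).comp h
  have hint := lintegral_mono (μ := Measure.pi fun _ : ι => P) hpt
  rw [lintegral_const_mul _ (Finset.measurable_sum _ fun a _ => hmeas1 a),
    lintegral_finsetSum _ (fun a _ => hmeas1 a),
    lintegral_add_right _ measurable_const, lintegral_const, measure_univ, mul_one,
    lintegral_finsetSum _ (fun a _ => Finset.measurable_sum _ fun b _ => hmeas2 a b)] at hint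
  have e1 : ∑ a : ι × Fin N, ∫⁻ w : ι → Ω, ENNReal.ofReal (Θ a.1 a.2 (w a.1))
      ∂(Measure.pi fun _ => P) = n := by
    rw [← (FL_tot d n N hN L hL P Y Θ hE).2, Fintype.sum_prod_type]
    refine Finset.sum_congr rfl fun l _ => Finset.sum_congr rfl fun i _ => ?_
    exact pi_one P l (fun ω => ENNReal.ofReal (Θ l i ω)) (hE.mΘ l i).ennreal_ofReal
  rw [e1] at hint
  refine hint.trans (add_le_add_left (le_of_eq ?_) _)
  have e2 : ∀ a : ι × Fin N, ∫⁻ w : ι → Ω, ∑ b : ι × Fin N,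
      ENNReal.ofReal (Θ a.1 a.2 (w a.1) * Θ b.1 b.2 (w b.1) *
        K s (Y a.1 a.2 (w a.1)) (Y b.1 b.2 (w b.1))) ∂(Measure.pi fun _ => P) =
      ∑ b : ι × Fin N, ∫⁻ w : ι → Ω,
      ENNReal.ofReal (Θ a.1 a.2 (w a.1) * Θ b.1 b.2 (w b.1) *
        K s (Y a.1 a.2 (w a.1)) (Y b.1 b.2 (w b.1))) ∂(Measure.pi fun _ => P) := fun a =>
    lintegral_finsetSum _ (fun b _ => hmeas2 a b)
  rw [Finset.sum_congr rfl fun a _ => e2 a, Fintype.sum_prod_type]
  have e3 : ∀ l l' : ι, ∑ i : Fin N, ∑ j : Fin N, ∫⁻ w : ι → Ω,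
      ENNReal.ofReal (Θ l i (w l) * Θ l' j (w l') *
        K s (Y l i (w l)) (Y l' j (w l'))) ∂(Measure.pi fun _ => P) =
      (if l = l' then ∑ i : Fin N, ∑ j : Fin N,
        ∫⁻ ω, ENNReal.ofReal (Θ l i ω * Θ l j ω * K s (Y l i ω) (Y l j ω)) ∂P else 0) +
      (if l = l' then 0 else (n : ℝ≥0∞) ^ 2 *
        ∫⁻ u, ∫⁻ v, (if L u = l ∧ L v = l' then ENNReal.ofReal (K s u v) else 0)
          ∂(sg d) ∂(sg d)) := by
    intro l l'
    by_cases hl : l = l'
    · subst hl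
      rw [if_pos rfl, if_pos rfl, add_zero]
      refine Finset.sum_congr rfl fun i _ => Finset.sum_congr rfl fun j _ => ?_
      exact pi_one P l (fun ω => ENNReal.ofReal (Θ l i ω * Θ l j ω * K s (Y l i ω) (Y l j ω)))
        ((hKm l l i j).comp (measurable_id.prodMk measurable_id))
    · rw [if_neg hl, if_neg hl, zero_add, ← FL_cross d s n N hN L hL P Y Θ hE l l']
      refine Finset.sum_congr rfl fun i _ => Finset.sum_congr rfl fun j _ => ?_
      exact pi_two P l l' hl (fun ω ω' => ENNReal.ofReal (Θ l i ω * Θ l' j ω' *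
        K s (Y l i ω) (Y l' j ω'))) (hKm l l' i j)
  have e4 : ∀ l : ι, ∑ i : Fin N, ∑ b : ι × Fin N, ∫⁻ w : ι → Ω,
      ENNReal.ofReal (Θ l i (w l) * Θ b.1 b.2 (w b.1) *
        K s (Y l i (w l)) (Y b.1 b.2 (w b.1))) ∂(Measure.pi fun _ => P) =
      ∑ l' : ι, ∑ i : Fin N, ∑ j : Fin N, ∫⁻ w : ι → Ω,
      ENNReal.ofReal (Θ l i (w l) * Θ l' j (w l') *
        K s (Y l i (w l)) (Y l' j (w l'))) ∂(Measure.pi fun _ => P) := by
    intro l
    rw [Finset.sum_comm]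
    rw [Fintype.sum_prod_type]
    refine Finset.sum_congr rfl fun l' _ => ?_
    rw [Finset.sum_comm]
  rw [← Finset.sum_add_distrib]
  refine Finset.sum_congr rfl fun l _ => ?_
  refine (e4 l).trans ?_
  rw [Finset.sum_congr rfl fun l' _ => e3 l l', Finset.sum_add_distrib]
  congr 1
  rw [Finset.sum_ite_eq Finset.univ l, if_pos (Finset.mem_univ l)]

end Pool.Agent.Helper88.SE
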