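import Pool.Agent.Helper88.SE.Defs
import Pool.Agent.Helper88.SE.P_sg_prob
import Pool.Agent.Helper88.SE.P_KL_const
import Pool.Agent.Helper88.SE.P_K_meas
import Pool.Agent.Helper88.SE.P_FL_int

set_option autoImplicit false

open MeasureTheory Set Filter Topology
open scoped ENNReal

namespace Pool.Agent.Helper88.SE



section j24299

variable {d : ℕ} {ι : Type} [Fintype ι] [DecidableEq ι]
    [MeasurableSpace ι] [MeasurableSingletonClass ι]

theorem j24299_meas (s : ℝ) (L : S d → ι) (hL : Measurable L) (l l' : ι) :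
    Measurable (fun p : S d × S d =>
      if L p.1 = l ∧ L p.2 = l' then ENNReal.ofReal (K s p.1 p.2) else 0) := by
  refine Measurable.ite ?_ (K_meas d s).ennreal_ofReal measurable_const
  exact ((hL.comp measurable_fst) (measurableSet_singleton l)).inter
    ((hL.comp measurable_snd) (measurableSet_singleton l'))

/-- the double integral over one pair of regions -/
noncomputable def j24299_G (s : ℝ) (L : S d → ι) (l l' : ι) : ℝ≥0∞ :=
  ∫⁻ u, ∫⁻ v, (if L u = l ∧ L v = l' then ENNReal.ofReal (K s u v) else 0) ∂(sg d) ∂(sg d)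

theorem j24299_pt (L : S d → ι) (u v : S d) (x : ℝ≥0∞) :
    ∑ l, ∑ l', (if L u = l ∧ L v = l' then x else 0) = x := by
  rw [Finset.sum_eq_single (L u)]
  · rw [Finset.sum_eq_single (L v)]
    · simp
    · intro b _ hb
      rw [if_neg]
      rintro ⟨_, h⟩
      exact hb h.symm
    · intro h
      exact absurd (Finset.mem_univ _) h
  · intro b _ hb
    refine Finset.sum_eq_zero fun l' _ => ?_
    rw [if_neg]
    rintro ⟨h, _⟩
    exact hb h.symm
  · intro h
    exact absurd (Finset.mem_univ _) h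

theorem j24299_pt2 (L : S d → ι) (u v : S d) (x : ℝ≥0∞) :
    ∑ l, (if L u = l ∧ L v = l then x else 0) = if L u = L v then x else 0 := by
  rw [Finset.sum_eq_single (L u)]
  · by_cases h : L u = L v
    · rw [if_pos h, if_pos ⟨rfl, h.symm⟩]
    · rw [if_neg h, if_neg]
      rintro ⟨_, h'⟩
      exact h h'.symm
  · intro b _ hb
    rw [if_neg]
    rintro ⟨h, _⟩
    exact hb h.symm
  · intro h
    exact absurd (Finset.mem_univ _) h

theorem j24299_all (s : ℝ) (L : S d → ι) (hL : Measurable L) :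
    ∑ l, ∑ l', j24299_G s L l l' = ∫⁻ u, ∫⁻ v, ENNReal.ofReal (K s u v) ∂(sg d) ∂(sg d) := by
  haveI := sg_prob d
  have hm := j24299_meas s L hL
  have hin : ∀ u l l', Measurable (fun v : S d =>
      if L u = l ∧ L v = l' then ENNReal.ofReal (K s u v) else 0) := fun u l l' =>
    (hm l l').comp measurable_prodMk_left
  have hout : ∀ l l', Measurable (fun u : S d => ∫⁻ v,
      (if L u = l ∧ L v = l' then ENNReal.ofReal (K s u v) else 0) ∂(sg d)) := fun l l' =>
    (hm l l').lintegral_prod_right'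
  have h1 : ∀ u, ∫⁻ v, ENNReal.ofReal (K s u v) ∂(sg d) = ∑ l, ∑ l', ∫⁻ v,
      (if L u = l ∧ L v = l' then ENNReal.ofReal (K s u v) else 0) ∂(sg d) := by
    intro u
    calc ∫⁻ v, ENNReal.ofReal (K s u v) ∂(sg d) = ∫⁻ v, ∑ l, ∑ l',
          (if L u = l ∧ L v = l' then ENNReal.ofReal (K s u v) else 0) ∂(sg d) :=
          lintegral_congr fun v => (j24299_pt L u v _).symm
      _ = ∑ l, ∫⁻ v, ∑ l',
          (if L u = l ∧ L v = l' then ENNReal.ofReal (K s u v) else 0) ∂(sg d) :=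
          lintegral_finsetSum _ fun l _ => Finset.measurable_sum _ fun l' _ => hin u l l'
      _ = _ := Finset.sum_congr rfl fun l _ => lintegral_finsetSum _ fun l' _ => hin u l l'
  calc ∑ l, ∑ l', j24299_G s L l l' = ∑ l, ∫⁻ u, ∑ l', ∫⁻ v,
        (if L u = l ∧ L v = l' then ENNReal.ofReal (K s u v) else 0) ∂(sg d) ∂(sg d) :=
        Finset.sum_congr rfl fun l _ => (lintegral_finsetSum _ fun l' _ => hout l l').symm
    _ = ∫⁻ u, ∑ l, ∑ l', ∫⁻ v,
        (if L u = l ∧ L v = l' then ENNReal.ofReal (K s u v) else 0) ∂(sg d) ∂(sg d) :=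
        (lintegral_finsetSum _ fun l _ => Finset.measurable_sum _ fun l' _ => hout l l').symm
    _ = _ := lintegral_congr fun u => (h1 u).symm

theorem j24299_diag (s : ℝ) (L : S d → ι) (hL : Measurable L) :
    ∑ l, j24299_G s L l l = ∫⁻ u, ∫⁻ v,
      (if L u = L v then ENNReal.ofReal (K s u v) else 0) ∂(sg d) ∂(sg d) := by
  haveI := sg_prob d
  have hm := j24299_meas s L hL
  have hin : ∀ u l l', Measurable (fun v : S d =>
      if L u = l ∧ L v = l' then ENNReal.ofReal (K s u v) else 0) := fun u l l' =>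
    (hm l l').comp measurable_prodMk_left
  have hout : ∀ l l', Measurable (fun u : S d => ∫⁻ v,
      (if L u = l ∧ L v = l' then ENNReal.ofReal (K s u v) else 0) ∂(sg d)) := fun l l' =>
    (hm l l').lintegral_prod_right'
  have h1 : ∀ u, ∫⁻ v, (if L u = L v then ENNReal.ofReal (K s u v) else 0) ∂(sg d) =
      ∑ l, ∫⁻ v,
      (if L u = l ∧ L v = l then ENNReal.ofReal (K s u v) else 0) ∂(sg d) := by
    intro u
    calc ∫⁻ v, (if L u = L v then ENNReal.ofReal (K s u v) else 0) ∂(sg d) = ∫⁻ v, ∑ l,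
          (if L u = l ∧ L v = l then ENNReal.ofReal (K s u v) else 0) ∂(sg d) :=
          lintegral_congr fun v => (j24299_pt2 L u v _).symm
      _ = _ := lintegral_finsetSum _ fun l _ => hin u l l
  calc ∑ l, j24299_G s L l l = ∫⁻ u, ∑ l, ∫⁻ v,
        (if L u = l ∧ L v = l then ENNReal.ofReal (K s u v) else 0) ∂(sg d) ∂(sg d) :=
        (lintegral_finsetSum _ fun l _ => hout l l).symm
    _ = _ := lintegral_congr fun u => (h1 u).symm

theorem j24299_sum (c : ℝ≥0∞) (G : ι → ι → ℝ≥0∞) :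
    (∑ l, ∑ l', if l = l' then 0 else c * G l l') + c * ∑ l, G l l = c * ∑ l, ∑ l', G l l' := by
  rw [Finset.mul_sum, Finset.mul_sum, ← Finset.sum_add_distrib]
  refine Finset.sum_congr rfl fun l _ => ?_
  rw [Finset.mul_sum, ← Finset.add_sum_erase Finset.univ _ (Finset.mem_univ l),
    ← Finset.add_sum_erase Finset.univ (fun l' => c * G l l') (Finset.mem_univ l), if_pos rfl,
    zero_add, add_comm]
  congr 1
  refine Finset.sum_congr rfl fun l' hl' => ?_
  rw [if_neg (Finset.ne_of_mem_erase hl').symm]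

end j24299

theorem FL (d : ℕ) (hd : 1 ≤ d) (s : ℝ) (hs : 0 < s) (hsd : s < d) (n N : ℕ) (hN : 1 ≤ N)
    (m₀ : ℝ) (hm₀ : m₀ ≤ 0)
    (hstar : ∀ (M : ℕ) (y : Fin M → S d), Function.Injective y →
      m₀ ≤ En s y - 2 * n * Ic d s * M + (n : ℝ) ^ 2 * Ic d s)
    {ι : Type} [Fintype ι] [DecidableEq ι]
    [MeasurableSpace ι] [MeasurableSingletonClass ι] (L : S d → ι) (hL : Measurable L)
    {Ω : Type} [MeasurableSpace Ω] (P : Measure Ω) [IsProbabilityMeasure P]
    (Y : ι → Fin N → Ω → S d) (Θ : ι → Fin N → Ω → ℝ) (hE : Ens n N L P Y Θ) :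
    (n : ℝ≥0∞) ^ 2 * ∫⁻ u, ∫⁻ v, (if L u = L v then ENNReal.ofReal (K s u v) else 0)
        ∂(sg d) ∂(sg d) ≤
      (∑ l, ∑ i, ∑ j, ∫⁻ ω, ENNReal.ofReal (Θ l i ω * Θ l j ω * K s (Y l i ω) (Y l j ω)) ∂P) +
      ENNReal.ofReal (-m₀) := by
  haveI := sg_prob d
  have hKL : ∀ x y : S d, KL s 0 x y = K s x y := by
    intro x y
    unfold KL K
    simp
  have hJ : J d s 0 = Ic d s := by
    unfold J Ic
    simp only [hKL]
  obtain ⟨hk, hJpos, _⟩ := KL_const d hd s 0 hs hsd le_rfl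
  have hI : 0 ≤ Ic d s := by
    rw [← hJ]
    exact hJpos.le
  have hK : ∫⁻ u, ∫⁻ v, ENNReal.ofReal (K s u v) ∂(sg d) ∂(sg d) = ENNReal.ofReal (Ic d s) := by
    have h1 : ∀ u : S d, ∫⁻ v, ENNReal.ofReal (K s u v) ∂(sg d) = ENNReal.ofReal (Ic d s) := by
      intro u
      have h2 := (hk u).2.2
      simp only [hKL] at h2
      rw [h2, hJ]
    simp only [h1, lintegral_const, measure_univ, mul_one]
  have hFL := FL_int d s hs n N hN m₀ hm₀ hI hstar L hL P Y Θ hE
  set A := ∑ l, ∑ i, ∑ j,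
    ∫⁻ ω, ENNReal.ofReal (Θ l i ω * Θ l j ω * K s (Y l i ω) (Y l j ω)) ∂P with hA
  have hBD := j24299_sum ((n : ℝ≥0∞) ^ 2) (j24299_G s L)
  rw [j24299_all s L hL, j24299_diag s L hL, hK] at hBD
  have hn2 : (n : ℝ≥0∞) ^ 2 * ENNReal.ofReal (Ic d s) = ENNReal.ofReal ((n : ℝ) ^ 2 * Ic d s) := by
    rw [ENNReal.ofReal_mul (by positivity), ENNReal.ofReal_pow (by positivity),
      ENNReal.ofReal_natCast]
  rw [hn2] at hBD
  have hL1 : ENNReal.ofReal (2 * n * Ic d s) * n =
      ENNReal.ofReal ((n : ℝ) ^ 2 * Ic d s) + ENNReal.ofReal ((n : ℝ) ^ 2 * Ic d s) := by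
    rw [← ENNReal.ofReal_natCast, ← ENNReal.ofReal_mul (by positivity),
      ← ENNReal.ofReal_add (by positivity) (by positivity)]
    congr 1
    ring
  have hL2 : ENNReal.ofReal ((n : ℝ) ^ 2 * Ic d s - m₀) =
      ENNReal.ofReal ((n : ℝ) ^ 2 * Ic d s) + ENNReal.ofReal (-m₀) := by
    rw [← ENNReal.ofReal_add (by positivity) (by linarith)]
    congr 1
  rw [hL1, hL2] at hFL
  set c := ENNReal.ofReal ((n : ℝ) ^ 2 * Ic d s) with hc
  have hcfin : c ≠ ⊤ := ENNReal.ofReal_ne_top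
  set D := (n : ℝ≥0∞) ^ 2 * ∫⁻ u, ∫⁻ v, (if L u = L v then ENNReal.ofReal (K s u v) else 0)
        ∂(sg d) ∂(sg d) with hD
  set B := ∑ l, ∑ l', if l = l' then 0 else (n : ℝ≥0∞) ^ 2 *
        ∫⁻ u, ∫⁻ v, (if L u = l ∧ L v = l' then ENNReal.ofReal (K s u v) else 0)
          ∂(sg d) ∂(sg d) with hB
  have hBD' : B + D = c := hBD
  have hfin : (c + c) + D ≤ (c + c) + (A + ENNReal.ofReal (-m₀)) := by
    calc (c + c) + D ≤ (A + B + (c + ENNReal.ofReal (-m₀))) + D := add_le_add hFL le_rfl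
      _ = A + (B + D) + (c + ENNReal.ofReal (-m₀)) := by ring
      _ = A + c + (c + ENNReal.ofReal (-m₀)) := by rw [hBD']
      _ = (c + c) + (A + ENNReal.ofReal (-m₀)) := by ring
  exact (ENNReal.add_le_add_iff_left (ENNReal.add_ne_top.2 ⟨hcfin, hcfin⟩)).1 hfin

end Pool.Agent.Helper88.SE
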