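import Pool.Agent.Helper88.SE.Defs
import Pool.Agent.Helper88.SE.P_sg_prob
import Pool.Agent.Helper88.SE.P_vertex
import Pool.Agent.Helper88.SE.P_pi_one
import Pool.Agent.Helper88.SE.P_pi_two
import Pool.Agent.Helper88.SE.P_K_meas
import Pool.Agent.Helper88.SE.P_FL_cross
import Pool.Agent.Helper88.SE.P_FL_tot

set_option autoImplicit false

open MeasureTheory Set Filter Topology
open scoped ENNReal

namespace Pool.Agent.Helper88.SE



section j26743

variable {d : ℕ} {ι : Type} [Fintype ι] [DecidableEq ι]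
    [MeasurableSpace ι] [MeasurableSingletonClass ι]

theorem j26743_meas (s : ℝ) (L : S d → ι) (hL : Measurable L) (l l' : ι) :
    Measurable (fun p : S d × S d =>
      if L p.1 = l ∧ L p.2 = l' then ENNReal.ofReal (K s p.1 p.2) else 0) := by
  refine Measurable.ite ?_ (K_meas d s).ennreal_ofReal measurable_const
  exact ((hL.comp measurable_fst) (measurableSet_singleton l)).inter
    ((hL.comp measurable_snd) (measurableSet_singleton l'))

theorem j26743_meas2 (s : ℝ) (L : S d → ι) (hL : Measurable L) (l l' : ι) :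
    Measurable (fun p : S d × S d => if l = l' then (0 : ℝ≥0∞) else
      if L p.1 = l ∧ L p.2 = l' then ENNReal.ofReal (K s p.1 p.2) else 0) := by
  by_cases h : l = l'
  · simp only [if_pos h]
    exact measurable_const
  · simp only [if_neg h]
    exact j26743_meas s L hL l l'

theorem j26743_pt (L : S d → ι) (u v : S d) (x : ℝ≥0∞) :
    ∑ l, ∑ l', (if l = l' then (0 : ℝ≥0∞) else if L u = l ∧ L v = l' then x else 0) =
      if L u = L v then 0 else x := by
  rw [Finset.sum_eq_single (L u)]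
  · rw [Finset.sum_eq_single (L v)]
    · simp
    · intro b _ hb
      rw [if_neg (show ¬ (L u = L u ∧ L v = b) from fun h => hb h.2.symm)]
      split_ifs <;> rfl
    · intro h
      exact absurd (Finset.mem_univ _) h
  · intro b _ hb
    refine Finset.sum_eq_zero fun l' _ => ?_
    rw [if_neg (show ¬ (L u = b ∧ L v = l') from fun h => hb h.1.symm)]
    split_ifs <;> rfl
  · intro h
    exact absurd (Finset.mem_univ _) h

theorem j26743_off (s : ℝ) (L : S d → ι) (hL : Measurable L) :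
    ∑ l, ∑ l', (if l = l' then (0 : ℝ≥0∞) else
      ∫⁻ u, ∫⁻ v, (if L u = l ∧ L v = l' then ENNReal.ofReal (K s u v) else 0)
        ∂(sg d) ∂(sg d)) =
      ∫⁻ u, ∫⁻ v, (if L u = L v then 0 else ENNReal.ofReal (K s u v)) ∂(sg d) ∂(sg d) := by
  haveI := sg_prob d
  have hm := j26743_meas2 s L hL
  have hin : ∀ u l l', Measurable (fun v : S d => if l = l' then (0 : ℝ≥0∞) else
      if L u = l ∧ L v = l' then ENNReal.ofReal (K s u v) else 0) := fun u l l' =>
    (hm l l').comp measurable_prodMk_left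
  have hout : ∀ l l', Measurable (fun u : S d => ∫⁻ v, (if l = l' then (0 : ℝ≥0∞) else
      if L u = l ∧ L v = l' then ENNReal.ofReal (K s u v) else 0) ∂(sg d)) := fun l l' =>
    (hm l l').lintegral_prod_right'
  have h0 : ∀ l l', (if l = l' then (0 : ℝ≥0∞) else
      ∫⁻ u, ∫⁻ v, (if L u = l ∧ L v = l' then ENNReal.ofReal (K s u v) else 0)
        ∂(sg d) ∂(sg d)) = ∫⁻ u, ∫⁻ v, (if l = l' then (0 : ℝ≥0∞) else
      if L u = l ∧ L v = l' then ENNReal.ofReal (K s u v) else 0) ∂(sg d) ∂(sg d) := by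
    intro l l'
    by_cases h : l = l'
    · simp [h]
    · simp only [if_neg h]
  simp only [h0]
  have h1 : ∀ u, ∫⁻ v, (if L u = L v then 0 else ENNReal.ofReal (K s u v)) ∂(sg d) =
      ∑ l, ∑ l', ∫⁻ v, (if l = l' then (0 : ℝ≥0∞) else
      if L u = l ∧ L v = l' then ENNReal.ofReal (K s u v) else 0) ∂(sg d) := by
    intro u
    calc ∫⁻ v, (if L u = L v then 0 else ENNReal.ofReal (K s u v)) ∂(sg d) = ∫⁻ v, ∑ l, ∑ l',
          (if l = l' then (0 : ℝ≥0∞) else
            if L u = l ∧ L v = l' then ENNReal.ofReal (K s u v) else 0) ∂(sg d) :=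
          lintegral_congr fun v => (j26743_pt L u v _).symm
      _ = ∑ l, ∫⁻ v, ∑ l', (if l = l' then (0 : ℝ≥0∞) else
            if L u = l ∧ L v = l' then ENNReal.ofReal (K s u v) else 0) ∂(sg d) :=
          lintegral_finsetSum _ fun l _ => Finset.measurable_sum _ fun l' _ => hin u l l'
      _ = _ := Finset.sum_congr rfl fun l _ => lintegral_finsetSum _ fun l' _ => hin u l l'
  calc ∑ l, ∑ l', ∫⁻ u, ∫⁻ v, (if l = l' then (0 : ℝ≥0∞) else
        if L u = l ∧ L v = l' then ENNReal.ofReal (K s u v) else 0) ∂(sg d) ∂(sg d)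
      = ∑ l, ∫⁻ u, ∑ l', ∫⁻ v, (if l = l' then (0 : ℝ≥0∞) else
        if L u = l ∧ L v = l' then ENNReal.ofReal (K s u v) else 0) ∂(sg d) ∂(sg d) :=
        Finset.sum_congr rfl fun l _ => (lintegral_finsetSum _ fun l' _ => hout l l').symm
    _ = ∫⁻ u, ∑ l, ∑ l', ∫⁻ v, (if l = l' then (0 : ℝ≥0∞) else
        if L u = l ∧ L v = l' then ENNReal.ofReal (K s u v) else 0) ∂(sg d) ∂(sg d) :=
        (lintegral_finsetSum _ fun l _ => Finset.measurable_sum _ fun l' _ => hout l l').symm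
    _ = _ := lintegral_congr fun u => (h1 u).symm

end j26743

theorem FL2 (d : ℕ) (s : ℝ) (hs : 0 < s) (n N : ℕ) (hN : 1 ≤ N) (m₀ c₁ : ℝ) (hc : 0 ≤ c₁)
    (hstar : ∀ (M : ℕ) (y : Fin M → S d), Function.Injective y → m₀ ≤ En s y - c₁ * M + c₁ * n)
    {ι : Type} [Fintype ι] [DecidableEq ι]
    [MeasurableSpace ι] [MeasurableSingletonClass ι] (L : S d → ι) (hL : Measurable L)
    {Ω : Type} [MeasurableSpace Ω] (P : Measure Ω) [IsProbabilityMeasure P]
    (Y : ι → Fin N → Ω → S d) (Θ : ι → Fin N → Ω → ℝ) (hE : Ens n N L P Y Θ) :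
    ENNReal.ofReal m₀ ≤
      (∑ l, ∑ i, ∑ j, ∫⁻ ω, ENNReal.ofReal (Θ l i ω * Θ l j ω * K s (Y l i ω) (Y l j ω)) ∂P) +
      (n : ℝ≥0∞) ^ 2 * ∫⁻ u, ∫⁻ v, (if L u = L v then 0 else ENNReal.ofReal (K s u v))
        ∂(sg d) ∂(sg d) := by
  classical
  rcases le_or_gt m₀ 0 with hm₀ | hm₀
  · rw [ENNReal.ofReal_of_nonpos hm₀]
    exact bot_le
  have hKnn : ∀ x y : S d, 0 ≤ K s x y := by
    intro x y
    unfold K
    positivity
  have hKm : ∀ (l l' : ι) (i j : Fin N), Measurable (fun p : Ω × Ω =>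
      ENNReal.ofReal (Θ l i p.1 * Θ l' j p.2 * K s (Y l i p.1) (Y l' j p.2))) := by
    intro l l' i j
    exact ((((hE.mΘ l i).comp measurable_fst).mul ((hE.mΘ l' j).comp measurable_snd)).mul
      ((K_meas d s).comp (((hE.mY l i).comp measurable_fst).prodMk
        ((hE.mY l' j).comp measurable_snd)))).ennreal_ofReal
  have hpt : ∀ w : ι → Ω, ENNReal.ofReal m₀ + ENNReal.ofReal c₁ *
      ∑ a : ι × Fin N, ENNReal.ofReal (Θ a.1 a.2 (w a.1)) ≤
      ∑ a : ι × Fin N, ∑ b : ι × Fin N, ENNReal.ofReal (Θ a.1 a.2 (w a.1) * Θ b.1 b.2 (w b.1) *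
        K s (Y a.1 a.2 (w a.1)) (Y b.1 b.2 (w b.1))) +
        ENNReal.ofReal (c₁ * n) := by
    intro w
    have hv := vertex d s c₁ (c₁ * n) m₀ hs.ne' hstar (α := ι × Fin N)
      (fun a => Y a.1 a.2 (w a.1))
      (fun a => Θ a.1 a.2 (w a.1)) (fun a => hE.nonneg _ _ _) (fun a => hE.le_one _ _ _) (by
        rintro ⟨l, i⟩ ⟨l', j⟩ hab ha hb
        by_cases hl : l = l'
        · subst hl
          have hij : i ≠ j := fun h => hab (by rw [h])
          exact hE.inj l i j (w l) hij ha hb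
        · intro h
          apply hl
          rw [← hE.supp l i (w l) ha, ← hE.supp l' j (w l') hb]
          exact congrArg L h)
    have hθ : 0 ≤ ∑ a : ι × Fin N, Θ a.1 a.2 (w a.1) :=
      Finset.sum_nonneg fun a _ => hE.nonneg _ _ _
    have hterm : ∀ a b : ι × Fin N, 0 ≤ Θ a.1 a.2 (w a.1) * Θ b.1 b.2 (w b.1) *
        K s (Y a.1 a.2 (w a.1)) (Y b.1 b.2 (w b.1)) := fun a b =>
      mul_nonneg (mul_nonneg (hE.nonneg _ _ _) (hE.nonneg _ _ _)) (hKnn _ _)
    have e1 : ENNReal.ofReal m₀ + ENNReal.ofReal c₁ *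
        ∑ a : ι × Fin N, ENNReal.ofReal (Θ a.1 a.2 (w a.1)) =
        ENNReal.ofReal (m₀ + c₁ * ∑ a : ι × Fin N, Θ a.1 a.2 (w a.1)) := by
      rw [← ENNReal.ofReal_sum_of_nonneg (fun a _ => hE.nonneg _ _ _), ← ENNReal.ofReal_mul hc,
        ← ENNReal.ofReal_add hm₀.le (mul_nonneg hc hθ)]
    have e2 : ∑ a : ι × Fin N, ∑ b : ι × Fin N,
        ENNReal.ofReal (Θ a.1 a.2 (w a.1) * Θ b.1 b.2 (w b.1) *
        K s (Y a.1 a.2 (w a.1)) (Y b.1 b.2 (w b.1))) +
        ENNReal.ofReal (c₁ * n) = ENNReal.ofReal ((∑ a : ι × Fin N, ∑ b : ι × Fin N,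
          Θ a.1 a.2 (w a.1) * Θ b.1 b.2 (w b.1) *
            K s (Y a.1 a.2 (w a.1)) (Y b.1 b.2 (w b.1))) + c₁ * n) := by
      rw [ENNReal.ofReal_add (Finset.sum_nonneg fun a _ => Finset.sum_nonneg fun b _ => hterm a b)
        (by positivity), ENNReal.ofReal_sum_of_nonneg
          (fun a _ => Finset.sum_nonneg fun b _ => hterm a b)]
      congr 1
      refine Finset.sum_congr rfl fun a _ => ?_
      rw [ENNReal.ofReal_sum_of_nonneg (fun b _ => hterm a b)]
    rw [e1, e2]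
    apply ENNReal.ofReal_le_ofReal
    linarith
  have hmeas1 : ∀ a : ι × Fin N, Measurable (fun w : ι → Ω => ENNReal.ofReal (Θ a.1 a.2 (w a.1))) := by
    intro a
    exact ((hE.mΘ a.1 a.2).comp (measurable_pi_apply a.1)).ennreal_ofReal
  have hmeas2 : ∀ a b : ι × Fin N, Measurable (fun w : ι → Ω =>
      ENNReal.ofReal (Θ a.1 a.2 (w a.1) * Θ b.1 b.2 (w b.1) *
        K s (Y a.1 a.2 (w a.1)) (Y b.1 b.2 (w b.1)))) := by
    intro a b
    have h : Measurable (fun w : ι → Ω => (w a.1, w b.1)) :=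
      (measurable_pi_apply a.1).prodMk (measurable_pi_apply b.1)
    exact (hKm a.1 b.1 a.2 b.2).comp h
  have hint := lintegral_mono (μ := Measure.pi fun _ : ι => P) hpt
  rw [lintegral_add_left measurable_const, lintegral_const, measure_univ, mul_one,
    lintegral_const_mul _ (Finset.measurable_sum _ fun a _ => hmeas1 a),
    lintegral_finsetSum _ (fun a _ => hmeas1 a),
    lintegral_add_right _ measurable_const, lintegral_const, measure_univ, mul_one,
    lintegral_finsetSum _ (fun a _ => Finset.measurable_sum _ fun b _ => hmeas2 a b)] at hint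
  have e1 : ∑ a : ι × Fin N, ∫⁻ w : ι → Ω, ENNReal.ofReal (Θ a.1 a.2 (w a.1))
      ∂(Measure.pi fun _ => P) = n := by
    rw [← (FL_tot d n N hN L hL P Y Θ hE).2, Fintype.sum_prod_type]
    refine Finset.sum_congr rfl fun l _ => Finset.sum_congr rfl fun i _ => ?_
    exact pi_one P l (fun ω => ENNReal.ofReal (Θ l i ω)) (hE.mΘ l i).ennreal_ofReal
  have hcn : ENNReal.ofReal (c₁ * n) = ENNReal.ofReal c₁ * n := by
    rw [ENNReal.ofReal_mul hc, ENNReal.ofReal_natCast]
  rw [e1, hcn] at hint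
  have hcan : ENNReal.ofReal c₁ * (n : ℝ≥0∞) ≠ ⊤ :=
    ENNReal.mul_ne_top ENNReal.ofReal_ne_top (ENNReal.natCast_ne_top n)
  rw [ENNReal.add_le_add_iff_right hcan] at hint
  refine hint.trans (le_of_eq ?_)
  have e2 : ∀ a : ι × Fin N, ∫⁻ w : ι → Ω, ∑ b : ι × Fin N,
      ENNReal.ofReal (Θ a.1 a.2 (w a.1) * Θ b.1 b.2 (w b.1) *
        K s (Y a.1 a.2 (w a.1)) (Y b.1 b.2 (w b.1))) ∂(Measure.pi fun _ => P) =
      ∑ b : ι × Fin N, ∫⁻ w : ι → Ω,
      ENNReal.ofReal (Θ a.1 a.2 (w a.1) * Θ b.1 b.2 (w b.1) *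
        K s (Y a.1 a.2 (w a.1)) (Y b.1 b.2 (w b.1))) ∂(Measure.pi fun _ => P) := fun a =>
    lintegral_finsetSum _ (fun b _ => hmeas2 a b)
  rw [Finset.sum_congr rfl fun a _ => e2 a, Fintype.sum_prod_type]
  have e3 : ∀ l l' : ι, ∑ i : Fin N, ∑ j : Fin N, ∫⁻ w : ι → Ω,
      ENNReal.ofReal (Θ l i (w l) * Θ l' j (w l') *
        K s (Y l i (w l)) (Y l' j (w l'))) ∂(Measure.pi fun _ => P) =
      (if l = l' then ∑ i : Fin N, ∑ j : Fin N,
        ∫⁻ ω, ENNReal.ofReal (Θ l i ω * Θ l j ω * K s (Y l i ω) (Y l j ω)) ∂P else 0) +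
      (n : ℝ≥0∞) ^ 2 * (if l = l' then 0 else
        ∫⁻ u, ∫⁻ v, (if L u = l ∧ L v = l' then ENNReal.ofReal (K s u v) else 0)
          ∂(sg d) ∂(sg d)) := by
    intro l l'
    by_cases hl : l = l'
    · subst hl
      rw [if_pos rfl, if_pos rfl, mul_zero, add_zero]
      refine Finset.sum_congr rfl fun i _ => Finset.sum_congr rfl fun j _ => ?_
      exact pi_one P l (fun ω => ENNReal.ofReal (Θ l i ω * Θ l j ω * K s (Y l i ω) (Y l j ω)))
        ((hKm l l i j).comp (measurable_id.prodMk measurable_id))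
    · rw [if_neg hl, if_neg hl, zero_add, ← FL_cross d s n N hN L hL P Y Θ hE l l']
      refine Finset.sum_congr rfl fun i _ => Finset.sum_congr rfl fun j _ => ?_
      exact pi_two P l l' hl (fun ω ω' => ENNReal.ofReal (Θ l i ω * Θ l' j ω' *
        K s (Y l i ω) (Y l' j ω'))) (hKm l l' i j)
  have e4 : ∀ l : ι, ∑ i : Fin N, ∑ b : ι × Fin N, ∫⁻ w : ι → Ω,
      ENNReal.ofReal (Θ l i (w l) * Θ b.1 b.2 (w b.1) *
        K s (Y l i (w l)) (Y b.1 b.2 (w b.1))) ∂(Measure.pi fun _ => P) =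
      ∑ l' : ι, ∑ i : Fin N, ∑ j : Fin N, ∫⁻ w : ι → Ω,
      ENNReal.ofReal (Θ l i (w l) * Θ l' j (w l') *
        K s (Y l i (w l)) (Y l' j (w l'))) ∂(Measure.pi fun _ => P) := by
    intro l
    rw [Finset.sum_comm]
    rw [Fintype.sum_prod_type]
    refine Finset.sum_congr rfl fun l' _ => ?_
    rw [Finset.sum_comm]
  rw [← j26743_off s L hL, Finset.mul_sum, ← Finset.sum_add_distrib]
  refine Finset.sum_congr rfl fun l _ => ?_
  refine (e4 l).trans ?_
  rw [Finset.sum_congr rfl fun l' _ => e3 l l', Finset.sum_add_distrib, Finset.mul_sum]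
  congr 1
  rw [Finset.sum_ite_eq Finset.univ l, if_pos (Finset.mem_univ l)]

end Pool.Agent.Helper88.SE
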