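import Pool.Agent.Helper88.SE.Defs
import Pool.Agent.Helper88.SE.P_sg_prob
import Pool.Agent.Helper88.SE.P_K_meas
import Pool.Agent.Helper88.SE.P_FL
import Pool.Agent.Helper88.SE.P_Ens_refine

set_option autoImplicit false

open MeasureTheory Set Filter Topology
open scoped ENNReal

namespace Pool.Agent.Helper88.SE



theorem fla_set {X : Type} [MeasurableSpace X] {k : ℕ} {f g : X → (Fin k → Bool)}
    (hf : Measurable f) (hg : Measurable g) : MeasurableSet {x | f x = g x} := by
  have h1 : MeasurableSet (Set.diagonal (Fin k → Bool)) := (Set.to_countable _).measurableSet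
  exact (hf.prodMk hg) h1

theorem fla_tool {Ω' X : Type} [MeasurableSpace Ω'] [MeasurableSpace X] (P' : Measure Ω')
    [IsProbabilityMeasure P'] (Q : Measure X) [IsProbabilityMeasure Q] {k : ℕ}
    (f g : Ω' → X → (Fin k → Bool)) (hf : Measurable (fun p : Ω' × X => f p.1 p.2))
    (hg : Measurable (fun p : Ω' × X => g p.1 p.2)) (φ : X → ℝ≥0∞) (hφ : Measurable φ)
    (p : X → ℝ≥0∞) (hp : ∀ x, ∫⁻ ω, (if f ω x = g ω x then (1 : ℝ≥0∞) else 0) ∂P' = p x) :
    Measurable (fun ω => ∫⁻ x, (if f ω x = g ω x then φ x else 0) ∂Q) ∧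
    ∫⁻ ω, ∫⁻ x, (if f ω x = g ω x then φ x else 0) ∂Q ∂P' = ∫⁻ x, φ x * p x ∂Q := by
  have hm : Measurable (fun q : Ω' × X => if f q.1 q.2 = g q.1 q.2 then φ q.2 else 0) :=
    Measurable.ite (fla_set hf hg) (hφ.comp measurable_snd) measurable_const
  refine ⟨hm.lintegral_prod_right', ?_⟩
  have h1 := lintegral_lintegral_swap (μ := P') (ν := Q)
    (f := fun ω x => if f ω x = g ω x then φ x else 0) hm.aemeasurable
  rw [h1]
  apply lintegral_congr
  intro x
  rw [← hp x, ← lintegral_const_mul]
  · apply lintegral_congr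
    intro ω
    split_ifs
    · rw [mul_one]
    · rw [mul_zero]
  · refine Measurable.ite ?_ measurable_const measurable_const
    exact fla_set (hf.comp (measurable_id.prodMk measurable_const))
      (hg.comp (measurable_id.prodMk measurable_const))

theorem fla_sum {k : ℕ} (b c : Fin k → Bool) (x y z : ℝ) :
    ∑ a : Fin k → Bool, ENNReal.ofReal ((if b = a then x else 0) * (if c = a then y else 0) * z) =
      if b = c then ENNReal.ofReal (x * y * z) else 0 := by
  rw [Finset.sum_eq_single b]
  · rw [if_pos rfl]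
    by_cases h : b = c
    · rw [if_pos h, if_pos h.symm]
    · rw [if_neg h, if_neg (fun h' => h h'.symm)]
      simp
  · intro a _ hab
    rw [if_neg (fun h => hab h.symm)]
    simp
  · intro h
    exact absurd (Finset.mem_univ b) h

theorem FLavg (d : ℕ) (hd : 1 ≤ d) (s : ℝ) (hs : 0 < s) (hsd : s < d) (n N : ℕ) (hN : 1 ≤ N)
    (m₀ : ℝ) (hm₀ : m₀ ≤ 0)
    (hstar : ∀ (M : ℕ) (y : Fin M → S d), Function.Injective y →
      m₀ ≤ En s y - 2 * n * Ic d s * M + (n : ℝ) ^ 2 * Ic d s)
    {M k : ℕ} (L : S d → Fin M) (hL : Measurable L)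
    {Ω : Type} [MeasurableSpace Ω] (P : Measure Ω) [IsProbabilityMeasure P]
    (Y : Fin M → Fin N → Ω → S d) (Θ : Fin M → Fin N → Ω → ℝ) (hE : Ens n N L P Y Θ)
    (κ : ℝ) (hκ : 0 < κ) (hκ2 : κ ≤ 1 / 2)
    (Ω' : Type) [MeasurableSpace Ω'] (P' : Measure Ω') [IsProbabilityMeasure P']
    (A : Ω' → S d → (Fin k → Bool)) (hA : Measurable (fun p : Ω' × S d => A p.1 p.2))
    (hp : ∀ u v : S d, ∫⁻ ω, (if A ω u = A ω v then (1 : ℝ≥0∞) else 0) ∂P' =
        ENNReal.ofReal ((1 - κ * dist u v) ^ k)) :
    (n : ℝ≥0∞) ^ 2 * ∫⁻ u, ∫⁻ v, (if L u = L v then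
        ENNReal.ofReal (K s u v * (1 - κ * dist u v) ^ k) else 0) ∂(sg d) ∂(sg d) ≤
      (∑ l, ∑ i, ∑ j, ∫⁻ ω, ENNReal.ofReal (Θ l i ω * Θ l j ω *
        (K s (Y l i ω) (Y l j ω) * (1 - κ * dist (Y l i ω) (Y l j ω)) ^ k)) ∂P) +
      ENNReal.ofReal (-m₀) := by
  have := sg_prob d
  have hKm := K_meas d s
  have hφ1 : Measurable (fun q : S d × S d =>
      if L q.1 = L q.2 then ENNReal.ofReal (K s q.1 q.2) else 0) := by
    refine Measurable.ite ?_ hKm.ennreal_ofReal measurable_const
    have h1 : MeasurableSet (Set.diagonal (Fin M)) := (Set.to_countable _).measurableSet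
    exact ((hL.comp measurable_fst).prodMk (hL.comp measurable_snd)) h1
  have hKY : ∀ l i j, Measurable (fun ω => K s (Y l i ω) (Y l j ω)) := fun l i j =>
    Measurable.comp (g := fun p : S d × S d => K s p.1 p.2) (f := fun ω => (Y l i ω, Y l j ω))
      hKm ((hE.mY l i).prodMk (hE.mY l j))
  have hφ2 : ∀ l i j, Measurable (fun ω =>
      ENNReal.ofReal (Θ l i ω * Θ l j ω * K s (Y l i ω) (Y l j ω))) := by
    intro l i j
    exact (((hE.mΘ l i).mul (hE.mΘ l j)).mul (hKY l i j)).ennreal_ofReal
  have hAc : ∀ {X : Type} [MeasurableSpace X] (h : Ω' × X → S d), Measurable h →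
      Measurable (fun p : Ω' × X => A p.1 (h p)) := fun h hh =>
    Measurable.comp (g := fun p : Ω' × S d => A p.1 p.2) (f := fun p : Ω' × _ => (p.1, h p)) hA
      (measurable_fst.prodMk hh)
  have T1 := fla_tool P' ((sg d).prod (sg d)) (fun ω q => A ω q.1) (fun ω q => A ω q.2)
    (hAc _ (measurable_fst.comp measurable_snd))
    (hAc _ (measurable_snd.comp measurable_snd)) _ hφ1
    (fun q => ENNReal.ofReal ((1 - κ * dist q.1 q.2) ^ k)) (fun q => hp q.1 q.2)
  have T2 := fun l i j => fla_tool P' P (fun w ω => A w (Y l i ω)) (fun w ω => A w (Y l j ω))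
    (hAc _ ((hE.mY l i).comp measurable_snd))
    (hAc _ ((hE.mY l j).comp measurable_snd)) _ (hφ2 l i j)
    (fun ω => ENNReal.ofReal ((1 - κ * dist (Y l i ω) (Y l j ω)) ^ k))
    (fun ω => hp (Y l i ω) (Y l j ω))
  have hkey : ∀ w' : Ω', (n : ℝ≥0∞) ^ 2 * ∫⁻ q : S d × S d, (if A w' q.1 = A w' q.2 then
      (if L q.1 = L q.2 then ENNReal.ofReal (K s q.1 q.2) else 0) else 0)
        ∂((sg d).prod (sg d)) ≤
      (∑ l, ∑ i, ∑ j, ∫⁻ ω, (if A w' (Y l i ω) = A w' (Y l j ω) then
        ENNReal.ofReal (Θ l i ω * Θ l j ω * K s (Y l i ω) (Y l j ω)) else 0) ∂P) +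
      ENNReal.ofReal (-m₀) := by
    intro w'
    have hAw : Measurable (A w') :=
      Measurable.comp (g := fun p : Ω' × S d => A p.1 p.2) (f := fun u => (w', u)) hA
        (measurable_const.prodMk measurable_id)
    have hL' : Measurable (fun u => (L u, A w' u)) := hL.prodMk hAw
    have hEr := Ens_refine d n N L hL P Y Θ hE (A w') hAw
    have h := FL d hd s hs hsd n N hN m₀ hm₀ hstar (fun u => (L u, A w' u)) hL' P _ _ hEr
    have hm1 : Measurable (fun q : S d × S d => (if A w' q.1 = A w' q.2 then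
      (if L q.1 = L q.2 then ENNReal.ofReal (K s q.1 q.2) else 0) else 0)) :=
      Measurable.ite (fla_set (hAw.comp measurable_fst) (hAw.comp measurable_snd)) hφ1
        measurable_const
    rw [lintegral_prod _ hm1.aemeasurable]
    refine le_trans (le_of_eq ?_) (h.trans (le_of_eq ?_))
    · congr 1
      apply lintegral_congr
      intro u
      apply lintegral_congr
      intro v
      by_cases h1 : A w' u = A w' v <;> by_cases h2 : L u = L v <;> simp [h1, h2]
    · congr 1
      rw [Fintype.sum_prod_type]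
      apply Finset.sum_congr rfl
      intro l _
      rw [Finset.sum_comm]
      apply Finset.sum_congr rfl
      intro i _
      rw [Finset.sum_comm]
      apply Finset.sum_congr rfl
      intro j _
      rw [← lintegral_finsetSum]
      · apply lintegral_congr
        intro ω
        exact fla_sum (A w' (Y l i ω)) (A w' (Y l j ω)) (Θ l i ω) (Θ l j ω) (K s (Y l i ω) (Y l j ω))
      · intro a _
        exact (((hEr.mΘ (l, a) i).mul (hEr.mΘ (l, a) j)).mul (hKY l i j)).ennreal_ofReal
  have hint := lintegral_mono (μ := P') hkey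
  have hn : (n : ℝ≥0∞) ^ 2 ≠ ∞ := ENNReal.pow_ne_top (ENNReal.natCast_ne_top n)
  have hK0 : ∀ x y : S d, 0 ≤ K s x y := fun x y => Real.rpow_nonneg dist_nonneg _
  refine le_trans (le_of_eq ?_) (hint.trans (le_of_eq ?_))
  · rw [lintegral_const_mul' _ _ hn]
    congr 1
    rw [T1.2, lintegral_prod]
    · apply lintegral_congr
      intro u
      apply lintegral_congr
      intro v
      by_cases h2 : L u = L v
      · rw [if_pos h2, if_pos h2, ENNReal.ofReal_mul (hK0 u v)]
      · rw [if_neg h2, if_neg h2, zero_mul]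
    · have h1 : Measurable (fun q : S d × S d => ENNReal.ofReal ((1 - κ * dist q.1 q.2) ^ k)) := by
        fun_prop
      exact (hφ1.mul h1).aemeasurable
  · rw [lintegral_add_right _ measurable_const, lintegral_const, measure_univ, mul_one]
    congr 1
    rw [lintegral_finsetSum]
    · apply Finset.sum_congr rfl
      intro l _
      rw [lintegral_finsetSum]
      · apply Finset.sum_congr rfl
        intro i _
        rw [lintegral_finsetSum]
        · apply Finset.sum_congr rfl
          intro j _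
          rw [(T2 l i j).2]
          apply lintegral_congr
          intro ω
          have h0 : 0 ≤ Θ l i ω * Θ l j ω * K s (Y l i ω) (Y l j ω) :=
            mul_nonneg (mul_nonneg (hE.nonneg l i ω) (hE.nonneg l j ω)) (hK0 _ _)
          rw [← ENNReal.ofReal_mul h0]
          congr 1
          ring
        · exact fun j _ => (T2 l i j).1
      · exact fun i _ => Finset.measurable_sum _ (fun j _ => (T2 l i j).1)
    · exact fun l _ => Finset.measurable_sum _ (fun i _ =>
        Finset.measurable_sum _ (fun j _ => (T2 l i j).1))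

end Pool.Agent.Helper88.SE
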