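import Pool.Agent.Helper88.SE.Defs
import Pool.Agent.Helper88.SE.P_sg_prob
import Pool.Agent.Helper88.SE.P_K_meas
import Pool.Agent.Helper88.SE.P_Ens_refine
import Pool.Agent.Helper88.SE.P_FL2

set_option autoImplicit false

open MeasureTheory Set Filter Topology
open scoped ENNReal

namespace Pool.Agent.Helper88.SE



theorem fla2_set {X : Type} [MeasurableSpace X] {k : ℕ} {f g : X → (Fin k → Bool)}
    (hf : Measurable f) (hg : Measurable g) : MeasurableSet {x | f x = g x} := by
  have h1 : MeasurableSet (Set.diagonal (Fin k → Bool)) := (Set.to_countable _).measurableSet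
  exact (hf.prodMk hg) h1

theorem fla2_tool {Ω' X : Type} [MeasurableSpace Ω'] [MeasurableSpace X] (P' : Measure Ω')
    [IsProbabilityMeasure P'] (Q : Measure X) [IsProbabilityMeasure Q] {k : ℕ}
    (f g : Ω' → X → (Fin k → Bool)) (hf : Measurable (fun p : Ω' × X => f p.1 p.2))
    (hg : Measurable (fun p : Ω' × X => g p.1 p.2)) (φ ψ : X → ℝ≥0∞) (hφ : Measurable φ)
    (hψ : Measurable ψ)
    (p : X → ℝ≥0∞) (hp : ∀ x, ∫⁻ ω, (if f ω x = g ω x then (1 : ℝ≥0∞) else 0) ∂P' = p x) :
    Measurable (fun ω => ∫⁻ x, (if f ω x = g ω x then φ x else ψ x) ∂Q) ∧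
    ∫⁻ ω, ∫⁻ x, (if f ω x = g ω x then φ x else ψ x) ∂Q ∂P' =
      ∫⁻ x, (φ x * p x + ψ x * (1 - p x)) ∂Q := by
  have hm : Measurable (fun q : Ω' × X => if f q.1 q.2 = g q.1 q.2 then φ q.2 else ψ q.2) :=
    Measurable.ite (fla2_set hf hg) (hφ.comp measurable_snd) (hψ.comp measurable_snd)
  refine ⟨hm.lintegral_prod_right', ?_⟩
  have h1 := lintegral_lintegral_swap (μ := P') (ν := Q)
    (f := fun ω x => if f ω x = g ω x then φ x else ψ x) hm.aemeasurable
  rw [h1]
  apply lintegral_congr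
  intro x
  have hset : MeasurableSet {ω | f ω x = g ω x} :=
    fla2_set (hf.comp (measurable_id.prodMk measurable_const))
      (hg.comp (measurable_id.prodMk measurable_const))
  have hmi : Measurable (fun ω => if f ω x = g ω x then (1 : ℝ≥0∞) else 0) :=
    Measurable.ite hset measurable_const measurable_const
  have e : ∀ ω, (if f ω x = g ω x then φ x else ψ x) =
      φ x * (if f ω x = g ω x then (1 : ℝ≥0∞) else 0) +
        ψ x * (1 - (if f ω x = g ω x then (1 : ℝ≥0∞) else 0)) := by
    intro ω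
    split_ifs <;> simp
  have hmi2 : Measurable (fun ω => (1 : ℝ≥0∞) - (if f ω x = g ω x then (1 : ℝ≥0∞) else 0)) :=
    measurable_const.sub hmi
  rw [lintegral_congr e, lintegral_add_left (hmi.const_mul _), lintegral_const_mul _ hmi, hp,
    lintegral_const_mul _ hmi2, lintegral_sub hmi, hp, lintegral_const,
    measure_univ, mul_one]
  · rw [hp, ← hp x]
    refine ne_of_lt (lt_of_le_of_lt (lintegral_mono (g := fun _ => 1) fun ω => ?_) (by simp))
    split_ifs <;> simp
  · refine Filter.Eventually.of_forall fun ω => ?_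
    show (if f ω x = g ω x then (1 : ℝ≥0∞) else 0) ≤ 1
    split_ifs <;> simp

theorem fla2_sum {k : ℕ} (b c : Fin k → Bool) (x y z : ℝ) :
    ∑ a : Fin k → Bool, ENNReal.ofReal ((if b = a then x else 0) * (if c = a then y else 0) * z) =
      if b = c then ENNReal.ofReal (x * y * z) else 0 := by
  rw [Finset.sum_eq_single b]
  · rw [if_pos rfl]
    by_cases h : b = c
    · rw [if_pos h, if_pos h.symm]
    · rw [if_neg h, if_neg (fun h' => h h'.symm)]
      simp
  · intro a _ hab
    rw [if_neg (fun h => hab h.symm)]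
    simp
  · intro h
    exact absurd (Finset.mem_univ b) h

theorem fla2_dist {d : ℕ} (u v : S d) : dist u v ≤ 2 := by
  have h1 := dist_triangle (u : E d) 0 (v : E d)
  have h2 : dist (u : E d) 0 = 1 := u.2
  have h3 : dist (0 : E d) (v : E d) = 1 := by rw [dist_comm]; exact v.2
  rw [h2, h3] at h1
  rw [Subtype.dist_eq]
  linarith

theorem FLavg2 (d : ℕ) (s : ℝ) (hs : 0 < s) (n N : ℕ) (hN : 1 ≤ N) (m₀ c₁ : ℝ) (hc : 0 ≤ c₁)
    (hstar : ∀ (M : ℕ) (y : Fin M → S d), Function.Injective y → m₀ ≤ En s y - c₁ * M + c₁ * n)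
    {M k : ℕ} (L : S d → Fin M) (hL : Measurable L)
    {Ω : Type} [MeasurableSpace Ω] (P : Measure Ω) [IsProbabilityMeasure P]
    (Y : Fin M → Fin N → Ω → S d) (Θ : Fin M → Fin N → Ω → ℝ) (hE : Ens n N L P Y Θ)
    (κ : ℝ) (hκ : 0 < κ) (hκ2 : κ ≤ 1 / 2)
    (Ω' : Type) [MeasurableSpace Ω'] (P' : Measure Ω') [IsProbabilityMeasure P']
    (A : Ω' → S d → (Fin k → Bool)) (hA : Measurable (fun p : Ω' × S d => A p.1 p.2))
    (hp : ∀ u v : S d, ∫⁻ ω, (if A ω u = A ω v then (1 : ℝ≥0∞) else 0) ∂P' =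
        ENNReal.ofReal ((1 - κ * dist u v) ^ k)) :
    ENNReal.ofReal m₀ ≤
      (∑ l, ∑ i, ∑ j, ∫⁻ ω, ENNReal.ofReal (Θ l i ω * Θ l j ω *
        (K s (Y l i ω) (Y l j ω) * (1 - κ * dist (Y l i ω) (Y l j ω)) ^ k)) ∂P) +
      (n : ℝ≥0∞) ^ 2 * ∫⁻ u, ∫⁻ v, (if L u = L v then
        ENNReal.ofReal (K s u v * (1 - (1 - κ * dist u v) ^ k)) else ENNReal.ofReal (K s u v))
        ∂(sg d) ∂(sg d) := by
  have := sg_prob d
  have hKm := K_meas d s
  have hLset : MeasurableSet {q : S d × S d | L q.1 = L q.2} := by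
    have h1 : MeasurableSet (Set.diagonal (Fin M)) := (Set.to_countable _).measurableSet
    exact ((hL.comp measurable_fst).prodMk (hL.comp measurable_snd)) h1
  have hφ1 : Measurable (fun q : S d × S d =>
      if L q.1 = L q.2 then 0 else ENNReal.ofReal (K s q.1 q.2)) :=
    Measurable.ite hLset measurable_const hKm.ennreal_ofReal
  have hψ1 : Measurable (fun q : S d × S d => ENNReal.ofReal (K s q.1 q.2)) := hKm.ennreal_ofReal
  have hKY : ∀ l i j, Measurable (fun ω => K s (Y l i ω) (Y l j ω)) := fun l i j =>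
    Measurable.comp (g := fun p : S d × S d => K s p.1 p.2) (f := fun ω => (Y l i ω, Y l j ω))
      hKm ((hE.mY l i).prodMk (hE.mY l j))
  have hφ2 : ∀ l i j, Measurable (fun ω =>
      ENNReal.ofReal (Θ l i ω * Θ l j ω * K s (Y l i ω) (Y l j ω))) := by
    intro l i j
    exact (((hE.mΘ l i).mul (hE.mΘ l j)).mul (hKY l i j)).ennreal_ofReal
  have hAc : ∀ {X : Type} [MeasurableSpace X] (h : Ω' × X → S d), Measurable h →
      Measurable (fun p : Ω' × X => A p.1 (h p)) := fun h hh =>
    Measurable.comp (g := fun p : Ω' × S d => A p.1 p.2) (f := fun p : Ω' × _ => (p.1, h p)) hA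
      (measurable_fst.prodMk hh)
  have T1 := fla2_tool P' ((sg d).prod (sg d)) (fun ω q => A ω q.1) (fun ω q => A ω q.2)
    (hAc _ (measurable_fst.comp measurable_snd))
    (hAc _ (measurable_snd.comp measurable_snd)) _ _ hφ1 hψ1
    (fun q => ENNReal.ofReal ((1 - κ * dist q.1 q.2) ^ k)) (fun q => hp q.1 q.2)
  have T2 := fun l i j => fla2_tool P' P (fun w ω => A w (Y l i ω)) (fun w ω => A w (Y l j ω))
    (hAc _ ((hE.mY l i).comp measurable_snd))
    (hAc _ ((hE.mY l j).comp measurable_snd)) _ (fun _ => 0) (hφ2 l i j) measurable_const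
    (fun ω => ENNReal.ofReal ((1 - κ * dist (Y l i ω) (Y l j ω)) ^ k))
    (fun ω => hp (Y l i ω) (Y l j ω))
  have hkey : ∀ w' : Ω', ENNReal.ofReal m₀ ≤
      (∑ l, ∑ i, ∑ j, ∫⁻ ω, (if A w' (Y l i ω) = A w' (Y l j ω) then
        ENNReal.ofReal (Θ l i ω * Θ l j ω * K s (Y l i ω) (Y l j ω)) else 0) ∂P) +
      (n : ℝ≥0∞) ^ 2 * ∫⁻ q : S d × S d, (if A w' q.1 = A w' q.2 then
      (if L q.1 = L q.2 then 0 else ENNReal.ofReal (K s q.1 q.2)) else ENNReal.ofReal (K s q.1 q.2))
        ∂((sg d).prod (sg d)) := by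
    intro w'
    have hAw : Measurable (A w') :=
      Measurable.comp (g := fun p : Ω' × S d => A p.1 p.2) (f := fun u => (w', u)) hA
        (measurable_const.prodMk measurable_id)
    have hL' : Measurable (fun u => (L u, A w' u)) := hL.prodMk hAw
    have hEr := Ens_refine d n N L hL P Y Θ hE (A w') hAw
    have h := FL2 d s hs n N hN m₀ c₁ hc hstar (fun u => (L u, A w' u)) hL' P _ _ hEr
    have hm1 : Measurable (fun q : S d × S d => (if A w' q.1 = A w' q.2 then
      (if L q.1 = L q.2 then 0 else ENNReal.ofReal (K s q.1 q.2)) else ENNReal.ofReal (K s q.1 q.2))) :=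
      Measurable.ite (fla2_set (hAw.comp measurable_fst) (hAw.comp measurable_snd)) hφ1 hψ1
    rw [lintegral_prod _ hm1.aemeasurable]
    refine h.trans (le_of_eq ?_)
    congr 1
    · rw [Fintype.sum_prod_type]
      apply Finset.sum_congr rfl
      intro l _
      rw [Finset.sum_comm]
      apply Finset.sum_congr rfl
      intro i _
      rw [Finset.sum_comm]
      apply Finset.sum_congr rfl
      intro j _
      rw [← lintegral_finsetSum]
      · apply lintegral_congr
        intro ω
        exact fla2_sum (A w' (Y l i ω)) (A w' (Y l j ω)) (Θ l i ω) (Θ l j ω) (K s (Y l i ω) (Y l j ω))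
      · intro a _
        exact (((hEr.mΘ (l, a) i).mul (hEr.mΘ (l, a) j)).mul (hKY l i j)).ennreal_ofReal
    · congr 1
      apply lintegral_congr
      intro u
      apply lintegral_congr
      intro v
      by_cases h1 : A w' u = A w' v <;> by_cases h2 : L u = L v <;> simp [h1, h2]
  have hint := lintegral_mono (μ := P') hkey
  have hn : (n : ℝ≥0∞) ^ 2 ≠ ∞ := ENNReal.pow_ne_top (ENNReal.natCast_ne_top n)
  have hK0 : ∀ x y : S d, 0 ≤ K s x y := fun x y => Real.rpow_nonneg dist_nonneg _
  rw [lintegral_const, measure_univ, mul_one] at hint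
  refine hint.trans (le_of_eq ?_)
  have hS1m : Measurable (fun w' => ∑ l, ∑ i, ∑ j, ∫⁻ ω, (if A w' (Y l i ω) = A w' (Y l j ω) then
        ENNReal.ofReal (Θ l i ω * Θ l j ω * K s (Y l i ω) (Y l j ω)) else 0) ∂P) :=
    Finset.measurable_sum _ (fun l _ => Finset.measurable_sum _ (fun i _ =>
        Finset.measurable_sum _ (fun j _ => (T2 l i j).1)))
  rw [lintegral_add_left hS1m, lintegral_const_mul' _ _ hn]
  congr 1
  · rw [lintegral_finsetSum]
    · apply Finset.sum_congr rfl
      intro l _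
      rw [lintegral_finsetSum]
      · apply Finset.sum_congr rfl
        intro i _
        rw [lintegral_finsetSum]
        · apply Finset.sum_congr rfl
          intro j _
          rw [(T2 l i j).2]
          apply lintegral_congr
          intro ω
          have h0 : 0 ≤ Θ l i ω * Θ l j ω * K s (Y l i ω) (Y l j ω) :=
            mul_nonneg (mul_nonneg (hE.nonneg l i ω) (hE.nonneg l j ω)) (hK0 _ _)
          rw [zero_mul, add_zero, ← ENNReal.ofReal_mul h0]
          congr 1
          ring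
        · exact fun j _ => (T2 l i j).1
      · exact fun i _ => Finset.measurable_sum _ (fun j _ => (T2 l i j).1)
    · exact fun l _ => Finset.measurable_sum _ (fun i _ =>
        Finset.measurable_sum _ (fun j _ => (T2 l i j).1))
  · congr 1
    have hpm : Measurable (fun q : S d × S d => ENNReal.ofReal ((1 - κ * dist q.1 q.2) ^ k)) := by
      fun_prop
    rw [T1.2, lintegral_prod]
    · apply lintegral_congr
      intro u
      apply lintegral_congr
      intro v
      have hd0 : (0:ℝ) ≤ dist u v := dist_nonneg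
      have hd2 := fla2_dist u v
      have hb0 : 0 ≤ 1 - κ * dist u v := by nlinarith
      have hb1 : 1 - κ * dist u v ≤ 1 := by nlinarith
      have hq0 : 0 ≤ (1 - κ * dist u v) ^ k := pow_nonneg hb0 k
      have hq1 : (1 - κ * dist u v) ^ k ≤ 1 := pow_le_one₀ hb0 hb1
      have h1q : (1 : ℝ≥0∞) - ENNReal.ofReal ((1 - κ * dist u v) ^ k) =
          ENNReal.ofReal (1 - (1 - κ * dist u v) ^ k) := by
        rw [ENNReal.ofReal_sub _ hq0, ENNReal.ofReal_one]
      show (if L u = L v then 0 else ENNReal.ofReal (K s u v)) *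
        ENNReal.ofReal ((1 - κ * dist u v) ^ k) + ENNReal.ofReal (K s u v) *
          (1 - ENNReal.ofReal ((1 - κ * dist u v) ^ k)) = _
      by_cases h2 : L u = L v
      · rw [if_pos h2, if_pos h2, ENNReal.ofReal_mul (hK0 u v), zero_mul, zero_add, h1q]
      · rw [if_neg h2, if_neg h2, ← mul_add, h1q, ← ENNReal.ofReal_add hq0 (by linarith)]
        rw [show (1 - κ * dist u v) ^ k + (1 - (1 - κ * dist u v) ^ k) = 1 by ring,
          ENNReal.ofReal_one, mul_one]
    · exact ((hφ1.mul hpm).add (hψ1.mul (measurable_const.sub hpm))).aemeasurable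

end Pool.Agent.Helper88.SE
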