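import Pool.Agent.Helper88.SE.Defs
import Pool.Agent.Helper88.SE.P_KL_gamma
import Pool.Agent.Helper88.SE.P_gg_mellin
import Pool.Agent.Helper88.SE.P_KL_const

set_option autoImplicit false

open MeasureTheory Set Filter Topology
open scoped ENNReal

namespace Pool.Agent.Helper88.SE



theorem ff_mellin_exp (s lam r : ℝ) (hs : 0 < s) (hr : 0 < r) :
    IntegrableOn (fun w : ℝ => w ^ (s - 1) * Real.exp (-((lam + w) * r))) (Ioi 0) ∧
    ∫ w in Ioi (0 : ℝ), w ^ (s - 1) * Real.exp (-((lam + w) * r)) =
      Real.Gamma s * (r ^ (-s) * Real.exp (-(lam * r))) := by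
  have heq : (fun w : ℝ => w ^ (s - 1) * Real.exp (-((lam + w) * r))) =
      fun w : ℝ => Real.exp (-(lam * r)) * (w ^ (s - 1) * Real.exp (-(r * w))) := by
    funext w
    have : -((lam + w) * r) = -(lam * r) + -(r * w) := by ring
    rw [this, Real.exp_add]
    ring
  constructor
  · rw [heq]
    have h1 := integrableOn_rpow_mul_exp_neg_mul_rpow (p := 1) (s := s - 1) (b := r)
      (by linarith) one_pos hr
    have h2 : (fun x : ℝ => x ^ (s - 1) * Real.exp (-r * x ^ (1 : ℝ))) =
        fun w : ℝ => w ^ (s - 1) * Real.exp (-(r * w)) := by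
      funext w
      rw [Real.rpow_one, neg_mul]
    rw [h2] at h1
    exact h1.const_mul _
  · rw [heq, integral_const_mul, Real.integral_rpow_mul_exp_neg_mul_Ioi hs hr, Real.rpow_neg hr.le,
      one_div, Real.inv_rpow hr.le]
    ring

theorem ff_mellin (d : ℕ) (hd : 1 ≤ d) (s : ℝ) (hs : 0 < s) (hsd : s < d) (N : ℕ)
    (x : Fin N → S d) (hx : Function.Injective x) (lam : ℝ) (hlam : 0 ≤ lam) :
    ∫ w in Ioi (0 : ℝ), w ^ (s - 1) * ff x (lam + w) =
      Real.Gamma s * (EL s lam x - (N : ℝ) ^ 2 * J d s lam) := by
  classical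
  have hdist : ∀ i j, i ≠ j → 0 < dist (x i) (x j) := fun i j hij =>
    dist_pos.mpr fun h => hij (hx h)
  have h1 : (fun w : ℝ => w ^ (s - 1) * ff x (lam + w)) = fun w : ℝ =>
      (∑ i, ∑ j, if i = j then (0 : ℝ) else
        w ^ (s - 1) * Real.exp (-((lam + w) * dist (x i) (x j)))) -
        (N : ℝ) ^ 2 * (w ^ (s - 1) * gg d (lam + w)) := by
    funext w
    have h2 : (∑ i, ∑ j, Real.exp (-((lam + w) * dist (x i) (x j)))) - (N : ℝ) =
        ∑ i, ∑ j, if i = j then (0 : ℝ) else Real.exp (-((lam + w) * dist (x i) (x j))) := by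
      have h3 : (N : ℝ) = ∑ i : Fin N, ∑ j : Fin N, if i = j then (1 : ℝ) else 0 := by
        simp
      conv_lhs => rw [h3]
      rw [← Finset.sum_sub_distrib]
      refine Finset.sum_congr rfl fun i _ => ?_
      rw [← Finset.sum_sub_distrib]
      refine Finset.sum_congr rfl fun j _ => ?_
      by_cases hij : i = j
      · subst hij
        simp
      · simp [hij]
    unfold ff
    rw [h2, mul_sub, Finset.mul_sum]
    congr 1
    · refine Finset.sum_congr rfl fun i _ => ?_
      rw [Finset.mul_sum]
      refine Finset.sum_congr rfl fun j _ => ?_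
      by_cases hij : i = j
      · simp [hij]
      · simp [hij]
    · ring
  have hint : ∀ i j, IntegrableOn (fun w : ℝ => if i = j then (0 : ℝ) else
        w ^ (s - 1) * Real.exp (-((lam + w) * dist (x i) (x j)))) (Ioi 0) := by
    intro i j
    by_cases hij : i = j
    · simp [hij]
    · simp only [hij, if_false]
      exact (ff_mellin_exp s lam _ hs (hdist i j hij)).1
  have hgg := gg_mellin d s lam hs hsd hlam
  have hJ := (KL_const d hd s lam hs hsd hlam).2.2
  rw [h1, integral_sub, integral_const_mul, hJ, integral_finset_sum]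
  · have h4 : ∀ i, ∫ w in Ioi (0 : ℝ), (∑ j, if i = j then (0 : ℝ) else
        w ^ (s - 1) * Real.exp (-((lam + w) * dist (x i) (x j)))) =
        ∑ j, Real.Gamma s * KL s lam (x i) (x j) := by
      intro i
      rw [integral_finset_sum]
      · refine Finset.sum_congr rfl fun j _ => ?_
        by_cases hij : i = j
        · subst hij
          simp only [if_true, integral_zero]
          unfold KL
          rw [dist_self, Real.zero_rpow (neg_ne_zero.mpr hs.ne')]
          simp
        · simp only [hij, if_false]
          rw [(ff_mellin_exp s lam _ hs (hdist i j hij)).2]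
          rfl
      · intro j _
        exact hint i j
    rw [Finset.sum_congr rfl fun i _ => h4 i]
    unfold EL
    rw [mul_sub, Finset.mul_sum]
    congr 1
    · refine Finset.sum_congr rfl fun i _ => ?_
      rw [Finset.mul_sum]
    · ring
  · intro i _
    exact integrable_finset_sum _ fun j _ => hint i j
  · exact integrable_finset_sum _ fun i _ => integrable_finset_sum _ fun j _ => hint i j
  · exact hgg.const_mul _

end Pool.Agent.Helper88.SE
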