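import Pool.Agent.Helper88.SE.Defs

set_option autoImplicit false

open MeasureTheory Set Filter Topology
open scoped ENNReal

namespace Pool.Agent.Helper88.SE



theorem min_int (s D C₁ : ℝ) (hs : 0 < s) (hsD : s < D) (hC : 0 < C₁) :
    ∃ C : ℝ, 0 < C ∧ ∀ N : ℝ, 1 ≤ N →
      IntegrableOn (fun u : ℝ => u ^ (s - 1) * min N (C₁ * N ^ 2 * u ^ (-D))) (Ioi 0) ∧
      ∫ u in Ioi (0 : ℝ), u ^ (s - 1) * min N (C₁ * N ^ 2 * u ^ (-D)) ≤ C * N ^ (1 + s / D) := by
  have hD : 0 < D := hs.trans hsD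
  have hDs : 0 < D - s := by linarith
  refine ⟨1 / s + C₁ / (D - s), by positivity, fun N hN => ?_⟩
  have hN0 : 0 < N := by linarith
  set f : ℝ → ℝ := fun u : ℝ => u ^ (s - 1) * min N (C₁ * N ^ 2 * u ^ (-D)) with hf
  set u0 : ℝ := N ^ (1 / D) with hu0
  have hu0p : 0 < u0 := Real.rpow_pos_of_pos hN0 _
  have hmeas : Measurable f := by
    rw [hf]
    exact (measurable_id.pow_const _).mul
      (measurable_const.min (measurable_const.mul (measurable_id.pow_const _)))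
  have hnn : ∀ u : ℝ, 0 < u → 0 ≤ f u := fun u hu =>
    mul_nonneg (Real.rpow_nonneg hu.le _)
      (le_min hN0.le (by have := Real.rpow_nonneg hu.le (-D); positivity))
  have hb1 : ∀ u : ℝ, 0 < u → f u ≤ N * u ^ (s - 1) := fun u hu => by
    rw [mul_comm N]
    exact mul_le_mul_of_nonneg_left (min_le_left _ _) (Real.rpow_nonneg hu.le _)
  have hb2 : ∀ u : ℝ, 0 < u → f u ≤ C₁ * N ^ 2 * u ^ (s - 1 - D) := fun u hu => by
    calc f u ≤ u ^ (s - 1) * (C₁ * N ^ 2 * u ^ (-D)) :=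
          mul_le_mul_of_nonneg_left (min_le_right _ _) (Real.rpow_nonneg hu.le _)
      _ = C₁ * N ^ 2 * (u ^ (s - 1) * u ^ (-D)) := by ring
      _ = C₁ * N ^ 2 * u ^ (s - 1 - D) := by rw [← Real.rpow_add hu, ← sub_eq_add_neg]
  have hg1 : IntegrableOn (fun u : ℝ => N * u ^ (s - 1)) (Ioc 0 u0) := by
    have h := intervalIntegral.intervalIntegrable_rpow' (a := 0) (b := u0) (r := s - 1)
      (by linarith)
    rw [intervalIntegrable_iff_integrableOn_Ioc_of_le hu0p.le] at h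
    exact h.const_mul N
  have hg2 : IntegrableOn (fun u : ℝ => C₁ * N ^ 2 * u ^ (s - 1 - D)) (Ioi u0) :=
    (integrableOn_Ioi_rpow_of_lt (by linarith) hu0p).const_mul _
  have hf1 : IntegrableOn f (Ioc 0 u0) := by
    refine Integrable.mono' hg1 hmeas.aestronglyMeasurable ?_
    refine (ae_restrict_iff' measurableSet_Ioc).mpr (Eventually.of_forall fun u hu => ?_)
    rw [Real.norm_of_nonneg (hnn u hu.1)]
    exact hb1 u hu.1
  have hf2 : IntegrableOn f (Ioi u0) := by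
    refine Integrable.mono' hg2 hmeas.aestronglyMeasurable ?_
    refine (ae_restrict_iff' measurableSet_Ioi).mpr (Eventually.of_forall fun u hu => ?_)
    have hu' : 0 < u := hu0p.trans hu
    rw [Real.norm_of_nonneg (hnn u hu')]
    exact hb2 u hu'
  have hU : Ioc 0 u0 ∪ Ioi u0 = Ioi (0 : ℝ) := Ioc_union_Ioi_eq_Ioi hu0p.le
  have hdis : Disjoint (Ioc 0 u0) (Ioi u0) := Ioc_disjoint_Ioi le_rfl
  refine ⟨by rw [← hU]; exact hf1.union hf2, ?_⟩
  have hI1 : ∫ u in Ioc 0 u0, f u ≤ N ^ (1 + s / D) / s := by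
    have h1 : ∫ u in Ioc 0 u0, f u ≤ ∫ u in Ioc 0 u0, N * u ^ (s - 1) :=
      setIntegral_mono_on hf1 hg1 measurableSet_Ioc (fun u hu => hb1 u hu.1)
    refine h1.trans (le_of_eq ?_)
    rw [integral_const_mul, ← intervalIntegral.integral_of_le hu0p.le,
      integral_rpow (Or.inl (by linarith)), sub_add_cancel, Real.zero_rpow hs.ne', sub_zero,
      hu0, ← Real.rpow_mul hN0.le, Real.rpow_add hN0, Real.rpow_one, one_div_mul_eq_div]
    ring
  have hI2 : ∫ u in Ioi u0, f u ≤ C₁ * N ^ (1 + s / D) / (D - s) := by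
    have h1 : ∫ u in Ioi u0, f u ≤ ∫ u in Ioi u0, C₁ * N ^ 2 * u ^ (s - 1 - D) :=
      setIntegral_mono_on hf2 hg2 measurableSet_Ioi (fun u hu => hb2 u (hu0p.trans hu))
    refine h1.trans (le_of_eq ?_)
    rw [integral_const_mul, integral_Ioi_rpow_of_lt (by linarith) hu0p]
    have e1 : s - 1 - D + 1 = -(D - s) := by ring
    have e2 : u0 ^ (-(D - s)) = N ^ (1 + s / D) / N ^ 2 := by
      rw [hu0, ← Real.rpow_mul hN0.le]
      have e3 : 1 / D * -(D - s) = (1 + s / D) - 2 := by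
        field_simp
        ring
      rw [e3, Real.rpow_sub hN0]
      norm_num
    rw [e1, e2]
    field_simp
  rw [← hU, setIntegral_union hdis measurableSet_Ioi hf1 hf2]
  calc (∫ u in Ioc 0 u0, f u) + ∫ u in Ioi u0, f u
      ≤ N ^ (1 + s / D) / s + C₁ * N ^ (1 + s / D) / (D - s) := add_le_add hI1 hI2
    _ = (1 / s + C₁ / (D - s)) * N ^ (1 + s / D) := by ring

end Pool.Agent.Helper88.SE
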