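import Pool.Agent.Helper88.SE.Defs
import Pool.Agent.Helper88.SE.P_Em_basic
import Pool.Agent.Helper88.SE.P_ff_lower
import Pool.Agent.Helper88.SE.P_ff_bdd
import Pool.Agent.Helper88.SE.P_ff_mellin
import Pool.Agent.Helper88.SE.P_min_int

set_option autoImplicit false

open MeasureTheory Set Filter Topology
open scoped ENNReal

namespace Pool.Agent.Helper88.SE



theorem Fl_KL {d : ℕ} (s : ℝ) (x y : S d) : KL s 0 x y = K s x y := by
  unfold KL K
  simp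

theorem Fl_EL {d N : ℕ} (s : ℝ) (x : Fin N → S d) : EL s 0 x = En s x := by
  unfold EL En
  simp only [Fl_KL]

theorem Fl_J (d : ℕ) (s : ℝ) : J d s 0 = Ic d s := by
  unfold J Ic
  simp only [Fl_KL]

theorem Fl_main (d : ℕ) (hd : 1 ≤ d) (s : ℝ) (hs : 0 < s) (hsd : s < d) :
    ∃ C : ℝ, 0 < C ∧ ∀ N : ℕ, 1 ≤ N →
      (∀ x : Fin N → S d, Function.Injective x →
        -(C * (N : ℝ) ^ (1 + s / d)) ≤ En s x - (N : ℝ) ^ 2 * Ic d s) := by
  obtain ⟨C1, hC1, hlow⟩ := ff_lower d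
  obtain ⟨C2, hC2, hmin⟩ := min_int s d C1 hs hsd hC1
  obtain ⟨C3, hC3, hmin3⟩ := min_int s d 1 hs hsd one_pos
  have hΓ : 0 < Real.Gamma s := Real.Gamma_pos_of_pos hs
  refine ⟨C2 / Real.Gamma s, by positivity, ?_⟩
  intro N hN x hx
  have hN1 : (1 : ℝ) ≤ N := by exact_mod_cast hN
  obtain ⟨hm_int, hm_le⟩ := hmin N hN1
  have hmel := ff_mellin d hd s hs hsd N x hx 0 le_rfl
  rw [Fl_EL, Fl_J] at hmel
  simp only [zero_add] at hmel
  obtain ⟨hcont, B, hB⟩ := ff_bdd d N x hx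
  -- integrability
  have hB1 : (1 : ℝ) ≤ max B 1 := le_max_right _ _
  have hBB : B ≤ max B 1 := le_max_left _ _
  obtain ⟨M, hM⟩ : ∃ M : ℝ, M = max B 1 := ⟨_, rfl⟩
  rw [← hM] at hB1 hBB
  have hint3 := (hmin3 M hB1).1
  have hf_int : IntegrableOn (fun w : ℝ => w ^ (s - 1) * ff x w) (Ioi 0) := by
    refine Integrable.mono' hint3 ?_ ?_
    · refine ContinuousOn.aestronglyMeasurable ?_ measurableSet_Ioi
      refine ContinuousOn.mul ?_ hcont.continuousOn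
      intro w hw
      exact (Real.continuousAt_rpow_const w (s - 1) (Or.inl (ne_of_gt hw))).continuousWithinAt
    · rw [ae_restrict_iff' measurableSet_Ioi]
      refine Eventually.of_forall fun w hw => ?_
      have hw0 : (0 : ℝ) < w := hw
      have h1 := hB w hw0
      have hp : 0 ≤ w ^ (s - 1) := Real.rpow_nonneg hw0.le _
      have hq : 0 ≤ w ^ (-(d : ℝ)) := Real.rpow_nonneg hw0.le _
      rw [Real.norm_eq_abs, abs_mul, abs_of_nonneg hp]
      refine mul_le_mul_of_nonneg_left (le_min (h1.1.trans hBB) (h1.2.trans ?_)) hp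
      refine mul_le_mul_of_nonneg_right ?_ hq
      nlinarith
  have hge : -(∫ w in Ioi (0 : ℝ), w ^ (s - 1) * min (N : ℝ) (C1 * (N : ℝ) ^ 2 * w ^ (-(d : ℝ)))) ≤
      ∫ w in Ioi (0 : ℝ), w ^ (s - 1) * ff x w := by
    rw [← integral_neg]
    refine setIntegral_mono_on hm_int.neg hf_int measurableSet_Ioi ?_
    intro w hw
    have hw0 : (0 : ℝ) < w := hw
    have h1 := hlow N x w hw0
    have hp : 0 ≤ w ^ (s - 1) := Real.rpow_nonneg hw0.le _
    have h2 : -(min (N : ℝ) (C1 * (N : ℝ) ^ 2 * w ^ (-(d : ℝ)))) ≤ ff x w := by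
      rcases min_choice (N : ℝ) (C1 * (N : ℝ) ^ 2 * w ^ (-(d : ℝ))) with h | h
      · rw [h]; exact h1.1
      · rw [h]; exact h1.2
    have h3 := mul_le_mul_of_nonneg_left h2 hp
    rw [mul_neg] at h3
    exact h3
  rw [hmel] at hge
  have h4 : -(C2 * (N : ℝ) ^ (1 + s / d)) ≤ Real.Gamma s * (En s x - (N : ℝ) ^ 2 * Ic d s) := by
    linarith
  have h5 : -(C2 / Real.Gamma s * (N : ℝ) ^ (1 + s / d)) =
      -(C2 * (N : ℝ) ^ (1 + s / d)) / Real.Gamma s := by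
    field_simp
  rw [h5, div_le_iff₀ hΓ]
  linarith

theorem F_lower (d : ℕ) (hd : 1 ≤ d) (s : ℝ) (hs : 0 < s) (hsd : s < d) :
    ∃ C : ℝ, 0 < C ∧ ∀ N : ℕ, 1 ≤ N →
      (∀ x : Fin N → S d, Function.Injective x →
        -(C * (N : ℝ) ^ (1 + s / d)) ≤ En s x - (N : ℝ) ^ 2 * Ic d s) ∧
      -(C * (N : ℝ) ^ (1 + s / d)) ≤ F d s N := by
  obtain ⟨C, hC, h⟩ := Fl_main d hd s hs hsd
  refine ⟨C, hC, fun N hN => ⟨h N hN, ?_⟩⟩
  refine le_of_forall_pos_le_add fun ε hε => ?_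
  obtain ⟨x, hx, hlt⟩ := (Em_basic d hd s hs N).2.2.1 ε hε
  have h1 := h N hN x hx
  unfold F
  linarith

end Pool.Agent.Helper88.SE
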