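import Pool.Agent.Helper88.SE.Defs
import Pool.Agent.Helper88.SE.P_KL_const
import Pool.Agent.Helper88.SE.P_Em_basic
import Pool.Agent.Helper88.SE.P_Em_upper

set_option autoImplicit false

open MeasureTheory Set Filter Topology
open scoped ENNReal

namespace Pool.Agent.Helper88.SE



theorem F_upper (d : ℕ) (hd : 1 ≤ d) (s : ℝ) (hs : 0 < s) (hsd : s < d) (N : ℕ) :
    F d s N ≤ 0 ∧ 0 < Ic d s := by
  have h1 : Ic d s = J d s 0 := by
    unfold Ic J K KL
    simp
  have h2 : 0 < Ic d s := by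
    rw [h1]
    exact (KL_const d hd s 0 hs hsd le_rfl).2.1
  refine ⟨?_, h2⟩
  have h3 := Em_upper d hd s hs hsd 0 N (Nat.zero_le N)
  have h4 := (Em_basic d hd s hs N).2.2.2.1
  rw [h4] at h3
  unfold F
  have h5 : (0:ℝ) ≤ (N : ℝ) := Nat.cast_nonneg N
  push_cast at h3
  nlinarith [mul_nonneg h5 h2.le]

end Pool.Agent.Helper88.SE
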