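import Pool.Agent.Helper88.SE.Defs
import Pool.Agent.Helper88.SE.P_sg_prob

set_option autoImplicit false

open MeasureTheory Set Filter Topology
open scoped ENNReal

namespace Pool.Agent.Helper88.SE



theorem cell_ens (d n : ℕ) {M : ℕ} (L : S d → Fin M) (hL : Measurable L)
    (hcell : ∀ l, (n : ℝ) * (sg d (L ⁻¹' {l})).toReal ≤ 1) :
    ∃ (Ω : Type) (_ : MeasurableSpace Ω) (P : Measure Ω)
      (Y : Fin M → Fin 1 → Ω → S d) (Θ : Fin M → Fin 1 → Ω → ℝ), IsProbabilityMeasure P ∧
      Ens n 1 L P Y Θ := by
  have hprob := sg_prob d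
  have hs : ∀ l, MeasurableSet (L ⁻¹' {l}) := fun l => hL (measurableSet_singleton l)
  have hex : ∀ l : Fin M, ∃ μ : Measure (S d), IsProbabilityMeasure μ ∧
      (sg d (L ⁻¹' {l}) ≠ 0 → μ = (sg d (L ⁻¹' {l}))⁻¹ • (sg d).restrict (L ⁻¹' {l})) := by
    intro l
    by_cases h : sg d (L ⁻¹' {l}) = 0
    · exact ⟨sg d, hprob, fun h' => absurd h h'⟩
    · refine ⟨(sg d (L ⁻¹' {l}))⁻¹ • (sg d).restrict (L ⁻¹' {l}), ⟨?_⟩, fun _ => rfl⟩
      rw [Measure.smul_apply, Measure.restrict_apply_univ, smul_eq_mul]
      exact ENNReal.inv_mul_cancel h (measure_ne_top _ _)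
  choose μ hμ1 hμ2 using hex
  refine ⟨Fin M → S d, inferInstance, Measure.pi μ, fun l _ w => w l,
    fun l _ w => if L (w l) = l then (n : ℝ) * (sg d (L ⁻¹' {l})).toReal else 0,
    inferInstance, ?_⟩
  constructor
  · intro l i
    exact measurable_pi_apply l
  · intro l i
    refine Measurable.ite ?_ measurable_const measurable_const
    exact (hL.comp (measurable_pi_apply l)) (measurableSet_singleton l)
  · intro l i ω
    beta_reduce
    split_ifs
    · positivity
    · exact le_rfl
  · intro l i ω
    beta_reduce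
    split_ifs
    · exact hcell l
    · exact zero_le_one
  · intro l i ω h
    by_contra hne
    rw [if_neg hne] at h
    exact lt_irrefl _ h
  · intro l i j ω hij
    exact absurd (Subsingleton.elim i j) hij
  · intro l i f hf
    set s := L ⁻¹' {l} with hsdef
    set h : S d → ℝ≥0∞ := fun u => if L u = l then f u else 0 with hh
    have hhi : h = s.indicator f := by
      funext u
      by_cases hu : L u = l
      · rw [Set.indicator_of_mem (show u ∈ s from hu)]
        simp only [hh, if_pos hu]
      · rw [Set.indicator_of_notMem (show u ∉ s from hu)]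
        simp only [hh, if_neg hu]
    have hhm : Measurable h := by
      rw [hhi]
      exact hf.indicator (hs l)
    have e1 : ∫⁻ ω : Fin M → S d,
        ENNReal.ofReal (if L (ω l) = l then (n : ℝ) * (sg d s).toReal else 0) * f (ω l) ∂Measure.pi μ
        = ∫⁻ ω : Fin M → S d, (fun u => ((n : ℝ≥0∞) * sg d s) * h u) (ω l) ∂Measure.pi μ := by
      refine lintegral_congr fun ω => ?_
      by_cases hu : L (ω l) = l
      · simp only [hh, if_pos hu]
        rw [ENNReal.ofReal_mul (Nat.cast_nonneg n), ENNReal.ofReal_natCast,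
          ENNReal.ofReal_toReal (measure_ne_top _ _)]
      · simp only [hh, if_neg hu]
        simp
    have e2 : ∫⁻ ω : Fin M → S d, (fun u => ((n : ℝ≥0∞) * sg d s) * h u) (ω l) ∂Measure.pi μ =
        ∫⁻ u, ((n : ℝ≥0∞) * sg d s) * h u ∂(μ l) :=
      (measurePreserving_eval μ l).lintegral_comp (hhm.const_mul _)
    rw [e1, e2, lintegral_const_mul _ hhm, Nat.cast_one, one_mul]
    by_cases h0 : sg d s = 0
    · have : ∫⁻ u, h u ∂(sg d) = 0 := by
        rw [hhi, lintegral_indicator (hs l)]
        exact setLIntegral_measure_zero s f h0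
      rw [h0, this]
      simp
    · rw [hμ2 l h0, lintegral_smul_measure, smul_eq_mul]
      have : ∫⁻ u in s, h u ∂(sg d) = ∫⁻ u, h u ∂(sg d) := by
        rw [hhi, lintegral_indicator (hs l), lintegral_indicator (hs l), Measure.restrict_restrict (hs l),
          Set.inter_self]
      rw [this]
      rw [mul_assoc, ← mul_assoc (sg d s), ENNReal.mul_inv_cancel h0 (measure_ne_top _ _), one_mul]

end Pool.Agent.Helper88.SE
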