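import Pool.Agent.Helper88.SE.Defs
import Pool.Agent.Helper88.SE.P_FL
import Pool.Agent.Helper88.SE.P_cell_ens

set_option autoImplicit false

open MeasureTheory Set Filter Topology
open scoped ENNReal

namespace Pool.Agent.Helper88.SE



theorem cell_bound (d : ℕ) (hd : 1 ≤ d) (s : ℝ) (hs : 0 < s) (hsd : s < d) (n : ℕ)
    (m₀ : ℝ) (hm₀ : m₀ ≤ 0)
    (hstar : ∀ (M : ℕ) (y : Fin M → S d), Function.Injective y →
      m₀ ≤ En s y - 2 * n * Ic d s * M + (n : ℝ) ^ 2 * Ic d s)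
    {M : ℕ} (L : S d → Fin M) (hL : Measurable L)
    (hcell : ∀ l, (n : ℝ) * (sg d (L ⁻¹' {l})).toReal ≤ 1) :
    (n : ℝ≥0∞) ^ 2 * ∫⁻ u, ∫⁻ v, (if L u = L v then ENNReal.ofReal (K s u v) else 0)
        ∂(sg d) ∂(sg d) ≤ ENNReal.ofReal (-m₀) := by
  obtain ⟨Ω, mΩ, P, Y, Θ, hP, hE⟩ := cell_ens d n L hL hcell
  have h := FL d hd s hs hsd n 1 le_rfl m₀ hm₀ hstar L hL P Y Θ hE
  refine h.trans ?_
  have hK : ∀ x : S d, K s x x = 0 := by
    intro x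
    unfold K
    rw [dist_self, Real.zero_rpow (by linarith)]
  have h0 : (∑ l, ∑ i : Fin 1, ∑ j : Fin 1,
      ∫⁻ ω, ENNReal.ofReal (Θ l i ω * Θ l j ω * K s (Y l i ω) (Y l j ω)) ∂P) = 0 := by
    refine Finset.sum_eq_zero fun l _ => Finset.sum_eq_zero fun i _ =>
      Finset.sum_eq_zero fun j _ => ?_
    have hij : i = j := Subsingleton.elim i j
    subst hij
    simp [hK]
  rw [h0, zero_add]

end Pool.Agent.Helper88.SE
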