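import Pool.Agent.Helper88.SE.Defs
import Pool.Agent.Helper88.SE.P_sg_prob
import Pool.Agent.Helper88.SE.P_radial
import Pool.Agent.Helper88.SE.P_ball_lim

set_option autoImplicit false

open MeasureTheory Set Filter Topology
open scoped ENNReal

namespace Pool.Agent.Helper88.SE



theorem ball_low_indep (d : ℕ) (x x' : S d) (t : ℝ) :
    sg d (Metric.closedBall x t) = sg d (Metric.closedBall x' t) := by
  have h1 := radial d ((Set.Iic t).indicator 1) (measurable_one.indicator measurableSet_Iic) x x'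
  have h2 : ∀ z : S d, ∫⁻ y, (Set.Iic t).indicator (1 : ℝ → ℝ≥0∞) (dist z y) ∂(sg d) =
      sg d (Metric.closedBall z t) := by
    intro z
    rw [← lintegral_indicator_one (Metric.isClosed_closedBall (x := z) (ε := t)).measurableSet]
    apply lintegral_congr
    intro y
    by_cases hy : dist z y ≤ t
    · rw [Set.indicator_of_mem (show dist z y ∈ Set.Iic t from hy),
        Set.indicator_of_mem (show y ∈ Metric.closedBall z t from Metric.mem_closedBall'.2 hy)]
      rfl
    · rw [Set.indicator_of_notMem (show dist z y ∉ Set.Iic t from hy),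
        Set.indicator_of_notMem (fun hm => hy (Metric.mem_closedBall'.1 hm))]
  rw [← h2 x, ← h2 x', h1]

theorem ball_low (d : ℕ) : ∃ c : ℝ, 0 < c ∧ ∀ (x : S d) (t : ℝ), 0 < t → t ≤ 2 →
    c * t ^ d ≤ (sg d (Metric.closedBall x t)).toReal := by
  haveI := sg_prob d
  obtain ⟨c, hc, hlim⟩ := ball_lim d
  have x0 : S d := ⟨EuclideanSpace.single 0 1, by simp⟩
  have h1 : ∀ᶠ t : ℝ in 𝓝[>] 0, c / 2 < (sg d (Metric.closedBall x0 t)).toReal / t ^ d :=
    (hlim x0).eventually (lt_mem_nhds (by linarith))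
  rw [eventually_nhdsWithin_iff, Metric.eventually_nhds_iff] at h1
  obtain ⟨t0, ht0, h1⟩ := h1
  have h2 : ∀ (x : S d) (t : ℝ), 0 < t → t < t0 →
      c / 2 * t ^ d ≤ (sg d (Metric.closedBall x t)).toReal := by
    intro x t ht htt
    have h3 := h1 (y := t) (by rw [Real.dist_eq, sub_zero, abs_of_pos ht]; exact htt) ht
    rw [lt_div_iff₀ (by positivity)] at h3
    rw [ball_low_indep d x x0 t]
    exact h3.le
  refine ⟨min (c / 2) (c / 2 * (t0 / 2 / 2) ^ d), by positivity, fun x t ht ht2 => ?_⟩
  rcases lt_or_ge t t0 with h | h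
  · refine le_trans ?_ (h2 x t ht h)
    exact mul_le_mul_of_nonneg_right (min_le_left _ _) (by positivity)
  · have h3 := h2 x (t0 / 2) (by positivity) (by linarith)
    have h4 : (sg d (Metric.closedBall x (t0 / 2))).toReal ≤
        (sg d (Metric.closedBall x t)).toReal :=
      ENNReal.toReal_mono (measure_ne_top _ _)
        (measure_mono (Metric.closedBall_subset_closedBall (by linarith)))
    have h5 : (t0 / 2 / 2) ^ d * t ^ d ≤ (t0 / 2) ^ d := by
      rw [← mul_pow]
      refine pow_le_pow_left₀ (by positivity) ?_ d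
      nlinarith
    calc min (c / 2) (c / 2 * (t0 / 2 / 2) ^ d) * t ^ d
        ≤ (c / 2 * (t0 / 2 / 2) ^ d) * t ^ d :=
          mul_le_mul_of_nonneg_right (min_le_right _ _) (by positivity)
      _ = c / 2 * ((t0 / 2 / 2) ^ d * t ^ d) := by ring
      _ ≤ c / 2 * (t0 / 2) ^ d := mul_le_mul_of_nonneg_left h5 (by positivity)
      _ ≤ _ := h3.trans h4

end Pool.Agent.Helper88.SE
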