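import Pool.Agent.Helper88.SE.Defs

set_option autoImplicit false

open MeasureTheory Set Filter Topology
open scoped ENNReal

namespace Pool.Agent.Helper88.SE



/-- clamp to `[0,1]` -/
noncomputable def gridT (t : ℝ) : ℝ := max 0 (min t 1)

theorem gridT_nonneg (t : ℝ) : 0 ≤ gridT t := le_max_left _ _

theorem gridT_le (t : ℝ) : gridT t ≤ 1 := max_le zero_le_one (min_le_right _ _)

theorem gridT_eq {t : ℝ} (ht : t ∈ Icc (0 : ℝ) 1) : gridT t = t := by
  unfold gridT
  rw [min_eq_left ht.2, max_eq_right ht.1]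

theorem gridT_meas : Measurable gridT := by
  unfold gridT
  fun_prop

theorem grid_coord_le {d : ℕ} (u v : S d) (i : Fin (d + 1)) :
    |(u : E d) i - (v : E d) i| ≤ dist u v := by
  have h := PiLp.norm_apply_le ((u : E d) - (v : E d)) i
  rw [Subtype.dist_eq, dist_eq_norm]
  simpa using h

theorem grid_abs_le {d : ℕ} (u : S d) (i : Fin (d + 1)) : |(u : E d) i| ≤ 1 := by
  have h := PiLp.norm_apply_le (u : E d) i
  have h2 : ‖(u : E d)‖ = 1 := by simp
  rw [h2] at h
  simpa using h

/-- the integer label -/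
noncomputable def gridL (η : ℝ) {d : ℕ} (t : ℝ) (u : S d) (i : Fin (d + 1)) : ℤ :=
  ⌊(u : E d) i / η + gridT t⌋

theorem gridL_mem {η : ℝ} (hη : 0 < η) {d : ℕ} (t : ℝ) (u : S d) (i : Fin (d + 1)) :
    gridL η t u i ∈ Finset.Icc (-(⌈1 / η⌉ + 1)) (⌈1 / η⌉ + 1) := by
  have h1 := abs_le.1 (grid_abs_le u i)
  have h2 : -(1 / η) ≤ (u : E d) i / η := by
    rw [← neg_div]
    exact div_le_div_of_nonneg_right h1.1 hη.le
  have h3 : (u : E d) i / η ≤ 1 / η := div_le_div_of_nonneg_right h1.2 hη.le
  have h4 := gridT_nonneg t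
  have h5 := gridT_le t
  have h6 := Int.le_ceil (1 / η)
  rw [Finset.mem_Icc]
  unfold gridL
  constructor
  · rw [Int.le_floor]
    push_cast
    linarith
  · rw [← Int.lt_add_one_iff, Int.floor_lt]
    push_cast
    linarith

/-- measure of the set where a grid line separates two numbers -/
theorem grid_sep {a b : ℝ} (hab : a ≤ b) :
    volume {t : ℝ | t ∈ Icc (0 : ℝ) 1 ∧ ⌊a + t⌋ ≠ ⌊b + t⌋} ≤ ENNReal.ofReal (b - a) := by
  by_cases h1 : 1 ≤ b - a
  · calc volume {t : ℝ | t ∈ Icc (0 : ℝ) 1 ∧ ⌊a + t⌋ ≠ ⌊b + t⌋} ≤ volume (Icc (0 : ℝ) 1) :=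
          measure_mono (fun t ht => ht.1)
      _ = ENNReal.ofReal 1 := by rw [Real.volume_Icc]; norm_num
      _ ≤ ENNReal.ofReal (b - a) := ENNReal.ofReal_le_ofReal h1
  push Not at h1
  set k : ℤ := ⌊a⌋ + 1 with hk
  have hka : a < k := by
    have := Int.lt_floor_add_one a
    rw [hk]; push_cast; exact this
  have hkmin : ∀ n : ℤ, a < n → k ≤ n := by
    intro n hn
    rw [hk]
    exact Int.add_one_le_iff.2 (Int.floor_lt.2 hn)
  have hka1 : (k : ℝ) ≤ a + 1 := by
    have := Int.floor_le a
    rw [hk]; push_cast; linarith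
  have hmain : ∀ t : ℝ, t ∈ Icc (0 : ℝ) 1 → ⌊a + t⌋ ≠ ⌊b + t⌋ →
      ∃ n : ℤ, a + t < n ∧ (n : ℝ) ≤ b + t := by
    intro t ht hne
    refine ⟨⌊b + t⌋, ?_, Int.floor_le _⟩
    rw [← Int.floor_lt]
    exact lt_of_le_of_ne (Int.floor_le_floor (by linarith)) hne
  by_cases hkb : b < k
  · calc volume {t : ℝ | t ∈ Icc (0 : ℝ) 1 ∧ ⌊a + t⌋ ≠ ⌊b + t⌋} ≤
          volume (Icc ((k : ℝ) - b) ((k : ℝ) - a)) := by
          apply measure_mono
          rintro t ⟨ht, hne⟩
          obtain ⟨n, hn1, hn2⟩ := hmain t ht hne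
          have hn3 : k ≤ n := hkmin n (by linarith [ht.1])
          have hn4 : n ≤ k := by
            have : (n : ℝ) < k + 1 := by linarith [ht.2]
            have h' : n < k + 1 := by exact_mod_cast this
            omega
          have hn5 : n = k := le_antisymm hn4 hn3
          rw [hn5] at hn1 hn2
          exact ⟨by linarith, by linarith⟩
      _ = ENNReal.ofReal (b - a) := by rw [Real.volume_Icc]; congr 1; ring
  · push Not at hkb
    calc volume {t : ℝ | t ∈ Icc (0 : ℝ) 1 ∧ ⌊a + t⌋ ≠ ⌊b + t⌋} ≤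
          volume (Icc (0 : ℝ) ((k : ℝ) - a) ∪ Icc ((k : ℝ) + 1 - b) 1) := by
          apply measure_mono
          rintro t ⟨ht, hne⟩
          obtain ⟨n, hn1, hn2⟩ := hmain t ht hne
          have hn3 : k ≤ n := hkmin n (by linarith [ht.1])
          have hn4 : n ≤ k + 1 := by
            have : (n : ℝ) < k + 2 := by linarith [ht.2]
            have h' : n < k + 2 := by exact_mod_cast this
            omega
          rcases lt_or_eq_of_le hn3 with h | h
          · have hn5 : n = k + 1 := by omega
            rw [hn5] at hn1 hn2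
            push_cast at hn1 hn2
            right
            exact ⟨by linarith, ht.2⟩
          · rw [← h] at hn1 hn2
            left
            exact ⟨ht.1, by linarith⟩
      _ ≤ volume (Icc (0 : ℝ) ((k : ℝ) - a)) + volume (Icc ((k : ℝ) + 1 - b) 1) :=
          measure_union_le _ _
      _ = ENNReal.ofReal (b - a) := by
          rw [Real.volume_Icc, Real.volume_Icc, ← ENNReal.ofReal_add (by linarith) (by linarith)]
          congr 1
          ring

theorem grid_sep' (a b : ℝ) :
    volume {t : ℝ | t ∈ Icc (0 : ℝ) 1 ∧ ⌊a + t⌋ ≠ ⌊b + t⌋} ≤ ENNReal.ofReal |b - a| := by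
  rcases le_total a b with h | h
  · rw [abs_of_nonneg (by linarith)]
    exact grid_sep h
  · rw [abs_sub_comm, abs_of_nonneg (by linarith)]
    have := grid_sep h
    refine le_trans (le_of_eq ?_) this
    congr 1
    ext t
    simp only [mem_ofPred_eq]
    exact and_congr_right fun _ => ne_comm

theorem grid (d : ℕ) :
    ∃ C : ℝ, 0 < C ∧ ∀ δ : ℝ, 0 < δ → ∃ (M : ℕ) (B : ℝ → S d → Fin M),
      Measurable (fun p : ℝ × S d => B p.1 p.2) ∧
      (∀ t u v, B t u = B t v → dist u v ≤ δ) ∧
      ∀ u v : S d, ∫⁻ t in Icc (0 : ℝ) 1, (if B t u = B t v then (0 : ℝ≥0∞) else 1) ≤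
        ENNReal.ofReal (C * dist u v / δ) := by
  classical
  have hd : (0 : ℝ) < (d : ℝ) + 1 := by positivity
  refine ⟨((d : ℝ) + 1) ^ 2, by positivity, ?_⟩
  intro δ hδ
  set η : ℝ := δ / ((d : ℝ) + 1) with hη_def
  have hη : 0 < η := div_pos hδ hd
  have hηδ : ((d : ℝ) + 1) * η = δ := by
    rw [hη_def]; field_simp
  set m : ℤ := ⌈1 / η⌉ + 1 with hm
  let X : Type := Fin (d + 1) → {x : ℤ // x ∈ Finset.Icc (-m) m}
  let e : X ≃ Fin (Fintype.card X) := Fintype.equivFin X
  let lab : ℝ → S d → X := fun t u i => ⟨gridL η t u i, gridL_mem hη t u i⟩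
  have hlab : ∀ t u v, e (lab t u) = e (lab t v) → ∀ i, gridL η t u i = gridL η t v i := by
    intro t u v h i
    have h1 : lab t u = lab t v := e.injective h
    have h2 : lab t u i = lab t v i := by rw [h1]
    exact congrArg Subtype.val h2
  have hlab2 : ∀ t u v, (∀ i, gridL η t u i = gridL η t v i) → e (lab t u) = e (lab t v) := by
    intro t u v h
    congr 1
    funext i
    exact Subtype.ext (h i)
  refine ⟨Fintype.card X, fun t u => e (lab t u), ?_, ?_, ?_⟩
  · have hm1 : Measurable (fun p : ℝ × S d => lab p.1 p.2) := by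
      refine measurable_pi_iff.2 (fun i => ?_)
      refine Measurable.subtype_mk ?_
      show Measurable (fun p : ℝ × S d => ⌊(p.2 : E d) i / η + gridT p.1⌋)
      refine Int.measurable_floor.comp ?_
      refine Measurable.add ?_ (gridT_meas.comp measurable_fst)
      refine Measurable.div_const ?_ _
      have h1 : Continuous (fun p : ℝ × S d => (p.2 : E d) i) := by fun_prop
      exact h1.measurable
    have hm2 : Measurable e := measurable_of_finite _
    exact hm2.comp hm1
  · intro t u v h
    have h1 := hlab t u v h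
    have h2 : ∀ i, |(u : E d) i - (v : E d) i| ≤ η := by
      intro i
      have h3 := Int.abs_sub_lt_one_of_floor_eq_floor (h1 i)
      have h4 : (u : E d) i / η + gridT t - ((v : E d) i / η + gridT t) =
          ((u : E d) i - (v : E d) i) / η := by ring
      rw [h4, abs_div, abs_of_pos hη, div_lt_one hη] at h3
      exact h3.le
    rw [Subtype.dist_eq, EuclideanSpace.dist_eq]
    rw [Real.sqrt_le_iff]
    refine ⟨hδ.le, ?_⟩
    calc ∑ i, dist ((u : E d) i) ((v : E d) i) ^ 2 ≤ ∑ _i : Fin (d + 1), η ^ 2 := by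
          apply Finset.sum_le_sum
          intro i _
          rw [Real.dist_eq]
          exact pow_le_pow_left₀ (abs_nonneg _) (h2 i) 2
      _ = ((d : ℝ) + 1) * η ^ 2 := by
          rw [Finset.sum_const, Finset.card_univ, Fintype.card_fin, nsmul_eq_mul]
          push_cast
          ring
      _ ≤ (((d : ℝ) + 1) * η) ^ 2 := by
          rw [mul_pow]
          apply mul_le_mul_of_nonneg_right _ (sq_nonneg _)
          nlinarith [hd, (Nat.cast_nonneg d : (0 : ℝ) ≤ (d : ℝ))]
      _ = δ ^ 2 := by rw [hηδ]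
  · intro u v
    set A : Fin (d + 1) → Set ℝ := fun i => {t : ℝ | gridL η t u i ≠ gridL η t v i} with hA
    have hAm : ∀ i, MeasurableSet (A i) := by
      intro i
      have h1 : Measurable (fun t : ℝ => gridL η t u i) :=
        Int.measurable_floor.comp (measurable_const.add gridT_meas)
      have h2 : Measurable (fun t : ℝ => gridL η t v i) :=
        Int.measurable_floor.comp (measurable_const.add gridT_meas)
      exact (measurableSet_eq_fun h1 h2).compl
    have hle : ∀ t : ℝ, (if e (lab t u) = e (lab t v) then (0 : ℝ≥0∞) else 1) ≤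
        ∑ i, (A i).indicator (fun _ => (1 : ℝ≥0∞)) t := by
      intro t
      by_cases h : e (lab t u) = e (lab t v)
      · rw [if_pos h]
        exact zero_le
      · rw [if_neg h]
        have h1 : ∃ i, gridL η t u i ≠ gridL η t v i := by
          by_contra hcon
          push Not at hcon
          exact h (hlab2 t u v hcon)
        obtain ⟨i, hi⟩ := h1
        have h2 : (A i).indicator (fun _ => (1 : ℝ≥0∞)) t = 1 := by
          rw [indicator_of_mem]
          exact hi
        refine (le_of_eq h2.symm).trans ?_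
        exact Finset.single_le_sum (f := fun i => (A i).indicator (fun _ => (1 : ℝ≥0∞)) t)
          (fun _ _ => zero_le) (Finset.mem_univ i)
    calc ∫⁻ t in Icc (0 : ℝ) 1, (if e (lab t u) = e (lab t v) then (0 : ℝ≥0∞) else 1)
        ≤ ∫⁻ t in Icc (0 : ℝ) 1, ∑ i, (A i).indicator (fun _ => (1 : ℝ≥0∞)) t :=
          lintegral_mono hle
      _ = ∑ i, ∫⁻ t in Icc (0 : ℝ) 1, (A i).indicator (fun _ => (1 : ℝ≥0∞)) t := by
          rw [lintegral_finsetSum]
          intro i _
          exact measurable_const.indicator (hAm i)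
      _ ≤ ∑ _i : Fin (d + 1), ENNReal.ofReal (dist u v / η) := by
          apply Finset.sum_le_sum
          intro i _
          rw [lintegral_indicator (hAm i), lintegral_one, Measure.restrict_restrict (hAm i),
            Measure.restrict_apply_univ]
          have h1 : A i ∩ Icc (0 : ℝ) 1 ⊆ {t : ℝ | t ∈ Icc (0 : ℝ) 1 ∧
              ⌊(u : E d) i / η + t⌋ ≠ ⌊(v : E d) i / η + t⌋} := by
            rintro t ⟨ht1, ht2⟩
            refine ⟨ht2, ?_⟩
            have h3 : gridL η t u i ≠ gridL η t v i := ht1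
            unfold gridL at h3
            rw [gridT_eq ht2] at h3
            exact h3
          refine (measure_mono h1).trans ((grid_sep' _ _).trans ?_)
          apply ENNReal.ofReal_le_ofReal
          rw [← sub_div, abs_div, abs_of_pos hη, abs_sub_comm]
          exact div_le_div_of_nonneg_right (grid_coord_le u v i) hη.le
      _ = ENNReal.ofReal (((d : ℝ) + 1) ^ 2 * dist u v / δ) := by
          rw [Finset.sum_const, Finset.card_univ, Fintype.card_fin, nsmul_eq_mul,
            ← ENNReal.ofReal_natCast, ← ENNReal.ofReal_mul (by positivity)]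
          congr 1
          push_cast
          rw [hη_def]
          field_simp

end Pool.Agent.Helper88.SE
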