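import Pool.Agent.Helper88.SE.Defs
import Pool.Agent.Helper88.SE.P_sg_prob
import Pool.Agent.Helper88.SE.P_ball_bound
import Pool.Agent.Helper88.SE.P_no_atom
import Pool.Agent.Helper88.SE.P_grid
import Pool.Agent.Helper88.SE.P_K_meas
import Pool.Agent.Helper88.SE.P_ball_low

set_option autoImplicit false

open MeasureTheory Set Filter Topology
open scoped ENNReal

namespace Pool.Agent.Helper88.SE



theorem cell_aux1 (d : ℕ) (C c1 δ C' ρ : ℝ) (hC : 0 < C) (hCC : C ≤ C') (hC'1 : 1 ≤ C') (hc1 : 0 < c1)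
    (hδ0 : 0 < δ) (hδ1 : δ ≤ 1) (hρ : ρ = δ / (2 * C'))
    (hlow : ∀ (x : S d) (t : ℝ), 0 < t → t ≤ 2 →
      c1 * t ^ d ≤ (sg d (Metric.closedBall x t)).toReal)
    (M : ℕ) (B : ℝ → S d → Fin M)
    (hBm : Measurable (fun p : ℝ × S d => B p.1 p.2))
    (hBg : ∀ u v : S d, ∫⁻ t in Icc (0 : ℝ) 1, (if B t u = B t v then (0 : ℝ≥0∞) else 1) ≤
        ENNReal.ofReal (C * dist u v / δ)) :
    ∃ t : ℝ, ENNReal.ofReal (c1 / 2 * ρ ^ d) ≤
      ∫⁻ u, ∫⁻ v, (if B t u = B t v then (1 : ℝ≥0∞) else 0) ∂(sg d) ∂(sg d) := by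
  haveI := sg_prob d
  have hC'0 : 0 < C' := by linarith
  have hρ0 : 0 < ρ := by rw [hρ]; positivity
  have hρ2 : ρ ≤ 2 := by
    rw [hρ, div_le_iff₀ (by positivity)]; nlinarith
  let G : ℝ × (S d × S d) → ℝ≥0∞ := fun p => if B p.1 p.2.1 = B p.1 p.2.2 then 1 else 0
  have hset : MeasurableSet {p : ℝ × (S d × S d) | B p.1 p.2.1 = B p.1 p.2.2} := by
    have h1 : Measurable (fun p : ℝ × (S d × S d) => B p.1 p.2.1) :=
      hBm.comp (measurable_fst.prodMk (measurable_fst.comp measurable_snd))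
    have h2 : Measurable (fun p : ℝ × (S d × S d) => B p.1 p.2.2) :=
      hBm.comp (measurable_fst.prodMk (measurable_snd.comp measurable_snd))
    exact measurableSet_eq_fun h1 h2
  have hG : Measurable G := Measurable.ite hset measurable_const measurable_const
  let μ : Measure ℝ := volume.restrict (Icc (0 : ℝ) 1)
  haveI hμ : IsProbabilityMeasure μ := ⟨by simp [μ]⟩
  have hf : ∀ t, ∫⁻ u, ∫⁻ v, (if B t u = B t v then (1 : ℝ≥0∞) else 0) ∂(sg d) ∂(sg d)
      = ∫⁻ w, G (t, w) ∂((sg d).prod (sg d)) := by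
    intro t
    have hm : Measurable (fun w : S d × S d => G (t, w)) :=
      hG.comp (measurable_const.prodMk measurable_id)
    rw [lintegral_prod _ hm.aemeasurable]
  have hswap : ∫⁻ t, ∫⁻ w, G (t, w) ∂((sg d).prod (sg d)) ∂μ
      = ∫⁻ w, ∫⁻ t, G (t, w) ∂μ ∂((sg d).prod (sg d)) :=
    lintegral_lintegral_swap (f := fun t w => G (t, w)) hG.aemeasurable
  have hpt : ∀ w : S d × S d, ({w : S d × S d | dist w.1 w.2 ≤ ρ}.indicator
      (fun _ => ENNReal.ofReal (1/2)) w) ≤ ∫⁻ t, G (t, w) ∂μ := by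
    intro w
    by_cases hw : dist w.1 w.2 ≤ ρ
    · rw [indicator_of_mem (by exact hw)]
      have h1 : ∫⁻ t, G (t, w) ∂μ + ∫⁻ t, (if B t w.1 = B t w.2 then (0 : ℝ≥0∞) else 1) ∂μ = 1 := by
        have hm : Measurable (fun t : ℝ => G (t, w)) :=
          hG.comp (measurable_id.prodMk measurable_const)
        rw [← lintegral_add_left hm]
        have : ∀ t, G (t, w) + (if B t w.1 = B t w.2 then (0 : ℝ≥0∞) else 1) = 1 := by
          intro t
          by_cases h : B t w.1 = B t w.2 <;> simp [G, h]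
        simp only [this]
        simp
      have h2 : ∫⁻ t, (if B t w.1 = B t w.2 then (0 : ℝ≥0∞) else 1) ∂μ ≤ ENNReal.ofReal (1/2) := by
        refine (hBg w.1 w.2).trans (ENNReal.ofReal_le_ofReal ?_)
        rw [div_le_iff₀ hδ0]
        have h3 : C * dist w.1 w.2 ≤ C' * ρ := by
          have := dist_nonneg (x := w.1) (y := w.2)
          gcongr
        have h4 : C' * ρ = 1/2 * δ := by rw [hρ]; field_simp
        linarith
      have h3 : (1 : ℝ≥0∞) ≤ ∫⁻ t, G (t, w) ∂μ + ENNReal.ofReal (1/2) := by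
        rw [← h1]; gcongr
      have h4 : (1 : ℝ≥0∞) = ENNReal.ofReal (1/2) + ENNReal.ofReal (1/2) := by
        rw [← ENNReal.ofReal_add (by norm_num) (by norm_num)]; norm_num
      rw [h4] at h3
      exact (ENNReal.add_le_add_iff_right ENNReal.ofReal_ne_top).1 h3
    · rw [indicator_of_notMem (by exact hw)]
      exact bot_le
  have hmain : ENNReal.ofReal (c1 / 2 * ρ ^ d) ≤ ∫⁻ t, ∫⁻ w, G (t, w) ∂((sg d).prod (sg d)) ∂μ := by
    rw [hswap]
    refine le_trans ?_ (lintegral_mono hpt)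
    have hm : MeasurableSet {w : S d × S d | dist w.1 w.2 ≤ ρ} :=
      measurableSet_le (by fun_prop) measurable_const
    rw [lintegral_prod _ (by exact (measurable_const.indicator hm).aemeasurable)]
    have : ∀ u : S d, ENNReal.ofReal (c1 / 2 * ρ ^ d) ≤ ∫⁻ v, ({w : S d × S d | dist w.1 w.2 ≤ ρ}.indicator
      (fun _ => ENNReal.ofReal (1/2)) (u, v)) ∂(sg d) := by
      intro u
      have e : (fun v => ({w : S d × S d | dist w.1 w.2 ≤ ρ}.indicator
        (fun _ => ENNReal.ofReal (1/2)) (u, v))) =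
          (Metric.closedBall u ρ).indicator (fun _ => ENNReal.ofReal (1/2)) := by
        funext v
        by_cases h : dist u v ≤ ρ
        · rw [indicator_of_mem (by exact h), indicator_of_mem (by rw [Metric.mem_closedBall, dist_comm]; exact h)]
        · rw [indicator_of_notMem (by exact h),
            indicator_of_notMem (by rw [Metric.mem_closedBall, dist_comm]; exact h)]
      rw [e, lintegral_indicator Metric.isClosed_closedBall.measurableSet, lintegral_const,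
        Measure.restrict_apply_univ]
      have h5 := hlow u ρ hρ0 hρ2
      have h6 : ENNReal.ofReal (c1 * ρ ^ d) ≤ sg d (Metric.closedBall u ρ) := by
        rw [← ENNReal.ofReal_toReal (measure_ne_top (sg d) (Metric.closedBall u ρ))]
        exact ENNReal.ofReal_le_ofReal h5
      have h7 : c1 / 2 * ρ ^ d = 1/2 * (c1 * ρ ^ d) := by ring
      rw [h7, ENNReal.ofReal_mul (by norm_num)]
      gcongr
    calc ENNReal.ofReal (c1 / 2 * ρ ^ d) = ∫⁻ _u : S d, ENNReal.ofReal (c1 / 2 * ρ ^ d) ∂(sg d) := by simp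
      _ ≤ _ := lintegral_mono this
  have hfin : ∫⁻ t, ∫⁻ w, G (t, w) ∂((sg d).prod (sg d)) ∂μ ≠ ∞ := by
    have : ∫⁻ t, ∫⁻ w, G (t, w) ∂((sg d).prod (sg d)) ∂μ ≤ 1 := by
      calc ∫⁻ t, ∫⁻ w, G (t, w) ∂((sg d).prod (sg d)) ∂μ
          ≤ ∫⁻ _t : ℝ, ∫⁻ _w : S d × S d, 1 ∂((sg d).prod (sg d)) ∂μ := by
            refine lintegral_mono fun t => lintegral_mono fun w => ?_
            simp only [G]; split_ifs <;> simp
        _ = 1 := by simp
    exact ne_top_of_le_ne_top ENNReal.one_ne_top this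
  obtain ⟨t, ht⟩ := exists_lintegral_le hfin
  exact ⟨t, by rw [hf t]; exact hmain.trans ht⟩

theorem cell_low (d : ℕ) (hd : 1 ≤ d) (s : ℝ) (hs : 0 < s) :
    ∃ c : ℝ, 0 < c ∧ ∃ n₀ : ℕ, ∀ n : ℕ, n₀ ≤ n → ∃ (M : ℕ) (L : S d → Fin M), Measurable L ∧
      (∀ l, (n : ℝ) * (sg d (L ⁻¹' {l})).toReal ≤ 1) ∧
      ENNReal.ofReal (c * (n : ℝ) ^ (s / d - 1)) ≤
        ∫⁻ u, ∫⁻ v, (if L u = L v then ENNReal.ofReal (K s u v) else 0) ∂(sg d) ∂(sg d) := by
  haveI := sg_prob d
  obtain ⟨C1, hC1, hball⟩ := ball_bound d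
  obtain ⟨c1, hc1, hlow⟩ := ball_low d
  obtain ⟨C, hC, hgrid⟩ := grid d
  have hd0 : (0 : ℝ) < d := by exact_mod_cast hd
  set a : ℝ := min 1 (1 / C1) with ha
  have ha0 : 0 < a := lt_min one_pos (by positivity)
  have ha1 : a ≤ 1 := min_le_left _ _
  have haC : C1 * a ^ d ≤ 1 := by
    have h1 : a ^ d ≤ a := by
      calc a ^ d ≤ a ^ 1 := pow_le_pow_of_le_one ha0.le ha1 hd
        _ = a := pow_one a
    calc C1 * a ^ d ≤ C1 * (1 / C1) := by gcongr; exact h1.trans (min_le_right _ _)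
      _ = 1 := by field_simp
  set C' : ℝ := max C 1 with hC'
  have hC'1 : 1 ≤ C' := le_max_right _ _
  have hC'0 : 0 < C' := by linarith
  refine ⟨c1 / 2 / (2 * C') ^ d * a ^ ((d : ℝ) - s), by positivity, 1, fun n hn => ?_⟩
  have hn0 : (0 : ℝ) < n := by exact_mod_cast hn
  have hn1 : (1 : ℝ) ≤ n := by exact_mod_cast hn
  set δ : ℝ := a * (n : ℝ) ^ (-(1 / (d : ℝ))) with hδ
  have hδ0 : 0 < δ := by positivity
  have hδ1 : δ ≤ 1 := by
    have : (n : ℝ) ^ (-(1 / (d : ℝ))) ≤ 1 :=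
      Real.rpow_le_one_of_one_le_of_nonpos hn1 (by rw [neg_nonpos]; positivity)
    calc δ ≤ 1 * 1 := by rw [hδ]; gcongr
      _ = 1 := one_mul 1
  have hδd : δ ^ d = a ^ d / n := by
    rw [hδ, mul_pow, ← Real.rpow_natCast ((n : ℝ) ^ (-(1 / (d : ℝ)))) d, ← Real.rpow_mul hn0.le]
    have : -(1 / (d : ℝ)) * d = -1 := by field_simp
    rw [this, Real.rpow_neg_one]
    rfl
  obtain ⟨M, B, hBm, hBd, hBg⟩ := hgrid δ hδ0
  set ρ : ℝ := δ / (2 * C') with hρ
  obtain ⟨t, ht⟩ := cell_aux1 d C c1 δ C' ρ hC (le_max_left _ _) hC'1 hc1 hδ0 hδ1 hρ hlow M B hBm hBg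
  refine ⟨M, B t, hBm.comp (measurable_const.prodMk measurable_id), ?_, ?_⟩
  · intro l
    rcases (B t ⁻¹' {l}).eq_empty_or_nonempty with h | ⟨x, hx⟩
    · rw [h]; simp
    · have hsub : B t ⁻¹' {l} ⊆ Metric.closedBall x δ := by
        intro u hu
        rw [Metric.mem_closedBall]
        refine hBd t u x ?_
        rw [mem_preimage, mem_singleton_iff] at hu hx
        rw [hu, hx]
      have h1 : (sg d (B t ⁻¹' {l})).toReal ≤ C1 * δ ^ d :=
        (ENNReal.toReal_mono (measure_ne_top _ _) (measure_mono hsub)).trans (hball x δ hδ0.le)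
      calc (n : ℝ) * (sg d (B t ⁻¹' {l})).toReal ≤ n * (C1 * δ ^ d) := by gcongr
        _ = C1 * a ^ d := by rw [hδd]; field_simp
        _ ≤ 1 := haC
  · have hδs : 0 < δ ^ (-s) := Real.rpow_pos_of_pos hδ0 _
    have hconst : c1 / 2 / (2 * C') ^ d * a ^ ((d : ℝ) - s) * (n : ℝ) ^ (s / d - 1)
        = δ ^ (-s) * (c1 / 2 * ρ ^ d) := by
      have e1 : δ ^ (-s) * δ ^ d = a ^ ((d : ℝ) - s) * (n : ℝ) ^ (s / d - 1) := by
        rw [← Real.rpow_natCast δ d, ← Real.rpow_add hδ0, hδ, Real.mul_rpow ha0.le (by positivity),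
          ← Real.rpow_mul hn0.le]
        congr 2
        · ring
        · field_simp
          ring
      rw [hρ, div_pow]
      calc c1 / 2 / (2 * C') ^ d * a ^ ((d : ℝ) - s) * (n : ℝ) ^ (s / d - 1)
          = c1 / 2 / (2 * C') ^ d * (a ^ ((d : ℝ) - s) * (n : ℝ) ^ (s / d - 1)) := by ring
        _ = c1 / 2 / (2 * C') ^ d * (δ ^ (-s) * δ ^ d) := by rw [e1]
        _ = _ := by ring
    rw [hconst, ENNReal.ofReal_mul hδs.le]
    calc ENNReal.ofReal (δ ^ (-s)) * ENNReal.ofReal (c1 / 2 * ρ ^ d)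
        ≤ ENNReal.ofReal (δ ^ (-s)) *
          ∫⁻ u, ∫⁻ v, (if B t u = B t v then (1 : ℝ≥0∞) else 0) ∂(sg d) ∂(sg d) := by gcongr
      _ = ∫⁻ u, ∫⁻ v, ENNReal.ofReal (δ ^ (-s)) * (if B t u = B t v then (1 : ℝ≥0∞) else 0)
            ∂(sg d) ∂(sg d) := by
          rw [← lintegral_const_mul' _ _ ENNReal.ofReal_ne_top]
          congr 1
          funext u
          rw [← lintegral_const_mul' _ _ ENNReal.ofReal_ne_top]
      _ ≤ _ := by
          refine lintegral_mono fun u => lintegral_mono_ae ?_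
          have hae : ∀ᵐ v ∂(sg d), v ≠ u := by
            rw [ae_iff]
            simpa using no_atom d hd u
          filter_upwards [hae] with v hv
          by_cases h : B t u = B t v
          · rw [if_pos h, if_pos h, mul_one]
            refine ENNReal.ofReal_le_ofReal ?_
            have h0 : 0 < dist u v := dist_pos.2 (Ne.symm hv)
            exact Real.rpow_le_rpow_of_nonpos h0 (hBd t u v h) (by linarith)
          · rw [if_neg h, if_neg h, mul_zero]

end Pool.Agent.Helper88.SE
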