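import Pool.Agent.Helper88.SE.Defs

set_option autoImplicit false

open MeasureTheory Set Filter Topology
open scoped ENNReal

namespace Pool.Agent.Helper88.SE



theorem star_alg (n D I f C P : ℝ) (hn : 2 ≤ n) (hD : 0 ≤ D) (hI : 0 < I) (hC : 0 < C)
    (hP : 0 ≤ P) (hf : -(C * n * P) ≤ f) (hf0 : f ≤ 0) (hsmall : 4 * C * P ≤ I * n) :
    f - (8 * C ^ 2 / I) * P ^ 2 ≤
      ((n + D) * (n + D - 1) / (n * (n - 1))) * (n ^ 2 * I + f) - 2 * n * I * (n + D) + n ^ 2 * I := by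
  have hn1 : 0 < n - 1 := by linarith
  have hn0 : 0 < n := by linarith
  set Q : ℝ := (2 * n - 1 + D) / (n - 1) with hQ
  have hQ0 : 0 ≤ Q := by
    rw [hQ]; apply div_nonneg <;> linarith
  have key : ((n + D) * (n + D - 1) / (n * (n - 1))) * (n ^ 2 * I + f) - 2 * n * I * (n + D)
      + n ^ 2 * I = f + n * I * D * (1 + D) / (n - 1) + (f / n) * (D * Q) := by
    rw [hQ]
    field_simp
    ring
  rw [key]
  have h1 : I * D ^ 2 ≤ n * I * D * (1 + D) / (n - 1) := by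
    rw [le_div_iff₀ hn1]
    have : 0 ≤ n * I * D + I * D ^ 2 := by positivity
    nlinarith
  have h2 : Q ≤ 3 + 2 * D / n := by
    rw [hQ, div_le_iff₀ hn1]
    have e : (3 + 2 * D / n) * (n - 1) = 3 * n - 3 + 2 * D - 2 * D / n := by
      field_simp
      ring
    rw [e]
    have h3 : 2 * D / n ≤ D := by
      rw [div_le_iff₀ hn0]; nlinarith
    linarith
  have h3 : -(C * P) ≤ f / n := by
    rw [le_div_iff₀ hn0]; nlinarith
  have h4 : -(C * P) * (D * Q) ≤ (f / n) * (D * Q) :=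
    mul_le_mul_of_nonneg_right h3 (mul_nonneg hD hQ0)
  have h5 : C * P * (D * Q) ≤ C * P * (D * (3 + 2 * D / n)) :=
    mul_le_mul_of_nonneg_left (mul_le_mul_of_nonneg_left h2 hD) (by positivity)
  have h6 : C * P * (D * (2 * D / n)) ≤ I / 2 * D ^ 2 := by
    have e : C * P * (D * (2 * D / n)) = (2 * C * P / n) * D ^ 2 := by
      field_simp
    rw [e]
    apply mul_le_mul_of_nonneg_right _ (sq_nonneg D)
    rw [div_le_iff₀ hn0]
    linarith
  have h7 : 3 * (C * P * D) ≤ I / 2 * D ^ 2 + 8 * C ^ 2 / I * P ^ 2 := by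
    have e : I / 2 * D ^ 2 + 8 * C ^ 2 / I * P ^ 2 - 3 * (C * P * D) =
        ((I * D - 3 * (C * P)) ^ 2 / 2 + 7 / 2 * (C * P) ^ 2) / I := by
      field_simp
      ring
    have : 0 ≤ ((I * D - 3 * (C * P)) ^ 2 / 2 + 7 / 2 * (C * P) ^ 2) / I := by positivity
    linarith
  have h8 : C * P * (D * (3 + 2 * D / n)) = 3 * (C * P * D) + C * P * (D * (2 * D / n)) := by ring
  linarith

end Pool.Agent.Helper88.SE
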