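import Pool.Agent.Helper88.SE.Defs
import Pool.Agent.Helper88.SE.P_Em_basic
import Pool.Agent.Helper88.SE.P_Em_upper
import Pool.Agent.Helper88.SE.P_Em_ratio
import Pool.Agent.Helper88.SE.P_F_upper
import Pool.Agent.Helper88.SE.P_F_lower
import Pool.Agent.Helper88.SE.P_star_alg

set_option autoImplicit false

open MeasureTheory Set Filter Topology
open scoped ENNReal

namespace Pool.Agent.Helper88.SE



theorem star (d : ℕ) (hd : 1 ≤ d) (s : ℝ) (hs : 0 < s) (hsd : s < d) :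
    ∃ (C : ℝ) (n₀ : ℕ), 0 < C ∧ 2 ≤ n₀ ∧ ∀ n : ℕ, n₀ ≤ n → ∀ (M : ℕ) (y : Fin M → S d),
      Function.Injective y →
      F d s n - C * (n : ℝ) ^ (2 * s / d) ≤
        En s y - 2 * n * Ic d s * M + (n : ℝ) ^ 2 * Ic d s := by
  obtain ⟨C, hC, hF⟩ := F_lower d hd s hs hsd
  have hI : 0 < Ic d s := (F_upper d hd s hs hsd 0).2
  have hd0 : (0 : ℝ) < d := by exact_mod_cast hd
  have hsd1 : s / d < 1 := (div_lt_one hd0).2 hsd
  have hev : ∀ᶠ n : ℕ in atTop, 4 * C / Ic d s ≤ (n : ℝ) ^ (1 - s / d) :=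
    ((tendsto_rpow_atTop (by linarith : 0 < 1 - s / d)).comp
      tendsto_natCast_atTop_atTop).eventually_ge_atTop _
  obtain ⟨n₁, hn₁⟩ := eventually_atTop.1 hev
  refine ⟨8 * C ^ 2 / Ic d s, max n₁ 2, by positivity, le_max_right _ _, ?_⟩
  intro n hn M y hy
  have hn1 : n₁ ≤ n := (le_max_left _ _).trans hn
  have hn2 : 2 ≤ n := (le_max_right _ _).trans hn
  have hnR : (2 : ℝ) ≤ n := by exact_mod_cast hn2
  have hn0 : (0 : ℝ) < n := by linarith
  have hEn : Em d s M ≤ En s y := (Em_basic d hd s hs M).2.1 y hy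
  have hFn : F d s n = Em d s n - (n : ℝ) ^ 2 * Ic d s := rfl
  rcases le_or_gt M n with h | h
  · have h1 := Em_upper d hd s hs hsd M n h
    have h2 : 0 ≤ 8 * C ^ 2 / Ic d s * (n : ℝ) ^ (2 * s / d) := by positivity
    have hMn : (M : ℝ) ≤ n := by exact_mod_cast h
    have h3 : 0 ≤ Ic d s * (((n : ℝ) - M) ^ 2 + ((n : ℝ) - M)) := by
      refine mul_nonneg hI.le (add_nonneg (sq_nonneg _) (by linarith))
    nlinarith
  · have h1 := Em_ratio d hd s hs n M hn2 h.le
    have hMn : (n : ℝ) < M := by exact_mod_cast h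
    have hP : (0 : ℝ) ≤ (n : ℝ) ^ (s / d) := by positivity
    have hPn : (n : ℝ) ^ (1 + s / d) = n * (n : ℝ) ^ (s / d) := by
      rw [Real.rpow_add hn0, Real.rpow_one]
    have hP2 : (n : ℝ) ^ (2 * s / d) = ((n : ℝ) ^ (s / d)) ^ 2 := by
      rw [← Real.rpow_natCast, ← Real.rpow_mul hn0.le]
      congr 1
      push_cast
      ring
    have hPQ : (n : ℝ) ^ (s / d) * (n : ℝ) ^ (1 - s / d) = n := by
      rw [← Real.rpow_add hn0]
      have : s / d + (1 - s / d) = 1 := by ring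
      rw [this, Real.rpow_one]
    have hf := (hF n (by omega)).2
    rw [hPn] at hf
    have hsmall : 4 * C * (n : ℝ) ^ (s / d) ≤ Ic d s * n := by
      have h4 := hn₁ n hn1
      rw [div_le_iff₀ hI] at h4
      have h5 := mul_le_mul_of_nonneg_right h4 hP
      calc 4 * C * (n : ℝ) ^ (s / d) ≤ (n : ℝ) ^ (1 - s / d) * Ic d s * (n : ℝ) ^ (s / d) := h5
        _ = Ic d s * ((n : ℝ) ^ (s / d) * (n : ℝ) ^ (1 - s / d)) := by ring
        _ = Ic d s * n := by rw [hPQ]
    have h6 := star_alg n (M - n) (Ic d s) (F d s n) C ((n : ℝ) ^ (s / d)) hnR (by linarith) hI hC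
      hP (by linarith) (F_upper d hd s hs hsd n).1 hsmall
    have h7 : (n : ℝ) + (M - n) = M := by ring
    have h8 : (n : ℝ) ^ 2 * Ic d s + F d s n = Em d s n := by rw [hFn]; ring
    rw [h7, h8] at h6
    have h9 : (M : ℝ) * (M - 1) / (n * (n - 1)) * Em d s n ≤ Em d s M := by
      have hpos : (0 : ℝ) < n * (n - 1) := mul_pos hn0 (by linarith)
      rw [div_mul_eq_mul_div, div_le_iff₀ hpos]
      linarith
    rw [hP2]
    nlinarith

end Pool.Agent.Helper88.SE
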