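import Pool.Agent.Helper88.SE.Defs
import Pool.Agent.Helper88.SE.P_F_upper
import Pool.Agent.Helper88.SE.P_star
import Pool.Agent.Helper88.SE.P_cell_bound
import Pool.Agent.Helper88.SE.P_cell_low

set_option autoImplicit false

open MeasureTheory Set Filter Topology
open scoped ENNReal

namespace Pool.Agent.Helper88.SE



theorem F_neg (d : ℕ) (hd : 1 ≤ d) (s : ℝ) (hs : 0 < s) (hsd : s < d) :
    ∃ (c : ℝ) (n₀ : ℕ), 0 < c ∧ ∀ n : ℕ, n₀ ≤ n → F d s n ≤ -(c * (n : ℝ) ^ (1 + s / d)) := by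
  obtain ⟨C, n1, hC, hn1, hstar⟩ := star d hd s hs hsd
  obtain ⟨c, hc, n2, hlow⟩ := cell_low d hd s hs
  have hd0 : (0 : ℝ) < d := by exact_mod_cast (by omega : 0 < d)
  have hy : 0 < 1 - s / d := by
    rw [sub_pos, div_lt_one hd0]; exact hsd
  have ht : Tendsto (fun n : ℕ => (n : ℝ) ^ (1 - s / d)) atTop atTop :=
    (tendsto_rpow_atTop hy).comp tendsto_natCast_atTop_atTop
  obtain ⟨n3, hn3⟩ := (ht.eventually_ge_atTop (2 * C / c)).exists_forall_of_atTop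
  refine ⟨c / 2, max (max n1 n2) n3, by positivity, ?_⟩
  intro n hn
  have h1 : n1 ≤ n := le_trans (le_trans (le_max_left _ _) (le_max_left _ _)) hn
  have h2 : n2 ≤ n := le_trans (le_trans (le_max_right _ _) (le_max_left _ _)) hn
  have h3 : n3 ≤ n := le_trans (le_max_right _ _) hn
  have hn0 : (0 : ℝ) < n := by exact_mod_cast (by omega : 0 < n)
  have hF := (F_upper d hd s hs hsd n).1
  have hP : 0 < C * (n : ℝ) ^ (2 * s / d) := mul_pos hC (Real.rpow_pos_of_pos hn0 _)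
  have hm0 : F d s n - C * (n : ℝ) ^ (2 * s / d) ≤ 0 := by linarith
  obtain ⟨M, L, hL, hcell, hle⟩ := hlow n h2
  have hb := cell_bound d hd s hs hsd n _ hm0 (hstar n h1) L hL hcell
  have e1 : (n : ℝ≥0∞) ^ 2 * ENNReal.ofReal (c * (n : ℝ) ^ (s / d - 1)) ≤
      ENNReal.ofReal (-(F d s n - C * (n : ℝ) ^ (2 * s / d))) :=
    (mul_le_mul_right hle _).trans hb
  have e2 : (n : ℝ≥0∞) ^ 2 = ENNReal.ofReal ((n : ℝ) ^ 2) := by
    rw [ENNReal.ofReal_pow hn0.le, ENNReal.ofReal_natCast]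
  rw [e2, ← ENNReal.ofReal_mul (by positivity), ENNReal.ofReal_le_ofReal_iff (by linarith)] at e1
  have e3 : (n : ℝ) ^ 2 * (c * (n : ℝ) ^ (s / d - 1)) = c * (n : ℝ) ^ (1 + s / d) := by
    have : (n : ℝ) ^ 2 = (n : ℝ) ^ (2 : ℝ) := by norm_cast
    rw [this]
    rw [show (n : ℝ) ^ (2 : ℝ) * (c * (n : ℝ) ^ (s / d - 1)) =
      c * ((n : ℝ) ^ (2 : ℝ) * (n : ℝ) ^ (s / d - 1)) by ring, ← Real.rpow_add hn0]
    congr 2
    ring
  rw [e3] at e1
  have e4 : (n : ℝ) ^ (1 + s / d) = (n : ℝ) ^ (2 * s / d) * (n : ℝ) ^ (1 - s / d) := by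
    rw [← Real.rpow_add hn0]
    congr 1
    ring
  have e5 : C * (n : ℝ) ^ (2 * s / d) ≤ c / 2 * (n : ℝ) ^ (1 + s / d) := by
    rw [e4]
    have h5 := hn3 n h3
    have h6 : C ≤ c / 2 * (n : ℝ) ^ (1 - s / d) := by
      rw [div_le_iff₀ hc] at h5
      linarith
    have h7 := mul_le_mul_of_nonneg_right h6 (Real.rpow_pos_of_pos hn0 (2 * s / d)).le
    linarith
  linarith

end Pool.Agent.Helper88.SE
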