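import Pool.Agent.Helper88.SE.Defs
import Pool.Agent.Helper88.SE.P_IU_formula

set_option autoImplicit false

open MeasureTheory Set Filter Topology
open scoped ENNReal

namespace Pool.Agent.Helper88.SE



theorem IU_mono_int (a b : ℝ) (ha : 0 ≤ a) (hb : 0 ≤ b) :
    IntervalIntegrable (fun v : ℝ => (1 - Real.exp (-v)) / v) volume a b := by
  have hm : Measurable (fun v : ℝ => (1 - Real.exp (-v)) / v) := by fun_prop
  refine (intervalIntegrable_const (c := (1 : ℝ))).mono_fun hm.aestronglyMeasurable ?_
  refine (ae_restrict_iff' measurableSet_uIoc).2 (Filter.Eventually.of_forall fun v hv => ?_)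
  have hv0 : 0 < v := by
    rcases le_total a b with h | h
    · rw [Set.uIoc_of_le h] at hv
      exact ha.trans_lt hv.1
    · rw [Set.uIoc_of_ge h] at hv
      exact hb.trans_lt hv.1
  have h1 : 1 - Real.exp (-v) ≤ v := by
    have := Real.add_one_le_exp (-v)
    linarith
  have h2 : 0 ≤ 1 - Real.exp (-v) := by
    have : Real.exp (-v) ≤ 1 := Real.exp_le_one_iff.2 (by linarith)
    linarith
  show ‖(1 - Real.exp (-v)) / v‖ ≤ ‖(1 : ℝ)‖
  rw [Real.norm_eq_abs, abs_of_nonneg (div_nonneg h2 hv0.le), norm_one, div_le_one hv0]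
  exact h1

theorem IU_mono_eq (mu : ℝ) (hmu : 0 < mu) :
    IU mu = 1 / 2 * ∫ v in (0 : ℝ)..(2 * mu), (1 - Real.exp (-v)) / v := by
  rw [(IU_formula mu hmu.le).2.2]
  have h1 : ∀ t : ℝ, (1 - Real.exp (-(mu * t))) / (2 * t) =
      mu / 2 * ((fun v : ℝ => (1 - Real.exp (-v)) / v) (mu * t)) := by
    intro t
    rcases eq_or_ne t 0 with h | h
    · rw [h]; simp
    · beta_reduce
      field_simp
  simp_rw [h1]
  rw [intervalIntegral.integral_const_mul]
  have h2 := intervalIntegral.integral_comp_mul_left (a := 0) (b := 2)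
    (fun v : ℝ => (1 - Real.exp (-v)) / v) hmu.ne'
  rw [h2, mul_zero, smul_eq_mul, ← mul_assoc, mul_comm mu 2]
  congr 1
  field_simp

theorem IU_mono (lam mu : ℝ) (hlam : 0 < lam) (h : lam ≤ mu) :
    IU lam ≤ IU mu ∧ IU mu ≤ IU lam + 1 / 2 * Real.log (mu / lam) := by
  have hmu : 0 < mu := hlam.trans_le h
  rw [IU_mono_eq lam hlam, IU_mono_eq mu hmu]
  have hadd := intervalIntegral.integral_add_adjacent_intervals
    (IU_mono_int 0 (2 * lam) le_rfl (by linarith))
    (IU_mono_int (2 * lam) (2 * mu) (by linarith) (by linarith))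
  rw [← hadd]
  have hle : 2 * lam ≤ 2 * mu := by linarith
  have hnn : 0 ≤ ∫ v in (2 * lam)..(2 * mu), (1 - Real.exp (-v)) / v := by
    refine intervalIntegral.integral_nonneg hle ?_
    intro v hv
    have hv0 : 0 < v := by linarith [hv.1]
    have : Real.exp (-v) ≤ 1 := Real.exp_le_one_iff.2 (by linarith)
    exact div_nonneg (by linarith) hv0.le
  have hup : (∫ v in (2 * lam)..(2 * mu), (1 - Real.exp (-v)) / v) ≤ Real.log (mu / lam) := by
    have h0 : (0 : ℝ) ∉ Set.uIcc (2 * lam) (2 * mu) := by
      rw [Set.uIcc_of_le hle]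
      intro h
      linarith [h.1]
    have h3 : (∫ v in (2 * lam)..(2 * mu), (1 - Real.exp (-v)) / v) ≤
        ∫ v in (2 * lam)..(2 * mu), 1 / v := by
      refine intervalIntegral.integral_mono_on hle
        (IU_mono_int (2 * lam) (2 * mu) (by linarith) (by linarith)) ?_ ?_
      · refine intervalIntegral.intervalIntegrable_one_div (fun x hx => ?_) continuousOn_id
        intro h
        exact h0 (h ▸ hx)
      · intro v hv
        have hv0 : 0 < v := by linarith [hv.1]
        have := Real.exp_pos (-v)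
        exact div_le_div_of_nonneg_right (by linarith) hv0.le
    refine h3.trans (le_of_eq ?_)
    rw [integral_one_div h0]
    congr 1
    field_simp
  constructor
  · linarith
  · linarith

end Pool.Agent.Helper88.SE
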