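import Pool.Agent.Helper88.SE.Defs
import Pool.Agent.Helper88.SE.P_FL_tot

set_option autoImplicit false

open MeasureTheory Set Filter Topology
open scoped ENNReal

namespace Pool.Agent.Helper88.SE



private theorem j24302_real (D δ q κ s : ℝ) (k : ℕ) (hq : 0 < q) (hδ : 0 < δ) (hD : q * δ ≤ D)
    (hD2 : D ≤ 2) (hκ : 0 < κ) (hκ2 : κ ≤ 1 / 2) (hs : 0 < s) :
    D ^ (-s) * (1 - κ * D) ^ k ≤ q ^ (-s) * (δ ^ (-s) * Real.exp (-(κ * k * q * δ))) := by
  have hqδ : 0 < q * δ := mul_pos hq hδ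
  have h1 : D ^ (-s) ≤ q ^ (-s) * δ ^ (-s) := by
    rw [← Real.mul_rpow hq.le hδ.le]
    exact Real.rpow_le_rpow_of_nonpos hqδ hD (by linarith)
  have h0 : 0 ≤ 1 - κ * D := by nlinarith
  have h2 : (1 - κ * D) ^ k ≤ Real.exp (-(κ * k * q * δ)) := by
    have h3 : 1 - κ * D ≤ Real.exp (-(κ * D)) := Real.one_sub_le_exp_neg _
    have h4 : (1 - κ * D) ^ k ≤ Real.exp (-(κ * D)) ^ k := pow_le_pow_left₀ h0 h3 k
    rw [← Real.exp_nat_mul] at h4
    refine h4.trans ?_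
    apply Real.exp_le_exp.2
    have h5 : 0 ≤ κ * k := by positivity
    have h6 : κ * k * (q * δ) ≤ κ * k * D := mul_le_mul_of_nonneg_left hD h5
    nlinarith
  have h3 : 0 ≤ (1 - κ * D) ^ k := pow_nonneg h0 k
  have h4 : 0 ≤ q ^ (-s) * δ ^ (-s) := by positivity
  calc D ^ (-s) * (1 - κ * D) ^ k ≤ (q ^ (-s) * δ ^ (-s)) * Real.exp (-(κ * k * q * δ)) :=
        mul_le_mul h1 h2 h3 h4
    _ = q ^ (-s) * (δ ^ (-s) * Real.exp (-(κ * k * q * δ))) := by ring

private theorem j24302_dist {d : ℕ} (x y : S d) : dist x y ≤ 2 := by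
  have h1 : dist x y = ‖(x : E d) - (y : E d)‖ := by
    rw [Subtype.dist_eq, dist_eq_norm]
  have hx : ‖(x : E d)‖ = 1 := mem_sphere_zero_iff_norm.1 x.2
  have hy : ‖(y : E d)‖ = 1 := mem_sphere_zero_iff_norm.1 y.2
  rw [h1]
  have := norm_sub_le (x : E d) (y : E d)
  linarith

theorem intra (d : ℕ) (s : ℝ) (hs : 0 < s) (n N : ℕ) (hN : 1 ≤ N) (x : Fin N → S d)
    (hx : Function.Injective x) (r ρ : ℝ) (hr : 0 < r) (hρ : 0 < ρ)
    {M : ℕ} (L : S d → Fin M) (hL : Measurable L)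
    {Ω : Type} [MeasurableSpace Ω] (P : Measure Ω) [IsProbabilityMeasure P]
    (Y : Fin M → Fin N → Ω → S d) (Θ : Fin M → Fin N → Ω → ℝ) (hE : Ens n N L P Y Θ)
    (hexp : ∀ l i j ω, 0 < Θ l i ω → 0 < Θ l j ω →
        r / (1 + ρ ^ 2) * dist (x i) (x j) ≤ dist (Y l i ω) (Y l j ω))
    (κ : ℝ) (hκ : 0 < κ) (hκ2 : κ ≤ 1 / 2) (k : ℕ) :
    ∑ l, ∑ i, ∑ j, ∫⁻ ω, ENNReal.ofReal (Θ l i ω * Θ l j ω *
        (K s (Y l i ω) (Y l j ω) * (1 - κ * dist (Y l i ω) (Y l j ω)) ^ k)) ∂P ≤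
      ENNReal.ofReal (((n : ℝ) / N) * (r / (1 + ρ ^ 2)) ^ (-s) *
        EL s (κ * k * r / (1 + ρ ^ 2)) x) := by
  obtain ⟨q, hq⟩ : ∃ q, q = r / (1 + ρ ^ 2) := ⟨_, rfl⟩
  have hq0 : 0 < q := by
    rw [hq]
    positivity
  have hlam : κ * k * r / (1 + ρ ^ 2) = κ * k * q := by
    rw [hq]
    ring
  rw [hlam, ← hq]
  rw [← hq] at hexp
  have hKL0 : ∀ i j, 0 ≤ q ^ (-s) * KL s (κ * k * q) (x i) (x j) := by
    intro i j
    unfold KL
    positivity
  -- pointwise bound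
  have hpt : ∀ l i j ω, Θ l i ω * Θ l j ω *
      (K s (Y l i ω) (Y l j ω) * (1 - κ * dist (Y l i ω) (Y l j ω)) ^ k) ≤
      Θ l i ω * (q ^ (-s) * KL s (κ * k * q) (x i) (x j)) := by
    intro l i j ω
    have hi0 := hE.nonneg l i ω
    have hj0 := hE.nonneg l j ω
    have hj1 := hE.le_one l j ω
    have hR : 0 ≤ Θ l i ω * (q ^ (-s) * KL s (κ * k * q) (x i) (x j)) :=
      mul_nonneg hi0 (hKL0 i j)
    rcases hi0.eq_or_lt with hi | hi
    · rw [← hi, zero_mul, zero_mul, zero_mul]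
    rcases hj0.eq_or_lt with hj | hj
    · rw [← hj, mul_zero, zero_mul]
      exact hR
    by_cases hij : i = j
    · subst hij
      have h0 : K s (Y l i ω) (Y l i ω) = 0 := by
        unfold K
        rw [dist_self, Real.zero_rpow (by linarith)]
      rw [h0, zero_mul, mul_zero]
      exact hR
    · have hδ : 0 < dist (x i) (x j) := dist_pos.2 (fun h => hij (hx h))
      have h1 := j24302_real (dist (Y l i ω) (Y l j ω)) (dist (x i) (x j)) q κ s k hq0 hδ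
        (hexp l i j ω hi hj) (j24302_dist _ _) hκ hκ2 hs
      rw [mul_assoc]
      apply mul_le_mul_of_nonneg_left _ hi.le
      have h3 : 0 ≤ 1 - κ * dist (Y l i ω) (Y l j ω) := by
        have := j24302_dist (Y l i ω) (Y l j ω)
        nlinarith
      have h2 : 0 ≤ K s (Y l i ω) (Y l j ω) * (1 - κ * dist (Y l i ω) (Y l j ω)) ^ k := by
        unfold K
        exact mul_nonneg (Real.rpow_nonneg dist_nonneg _) (pow_nonneg h3 k)
      calc Θ l j ω * (K s (Y l i ω) (Y l j ω) * (1 - κ * dist (Y l i ω) (Y l j ω)) ^ k)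
          ≤ 1 * (K s (Y l i ω) (Y l j ω) * (1 - κ * dist (Y l i ω) (Y l j ω)) ^ k) :=
            mul_le_mul_of_nonneg_right hj1 h2
        _ ≤ q ^ (-s) * KL s (κ * k * q) (x i) (x j) := by
            rw [one_mul]
            exact h1
  have hint : ∀ l i j, ∫⁻ ω, ENNReal.ofReal (Θ l i ω * Θ l j ω *
        (K s (Y l i ω) (Y l j ω) * (1 - κ * dist (Y l i ω) (Y l j ω)) ^ k)) ∂P ≤
      (∫⁻ ω, ENNReal.ofReal (Θ l i ω) ∂P) *
        ENNReal.ofReal (q ^ (-s) * KL s (κ * k * q) (x i) (x j)) := by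
    intro l i j
    rw [← lintegral_mul_const' _ _ ENNReal.ofReal_ne_top]
    apply lintegral_mono
    intro ω
    show ENNReal.ofReal _ ≤ ENNReal.ofReal _ * ENNReal.ofReal _
    rw [← ENNReal.ofReal_mul (hE.nonneg l i ω)]
    exact ENNReal.ofReal_le_ofReal (hpt l i j ω)
  have hNpos : (0 : ℝ) < N := by exact_mod_cast hN
  have hmass : ∀ i, ∑ l, ∫⁻ ω, ENNReal.ofReal (Θ l i ω) ∂P = ENNReal.ofReal ((n : ℝ) / N) := by
    intro i
    have h1 := (FL_tot d n N hN L hL P Y Θ hE).1 i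
    rw [ENNReal.ofReal_div_of_pos hNpos, ENNReal.ofReal_natCast, ENNReal.ofReal_natCast,
      ENNReal.eq_div_iff (by
        rw [Ne, Nat.cast_eq_zero]
        omega) (ENNReal.natCast_ne_top N)]
    exact h1
  calc ∑ l, ∑ i, ∑ j, ∫⁻ ω, ENNReal.ofReal (Θ l i ω * Θ l j ω *
        (K s (Y l i ω) (Y l j ω) * (1 - κ * dist (Y l i ω) (Y l j ω)) ^ k)) ∂P
      ≤ ∑ l, ∑ i, ∑ j, (∫⁻ ω, ENNReal.ofReal (Θ l i ω) ∂P) *
        ENNReal.ofReal (q ^ (-s) * KL s (κ * k * q) (x i) (x j)) :=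
        Finset.sum_le_sum fun l _ => Finset.sum_le_sum fun i _ =>
          Finset.sum_le_sum fun j _ => hint l i j
    _ = ∑ i, ∑ j, ENNReal.ofReal (((n : ℝ) / N) * (q ^ (-s) * KL s (κ * k * q) (x i) (x j))) := by
        rw [Finset.sum_comm]
        refine Finset.sum_congr rfl fun i _ => ?_
        rw [Finset.sum_comm]
        refine Finset.sum_congr rfl fun j _ => ?_
        rw [← Finset.sum_mul, hmass i, ← ENNReal.ofReal_mul (by positivity)]
    _ = ENNReal.ofReal (∑ i, ∑ j, ((n : ℝ) / N) * (q ^ (-s) * KL s (κ * k * q) (x i) (x j))) := by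
        rw [ENNReal.ofReal_sum_of_nonneg]
        · refine Finset.sum_congr rfl fun i _ => ?_
          rw [ENNReal.ofReal_sum_of_nonneg]
          intro j _
          exact mul_nonneg (by positivity) (hKL0 i j)
        · intro i _
          exact Finset.sum_nonneg fun j _ => mul_nonneg (by positivity) (hKL0 i j)
    _ ≤ ENNReal.ofReal (((n : ℝ) / N) * q ^ (-s) * EL s (κ * k * q) x) := by
        apply le_of_eq
        congr 1
        unfold EL
        simp only [Finset.mul_sum]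
        refine Finset.sum_congr rfl fun i _ => Finset.sum_congr rfl fun j _ => ?_
        ring

end Pool.Agent.Helper88.SE
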