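import Pool.Agent.Helper88.SE.Defs
import Pool.Agent.Helper88.SE.P_Ens_chart
import Pool.Agent.Helper88.SE.P_intra
import Pool.Agent.Helper88.SE.P_FLavg2

set_option autoImplicit false

open MeasureTheory Set Filter Topology
open scoped ENNReal

namespace Pool.Agent.Helper88.SE



theorem TRt2 (d : ℕ) (s : ℝ) (hs : 0 < s) (n N : ℕ) (hN : 1 ≤ N) (m₀ c₁ : ℝ) (hc : 0 ≤ c₁)
    (hstar : ∀ (M : ℕ) (y : Fin M → S d), Function.Injective y → m₀ ≤ En s y - c₁ * M + c₁ * n)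
    (x : Fin N → S d) (hx : Function.Injective x) (r ρ : ℝ) (hr : 0 < r) (hr1 : r ≤ 1)
    (hρ : 0 < ρ) (hρ1 : ρ ≤ 1)
    (hrel : (N : ℝ) * ((1 + ρ ^ 2) ^ (-(((d : ℝ) + 1) / 2)) * r ^ (-(d : ℝ))) = n)
    {M : ℕ} (L : S d → Fin M) (hL : Measurable L)
    (hdiam : ∀ u v, L u = L v → dist u v ≤ r * ρ / 2)
    (κ : ℝ) (hκ : 0 < κ) (hκ2 : κ ≤ 1 / 2) (k : ℕ)
    (Ω' : Type) [MeasurableSpace Ω'] (P' : Measure Ω') [IsProbabilityMeasure P']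
    (A : Ω' → S d → (Fin k → Bool)) (hA : Measurable (fun p : Ω' × S d => A p.1 p.2))
    (hp : ∀ u v : S d, ∫⁻ ω, (if A ω u = A ω v then (1 : ℝ≥0∞) else 0) ∂P' =
        ENNReal.ofReal ((1 - κ * dist u v) ^ k)) :
    ENNReal.ofReal m₀ ≤
      ENNReal.ofReal (((n : ℝ) / N) * (r / (1 + ρ ^ 2)) ^ (-s) *
        EL s (κ * k * r / (1 + ρ ^ 2)) x) +
      (n : ℝ≥0∞) ^ 2 * ∫⁻ u, ∫⁻ v, (if L u = L v then
        ENNReal.ofReal (K s u v * (1 - (1 - κ * dist u v) ^ k)) else ENNReal.ofReal (K s u v))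
        ∂(sg d) ∂(sg d) := by
  obtain ⟨Ω, mΩ, P, Y, Θ, hP, hE, hexp⟩ :=
    Ens_chart d n N hN x hx r ρ hr hr1 hρ hρ1 hrel L hL hdiam
  have h1 := FLavg2 d s hs n N hN m₀ c₁ hc hstar L hL P Y Θ hE κ hκ hκ2 Ω' P' A hA hp
  have h2 := intra d s hs n N hN x hx r ρ hr hρ L hL P Y Θ hE hexp κ hκ hκ2 k
  exact h1.trans (add_le_add h2 le_rfl)

end Pool.Agent.Helper88.SE
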