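import Pool.Agent.Helper88.SE.Defs
import Pool.Agent.Helper88.SE.P_sg_prob
import Pool.Agent.Helper88.SE.P_hyp
import Pool.Agent.Helper88.SE.P_grid
import Pool.Agent.Helper88.SE.P_K_meas
import Pool.Agent.Helper88.SE.P_TRt2

set_option autoImplicit false

open MeasureTheory Set Filter Topology
open scoped ENNReal

namespace Pool.Agent.Helper88.SE



theorem TRavg2 (d : ℕ) (s : ℝ) (hs : 0 < s) :
    ∃ κ C₂ : ℝ, 0 < κ ∧ κ ≤ 1 / 2 ∧ 0 < C₂ ∧ ∀ (n N : ℕ), 1 ≤ N → ∀ (m₀ c₁ : ℝ), 0 ≤ c₁ →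
    (∀ (M : ℕ) (y : Fin M → S d), Function.Injective y → m₀ ≤ En s y - c₁ * M + c₁ * n) →
    ∀ (x : Fin N → S d), Function.Injective x → ∀ (r ρ : ℝ), 0 < r → r ≤ 1 → 0 < ρ → ρ ≤ 1 →
    (N : ℝ) * ((1 + ρ ^ 2) ^ (-(((d : ℝ) + 1) / 2)) * r ^ (-(d : ℝ))) = n →
    ∀ k : ℕ,
    ENNReal.ofReal m₀ ≤
      ENNReal.ofReal (((n : ℝ) / N) * (r / (1 + ρ ^ 2)) ^ (-s) *
        EL s (κ * k * r / (1 + ρ ^ 2)) x) +
      (n : ℝ≥0∞) ^ 2 * ∫⁻ u : S d, ∫⁻ v : S d,
        ENNReal.ofReal (K s u v * (1 - (1 - κ * dist u v) ^ k)) ∂(sg d) ∂(sg d) +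
      (n : ℝ≥0∞) ^ 2 * ∫⁻ u : S d, ∫⁻ v : S d,
        ENNReal.ofReal (K s u v * (1 - κ * dist u v) ^ k * (C₂ * dist u v / (r * ρ)))
          ∂(sg d) ∂(sg d) := by
  obtain ⟨κ, hκ, hκ2, hyp'⟩ := hyp d
  obtain ⟨C, hC, hgrid⟩ := grid d
  refine ⟨κ, 2 * C, hκ, hκ2, by positivity, ?_⟩
  intro n N hN m₀ c₁ hc₁ hstar x hx r ρ hr hr1 hρ hρ1 hrel k
  have hprob := sg_prob d
  obtain ⟨Ω', mΩ, P', A, hP, hA, hp⟩ := hyp' k
  obtain ⟨M, B, hB, hdiam, hBi⟩ := hgrid (r * ρ / 2) (by positivity)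
  obtain ⟨R, hR⟩ : ∃ R : ℝ≥0∞, R = ENNReal.ofReal (((n : ℝ) / N) * (r / (1 + ρ ^ 2)) ^ (-s) *
        EL s (κ * k * r / (1 + ρ ^ 2)) x) := ⟨_, rfl⟩
  rw [← hR]
  have hTR : ∀ t : ℝ, ENNReal.ofReal m₀ ≤ R + (n : ℝ≥0∞) ^ 2 * ∫⁻ u, ∫⁻ v, (if B t u = B t v then
        ENNReal.ofReal (K s u v * (1 - (1 - κ * dist u v) ^ k)) else ENNReal.ofReal (K s u v))
        ∂(sg d) ∂(sg d) := by
    intro t
    rw [hR]
    have hBt : Measurable (B t) := hB.comp (measurable_const.prodMk measurable_id)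
    exact TRt2 d s hs n N hN m₀ c₁ hc₁ hstar x hx r ρ hr hr1 hρ hρ1 hrel (B t) hBt
      (fun u v => hdiam t u v) κ hκ hκ2 k Ω' P' A hA hp
  have hdist2 : ∀ u v : S d, dist u v ≤ 2 := by
    intro u v
    have h1 : dist (u : E d) (v : E d) ≤ dist (u : E d) 0 + dist 0 (v : E d) := dist_triangle _ _ _
    have h2 : dist (u : E d) 0 = 1 := u.2
    have h3 : dist (v : E d) 0 = 1 := v.2
    rw [dist_comm (0 : E d), h2, h3] at h1
    have h4 : dist u v = dist (u : E d) (v : E d) := rfl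
    rw [h4]
    linarith
  have hK0 : ∀ u v : S d, 0 ≤ K s u v := by
    intro u v
    unfold K
    exact Real.rpow_nonneg dist_nonneg _
  have hp0 : ∀ u v : S d, 0 ≤ (1 - κ * dist u v) ^ k := by
    intro u v
    apply pow_nonneg
    have h1 := hdist2 u v
    have h2 : κ * dist u v ≤ 1 / 2 * 2 := mul_le_mul hκ2 h1 dist_nonneg (by norm_num)
    linarith
  have hp1 : ∀ u v : S d, (1 - κ * dist u v) ^ k ≤ 1 := by
    intro u v
    apply pow_le_one₀
    · have h1 := hdist2 u v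
      have h2 : κ * dist u v ≤ 1 / 2 * 2 := mul_le_mul hκ2 h1 dist_nonneg (by norm_num)
      linarith
    · have h3 : 0 ≤ κ * dist u v := mul_nonneg hκ.le dist_nonneg
      linarith
  have hnn : ∀ u v : S d, 0 ≤ K s u v * (1 - κ * dist u v) ^ k := fun u v =>
    mul_nonneg (hK0 u v) (hp0 u v)
  have hnn1 : ∀ u v : S d, 0 ≤ K s u v * (1 - (1 - κ * dist u v) ^ k) := fun u v =>
    mul_nonneg (hK0 u v) (by have := hp1 u v; linarith)
  have hdm : Measurable (fun p : S d × S d => dist p.1 p.2) :=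
    (continuous_fst.dist continuous_snd).measurable
  have hrm : Measurable (fun p : S d × S d => K s p.1 p.2 * (1 - κ * dist p.1 p.2) ^ k) :=
    (K_meas d s).mul ((measurable_const.sub (hdm.const_mul κ)).pow_const k)
  have hrm1 : Measurable (fun p : S d × S d => K s p.1 p.2 * (1 - (1 - κ * dist p.1 p.2) ^ k)) :=
    (K_meas d s).mul (measurable_const.sub ((measurable_const.sub (hdm.const_mul κ)).pow_const k))
  obtain ⟨G, hG⟩ : ∃ G : S d × S d → ℝ≥0∞, ∀ p, G p =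
      ENNReal.ofReal (K s p.1 p.2 * (1 - κ * dist p.1 p.2) ^ k) := ⟨_, fun _ => rfl⟩
  obtain ⟨G1, hG1⟩ : ∃ G1 : S d × S d → ℝ≥0∞, ∀ p, G1 p =
      ENNReal.ofReal (K s p.1 p.2 * (1 - (1 - κ * dist p.1 p.2) ^ k)) := ⟨_, fun _ => rfl⟩
  obtain ⟨G2, hG2⟩ : ∃ G2 : S d × S d → ℝ≥0∞, ∀ p, G2 p =
      ENNReal.ofReal (K s p.1 p.2) := ⟨_, fun _ => rfl⟩
  have hGm : Measurable G := by
    rw [show G = fun p => ENNReal.ofReal (K s p.1 p.2 * (1 - κ * dist p.1 p.2) ^ k) from funext hG]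
    exact hrm.ennreal_ofReal
  have hG1m : Measurable G1 := by
    rw [show G1 = fun p => ENNReal.ofReal (K s p.1 p.2 * (1 - (1 - κ * dist p.1 p.2) ^ k)) from
      funext hG1]
    exact hrm1.ennreal_ofReal
  have hG2m : Measurable G2 := by
    rw [show G2 = fun p => ENNReal.ofReal (K s p.1 p.2) from funext hG2]
    exact (K_meas d s).ennreal_ofReal
  have hG12 : ∀ p, G2 p = G1 p + G p := by
    intro p
    rw [hG, hG1, hG2, ← ENNReal.ofReal_add (hnn1 _ _) (hnn _ _)]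
    congr 1
    ring
  have hset : MeasurableSet {q : ℝ × (S d × S d) | B q.1 q.2.1 = B q.1 q.2.2} := by
    have h1 : Measurable (fun q : ℝ × (S d × S d) => B q.1 q.2.1) :=
      hB.comp (measurable_fst.prodMk (measurable_fst.comp measurable_snd))
    have h2 : Measurable (fun q : ℝ × (S d × S d) => B q.1 q.2.2) :=
      hB.comp (measurable_fst.prodMk (measurable_snd.comp measurable_snd))
    exact (h1.prodMk h2) (MeasurableSet.of_discrete (s := {p : Fin M × Fin M | p.1 = p.2}))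
  have hsett : ∀ t : ℝ, MeasurableSet {p : S d × S d | B t p.1 = B t p.2} := fun t =>
    (measurable_const.prodMk measurable_id : Measurable (fun p : S d × S d => (t, p))) hset
  obtain ⟨ν, hν⟩ : ∃ ν : Measure (S d × S d), ν = (sg d).prod (sg d) := ⟨_, rfl⟩
  have hsf : SFinite ν := by
    rw [hν]
    infer_instance
  -- double integrals as integrals over the product
  have hprod : ∀ g : S d × S d → ℝ≥0∞, Measurable g →
      ∫⁻ u, ∫⁻ v, g (u, v) ∂(sg d) ∂(sg d) = ∫⁻ p, g p ∂ν := by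
    intro g hg
    rw [hν, lintegral_prod _ hg.aemeasurable]
  have e1 : ∫⁻ u, ∫⁻ v, ENNReal.ofReal (K s u v * (1 - (1 - κ * dist u v) ^ k)) ∂(sg d) ∂(sg d) =
      ∫⁻ p, G1 p ∂ν := by
    rw [← hprod G1 hG1m]
    simp only [hG1]
  have hif1 : ∀ t, Measurable (fun p : S d × S d => if B t p.1 = B t p.2 then G1 p else G2 p) :=
    fun t => Measurable.ite (hsett t) hG1m hG2m
  have hif2 : ∀ t, Measurable (fun p : S d × S d => if B t p.1 = B t p.2 then 0 else G p) :=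
    fun t => Measurable.ite (hsett t) measurable_const hGm
  have hsplit : ∀ t : ℝ, ∫⁻ p, (if B t p.1 = B t p.2 then G1 p else G2 p) ∂ν =
      ∫⁻ p, G1 p ∂ν + ∫⁻ p, (if B t p.1 = B t p.2 then 0 else G p) ∂ν := by
    intro t
    rw [← lintegral_add_left hG1m]
    congr 1
    funext p
    split_ifs
    · rw [add_zero]
    · exact hG12 p
  have hTR' : ∀ t : ℝ, ENNReal.ofReal m₀ ≤ R + (n : ℝ≥0∞) ^ 2 * (∫⁻ p, G1 p ∂ν +
      ∫⁻ p, (if B t p.1 = B t p.2 then 0 else G p) ∂ν) := by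
    intro t
    have h1 := hTR t
    rw [← hsplit t, ← hprod _ (hif1 t)]
    simp only [hG1, hG2]
    exact h1
  have hn2 : (n : ℝ≥0∞) ^ 2 ≠ ⊤ := ENNReal.pow_ne_top (ENNReal.natCast_ne_top n)
  obtain ⟨τ, hτ⟩ : ∃ τ : Measure ℝ, τ = volume.restrict (Icc (0 : ℝ) 1) := ⟨_, rfl⟩
  have hτ1 : τ univ = 1 := by
    rw [hτ, Measure.restrict_apply_univ, Real.volume_Icc]
    norm_num
  have hsfτ : SFinite τ := by
    rw [hτ]
    infer_instance
  have hstep : ENNReal.ofReal m₀ ≤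
      R + (n : ℝ≥0∞) ^ 2 * ∫⁻ p, G1 p ∂ν +
        (n : ℝ≥0∞) ^ 2 * ∫⁻ t, ∫⁻ p, (if B t p.1 = B t p.2 then 0 else G p) ∂ν ∂τ := by
    calc ENNReal.ofReal m₀ = ∫⁻ _t, ENNReal.ofReal m₀ ∂τ := by
          rw [lintegral_const, hτ1, mul_one]
      _ ≤ ∫⁻ t, ((R + (n : ℝ≥0∞) ^ 2 * ∫⁻ p, G1 p ∂ν) +
          (n : ℝ≥0∞) ^ 2 * ∫⁻ p, (if B t p.1 = B t p.2 then 0 else G p) ∂ν) ∂τ := by
          apply lintegral_mono
          intro t
          show ENNReal.ofReal m₀ ≤ _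
          refine (hTR' t).trans (le_of_eq ?_)
          rw [mul_add]; exact (add_assoc _ _ _).symm
      _ = _ := by
          rw [lintegral_add_left measurable_const, lintegral_const, hτ1, mul_one,
            lintegral_const_mul' _ _ hn2]
  rw [e1]
  refine hstep.trans (add_le_add le_rfl (mul_le_mul_right (α := ℝ≥0∞) ?_ _))
  have hunc : Measurable (Function.uncurry (fun (t : ℝ) (p : S d × S d) =>
      if B t p.1 = B t p.2 then 0 else G p)) :=
    Measurable.ite hset measurable_const (hGm.comp measurable_snd)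
  rw [lintegral_lintegral_swap hunc.aemeasurable]
  have hrm2 : Measurable (fun p : S d × S d => ENNReal.ofReal (K s p.1 p.2 *
      (1 - κ * dist p.1 p.2) ^ k * (2 * C * dist p.1 p.2 / (r * ρ)))) :=
    (hrm.mul ((hdm.const_mul (2 * C)).div_const _)).ennreal_ofReal
  rw [hprod (fun p => ENNReal.ofReal (K s p.1 p.2 *
      (1 - κ * dist p.1 p.2) ^ k * (2 * C * dist p.1 p.2 / (r * ρ)))) hrm2]
  apply lintegral_mono
  intro p
  show ∫⁻ t, (if B t p.1 = B t p.2 then 0 else G p) ∂τ ≤ _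
  have h1 : ∀ t, (if B t p.1 = B t p.2 then 0 else G p) =
      G p * (if B t p.1 = B t p.2 then (0 : ℝ≥0∞) else 1) := by
    intro t
    split_ifs <;> simp
  have h2 : Measurable (fun t : ℝ => if B t p.1 = B t p.2 then (0 : ℝ≥0∞) else 1) := by
    apply Measurable.ite _ measurable_const measurable_const
    exact (measurable_id.prodMk measurable_const : Measurable (fun t : ℝ => (t, p))) hset
  simp only [h1]
  rw [lintegral_const_mul _ h2, ENNReal.ofReal_mul (hnn p.1 p.2), ← hG, hτ]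
  refine mul_le_mul_right (α := ℝ≥0∞) ?_ _
  refine (hBi p.1 p.2).trans (le_of_eq ?_)
  congr 1
  field_simp

end Pool.Agent.Helper88.SE
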