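import Pool.Agent.Helper88.SE.Defs
import Pool.Agent.Helper88.SE.P_gg_bound
import Pool.Agent.Helper88.SE.P_gg_cont
import Pool.Agent.Helper88.SE.P_gg_mellin
import Pool.Agent.Helper88.SE.P_KL_const

set_option autoImplicit false

open MeasureTheory Set Filter Topology
open scoped ENNReal

namespace Pool.Agent.Helper88.SE



theorem J_bound (d : ℕ) (hd : 1 ≤ d) (s : ℝ) (hs : 0 < s) (hsd : s < d) :
    ∃ C : ℝ, 0 < C ∧ ∀ lam : ℝ, 0 < lam → J d s lam ≤ C * lam ^ (s - d) := by
  obtain ⟨C, hC, hgg⟩ := gg_bound d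
  have hΓ : 0 < Real.Gamma s := Real.Gamma_pos_of_pos hs
  have hds : 0 < (d : ℝ) - s := by linarith
  refine ⟨(Real.Gamma s)⁻¹ * (C * (1 / s + 1 / (d - s))), by positivity, fun lam hlam => ?_⟩
  have hint := gg_mellin d s lam hs hsd hlam.le
  have hK := (KL_const d hd s lam hs hsd hlam.le).2.2
  have hsub1 : Ioc 0 lam ⊆ Ioi (0 : ℝ) := fun w hw => hw.1
  have hsub2 : Ioi lam ⊆ Ioi (0 : ℝ) := fun w hw => hlam.trans hw
  have hmono : ∀ a b : ℝ, 0 < a → a ≤ b → b ^ (-(d : ℝ)) ≤ a ^ (-(d : ℝ)) := by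
    intro a b ha hab
    exact Real.rpow_le_rpow_of_nonpos ha hab (by simp)
  have i1 : IntegrableOn (fun w : ℝ => w ^ (s - 1)) (Ioc 0 lam) := by
    have := intervalIntegral.intervalIntegrable_rpow' (a := 0) (b := lam)
      (show (-1 : ℝ) < s - 1 by linarith)
    rwa [intervalIntegrable_iff_integrableOn_Ioc_of_le hlam.le] at this
  have i2 : IntegrableOn (fun w : ℝ => w ^ (s - 1 - d)) (Ioi lam) :=
    integrableOn_Ioi_rpow_of_lt (by linarith) hlam
  have p1 : ∫ w in Ioc 0 lam, w ^ (s - 1) * gg d (lam + w) ≤ C * lam ^ (-(d : ℝ)) * (lam ^ s / s) := by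
    have h1 : ∫ w in Ioc 0 lam, w ^ (s - 1) * gg d (lam + w) ≤
        ∫ w in Ioc 0 lam, C * lam ^ (-(d : ℝ)) * w ^ (s - 1) := by
      apply setIntegral_mono_on (hint.mono_set hsub1) (i1.const_mul _) measurableSet_Ioc
      intro w hw
      have hw0 : 0 < w := hw.1
      have h2 := (hgg (lam + w) (by linarith)).2.2
      have h3 := hmono lam (lam + w) hlam (by linarith)
      have h4 : gg d (lam + w) ≤ C * lam ^ (-(d : ℝ)) :=
        h2.trans (mul_le_mul_of_nonneg_left h3 hC.le)
      have h5 : 0 ≤ w ^ (s - 1) := by positivity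
      calc w ^ (s - 1) * gg d (lam + w) ≤ w ^ (s - 1) * (C * lam ^ (-(d : ℝ))) :=
            mul_le_mul_of_nonneg_left h4 h5
        _ = _ := by ring
    refine h1.trans (le_of_eq ?_)
    rw [integral_const_mul]
    congr 1
    rw [← intervalIntegral.integral_of_le hlam.le, integral_rpow (Or.inl (by linarith))]
    rw [sub_add_cancel, Real.zero_rpow hs.ne', sub_zero]
  have p2 : ∫ w in Ioi lam, w ^ (s - 1) * gg d (lam + w) ≤ C * (lam ^ (s - d) / (d - s)) := by
    have h1 : ∫ w in Ioi lam, w ^ (s - 1) * gg d (lam + w) ≤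
        ∫ w in Ioi lam, C * w ^ (s - 1 - d) := by
      apply setIntegral_mono_on (hint.mono_set hsub2) (i2.const_mul _) measurableSet_Ioi
      intro w hw
      have hw0 : 0 < w := hlam.trans hw
      have h2 := (hgg (lam + w) (by linarith)).2.2
      have h3 := hmono w (lam + w) hw0 (by linarith)
      have h4 : gg d (lam + w) ≤ C * w ^ (-(d : ℝ)) :=
        h2.trans (mul_le_mul_of_nonneg_left h3 hC.le)
      have h5 : 0 ≤ w ^ (s - 1) := by positivity
      calc w ^ (s - 1) * gg d (lam + w) ≤ w ^ (s - 1) * (C * w ^ (-(d : ℝ))) :=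
            mul_le_mul_of_nonneg_left h4 h5
        _ = C * (w ^ (s - 1) * w ^ (-(d : ℝ))) := by ring
        _ = C * w ^ (s - 1 - d) := by
            rw [← Real.rpow_add hw0]
            congr 2
    refine h1.trans (le_of_eq ?_)
    rw [integral_const_mul]
    congr 1
    rw [integral_Ioi_rpow_of_lt (by linarith) hlam]
    have e : s - 1 - d + 1 = -((d : ℝ) - s) := by ring
    have e2 : s - d = -((d : ℝ) - s) := by ring
    rw [e, e2, neg_div_neg_eq]
  have key : ∫ w in Ioi (0 : ℝ), w ^ (s - 1) * gg d (lam + w) ≤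
      C * (1 / s + 1 / (d - s)) * lam ^ (s - d) := by
    rw [← Ioc_union_Ioi_eq_Ioi hlam.le, setIntegral_union (Ioc_disjoint_Ioi le_rfl)
      measurableSet_Ioi (hint.mono_set hsub1) (hint.mono_set hsub2)]
    refine (add_le_add p1 p2).trans (le_of_eq ?_)
    have e : lam ^ (s - d) = lam ^ (-(d : ℝ)) * lam ^ s := by
      rw [← Real.rpow_add hlam]
      congr 1
      ring
    rw [e]
    ring
  rw [hK] at key
  have : J d s lam = (Real.Gamma s)⁻¹ * (Real.Gamma s * J d s lam) := by
    field_simp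
  rw [this, mul_assoc]
  exact mul_le_mul_of_nonneg_left key (by positivity)

end Pool.Agent.Helper88.SE
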