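import Pool.Agent.Helper88.SE.Defs
import Pool.Agent.Helper88.SE.P_sg_prob
import Pool.Agent.Helper88.SE.P_gg_const
import Pool.Agent.Helper88.SE.P_gg_bound
import Pool.Agent.Helper88.SE.P_KL_const
import Pool.Agent.Helper88.SE.P_J_bound
import Pool.Agent.Helper88.SE.P_K_meas
import Pool.Agent.Helper88.SE.P_IU_formula

set_option autoImplicit false

open MeasureTheory Set Filter Topology
open scoped ENNReal

namespace Pool.Agent.Helper88.SE



theorem pw1 (κ r : ℝ) (k : ℕ) (hκ : 0 < κ) (hκ1 : κ ≤ 1 / 2) (hr : 0 ≤ r) (hr2 : r ≤ 2) :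
    r ^ (-(2 : ℝ)) * (1 - (1 - κ * r) ^ k) ≤
      r ^ (-(2 : ℝ)) * (1 - Real.exp (-(κ * k * r))) + k * κ ^ 2 * Real.exp (-(κ * k * r)) := by
  rcases eq_or_lt_of_le hr with h0 | h0
  · rw [← h0, Real.zero_rpow (by norm_num)]
    have : 0 ≤ (k : ℝ) * κ ^ 2 * Real.exp (-(κ * k * 0)) := by positivity
    linarith
  · have hx0 : 0 < κ * r := mul_pos hκ h0
    have hx1 : κ * r ≤ 1 := by nlinarith
    have h1 : Real.exp (-(κ * r)) * (1 - (κ * r) ^ 2) ≤ 1 - κ * r := by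
      have h2 : κ * r + 1 ≤ Real.exp (κ * r) := Real.add_one_le_exp _
      have h3 : Real.exp (-(κ * r)) * Real.exp (κ * r) = 1 := by
        rw [← Real.exp_add]; simp
      have h4 : 0 < Real.exp (-(κ * r)) := Real.exp_pos _
      have h5 : Real.exp (-(κ * r)) * (κ * r + 1) ≤ 1 := by
        calc Real.exp (-(κ * r)) * (κ * r + 1) ≤ Real.exp (-(κ * r)) * Real.exp (κ * r) :=
              mul_le_mul_of_nonneg_left h2 h4.le
          _ = 1 := h3
      have h6 : 0 ≤ 1 - κ * r := by linarith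
      calc Real.exp (-(κ * r)) * (1 - (κ * r) ^ 2)
          = (Real.exp (-(κ * r)) * (κ * r + 1)) * (1 - κ * r) := by ring
        _ ≤ 1 * (1 - κ * r) := mul_le_mul_of_nonneg_right h5 h6
        _ = 1 - κ * r := one_mul _
    have hsq : 0 ≤ 1 - (κ * r) ^ 2 := by nlinarith
    have h7 : (Real.exp (-(κ * r)) * (1 - (κ * r) ^ 2)) ^ k ≤ (1 - κ * r) ^ k :=
      pow_le_pow_left₀ (by positivity) h1 k
    have h8 : Real.exp (-(κ * r)) ^ k = Real.exp (-(κ * k * r)) := by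
      rw [← Real.exp_nat_mul]
      congr 1
      ring
    have h9 : 1 + (k : ℝ) * (-(κ * r) ^ 2) ≤ (1 + -(κ * r) ^ 2) ^ k :=
      one_add_mul_le_pow (by nlinarith) k
    have h10 : Real.exp (-(κ * k * r)) * (1 - k * (κ * r) ^ 2) ≤ (1 - κ * r) ^ k := by
      refine le_trans ?_ h7
      rw [mul_pow (Real.exp (-(κ * r))) (1 - (κ * r) ^ 2) k, h8]
      refine mul_le_mul_of_nonneg_left ?_ (Real.exp_pos _).le
      have e1 : (1 + -(κ * r) ^ 2) = 1 - (κ * r) ^ 2 := by ring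
      rw [e1] at h9
      linarith
    have h11 : 0 < r ^ (-(2 : ℝ)) := Real.rpow_pos_of_pos h0 _
    have h12 : r ^ (-(2 : ℝ)) * r ^ 2 = 1 := by
      rw [Real.rpow_neg h0.le]
      rw [show (2 : ℝ) = ((2 : ℕ) : ℝ) by norm_num, Real.rpow_natCast]
      exact inv_mul_cancel₀ (by positivity)
    have h13 : Real.exp (-(κ * k * r)) - (1 - κ * r) ^ k ≤
        Real.exp (-(κ * k * r)) * (k * κ ^ 2) * r ^ 2 := by
      nlinarith
    have h14 : r ^ (-(2 : ℝ)) * (Real.exp (-(κ * k * r)) - (1 - κ * r) ^ k) ≤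
        k * κ ^ 2 * Real.exp (-(κ * k * r)) := by
      calc r ^ (-(2 : ℝ)) * (Real.exp (-(κ * k * r)) - (1 - κ * r) ^ k)
          ≤ r ^ (-(2 : ℝ)) * (Real.exp (-(κ * k * r)) * (k * κ ^ 2) * r ^ 2) :=
            mul_le_mul_of_nonneg_left h13 h11.le
        _ = (r ^ (-(2 : ℝ)) * r ^ 2) * (k * κ ^ 2 * Real.exp (-(κ * k * r))) := by ring
        _ = k * κ ^ 2 * Real.exp (-(κ * k * r)) := by rw [h12, one_mul]
    nlinarith

theorem pw2 (κ r C t : ℝ) (k : ℕ) (hκ : 0 < κ) (hκ1 : κ ≤ 1 / 2) (hr : 0 ≤ r) (hr2 : r ≤ 2)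
    (hC : 0 < C) (ht : 0 < t) :
    r ^ (-(2 : ℝ)) * (1 - κ * r) ^ k * (C * r / t) ≤
      C / t * (r ^ (-(1 : ℝ)) * Real.exp (-(κ * k * r))) := by
  rcases eq_or_lt_of_le hr with h0 | h0
  · rw [← h0, Real.zero_rpow (by norm_num), Real.zero_rpow (by norm_num)]
    simp
  · have hx1 : κ * r ≤ 1 := by nlinarith
    have h1 : 1 - κ * r ≤ Real.exp (-(κ * r)) := Real.one_sub_le_exp_neg _
    have h7 : (1 - κ * r) ^ k ≤ Real.exp (-(κ * r)) ^ k :=
      pow_le_pow_left₀ (by linarith) h1 k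
    have h8 : Real.exp (-(κ * r)) ^ k = Real.exp (-(κ * k * r)) := by
      rw [← Real.exp_nat_mul]
      congr 1
      ring
    rw [h8] at h7
    have h12 : r ^ (-(2 : ℝ)) * r = r ^ (-(1 : ℝ)) := by
      nth_rewrite 2 [← Real.rpow_one r]
      rw [← Real.rpow_add h0]
      norm_num
    have h13 : 0 < r ^ (-(1 : ℝ)) := Real.rpow_pos_of_pos h0 _
    calc r ^ (-(2 : ℝ)) * (1 - κ * r) ^ k * (C * r / t)
        = C / t * ((r ^ (-(2 : ℝ)) * r) * (1 - κ * r) ^ k) := by ring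
      _ = C / t * (r ^ (-(1 : ℝ)) * (1 - κ * r) ^ k) := by rw [h12]
      _ ≤ _ := by
        refine mul_le_mul_of_nonneg_left ?_ (by positivity)
        exact mul_le_mul_of_nonneg_left h7 h13.le

theorem distle (u v : S 2) : dist u v ≤ 2 := by
  have h1 : dist (u : E 2) 0 = 1 := u.2
  have h2 : dist (v : E 2) 0 = 1 := v.2
  have h3 := dist_triangle_right (u : E 2) (v : E 2) 0
  rw [h1, h2] at h3
  change dist (u : E 2) (v : E 2) ≤ 2
  linarith

theorem bg2 (C₂ : ℝ) (hC₂ : 0 < C₂) : ∃ C₅ : ℝ, 0 < C₅ ∧ ∀ (κ t : ℝ) (k : ℕ), 0 < κ → κ ≤ 1 / 2 →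
    0 < t → t ≤ 1 → 1 ≤ k →
    (∫⁻ u : S 2, ∫⁻ v : S 2,
        ENNReal.ofReal (K 2 u v * (1 - (1 - κ * dist u v) ^ k)) ∂(sg 2) ∂(sg 2)) +
      ∫⁻ u : S 2, ∫⁻ v : S 2,
        ENNReal.ofReal (K 2 u v * (1 - κ * dist u v) ^ k * (C₂ * dist u v / t))
          ∂(sg 2) ∂(sg 2) ≤ ENNReal.ofReal (IU (κ * k) + C₅ / (t * (κ * k))) := by
  have hprob := sg_prob 2
  obtain ⟨C, hC, hCb⟩ := gg_bound 2
  obtain ⟨C', hC', hJb⟩ := J_bound 2 (by norm_num) 1 (by norm_num) (by norm_num)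
  refine ⟨C + C₂ * C', by positivity, ?_⟩
  intro κ t k hκ hκ1 ht ht1 hk
  have hk' : (1 : ℝ) ≤ k := by exact_mod_cast hk
  have hkp : (0 : ℝ) < k := by linarith
  set μ : ℝ := κ * k with hμ
  have hμp : 0 < μ := mul_pos hκ hkp
  obtain ⟨hIU1, hIU0, -⟩ := IU_formula μ hμp.le
  obtain ⟨hKL1, hJ0, -⟩ := KL_const 2 (by norm_num) 1 μ (by norm_num) (by norm_num) hμp.le
  have hin1 : ∀ u : S 2, ∫⁻ v : S 2,
      ENNReal.ofReal (K 2 u v * (1 - (1 - κ * dist u v) ^ k)) ∂(sg 2) ≤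
        ENNReal.ofReal (IU μ) + ENNReal.ofReal (C / (t * μ)) := by
    intro u
    have hcont : Continuous (fun v : S 2 => (k : ℝ) * κ ^ 2 * Real.exp (-(μ * dist u v))) := by
      fun_prop
    have hint : Integrable (fun v : S 2 => Real.exp (-(μ * dist u v))) (sg 2) := by
      refine Integrable.of_bound (C := 1) ?_ ?_
      · exact (by fun_prop : Continuous (fun v : S 2 => Real.exp (-(μ * dist u v)))).aestronglyMeasurable
      · refine Filter.Eventually.of_forall ?_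
        intro v
        rw [Real.norm_eq_abs, abs_of_pos (Real.exp_pos _), Real.exp_le_one_iff]
        have := @dist_nonneg _ _ u v
        nlinarith
    calc ∫⁻ v : S 2, ENNReal.ofReal (K 2 u v * (1 - (1 - κ * dist u v) ^ k)) ∂(sg 2)
        ≤ ∫⁻ v : S 2, (ENNReal.ofReal (KU μ u v) +
            ENNReal.ofReal ((k : ℝ) * κ ^ 2 * Real.exp (-(μ * dist u v)))) ∂(sg 2) := by
          refine lintegral_mono ?_
          intro v
          refine le_trans (ENNReal.ofReal_le_ofReal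
            (pw1 κ (dist u v) k hκ hκ1 dist_nonneg (distle u v))) ?_
          exact ENNReal.ofReal_add_le
      _ = (∫⁻ v : S 2, ENNReal.ofReal (KU μ u v) ∂(sg 2)) +
            ∫⁻ v : S 2, ENNReal.ofReal ((k : ℝ) * κ ^ 2 * Real.exp (-(μ * dist u v))) ∂(sg 2) := by
          rw [lintegral_add_right]
          exact hcont.measurable.ennreal_ofReal
      _ ≤ ENNReal.ofReal (IU μ) + ENNReal.ofReal (C / (t * μ)) := by
          rw [(hIU1 u).2.2]
          gcongr
          rw [← ofReal_integral_eq_lintegral_ofReal (hint.const_mul _)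
            (Filter.Eventually.of_forall (fun v => by positivity))]
          refine ENNReal.ofReal_le_ofReal ?_
          rw [integral_const_mul, gg_const]
          have hb := (hCb μ hμp).2.2
          have h2 : μ ^ (-((2 : ℕ) : ℝ)) = (μ ^ 2)⁻¹ := by
            rw [Real.rpow_neg hμp.le, Real.rpow_natCast]
          rw [h2] at hb
          calc (k : ℝ) * κ ^ 2 * gg 2 μ ≤ (k : ℝ) * κ ^ 2 * (C * (μ ^ 2)⁻¹) := by gcongr
            _ = C / k := by rw [hμ]; field_simp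
            _ ≤ C / (t * μ) := by
              refine div_le_div_of_nonneg_left hC.le (by positivity) ?_
              rw [hμ]
              have : t * κ ≤ 1 := by nlinarith
              nlinarith
  have hin2 : ∀ u : S 2, ∫⁻ v : S 2,
      ENNReal.ofReal (K 2 u v * (1 - κ * dist u v) ^ k * (C₂ * dist u v / t)) ∂(sg 2) ≤
        ENNReal.ofReal (C₂ * C' / (t * μ)) := by
    intro u
    calc ∫⁻ v : S 2,
        ENNReal.ofReal (K 2 u v * (1 - κ * dist u v) ^ k * (C₂ * dist u v / t)) ∂(sg 2)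
        ≤ ∫⁻ v : S 2, ENNReal.ofReal (C₂ / t) * ENNReal.ofReal (KL 1 μ u v) ∂(sg 2) := by
          refine lintegral_mono ?_
          intro v
          refine le_trans (ENNReal.ofReal_le_ofReal
            (pw2 κ (dist u v) C₂ t k hκ hκ1 dist_nonneg (distle u v) hC₂ ht)) ?_
          rw [ENNReal.ofReal_mul (by positivity)]
          exact le_rfl
      _ = ENNReal.ofReal (C₂ / t) * ENNReal.ofReal (J 2 1 μ) := by
          rw [lintegral_const_mul' _ _ ENNReal.ofReal_ne_top, (hKL1 u).2.2]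
      _ ≤ ENNReal.ofReal (C₂ * C' / (t * μ)) := by
          rw [← ENNReal.ofReal_mul (by positivity)]
          refine ENNReal.ofReal_le_ofReal ?_
          have hb := hJb μ hμp
          have h2 : μ ^ ((1 : ℝ) - ((2 : ℕ) : ℝ)) = μ⁻¹ := by
            rw [show (1 : ℝ) - ((2 : ℕ) : ℝ) = -1 by norm_num, Real.rpow_neg_one]
          rw [h2] at hb
          calc C₂ / t * J 2 1 μ ≤ C₂ / t * (C' * μ⁻¹) := by gcongr
            _ = C₂ * C' / (t * μ) := by field_simp
  have e1 : (∫⁻ u : S 2, ∫⁻ v : S 2,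
        ENNReal.ofReal (K 2 u v * (1 - (1 - κ * dist u v) ^ k)) ∂(sg 2) ∂(sg 2)) ≤
        ENNReal.ofReal (IU μ) + ENNReal.ofReal (C / (t * μ)) := by
    refine le_trans (lintegral_mono hin1) ?_
    rw [lintegral_const, measure_univ, mul_one]
  have e2 : (∫⁻ u : S 2, ∫⁻ v : S 2,
        ENNReal.ofReal (K 2 u v * (1 - κ * dist u v) ^ k * (C₂ * dist u v / t))
          ∂(sg 2) ∂(sg 2)) ≤ ENNReal.ofReal (C₂ * C' / (t * μ)) := by
    refine le_trans (lintegral_mono hin2) ?_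
    rw [lintegral_const, measure_univ, mul_one]
  refine le_trans (add_le_add e1 e2) ?_
  rw [← ENNReal.ofReal_add hIU0 (by positivity), ← ENNReal.ofReal_add (by positivity) (by positivity)]
  refine ENNReal.ofReal_le_ofReal (le_of_eq ?_)
  ring

end Pool.Agent.Helper88.SE
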