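import Pool.Agent.Helper88.SE.Defs
import Pool.Agent.Helper88.SE.P_Em_basic
import Pool.Agent.Helper88.SE.P_Em_ratio
import Pool.Agent.Helper88.SE.P_Em2_low
import Pool.Agent.Helper88.SE.P_Em2_slope

set_option autoImplicit false

open MeasureTheory Set Filter Topology
open scoped ENNReal

namespace Pool.Agent.Helper88.SE



theorem h396_ev (ε A : ℝ) (hε : 0 < ε) (hA : 0 < A) :
    ∀ᶠ x : ℝ in atTop, A * (1 + Real.log x) ^ 2 ≤ ε * x := by
  have h1 := (Real.isLittleO_pow_log_id_atTop (n := 2)).def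
    (show (0 : ℝ) < ε / (4 * A) by positivity)
  have h2 := eventually_ge_atTop (4 * A / ε)
  have h3 := eventually_ge_atTop (0 : ℝ)
  filter_upwards [h1, h2, h3] with x hx hx2 hx3
  have e1 : ‖Real.log x ^ 2‖ = Real.log x ^ 2 := by
    rw [Real.norm_eq_abs, abs_of_nonneg (sq_nonneg _)]
  have e2 : ‖id x‖ = x := by
    rw [Real.norm_eq_abs, id, abs_of_nonneg hx3]
  rw [e1, e2] at hx
  have h4 : A * Real.log x ^ 2 ≤ ε * x / 4 := by
    have := mul_le_mul_of_nonneg_left hx hA.le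
    have e3 : A * (ε / (4 * A) * x) = ε * x / 4 := by
      field_simp
    rw [e3] at this
    exact this
  have h5 : A ≤ ε * x / 4 := by
    rw [div_le_iff₀ hε] at hx2
    linarith
  have h6 : (1 + Real.log x) ^ 2 ≤ 2 + 2 * Real.log x ^ 2 := by
    nlinarith [sq_nonneg (1 - Real.log x)]
  have h7 := mul_le_mul_of_nonneg_left h6 hA.le
  nlinarith

theorem h396_alg (n D L W C C1 ε e m : ℝ) (hn : 2 ≤ n) (hD : 0 ≤ D) (hC : 0 < C) (hC1 : 0 < C1)
    (hW : 1 ≤ W) (hL : 0 < L) (hL8 : 8 * C1 ≤ L)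
    (hε : 2 * (2 * C1 + C) ^ 2 * W ^ 2 ≤ ε * L)
    (he : 1 / 4 * n ^ 2 * L - C1 * n ^ 2 ≤ e)
    (hm : (n + D) * (n + D - 1) * e ≤ n * (n - 1) * m) :
    e - ε * n ^ 2 ≤ m - (1 / 2 * n * L + C * n * W) * D := by
  have hn0 : 0 < n := by linarith
  have hn1 : 0 < n - 1 := by linarith
  have hLC : 0 ≤ L / 4 - C1 := by linarith
  have he0 : 0 ≤ e := by
    have : 0 ≤ (L / 4 - C1) * n ^ 2 := by positivity
    nlinarith
  -- m ≥ e + e (2D/n + D²/n²)
  have h1 : e + e * (2 * D / n + D ^ 2 / n ^ 2) ≤ m := by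
    have hpos : 0 < n * (n - 1) := by positivity
    have h2 : n * (n - 1) * (e + e * (2 * D / n + D ^ 2 / n ^ 2)) ≤ (n + D) * (n + D - 1) * e := by
      have e1 : n * (n - 1) * (e + e * (2 * D / n + D ^ 2 / n ^ 2)) =
          e * (n * (n - 1) + 2 * D * (n - 1) + D ^ 2 * ((n - 1) / n)) := by
        field_simp
        ring
      rw [e1]
      have e2 : (n - 1) / n ≤ 1 := by
        rw [div_le_one hn0]; linarith
      have e3 : D ^ 2 * ((n - 1) / n) ≤ D ^ 2 := by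
        have := mul_le_mul_of_nonneg_left e2 (sq_nonneg D)
        linarith
      have e4 : n * (n - 1) + 2 * D * (n - 1) + D ^ 2 * ((n - 1) / n) ≤
          (n + D) * (n + D - 1) := by
        nlinarith
      have := mul_le_mul_of_nonneg_left e4 he0
      linarith
    have h3 := h2.trans hm
    exact le_of_mul_le_mul_left h3 hpos
  have h2 : (L / 4 - C1) * (2 * D * n + D ^ 2) ≤ e * (2 * D / n + D ^ 2 / n ^ 2) := by
    have h3 : 0 ≤ 2 * D / n + D ^ 2 / n ^ 2 := by positivity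
    have h4 := mul_le_mul_of_nonneg_right he h3
    have e1 : (1 / 4 * n ^ 2 * L - C1 * n ^ 2) * (2 * D / n + D ^ 2 / n ^ 2) =
        (L / 4 - C1) * (2 * D * n + D ^ 2) := by
      field_simp
    rw [e1] at h4
    exact h4
  have h3 : L / 8 * D ^ 2 ≤ (L / 4 - C1) * D ^ 2 := by
    apply mul_le_mul_of_nonneg_right _ (sq_nonneg D)
    linarith
  have h4 : 2 * C1 * D * n ≤ 2 * C1 * W * n * D := by
    have h5 : 0 ≤ 2 * C1 * D * n := by positivity
    nlinarith
  -- square completion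
  have h6 : 0 ≤ L / 8 * D ^ 2 - (2 * C1 + C) * W * n * D + 2 * (2 * C1 + C) ^ 2 * W ^ 2 / L * n ^ 2 := by
    have e1 : L / 8 * D ^ 2 - (2 * C1 + C) * W * n * D + 2 * (2 * C1 + C) ^ 2 * W ^ 2 / L * n ^ 2 =
        1 / (8 * L) * (L * D - 4 * (2 * C1 + C) * W * n) ^ 2 := by
      field_simp
      ring
    rw [e1]
    positivity
  have h7 : 2 * (2 * C1 + C) ^ 2 * W ^ 2 / L * n ^ 2 ≤ ε * n ^ 2 := by
    apply mul_le_mul_of_nonneg_right _ (sq_nonneg n)
    rw [div_le_iff₀ hL]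
    exact hε
  have e8 : (L / 4 - C1) * (2 * D * n + D ^ 2) =
      1 / 2 * n * L * D - 2 * C1 * D * n + (L / 4 - C1) * D ^ 2 := by ring
  have e9 : (1 / 2 * n * L + C * n * W) * D = 1 / 2 * n * L * D + C * W * n * D := by ring
  have e10 : (2 * C1 + C) * W * n * D = 2 * C1 * W * n * D + C * W * n * D := by ring
  linarith

theorem star2 (ε : ℝ) (hε : 0 < ε) : ∃ n₀ : ℕ, ∀ n : ℕ, n₀ ≤ n → ∃ c₁ : ℝ, 0 ≤ c₁ ∧
    ∀ (M : ℕ) (y : Fin M → S 2), Function.Injective y →
      Em 2 2 n - ε * (n : ℝ) ^ 2 ≤ En 2 y - c₁ * M + c₁ * n := by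
  obtain ⟨C1, hC1, hlow⟩ := Em2_low
  obtain ⟨C, n₀, hC, hn₀, hslope⟩ := Em2_slope
  have hA : 0 < 2 * (2 * C1 + C) ^ 2 := by positivity
  have ev1 := h396_ev ε _ hε hA
  have ev2 := eventually_ge_atTop (8 * C1)
  have ev3 := eventually_ge_atTop (1 : ℝ)
  have ev4 := (Real.tendsto_log_atTop.comp (tendsto_natCast_atTop_atTop (R := ℝ))).eventually
    (ev1.and (ev2.and ev3))
  rw [eventually_atTop] at ev4
  obtain ⟨n₁, hn₁⟩ := ev4
  refine ⟨max n₀ n₁, fun n hn => ?_⟩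
  have hn0 : n₀ ≤ n := (le_max_left _ _).trans hn
  have hn1 : n₁ ≤ n := (le_max_right _ _).trans hn
  obtain ⟨k1, k2, k3⟩ := hn₁ n hn1
  simp only [Function.comp_apply] at k1 k2 k3
  have hn3 : 3 ≤ n := hn₀.trans hn0
  have hn3R : (3 : ℝ) ≤ n := by exact_mod_cast hn3
  have hW : 0 ≤ Real.log (Real.log n) := Real.log_nonneg k3
  have hLpos : 0 < Real.log (n : ℝ) := by linarith
  refine ⟨1 / 2 * n * Real.log n + C * n * (1 + Real.log (Real.log n)), by positivity,
    fun M y hy => ?_⟩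
  have hEM : Em 2 2 M ≤ En 2 y := (Em_basic 2 (by norm_num) 2 (by norm_num) M).2.1 y hy
  by_cases hMn : M ≤ n
  · have h1 := hslope n hn0 M hMn
    have h2 : 0 ≤ ε * (n : ℝ) ^ 2 := by positivity
    generalize hc : (1 / 2 * (n : ℝ) * Real.log n + C * n * (1 + Real.log (Real.log n))) = c at *
    nlinarith
  · push Not at hMn
    have hr := Em_ratio 2 (by norm_num) 2 (by norm_num) n M (by omega) hMn.le
    have hD : (0 : ℝ) ≤ (M : ℝ) - n := by
      have : (n : ℝ) < M := by exact_mod_cast hMn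
      linarith
    have h1 := h396_alg (n : ℝ) ((M : ℝ) - n) (Real.log n) (1 + Real.log (Real.log n)) C C1 ε
      (Em 2 2 n) (Em 2 2 M) (by linarith) hD hC hC1 (by linarith) hLpos k2 k1
      (hlow n (by omega))
      (by
        have e1 : (n : ℝ) + ((M : ℝ) - n) = M := by ring
        rw [e1]
        exact hr)
    generalize hc : (1 / 2 * (n : ℝ) * Real.log n + C * n * (1 + Real.log (Real.log n))) = c at *
    have e2 : c * ((M : ℝ) - n) = c * M - c * n := by ring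
    rw [e2] at h1
    linarith

end Pool.Agent.Helper88.SE
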