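import Pool.Agent.Helper88.SE.Defs
import Pool.Agent.Helper88.SE.P_IU_formula
import Pool.Agent.Helper88.SE.P_star2
import Pool.Agent.Helper88.SE.P_TRavg2
import Pool.Agent.Helper88.SE.P_bg2

set_option autoImplicit false

open MeasureTheory Set Filter Topology
open scoped ENNReal

namespace Pool.Agent.Helper88.SE



theorem TR22_EL_nonneg {d N : ℕ} (s lam : ℝ) (x : Fin N → S d) : 0 ≤ EL s lam x := by
  unfold EL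
  refine Finset.sum_nonneg fun i _ => Finset.sum_nonneg fun j _ => ?_
  unfold KL
  exact mul_nonneg (Real.rpow_nonneg dist_nonneg _) (Real.exp_pos _).le

theorem TR22 : ∃ κ C₅ : ℝ, 0 < κ ∧ 0 < C₅ ∧ ∀ ε : ℝ, 0 < ε → ∃ n₀ : ℕ, ∀ (n N : ℕ), n₀ ≤ n →
    1 ≤ N → ∀ (x : Fin N → S 2), Function.Injective x → ∀ (r ρ : ℝ), 0 < r → r ≤ 1 → 0 < ρ →
    ρ ≤ 1 →
    (N : ℝ) * ((1 + ρ ^ 2) ^ (-((((2 : ℕ) : ℝ) + 1) / 2)) * r ^ (-((2 : ℕ) : ℝ))) = n →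
    ∀ k : ℕ, 1 ≤ k →
    Em 2 2 n - ε * (n : ℝ) ^ 2 ≤
      ((n : ℝ) / N) * (r / (1 + ρ ^ 2)) ^ (-(2 : ℝ)) * EL 2 (κ * k * r / (1 + ρ ^ 2)) x +
      (n : ℝ) ^ 2 * (IU (κ * k) + C₅ / (r * ρ * (κ * k))) := by
  obtain ⟨κ, C₂, hκ, hκ2, hC₂, hTR⟩ := TRavg2 2 2 (by norm_num)
  obtain ⟨C₅, hC₅, hbg⟩ := bg2 C₂ hC₂
  refine ⟨κ, C₅, hκ, hC₅, fun ε hε => ?_⟩
  obtain ⟨n₀, hn₀⟩ := star2 ε hε
  refine ⟨n₀, fun n N hn hN x hx r ρ hr hr1 hρ hρ1 hnN k hk => ?_⟩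
  obtain ⟨c₁, hc₁, hstar⟩ := hn₀ n hn
  have h1 := hTR n N hN (Em 2 2 n - ε * (n : ℝ) ^ 2) c₁ hc₁ hstar x hx r ρ hr hr1 hρ hρ1 hnN k
  have ht : 0 < r * ρ := mul_pos hr hρ
  have ht1 : r * ρ ≤ 1 := mul_le_one₀ hr1 hρ.le hρ1
  have h2 := hbg κ (r * ρ) k hκ hκ2 ht ht1 hk
  have hkpos : (0 : ℝ) < k := by exact_mod_cast hk
  have hIU : 0 ≤ IU (κ * k) := (IU_formula (κ * k) (by positivity)).2.1
  have hR1 : 0 ≤ ((n : ℝ) / N) * (r / (1 + ρ ^ 2)) ^ (-(2 : ℝ)) *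
      EL 2 (κ * k * r / (1 + ρ ^ 2)) x :=
    mul_nonneg (by positivity) (TR22_EL_nonneg _ _ _)
  have hR2 : 0 ≤ (n : ℝ) ^ 2 * (IU (κ * k) + C₅ / (r * ρ * (κ * k))) := by positivity
  have h3 : ENNReal.ofReal (Em 2 2 n - ε * (n : ℝ) ^ 2) ≤
      ENNReal.ofReal (((n : ℝ) / N) * (r / (1 + ρ ^ 2)) ^ (-(2 : ℝ)) *
        EL 2 (κ * k * r / (1 + ρ ^ 2)) x +
        (n : ℝ) ^ 2 * (IU (κ * k) + C₅ / (r * ρ * (κ * k)))) := by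
    refine h1.trans ?_
    rw [add_assoc, ← mul_add, ENNReal.ofReal_add hR1 hR2]
    refine add_le_add le_rfl ?_
    rw [ENNReal.ofReal_mul (by positivity)]
    have h4 : ENNReal.ofReal ((n : ℝ) ^ 2) = (n : ℝ≥0∞) ^ 2 := by
      rw [ENNReal.ofReal_pow (by positivity), ENNReal.ofReal_natCast]
    rw [h4]
    exact mul_le_mul_right h2 _
  exact (ENNReal.ofReal_le_ofReal_iff (add_nonneg hR1 hR2)).1 h3

end Pool.Agent.Helper88.SE
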