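import Pool.Agent.Helper88.SE.Defs

set_option autoImplicit false

open MeasureTheory Set Filter Topology
open scoped ENNReal

namespace Pool.Agent.Helper88.SE



theorem rr_facts (d N : ℕ) (hd : 1 ≤ d) (hN : 1 ≤ N) (ρ : ℝ) (hρ : 0 < ρ) :
    (∀ n : ℕ, 1 ≤ n → 0 < rr d N ρ n ∧
      (N : ℝ) * ((1 + ρ ^ 2) ^ (-(((d : ℝ) + 1) / 2)) * (rr d N ρ n) ^ (-(d : ℝ))) = n) ∧
    (∀ n : ℕ, N ≤ n → rr d N ρ n ≤ 1) ∧
    Tendsto (fun n : ℕ => rr d N ρ n) atTop (𝓝 0) := by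
  have hb : (0 : ℝ) < 1 + ρ ^ 2 := by positivity
  have hb1 : (1 : ℝ) ≤ 1 + ρ ^ 2 := by nlinarith [sq_nonneg ρ]
  set c : ℝ := (1 + ρ ^ 2) ^ (-(((d : ℝ) + 1) / 2)) with hc
  have hc0 : 0 < c := Real.rpow_pos_of_pos hb _
  have hc1 : c ≤ 1 := Real.rpow_le_one_of_one_le_of_nonpos hb1 (by
    have : (0 : ℝ) ≤ d := Nat.cast_nonneg d
    linarith)
  have hd0 : (0 : ℝ) < d := by exact_mod_cast hd
  have hN0 : (0 : ℝ) < N := by exact_mod_cast hN
  have hrr : ∀ n : ℕ, rr d N ρ n = ((N : ℝ) * c / n) ^ (1 / (d : ℝ)) := fun n => rfl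
  refine ⟨?_, ?_, ?_⟩
  · intro n hn
    have hn0 : (0 : ℝ) < n := by exact_mod_cast hn
    have hq : 0 < (N : ℝ) * c / n := by positivity
    rw [hrr]
    refine ⟨Real.rpow_pos_of_pos hq _, ?_⟩
    rw [← Real.rpow_mul hq.le]
    have : 1 / (d : ℝ) * -(d : ℝ) = -1 := by field_simp
    rw [this, Real.rpow_neg_one]
    field_simp
  · intro n hn
    have hn0 : (0 : ℝ) < n := by exact_mod_cast (lt_of_lt_of_le hN hn)
    have hnN : (N : ℝ) ≤ n := by exact_mod_cast hn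
    rw [hrr]
    refine Real.rpow_le_one (by positivity) ?_ (by positivity)
    rw [div_le_one hn0]
    nlinarith
  · have h1 : Tendsto (fun n : ℕ => (N : ℝ) * c / n) atTop (𝓝 0) :=
      tendsto_const_div_atTop_nhds_zero_nat _
    have h2 := h1.rpow_const (p := 1 / (d : ℝ)) (Or.inr (by positivity))
    rw [Real.zero_rpow (by positivity)] at h2
    exact h2

end Pool.Agent.Helper88.SE
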