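import Pool.Agent.Helper88.SE.Defs
import Pool.Agent.Helper88.SE.P_rr_facts

set_option autoImplicit false

open MeasureTheory Set Filter Topology
open scoped ENNReal

namespace Pool.Agent.Helper88.SE



theorem kk_facts (d N : ℕ) (hd : 1 ≤ d) (hN : 1 ≤ N) (ρ κ lam : ℝ) (hρ : 0 < ρ) (hκ : 0 < κ)
    (hlam : 0 < lam) :
    (∀ n : ℕ, 1 ≤ n → 1 ≤ kk d N ρ κ lam n ∧
      lam ≤ κ * (kk d N ρ κ lam n) * rr d N ρ n / (1 + ρ ^ 2)) ∧
    Tendsto (fun n : ℕ => κ * (kk d N ρ κ lam n : ℝ)) atTop atTop ∧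
    Tendsto (fun n : ℕ => κ * (kk d N ρ κ lam n : ℝ) * rr d N ρ n) atTop
      (𝓝 (lam * (1 + ρ ^ 2))) := by
  obtain ⟨h1, -, h3⟩ := rr_facts d N hd hN ρ hρ
  set q : ℝ := 1 + ρ ^ 2 with hq
  have hq0 : 0 < q := by positivity
  have key : ∀ n : ℕ, 1 ≤ n → 0 < rr d N ρ n ∧ 1 ≤ kk d N ρ κ lam n ∧
      lam * q / rr d N ρ n ≤ κ * (kk d N ρ κ lam n) ∧
      lam * q ≤ κ * (kk d N ρ κ lam n) * rr d N ρ n ∧
      κ * (kk d N ρ κ lam n) * rr d N ρ n ≤ lam * q + κ * rr d N ρ n := by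
    intro n hn
    have hr := (h1 n hn).1
    have hT : 0 < lam * q / (κ * rr d N ρ n) := by positivity
    have hk : kk d N ρ κ lam n = ⌈lam * q / (κ * rr d N ρ n)⌉₊ := rfl
    have hle : lam * q / (κ * rr d N ρ n) ≤ (kk d N ρ κ lam n : ℝ) := by
      rw [hk]; exact Nat.le_ceil _
    have hlt : (kk d N ρ κ lam n : ℝ) < lam * q / (κ * rr d N ρ n) + 1 := by
      rw [hk]; exact Nat.ceil_lt_add_one hT.le
    refine ⟨hr, ?_, ?_, ?_, ?_⟩
    · rw [hk]; exact Nat.ceil_pos.2 hT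
    · have h4 := mul_le_mul_of_nonneg_left hle hκ.le
      have h5 : κ * (lam * q / (κ * rr d N ρ n)) = lam * q / rr d N ρ n := by
        field_simp
      rwa [h5] at h4
    · have h4 := mul_le_mul_of_nonneg_left hle (mul_pos hκ hr).le
      have h5 : κ * rr d N ρ n * (lam * q / (κ * rr d N ρ n)) = lam * q := by
        field_simp
      rw [h5] at h4
      linarith
    · have h4 := mul_le_mul_of_nonneg_left hlt.le (mul_pos hκ hr).le
      have h5 : κ * rr d N ρ n * (lam * q / (κ * rr d N ρ n) + 1) = lam * q + κ * rr d N ρ n := by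
        field_simp
      rw [h5] at h4
      linarith
  refine ⟨fun n hn => ⟨(key n hn).2.1, ?_⟩, ?_, ?_⟩
  · rw [le_div_iff₀ hq0]
    exact (key n hn).2.2.2.1
  · have hr0 : Tendsto (fun n : ℕ => rr d N ρ n) atTop (𝓝[>] 0) := by
      rw [tendsto_nhdsWithin_iff]
      exact ⟨h3, (eventually_ge_atTop 1).mono fun n hn => (key n hn).1⟩
    have h6 : Tendsto (fun n : ℕ => lam * q * (rr d N ρ n)⁻¹) atTop atTop :=
      (tendsto_inv_nhdsGT_zero.comp hr0).const_mul_atTop (by positivity)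
    refine tendsto_atTop_mono' _ ?_ h6
    filter_upwards [eventually_ge_atTop 1] with n hn
    have := (key n hn).2.2.1
    rwa [div_eq_mul_inv] at this
  · have h7 : Tendsto (fun n : ℕ => lam * q + κ * rr d N ρ n) atTop (𝓝 (lam * q)) := by
      have := (h3.const_mul κ).const_add (lam * q)
      simpa using this
    refine tendsto_of_tendsto_of_tendsto_of_le_of_le' tendsto_const_nhds h7 ?_ ?_
    · filter_upwards [eventually_ge_atTop 1] with n hn
      exact (key n hn).2.2.2.1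
    · filter_upwards [eventually_ge_atTop 1] with n hn
      exact (key n hn).2.2.2.2

end Pool.Agent.Helper88.SE
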