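import Pool.Agent.Helper88.SE.Defs
import Pool.Agent.Helper88.SE.P_rr_facts
import Pool.Agent.Helper88.SE.P_kk_facts
import Pool.Agent.Helper88.SE.P_IU_mono
import Pool.Agent.Helper88.SE.P_TR22

set_option autoImplicit false

open MeasureTheory Set Filter Topology
open scoped ENNReal

namespace Pool.Agent.Helper88.SE



theorem EL_anti {N : ℕ} (x : Fin N → S 2) {a b : ℝ} (hab : a ≤ b) : EL 2 b x ≤ EL 2 a x := by
  unfold EL
  apply Finset.sum_le_sum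
  intro i _
  apply Finset.sum_le_sum
  intro j _
  unfold KL
  apply mul_le_mul_of_nonneg_left _ (Real.rpow_nonneg dist_nonneg _)
  apply Real.exp_le_exp.2
  have := mul_le_mul_of_nonneg_right hab (dist_nonneg (x := x i) (y := x j))
  linarith

theorem TR32 : ∃ C₅ : ℝ, 0 < C₅ ∧ ∀ (N : ℕ), 1 ≤ N → ∀ (x : Fin N → S 2),
    Function.Injective x → ∀ (ρ : ℝ), 0 < ρ → ρ ≤ 1 → ∀ lam : ℝ, 0 < lam → ∀ ε : ℝ, 0 < ε →
    ∀ᶠ n : ℕ in atTop,
      Em 2 2 n / (n : ℝ) ^ 2 - 1 / 4 * Real.log n ≤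
        (1 + ρ ^ 2) ^ (7 / 2 : ℝ) * (EL 2 lam x / (N : ℝ) ^ 2) + IU lam - 1 / 4 * Real.log N +
          Real.log (1 + ρ ^ 2) + C₅ / (ρ * lam) + ε := by
  obtain ⟨κ, C₅, hκ, hC₅, hTR⟩ := TR22
  refine ⟨C₅, hC₅, ?_⟩
  intro N hN x hx ρ hρ hρ1 lam hlam ε hε
  obtain ⟨n₀, hn₀⟩ := hTR (ε / 2) (by linarith)
  obtain ⟨hr1, hr2, hr3⟩ := rr_facts 2 N (by norm_num) hN ρ hρ
  obtain ⟨hk1, hk2, hk3⟩ := kk_facts 2 N (by norm_num) hN ρ κ lam hρ hκ hlam
  have hq : (0 : ℝ) < 1 + ρ ^ 2 := by positivity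
  have hq1 : (1 : ℝ) ≤ 1 + ρ ^ 2 := by nlinarith [sq_nonneg ρ]
  have hlim : Tendsto (fun n : ℕ => 1 / 2 * Real.log (κ * (kk 2 N ρ κ lam n : ℝ) * rr 2 N ρ n /
      (lam * (1 + ρ ^ 2)))) atTop (𝓝 0) := by
    have h1 : Tendsto (fun n : ℕ => κ * (kk 2 N ρ κ lam n : ℝ) * rr 2 N ρ n /
      (lam * (1 + ρ ^ 2))) atTop (𝓝 1) := by
      have h2 := hk3.div_const (lam * (1 + ρ ^ 2))
      rwa [div_self (by positivity)] at h2
    have h3 := (h1.log one_ne_zero).const_mul (1 / 2)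
    rwa [Real.log_one, mul_zero] at h3
  have hev := hlim.eventually (gt_mem_nhds (show (0 : ℝ) < ε / 2 by linarith))
  filter_upwards [hev, eventually_ge_atTop n₀, eventually_ge_atTop N, eventually_ge_atTop 1]
    with n hn1 hn2 hn3 hn4
  obtain ⟨hr0, hrel⟩ := hr1 n hn4
  have hrle := hr2 n hn3
  obtain ⟨hk0, hkl⟩ := hk1 n hn4
  have hmain := hn₀ n N hn2 hN x hx (rr 2 N ρ n) ρ hr0 hrle hρ hρ1 hrel (kk 2 N ρ κ lam n) hk0
  set r := rr 2 N ρ n with hr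
  set k := kk 2 N ρ κ lam n with hk
  set q := 1 + ρ ^ 2 with hqd
  have hNr : (0 : ℝ) < N := by exact_mod_cast hN
  have hnr : (0 : ℝ) < n := by exact_mod_cast hn4
  have hkr : (0 : ℝ) < k := by exact_mod_cast hk0
  -- exponents
  have ha : -((((2 : ℕ) : ℝ) + 1) / 2) = -(3 / 2 : ℝ) := by norm_num
  have hb : -((2 : ℕ) : ℝ) = -(2 : ℝ) := by norm_num
  rw [ha, hb] at hrel
  have hlogr : Real.log n = Real.log N - 3 / 2 * Real.log q - 2 * Real.log r := by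
    rw [← hrel, Real.log_mul hNr.ne' (by positivity), Real.log_mul (by positivity) (by positivity),
      Real.log_rpow hq, Real.log_rpow hr0]
    ring
  have e1 : r ^ (-(2 : ℝ)) = n / N * q ^ (3 / 2 : ℝ) := by
    have h1 : q ^ (-(3 / 2 : ℝ)) * q ^ (3 / 2 : ℝ) = 1 := by
      rw [← Real.rpow_add hq]
      norm_num
    have h2 : (n : ℝ) / N = q ^ (-(3 / 2 : ℝ)) * r ^ (-(2 : ℝ)) := by
      rw [div_eq_iff hNr.ne', ← hrel]
      ring
    rw [h2]
    calc r ^ (-(2 : ℝ)) = (q ^ (-(3 / 2 : ℝ)) * q ^ (3 / 2 : ℝ)) * r ^ (-(2 : ℝ)) := by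
          rw [h1, one_mul]
      _ = _ := by ring
  have e2 : (r / q) ^ (-(2 : ℝ)) = n / N * q ^ (7 / 2 : ℝ) := by
    rw [Real.div_rpow hr0.le hq.le, e1, Real.rpow_neg hq.le, div_inv_eq_mul, mul_assoc,
      ← Real.rpow_add hq]
    norm_num
  rw [e2] at hmain
  have hlogq : 0 ≤ Real.log q := Real.log_nonneg hq1
  -- the energy
  have hEL : EL 2 (κ * k * r / q) x ≤ EL 2 lam x := EL_anti x hkl
  have hκk : lam * q ≤ κ * k * r := by
    rwa [le_div_iff₀ hq] at hkl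
  have hκk2 : lam ≤ κ * k := by
    have h1 : lam ≤ lam * q := le_mul_of_one_le_right hlam.le hq1
    have h2 : κ * k * r ≤ κ * k := mul_le_of_le_one_right (by positivity) hrle
    linarith
  have hIU := (IU_mono lam (κ * k) hlam hκk2).2
  have hlog2 : Real.log (κ * k / lam) = Real.log (κ * k * r / (lam * q)) +
      (Real.log q - Real.log r) := by
    rw [Real.log_div (by positivity) hlam.ne', Real.log_div (by positivity) (by positivity),
      Real.log_mul (by positivity) hr0.ne', Real.log_mul hlam.ne' hq.ne']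
    ring
  have hC : C₅ / (r * ρ * (κ * k)) ≤ C₅ / (ρ * lam) := by
    apply div_le_div_of_nonneg_left hC₅.le (by positivity)
    have h1 : lam ≤ κ * k * r := (le_mul_of_one_le_right hlam.le hq1).trans hκk
    calc ρ * lam ≤ ρ * (κ * k * r) := mul_le_mul_of_nonneg_left h1 hρ.le
      _ = _ := by ring
  have hn2 : (0 : ℝ) < (n : ℝ) ^ 2 := by positivity
  have hfin : Em 2 2 n / (n : ℝ) ^ 2 ≤ ε / 2 + q ^ (7 / 2 : ℝ) * (EL 2 (κ * k * r / q) x / (N : ℝ) ^ 2) +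
      (IU (κ * k) + C₅ / (r * ρ * (κ * k))) := by
    rw [div_le_iff₀ hn2]
    have e3 : (n : ℝ) / N * (n / N * q ^ (7 / 2 : ℝ)) * EL 2 (κ * k * r / q) x =
        q ^ (7 / 2 : ℝ) * (EL 2 (κ * k * r / q) x / (N : ℝ) ^ 2) * (n : ℝ) ^ 2 := by
      field_simp
    rw [e3] at hmain
    linarith
  have hEL2 : q ^ (7 / 2 : ℝ) * (EL 2 (κ * k * r / q) x / (N : ℝ) ^ 2) ≤
      q ^ (7 / 2 : ℝ) * (EL 2 lam x / (N : ℝ) ^ 2) := by
    apply mul_le_mul_of_nonneg_left _ (by positivity)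
    exact div_le_div_of_nonneg_right hEL (by positivity)
  rw [hlog2] at hIU
  linarith

end Pool.Agent.Helper88.SE
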