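import Pool.Agent.Helper88.SE.Defs
import Pool.Agent.Helper88.SE.P_inj_exists
import Pool.Agent.Helper88.SE.P_TR32

set_option autoImplicit false

open MeasureTheory Set Filter Topology
open scoped ENNReal

namespace Pool.Agent.Helper88.SE



theorem G_hi : ∃ C : ℝ, 0 < C ∧ ∀ᶠ n : ℕ in atTop,
    Em 2 2 n / (n : ℝ) ^ 2 - 1 / 4 * Real.log n ≤ C := by
  obtain ⟨C₅, _, hC₅⟩ := TR32
  obtain ⟨x, hx⟩ := inj_exists 2 (by norm_num) 1
  have h1 := hC₅ 1 le_rfl x hx 1 one_pos le_rfl 1 one_pos 1 one_pos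
  refine ⟨|(1 + (1:ℝ) ^ 2) ^ (7 / 2 : ℝ) * (EL 2 1 x / ((1 : ℕ) : ℝ) ^ 2) + IU 1
      - 1 / 4 * Real.log ((1 : ℕ) : ℝ) + Real.log (1 + (1:ℝ) ^ 2) + C₅ / (1 * 1) + 1| + 1,
    by positivity, ?_⟩
  filter_upwards [h1] with n hn
  refine hn.trans ((le_abs_self _).trans ?_)
  linarith

end Pool.Agent.Helper88.SE
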