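import Pool.Agent.Helper88.SE.Defs
import Pool.Agent.Helper88.SE.P_KL_const
import Pool.Agent.Helper88.SE.P_zlaw

set_option autoImplicit false

open MeasureTheory Set Filter Topology
open scoped ENNReal

namespace Pool.Agent.Helper88.SE



theorem s_dist (s : ℝ) (p x : S 2) :
    dist p x ^ (-s) = (2 - 2 * inner ℝ (p : E 2) (x : E 2)) ^ (-(s / 2)) := by
  have h1 : dist p x ^ 2 = 2 - 2 * inner ℝ (p : E 2) (x : E 2) := by
    rw [Subtype.dist_eq, dist_eq_norm, norm_sub_sq_real]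
    have hp : ‖(p : E 2)‖ = 1 := mem_sphere_zero_iff_norm.mp p.2
    have hx : ‖(x : E 2)‖ = 1 := mem_sphere_zero_iff_norm.mp x.2
    rw [hp, hx]
    ring
  rw [← h1, ← Real.rpow_natCast (dist p x) 2, ← Real.rpow_mul dist_nonneg]
  congr 1
  push_cast
  ring

theorem s_int (s : ℝ) (hs : 0 < s) (hs2 : s < 2) :
    ∫⁻ z in Icc (-1 : ℝ) 1, ENNReal.ofReal ((2 - 2 * z) ^ (-(s / 2))) =
      ENNReal.ofReal (2 ^ (2 - s) / (2 - s)) := by
  have hr : -1 < -(s / 2) := by linarith
  have hi : IntervalIntegrable (fun z : ℝ => (2 - 2 * z) ^ (-(s / 2))) volume (-1) 1 := by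
    have h1 : IntervalIntegrable (fun x : ℝ => x ^ (-(s / 2))) volume 0 4 :=
      intervalIntegral.intervalIntegrable_rpow' hr
    have h2 := (h1.comp_mul_left (c := 2)).comp_sub_left 1
    have e : (fun x : ℝ => (2 * (1 - x)) ^ (-(s / 2))) = fun z : ℝ => (2 - 2 * z) ^ (-(s / 2)) := by
      funext x
      congr 1
      ring
    rw [e] at h2
    norm_num at h2
    exact h2.symm
  have hi2 : IntegrableOn (fun z : ℝ => (2 - 2 * z) ^ (-(s / 2))) (Icc (-1 : ℝ) 1) volume := by
    rw [integrableOn_Icc_iff_integrableOn_Ioc]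
    exact (intervalIntegrable_iff_integrableOn_Ioc_of_le (by norm_num)).mp hi
  rw [← ofReal_integral_eq_lintegral_ofReal hi2]
  · congr 1
    rw [integral_Icc_eq_integral_Ioc, ← intervalIntegral.integral_of_le (by norm_num),
      intervalIntegral.integral_comp_sub_mul (fun u : ℝ => u ^ (-(s / 2))) (by norm_num) 2,
      integral_rpow (Or.inl hr)]
    have h2s : 2 - s ≠ 0 := by
      have : 0 < 2 - s := by linarith
      exact this.ne'
    have e1 : (2 : ℝ) - 2 * 1 = 0 := by norm_num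
    have e2 : (2 : ℝ) - 2 * (-1) = 4 := by norm_num
    rw [e1, e2, Real.zero_rpow (by
      have : 0 < -(s / 2) + 1 := by linarith
      exact this.ne'), sub_zero]
    have e3 : (4 : ℝ) ^ (-(s / 2) + 1) = 2 ^ (2 - s) := by
      have : (4 : ℝ) = 2 ^ (2 : ℝ) := by norm_num
      rw [this, ← Real.rpow_mul (by norm_num)]
      congr 1
      ring
    rw [e3, smul_eq_mul]
    have e4 : -(s / 2) + 1 = (2 - s) / 2 := by ring
    rw [e4]
    field_simp
  · filter_upwards [ae_restrict_mem measurableSet_Icc] with z hz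
    apply Real.rpow_nonneg
    linarith [hz.2]

theorem Ic2 (s : ℝ) (hs : 0 < s) (hs2 : s < 2) : Ic 2 s = 2 ^ (1 - s) / (2 - s) := by
  have hs2' : s < ((2 : ℕ) : ℝ) := by exact_mod_cast hs2
  obtain ⟨hk, hJ0, _⟩ := KL_const 2 (by norm_num) s 0 hs hs2' le_rfl
  have hJ : J 2 s 0 = Ic 2 s := by
    unfold J Ic
    simp [KL, K]
  let p : S 2 := ⟨EuclideanSpace.single 0 1, by simp⟩
  have h1 := (hk p).2.2
  have h2 : ∫⁻ y, ENNReal.ofReal (KL s 0 p y) ∂(sg 2) =
      ∫⁻ y : S 2, (fun z : ℝ => ENNReal.ofReal ((2 - 2 * z) ^ (-(s / 2))))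
        (inner ℝ (p : E 2) (y : E 2)) ∂(sg 2) := by
    apply lintegral_congr
    intro y
    have : KL s 0 p y = dist p y ^ (-s) := by simp [KL]
    rw [this, s_dist]
  have hm : Measurable (fun z : ℝ => ENNReal.ofReal ((2 - 2 * z) ^ (-(s / 2)))) := by
    apply ENNReal.measurable_ofReal.comp
    exact (measurable_const.sub (measurable_const.mul measurable_id)).pow_const _
  rw [h2, zlaw p _ hm, s_int s hs hs2, ← ENNReal.ofReal_mul (by norm_num)] at h1
  have h2s : 0 < 2 - s := by linarith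
  have h3 := (ENNReal.ofReal_eq_ofReal_iff (by positivity) hJ0.le).mp h1
  rw [← hJ, ← h3]
  have : (2 : ℝ) ^ (2 - s) = 2 * 2 ^ (1 - s) := by
    rw [← Real.rpow_one_add' (by norm_num) (by linarith)]
    congr 1
    ring
  rw [this]
  ring

end Pool.Agent.Helper88.SE
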