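import Pool.Agent.Helper88.SE.Defs
import Pool.Agent.Helper88.SE.P_sg_prob
import Pool.Agent.Helper88.SE.P_ball_lim
import Pool.Agent.Helper88.SE.P_ball_bound
import Pool.Agent.Helper88.SE.P_gg_layer

set_option autoImplicit false

open MeasureTheory Set Filter Topology
open scoped ENNReal

namespace Pool.Agent.Helper88.SE



theorem gg_lim (d : ℕ) :
    ∃ c : ℝ, 0 < c ∧ Tendsto (fun u : ℝ => u ^ (d : ℝ) * gg d u) atTop (𝓝 c) := by
  haveI := sg_prob d
  obtain ⟨c0, hc0, hlim⟩ := ball_lim d
  obtain ⟨C, hC, hb⟩ := ball_bound d
  obtain ⟨x⟩ : Nonempty (S d) := ⟨⟨EuclideanSpace.single 0 1, by simp⟩⟩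
  obtain ⟨m, hm⟩ : ∃ m : ℝ → ℝ, ∀ t, m t = (sg d (Metric.closedBall x t)).toReal :=
    ⟨_, fun _ => rfl⟩
  have hmono : Monotone m := by
    intro s t hst
    rw [hm, hm]
    exact ENNReal.toReal_mono (measure_ne_top _ _)
      (measure_mono (Metric.closedBall_subset_closedBall hst))
  have hint : IntegrableOn (fun v : ℝ => Real.exp (-v) * v ^ d) (Ioi 0) := by
    have h1 := Real.GammaIntegral_convergent (s := (d:ℝ) + 1) (by positivity)
    simpa using h1
  have hgam : ∫ v in Ioi (0:ℝ), Real.exp (-v) * v ^ d = Real.Gamma (d + 1) := by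
    rw [Real.Gamma_eq_integral (by positivity)]
    simp
  refine ⟨∫ v in Ioi (0:ℝ), Real.exp (-v) * (c0 * v ^ d), ?_, ?_⟩
  · have h1 : (fun v : ℝ => Real.exp (-v) * (c0 * v ^ d)) =
        fun v => c0 * (Real.exp (-v) * v ^ d) := by
      funext v; ring
    rw [h1, integral_const_mul, hgam]
    exact mul_pos hc0 (Real.Gamma_pos_of_pos (by positivity))
  · have key : Tendsto (fun u : ℝ => ∫ v in Ioi (0:ℝ), u ^ d * (Real.exp (-v) * m (v / u)))
        atTop (𝓝 (∫ v in Ioi (0:ℝ), Real.exp (-v) * (c0 * v ^ d))) := by
      apply tendsto_integral_filter_of_dominated_convergence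
        (fun v => C * (Real.exp (-v) * v ^ d))
      · filter_upwards [eventually_gt_atTop 0] with u hu
        apply Measurable.aestronglyMeasurable
        have h1 : Measurable fun v : ℝ => m (v / u) :=
          hmono.measurable.comp (measurable_id.div_const u)
        exact (((measurable_neg).exp).mul h1).const_mul _
      · filter_upwards [eventually_gt_atTop 0] with u hu
        rw [ae_restrict_iff' measurableSet_Ioi]
        refine Eventually.of_forall fun v hv => ?_
        have hv' : 0 < v := hv
        have h1 : m (v / u) ≤ C * (v / u) ^ d := by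
          rw [hm]; exact hb x (v / u) (by positivity)
        have h0 : 0 ≤ m (v / u) := by rw [hm]; exact ENNReal.toReal_nonneg
        rw [Real.norm_of_nonneg (by positivity)]
        calc u ^ d * (Real.exp (-v) * m (v / u))
            ≤ u ^ d * (Real.exp (-v) * (C * (v / u) ^ d)) := by gcongr
          _ = C * (Real.exp (-v) * v ^ d) := by rw [div_pow]; field_simp
      · exact hint.const_mul C
      · rw [ae_restrict_iff' measurableSet_Ioi]
        refine Eventually.of_forall fun v hv => ?_
        have hv' : 0 < v := hv
        have h2 : Tendsto (fun u : ℝ => v / u) atTop (𝓝[>] 0) := by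
          rw [tendsto_nhdsWithin_iff]
          exact ⟨tendsto_const_nhds.div_atTop tendsto_id,
            (eventually_gt_atTop 0).mono fun u hu => div_pos hv' hu⟩
        have h3 := (hlim x).comp h2
        have h4 := h3.const_mul (Real.exp (-v) * v ^ d)
        have e : Real.exp (-v) * v ^ d * c0 = Real.exp (-v) * (c0 * v ^ d) := by ring
        rw [e] at h4
        refine h4.congr' ?_
        filter_upwards [eventually_gt_atTop 0] with u hu
        simp only [Function.comp]
        rw [← hm, div_pow]
        field_simp
    refine key.congr' ?_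
    filter_upwards [eventually_gt_atTop 0] with u hu
    rw [gg_layer d u hu x, Real.rpow_natCast, ← integral_const_mul]
    simp only [hm]

end Pool.Agent.Helper88.SE
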