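import Pool.Agent.Helper88.SE.Defs
import Pool.Agent.Helper88.SE.P_gg_bound
import Pool.Agent.Helper88.SE.P_gg_lim
import Pool.Agent.Helper88.SE.P_gg_cont
import Pool.Agent.Helper88.SE.P_gg_mellin
import Pool.Agent.Helper88.SE.P_KL_const

set_option autoImplicit false

open MeasureTheory Set Filter Topology
open scoped ENNReal

namespace Pool.Agent.Helper88.SE



theorem J_lim (d : ℕ) (hd : 1 ≤ d) (s : ℝ) (hs : 0 < s) (hsd : s < d) :
    ∃ c : ℝ, 0 < c ∧ Tendsto (fun lam : ℝ => lam ^ ((d : ℝ) - s) * J d s lam) atTop (𝓝 c) := by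
  obtain ⟨c, hc, hlim⟩ := gg_lim d
  obtain ⟨C, hC, hbd⟩ := gg_bound d
  have hcont := gg_cont d
  have hG : 0 < Real.Gamma s := Real.Gamma_pos_of_pos hs
  set φ : ℝ → ℝ := fun v => v ^ (s - 1) * (1 + v) ^ (-(d : ℝ)) with hφ
  have hφpos : ∀ v ∈ Ioi (0 : ℝ), 0 < φ v := by
    intro v hv
    have hv' : (0 : ℝ) < v := hv
    rw [hφ]
    positivity
  have hφm : Measurable φ := by
    rw [hφ]
    exact (measurable_id.pow_const _).mul ((measurable_const.add measurable_id).pow_const _)
  have hφint : IntegrableOn φ (Ioi 0) := by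
    have h1 : IntegrableOn φ (Ioc 0 1) := by
      have h2 : IntegrableOn (fun v : ℝ => v ^ (s - 1)) (Ioc 0 1) := by
        have := intervalIntegral.intervalIntegrable_rpow' (a := 0) (b := 1) (r := s - 1)
          (by linarith)
        rwa [intervalIntegrable_iff_integrableOn_Ioc_of_le zero_le_one] at this
      refine Integrable.mono' h2 hφm.aestronglyMeasurable ?_
      filter_upwards [ae_restrict_mem measurableSet_Ioc] with v hv
      have hv0 : (0 : ℝ) < v := hv.1
      rw [Real.norm_of_nonneg (hφpos v hv0).le, hφ]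
      simp only
      have h3 : (1 + v) ^ (-(d : ℝ)) ≤ 1 :=
        Real.rpow_le_one_of_one_le_of_nonpos (by linarith) (by
          have : (0 : ℝ) ≤ d := Nat.cast_nonneg d
          linarith)
      exact mul_le_of_le_one_right (by positivity) h3
    have h2 : IntegrableOn φ (Ioi 1) := by
      have h3 : IntegrableOn (fun v : ℝ => v ^ (s - 1 - (d : ℝ))) (Ioi 1) :=
        integrableOn_Ioi_rpow_of_lt (by linarith) one_pos
      refine Integrable.mono' h3 hφm.aestronglyMeasurable ?_
      filter_upwards [ae_restrict_mem measurableSet_Ioi] with v hv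
      have hv1 : (1 : ℝ) < v := hv
      have hv0 : (0 : ℝ) < v := by linarith
      rw [Real.norm_of_nonneg (hφpos v hv0).le, hφ]
      simp only
      have h4 : (1 + v) ^ (-(d : ℝ)) ≤ v ^ (-(d : ℝ)) :=
        Real.rpow_le_rpow_of_nonpos hv0 (by linarith) (by
          have : (0 : ℝ) ≤ d := Nat.cast_nonneg d
          linarith)
      calc v ^ (s - 1) * (1 + v) ^ (-(d : ℝ)) ≤ v ^ (s - 1) * v ^ (-(d : ℝ)) :=
            mul_le_mul_of_nonneg_left h4 (by positivity)
        _ = v ^ (s - 1 - (d : ℝ)) := by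
            rw [← Real.rpow_add hv0]
            congr 1
    have h3 := h1.union h2
    rwa [Ioc_union_Ioi_eq_Ioi zero_le_one] at h3
  have hφI : 0 < ∫ v in Ioi (0 : ℝ), φ v := by
    rw [setIntegral_pos_iff_support_of_nonneg_ae]
    · have : Function.support φ ∩ Ioi 0 = Ioi (0 : ℝ) := by
        apply inter_eq_right.mpr
        intro v hv
        exact (hφpos v hv).ne'
      rw [this]
      simp
    · filter_upwards [ae_restrict_mem measurableSet_Ioi] with v hv
      exact (hφpos v hv).le
    · exact hφint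
  have hkey : ∀ lam : ℝ, 0 < lam → lam ^ ((d : ℝ) - s) * J d s lam =
      (Real.Gamma s)⁻¹ * ∫ v in Ioi (0 : ℝ), v ^ (s - 1) * (lam ^ (d : ℝ) * gg d (lam * (1 + v))) := by
    intro lam hlam
    have h1 := (KL_const d hd s lam hs hsd hlam.le).2.2
    have h2 : J d s lam = (Real.Gamma s)⁻¹ * ∫ w in Ioi (0 : ℝ), w ^ (s - 1) * gg d (lam + w) := by
      rw [h1]
      field_simp
    have h3 := integral_comp_mul_left_Ioi (fun w : ℝ => w ^ (s - 1) * gg d (lam + w)) 0 hlam
    rw [mul_zero, smul_eq_mul] at h3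
    have h4 : ∫ w in Ioi (0 : ℝ), w ^ (s - 1) * gg d (lam + w) =
        lam * ∫ v in Ioi (0 : ℝ), (lam * v) ^ (s - 1) * gg d (lam + lam * v) := by
      rw [h3]
      field_simp
    rw [h2, h4]
    have h5 : lam ^ ((d : ℝ) - s) * ((Real.Gamma s)⁻¹ *
        (lam * ∫ v in Ioi (0 : ℝ), (lam * v) ^ (s - 1) * gg d (lam + lam * v))) =
        (Real.Gamma s)⁻¹ * (lam ^ ((d : ℝ) - s) * lam *
          ∫ v in Ioi (0 : ℝ), (lam * v) ^ (s - 1) * gg d (lam + lam * v)) := by ring
    rw [h5, ← integral_const_mul]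
    congr 1
    refine setIntegral_congr_fun measurableSet_Ioi (fun v hv => ?_)
    have hv0 : (0 : ℝ) < v := hv
    rw [Real.mul_rpow hlam.le hv0.le]
    have h6 : lam ^ (d : ℝ) = lam ^ ((d : ℝ) - s) * lam * lam ^ (s - 1) := by
      have h7 : lam ^ ((d : ℝ) - s) * lam = lam ^ ((d : ℝ) - s) * lam ^ (1 : ℝ) := by
        rw [Real.rpow_one]
      rw [h7, ← Real.rpow_add hlam, ← Real.rpow_add hlam]
      congr 1
      ring
    rw [h6]
    have h8 : lam + lam * v = lam * (1 + v) := by ring
    rw [h8]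
    ring
  have hdom : Tendsto (fun lam : ℝ => ∫ v in Ioi (0 : ℝ),
      v ^ (s - 1) * (lam ^ (d : ℝ) * gg d (lam * (1 + v)))) atTop
      (𝓝 (∫ v in Ioi (0 : ℝ), c * φ v)) := by
    refine tendsto_integral_filter_of_dominated_convergence (fun v => C * φ v) ?_ ?_ ?_ ?_
    · filter_upwards with lam
      refine Measurable.aestronglyMeasurable ?_
      refine (measurable_id.pow_const _).mul (measurable_const.mul ?_)
      exact hcont.measurable.comp (measurable_const.mul (measurable_const.add measurable_id))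
    · filter_upwards [eventually_gt_atTop 0] with lam hlam
      filter_upwards [ae_restrict_mem measurableSet_Ioi] with v hv
      have hv0 : (0 : ℝ) < v := hv
      have hu : 0 < lam * (1 + v) := by positivity
      obtain ⟨g1, -, g3⟩ := hbd _ hu
      have hl : 0 < lam ^ (d : ℝ) := Real.rpow_pos_of_pos hlam _
      have hvp : 0 < v ^ (s - 1) := Real.rpow_pos_of_pos hv0 _
      rw [Real.norm_of_nonneg (by positivity)]
      have h1 : lam ^ (d : ℝ) * gg d (lam * (1 + v)) ≤ C * (1 + v) ^ (-(d : ℝ)) := by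
        calc lam ^ (d : ℝ) * gg d (lam * (1 + v)) ≤
            lam ^ (d : ℝ) * (C * (lam * (1 + v)) ^ (-(d : ℝ))) :=
              mul_le_mul_of_nonneg_left g3 hl.le
          _ = C * (1 + v) ^ (-(d : ℝ)) := by
              rw [Real.mul_rpow hlam.le (by linarith), Real.rpow_neg hlam.le]
              field_simp
      calc v ^ (s - 1) * (lam ^ (d : ℝ) * gg d (lam * (1 + v))) ≤
          v ^ (s - 1) * (C * (1 + v) ^ (-(d : ℝ))) := mul_le_mul_of_nonneg_left h1 hvp.le
        _ = C * φ v := by rw [hφ]; ring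
    · exact hφint.const_mul C
    · filter_upwards [ae_restrict_mem measurableSet_Ioi] with v hv
      have hv0 : (0 : ℝ) < v := hv
      have h1 : Tendsto (fun lam : ℝ => lam * (1 + v)) atTop atTop :=
        tendsto_id.atTop_mul_const (by linarith)
      have h2 := (hlim.comp h1).const_mul (φ v)
      rw [mul_comm (φ v) c] at h2
      refine h2.congr' ?_
      filter_upwards [eventually_gt_atTop 0] with lam hlam
      simp only [Function.comp]
      rw [Real.mul_rpow hlam.le (by linarith), hφ]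
      simp only
      have h3 : (1 + v) ^ (-(d : ℝ)) * (1 + v) ^ (d : ℝ) = 1 := by
        rw [← Real.rpow_add (by linarith)]
        simp
      calc v ^ (s - 1) * (1 + v) ^ (-(d : ℝ)) *
          (lam ^ (d : ℝ) * (1 + v) ^ (d : ℝ) * gg d (lam * (1 + v))) =
          ((1 + v) ^ (-(d : ℝ)) * (1 + v) ^ (d : ℝ)) *
            (v ^ (s - 1) * (lam ^ (d : ℝ) * gg d (lam * (1 + v)))) := by ring
        _ = _ := by rw [h3, one_mul]
  refine ⟨(Real.Gamma s)⁻¹ * ∫ v in Ioi (0 : ℝ), c * φ v, ?_, ?_⟩
  · rw [integral_const_mul]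
    positivity
  · refine (hdom.const_mul _).congr' ?_
    filter_upwards [eventually_gt_atTop 0] with lam hlam
    exact (hkey lam hlam).symm

end Pool.Agent.Helper88.SE
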