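import Pool.Agent.Helper88.SE.Defs
import Pool.Agent.Helper88.SE.P_sg_prob
import Pool.Agent.Helper88.SE.P_KL_const
import Pool.Agent.Helper88.SE.P_K_meas

set_option autoImplicit false

open MeasureTheory Set Filter Topology
open scoped ENNReal

namespace Pool.Agent.Helper88.SE



theorem exp_two_24304 {x : ℝ} (hx : 0 ≤ x) : 2 * x ≤ Real.exp x := by
  have h := Real.quadratic_le_exp_of_nonneg hx
  nlinarith [sq_nonneg (x - 1)]

theorem exp_sq_24304 {x : ℝ} (hx : 0 ≤ x) : 4 / 3 * x ^ 2 ≤ Real.exp x := by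
  have h := Real.sum_le_exp_of_nonneg hx 4
  rw [Finset.sum_range_succ, Finset.sum_range_succ, Finset.sum_range_succ, Finset.sum_range_one]
    at h
  simp only [Nat.factorial, Nat.cast_one, Nat.succ_eq_add_one, Nat.cast_mul, Nat.cast_add,
    pow_zero, pow_one] at h
  norm_num at h
  have h2 : 0 ≤ 1 + x - 5 / 6 * x ^ 2 + x ^ 3 / 6 := by
    nlinarith [mul_nonneg hx (sq_nonneg (x - 5 / 2)), sq_nonneg (x - 5 / 2)]
  nlinarith

/-- pointwise lower bound for the power -/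
theorem pow_lower_24304 {x : ℝ} (hx : 0 ≤ x) (hx1 : x ≤ 1) (k : ℕ) :
    Real.exp (-(k * x)) * (1 - k * x ^ 2) ≤ (1 - x) ^ k := by
  have h1 : Real.exp (-x) * (1 - x ^ 2) ≤ 1 - x := by
    have h2 : 1 + x ≤ Real.exp x := by linarith [Real.add_one_le_exp x]
    have h3 : (1 - x) * (1 + x) ≤ (1 - x) * Real.exp x :=
      mul_le_mul_of_nonneg_left h2 (by linarith)
    have h4 : Real.exp (-x) * Real.exp x = 1 := by rw [← Real.exp_add]; simp
    have h5 : 0 < Real.exp (-x) := Real.exp_pos _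
    calc Real.exp (-x) * (1 - x ^ 2) = Real.exp (-x) * ((1 - x) * (1 + x)) := by ring
      _ ≤ Real.exp (-x) * ((1 - x) * Real.exp x) := mul_le_mul_of_nonneg_left h3 h5.le
      _ = (1 - x) * (Real.exp (-x) * Real.exp x) := by ring
      _ = 1 - x := by rw [h4, mul_one]
  have hx2 : x ^ 2 ≤ 1 := by nlinarith
  have h6 : 0 ≤ Real.exp (-x) * (1 - x ^ 2) := mul_nonneg (Real.exp_pos _).le (by linarith)
  have h7 := pow_le_pow_left₀ h6 h1 k
  rw [mul_pow, ← Real.exp_nat_mul] at h7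
  have h8 : 1 - k * x ^ 2 ≤ (1 - x ^ 2) ^ k := by
    have := one_add_mul_le_pow (a := -x ^ 2) (by linarith) k
    calc 1 - k * x ^ 2 = 1 + k * (-x ^ 2) := by ring
      _ ≤ (1 + -x ^ 2) ^ k := this
      _ = (1 - x ^ 2) ^ k := by ring
  have h9 : (k : ℝ) * -x = -(k * x) := by ring
  rw [h9] at h7
  exact (mul_le_mul_of_nonneg_left h8 (Real.exp_pos _).le).trans h7

theorem pow_upper_24304 {x : ℝ} (hx1 : x ≤ 1) (k : ℕ) :
    (1 - x) ^ k ≤ Real.exp (-(k * x)) := by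
  have h1 : 1 - x ≤ Real.exp (-x) := by linarith [Real.add_one_le_exp (-x)]
  have h7 := pow_le_pow_left₀ (by linarith) h1 k
  rw [← Real.exp_nat_mul] at h7
  have h9 : (k : ℝ) * -x = -(k * x) := by ring
  rwa [h9] at h7

theorem dist_le_24304 {d : ℕ} (u v : S d) : dist u v ≤ 2 := by
  rw [Subtype.dist_eq]
  have h1 := dist_triangle (u : E d) 0 (v : E d)
  have h2 : dist (u : E d) 0 = 1 := u.2
  have h3 : dist (0 : E d) (v : E d) = 1 := by rw [dist_comm]; exact v.2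
  linarith

/-- first pointwise inequality -/
theorem pt1_24304 {D κ μ : ℝ} (hD : 0 ≤ D) (hD2 : D ≤ 2) (hκ : 0 < κ) (hκ2 : κ ≤ 1 / 2) (k : ℕ)
    (hμ : μ = κ * k) (hμ0 : 0 < μ) :
    Real.exp (-(μ * D)) ≤ (1 - κ * D) ^ k + 3 / (2 * μ) * Real.exp (-(μ / 2 * D)) := by
  have hx0 : 0 ≤ κ * D := by positivity
  have hx1 : κ * D ≤ 1 := by nlinarith
  have h1 := pow_lower_24304 hx0 hx1 k
  have h2 : (k : ℝ) * (κ * D) = μ * D := by rw [hμ]; ring
  have h3 : (k : ℝ) * (κ * D) ^ 2 = κ * μ * D ^ 2 := by rw [hμ]; ring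
  rw [h2, h3] at h1
  -- D² exp(-(μ D / 2)) ≤ 3 / μ²
  have h4 := exp_sq_24304 (x := μ / 2 * D) (by positivity)
  have h5 : Real.exp (-(μ / 2 * D)) * Real.exp (μ / 2 * D) = 1 := by
    rw [← Real.exp_add]; simp
  have h6 : Real.exp (-(μ * D)) = Real.exp (-(μ / 2 * D)) * Real.exp (-(μ / 2 * D)) := by
    rw [← Real.exp_add]; congr 1; ring
  set e := Real.exp (-(μ / 2 * D)) with he
  have he0 : 0 < e := Real.exp_pos _
  have h7 : e * (μ ^ 2 * D ^ 2) ≤ 3 := by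
    have h8 : e * (4 / 3 * (μ / 2 * D) ^ 2) ≤ e * Real.exp (μ / 2 * D) :=
      mul_le_mul_of_nonneg_left h4 he0.le
    rw [h5] at h8
    nlinarith
  have h9 : κ * μ * D ^ 2 * Real.exp (-(μ * D)) ≤ 3 / (2 * μ) * e := by
    rw [h6]
    have h10 : κ * μ * D ^ 2 * (e * e) = κ * (e * (μ ^ 2 * D ^ 2)) * e / μ := by
      field_simp
    rw [h10]
    have h11 : 3 / (2 * μ) * e = 1 / 2 * 3 * e / μ := by field_simp
    rw [h11]
    apply div_le_div_of_nonneg_right _ hμ0.le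
    apply mul_le_mul_of_nonneg_right _ he0.le
    exact mul_le_mul hκ2 h7 (by positivity) (by norm_num)
  nlinarith

/-- second pointwise inequality -/
theorem pt2_24304 {D κ μ C t : ℝ} (hD : 0 ≤ D) (hD2 : D ≤ 2) (hκ : 0 < κ) (hκ2 : κ ≤ 1 / 2) (k : ℕ)
    (hμ : μ = κ * k) (hμ0 : 0 < μ) (hC : 0 < C) (ht : 0 < t) :
    (1 - κ * D) ^ k * (C * D / t) ≤ C / (t * μ) * Real.exp (-(μ / 2 * D)) := by
  have hx0 : 0 ≤ κ * D := by positivity
  have hx1 : κ * D ≤ 1 := by nlinarith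
  have h1 := pow_upper_24304 hx1 k
  have h2 : (k : ℝ) * (κ * D) = μ * D := by rw [hμ]; ring
  rw [h2] at h1
  have h4 := exp_two_24304 (x := μ / 2 * D) (by positivity)
  have h5 : Real.exp (-(μ / 2 * D)) * Real.exp (μ / 2 * D) = 1 := by
    rw [← Real.exp_add]; simp
  have h6 : Real.exp (-(μ * D)) = Real.exp (-(μ / 2 * D)) * Real.exp (-(μ / 2 * D)) := by
    rw [← Real.exp_add]; congr 1; ring
  set e := Real.exp (-(μ / 2 * D)) with he
  have he0 : 0 < e := Real.exp_pos _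
  have h7 : e * (μ * D) ≤ 1 := by
    have h8 : e * (2 * (μ / 2 * D)) ≤ e * Real.exp (μ / 2 * D) :=
      mul_le_mul_of_nonneg_left h4 he0.le
    rw [h5] at h8
    nlinarith
  calc (1 - κ * D) ^ k * (C * D / t) ≤ Real.exp (-(μ * D)) * (C * D / t) :=
        mul_le_mul_of_nonneg_right h1 (by positivity)
    _ = C / (t * μ) * e * (e * (μ * D)) := by
        rw [h6]
        field_simp
    _ ≤ C / (t * μ) * e * 1 := mul_le_mul_of_nonneg_left h7 (by positivity)
    _ = C / (t * μ) * e := mul_one _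

theorem bg_real (d : ℕ) (hd : 1 ≤ d) (s : ℝ) (hs : 0 < s) (hsd : s < d) (κ C₂ : ℝ) (hκ : 0 < κ)
    (hκ2 : κ ≤ 1 / 2) (hC₂ : 0 < C₂) (t : ℝ) (ht : 0 < t) (ht1 : t ≤ 1) (k : ℕ) (hk : 1 ≤ k)
    (n : ℕ) (R : ℝ) (hR : 0 ≤ R)
    (h : (n : ℝ≥0∞) ^ 2 * ∫⁻ u : S d, ∫⁻ v : S d,
        ENNReal.ofReal (K s u v * (1 - κ * dist u v) ^ k) ∂(sg d) ∂(sg d) ≤
      ENNReal.ofReal R + (n : ℝ≥0∞) ^ 2 * ∫⁻ u : S d, ∫⁻ v : S d,
        ENNReal.ofReal (K s u v * (1 - κ * dist u v) ^ k * (C₂ * dist u v / t))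
          ∂(sg d) ∂(sg d)) :
    (n : ℝ) ^ 2 * (J d s (κ * k) - (2 + C₂) / (t * (κ * k)) * J d s (κ * k / 2)) ≤ R := by
  haveI := sg_prob d
  set μ : ℝ := κ * k with hμ
  have hk' : (1 : ℝ) ≤ k := by exact_mod_cast hk
  have hμ0 : 0 < μ := by positivity
  obtain ⟨hJ1, hJ1p, -⟩ := KL_const d hd s μ hs hsd hμ0.le
  obtain ⟨hJ2, hJ2p, -⟩ := KL_const d hd s (μ / 2) hs hsd (by positivity)
  have hK0 : ∀ u v : S d, 0 ≤ K s u v := fun u v => Real.rpow_nonneg dist_nonneg _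
  have hKL : ∀ (lam : ℝ) (u v : S d), KL s lam u v = K s u v * Real.exp (-(lam * dist u v)) :=
    fun _ _ _ => rfl
  have hKL0 : ∀ (lam : ℝ) (u v : S d), 0 ≤ KL s lam u v := fun lam u v =>
    mul_nonneg (hK0 u v) (Real.exp_pos _).le
  set J1 := J d s μ with hJ1d
  set J2 := J d s (μ / 2) with hJ2d
  set A : ℝ≥0∞ := ∫⁻ u : S d, ∫⁻ v : S d,
        ENNReal.ofReal (K s u v * (1 - κ * dist u v) ^ k) ∂(sg d) ∂(sg d) with hA
  set B : ℝ≥0∞ := ∫⁻ u : S d, ∫⁻ v : S d,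
        ENNReal.ofReal (K s u v * (1 - κ * dist u v) ^ k * (C₂ * dist u v / t))
          ∂(sg d) ∂(sg d) with hB
  have hconst : ∀ c : ℝ, 0 ≤ c → ∀ u : S d, ∫⁻ v : S d, ENNReal.ofReal (c * KL s (μ / 2) u v) ∂(sg d)
      = ENNReal.ofReal (c * J2) := by
    intro c hc u
    rw [ENNReal.ofReal_mul hc, ← (hJ2 u).2.2, ← lintegral_const_mul']
    · apply lintegral_congr
      intro v
      rw [ENNReal.ofReal_mul hc]
    · exact ENNReal.ofReal_ne_top
  have hAlow : ENNReal.ofReal J1 ≤ A + ENNReal.ofReal (3 / (2 * μ) * J2) := by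
    have h1 : ∀ u : S d, ENNReal.ofReal J1 ≤
        (∫⁻ v : S d, ENNReal.ofReal (K s u v * (1 - κ * dist u v) ^ k) ∂(sg d)) +
          ENNReal.ofReal (3 / (2 * μ) * J2) := by
      intro u
      rw [← (hJ1 u).2.2, ← hconst (3 / (2 * μ)) (by positivity) u]
      rw [← lintegral_add_right']
      · apply lintegral_mono
        intro v
        have hb : 0 ≤ 1 - κ * dist u v := by
          have := dist_le_24304 u v
          nlinarith
        show ENNReal.ofReal (KL s μ u v) ≤ ENNReal.ofReal (K s u v * (1 - κ * dist u v) ^ k) +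
          ENNReal.ofReal (3 / (2 * μ) * KL s (μ / 2) u v)
        rw [← ENNReal.ofReal_add (mul_nonneg (hK0 u v) (pow_nonneg hb k))
          (mul_nonneg (by positivity) (hKL0 _ u v))]
        apply ENNReal.ofReal_le_ofReal
        have h2 := pt1_24304 (D := dist u v) dist_nonneg (dist_le_24304 u v) hκ hκ2 k hμ hμ0
        have h3 := mul_le_mul_of_nonneg_left h2 (hK0 u v)
        rw [hKL, hKL]
        calc K s u v * Real.exp (-(μ * dist u v)) ≤ _ := h3
          _ = _ := by ring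
      · exact (((hJ2 u).1.aestronglyMeasurable.aemeasurable).const_mul _).ennreal_ofReal
    calc ENNReal.ofReal J1 = ∫⁻ _u : S d, ENNReal.ofReal J1 ∂(sg d) := by
          rw [lintegral_const, measure_univ, mul_one]
      _ ≤ ∫⁻ u : S d, ((∫⁻ v : S d, ENNReal.ofReal (K s u v * (1 - κ * dist u v) ^ k) ∂(sg d)) +
          ENNReal.ofReal (3 / (2 * μ) * J2)) ∂(sg d) := lintegral_mono h1
      _ = A + ENNReal.ofReal (3 / (2 * μ) * J2) := by
          rw [lintegral_add_right' _ aemeasurable_const, lintegral_const, measure_univ, mul_one]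
  have hBup : B ≤ ENNReal.ofReal (C₂ / (t * μ) * J2) := by
    calc B ≤ ∫⁻ _u : S d, ENNReal.ofReal (C₂ / (t * μ) * J2) ∂(sg d) := by
          apply lintegral_mono
          intro u
          rw [← hconst (C₂ / (t * μ)) (by positivity) u]
          apply lintegral_mono
          intro v
          apply ENNReal.ofReal_le_ofReal
          have h2 := pt2_24304 (D := dist u v) (C := C₂) (t := t) dist_nonneg (dist_le_24304 u v)
            hκ hκ2 k hμ hμ0 hC₂ ht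
          have h3 := mul_le_mul_of_nonneg_left h2 (hK0 u v)
          rw [hKL]
          calc K s u v * (1 - κ * dist u v) ^ k * (C₂ * dist u v / t) =
              K s u v * ((1 - κ * dist u v) ^ k * (C₂ * dist u v / t)) := by ring
            _ ≤ _ := h3
            _ = _ := by ring
      _ = ENNReal.ofReal (C₂ / (t * μ) * J2) := by
          rw [lintegral_const, measure_univ, mul_one]
  have hn : (n : ℝ≥0∞) ^ 2 = ENNReal.ofReal ((n : ℝ) ^ 2) := by
    rw [ENNReal.ofReal_pow (Nat.cast_nonneg n), ENNReal.ofReal_natCast]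
  have hfin : ENNReal.ofReal ((n : ℝ) ^ 2 * J1) ≤
      ENNReal.ofReal (R + (n : ℝ) ^ 2 * (C₂ / (t * μ) * J2) + (n : ℝ) ^ 2 * (3 / (2 * μ) * J2)) := by
    have hc2 : 0 ≤ C₂ / (t * μ) * J2 := by positivity
    have hc1 : 0 ≤ 3 / (2 * μ) * J2 := by positivity
    rw [ENNReal.ofReal_add (by positivity) (by positivity),
      ENNReal.ofReal_add hR (by positivity), ENNReal.ofReal_mul (by positivity),
      ENNReal.ofReal_mul (p := (n : ℝ) ^ 2) (by positivity),
      ENNReal.ofReal_mul (p := (n : ℝ) ^ 2) (by positivity), ← hn]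
    calc (n : ℝ≥0∞) ^ 2 * ENNReal.ofReal J1
        ≤ (n : ℝ≥0∞) ^ 2 * (A + ENNReal.ofReal (3 / (2 * μ) * J2)) := by gcongr
      _ = (n : ℝ≥0∞) ^ 2 * A + (n : ℝ≥0∞) ^ 2 * ENNReal.ofReal (3 / (2 * μ) * J2) := mul_add _ _ _
      _ ≤ (ENNReal.ofReal R + (n : ℝ≥0∞) ^ 2 * B) +
          (n : ℝ≥0∞) ^ 2 * ENNReal.ofReal (3 / (2 * μ) * J2) := by gcongr
      _ ≤ _ := by gcongr
  have hreal := (ENNReal.ofReal_le_ofReal_iff (by positivity)).1 hfin
  have hcomp : C₂ / (t * μ) * J2 + 3 / (2 * μ) * J2 ≤ (2 + C₂) / (t * μ) * J2 := by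
    rw [← add_mul]
    apply mul_le_mul_of_nonneg_right _ hJ2p.le
    have h1 : 3 / (2 * μ) ≤ 2 / (t * μ) := by
      rw [div_le_div_iff₀ (by positivity) (by positivity)]
      nlinarith
    calc C₂ / (t * μ) + 3 / (2 * μ) ≤ C₂ / (t * μ) + 2 / (t * μ) := by linarith
      _ = (2 + C₂) / (t * μ) := by rw [← add_div, add_comm]
  have hn0 : 0 ≤ (n : ℝ) ^ 2 := by positivity
  have h5 := mul_le_mul_of_nonneg_left hcomp hn0
  nlinarith

end Pool.Agent.Helper88.SE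

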