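import Pool.Agent.Helper88.SE.Defs
import Pool.Agent.Helper88.SE.P_F_upper
import Pool.Agent.Helper88.SE.P_star
import Pool.Agent.Helper88.SE.P_TRavg
import Pool.Agent.Helper88.SE.P_bg_real

set_option autoImplicit false

open MeasureTheory Set Filter Topology
open scoped ENNReal

namespace Pool.Agent.Helper88.SE



theorem TR2 (d : ℕ) (hd : 1 ≤ d) (s : ℝ) (hs : 0 < s) (hsd : s < d) :
    ∃ (κ C' C₃ : ℝ) (n₀ : ℕ), 0 < κ ∧ 0 < C' ∧ 0 < C₃ ∧ ∀ (n N : ℕ), n₀ ≤ n → 1 ≤ N →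
    ∀ (x : Fin N → S d), Function.Injective x → ∀ (r ρ : ℝ), 0 < r → r ≤ 1 → 0 < ρ → ρ ≤ 1 →
    (N : ℝ) * ((1 + ρ ^ 2) ^ (-(((d : ℝ) + 1) / 2)) * r ^ (-(d : ℝ))) = n →
    ∀ k : ℕ, 1 ≤ k →
    F d s n - C' * (n : ℝ) ^ (2 * s / d) ≤
      ((n : ℝ) / N) * (r / (1 + ρ ^ 2)) ^ (-s) * EL s (κ * k * r / (1 + ρ ^ 2)) x -
      (n : ℝ) ^ 2 * (J d s (κ * k) - C₃ / (r * ρ * (κ * k)) * J d s (κ * k / 2)) := by
  obtain ⟨κ, C₂, hκ, hκ2, hC₂, hav⟩ := TRavg d hd s hs hsd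
  obtain ⟨C', n₀, hC', _, hst⟩ := star d hd s hs hsd
  refine ⟨κ, C', 2 + C₂, n₀, hκ, hC', by linarith, ?_⟩
  intro n N hn hN x hx r ρ hr hr1 hρ hρ1 heq k hk
  have hm0 : F d s n - C' * (n : ℝ) ^ (2 * s / d) ≤ 0 := by
    have h1 := (F_upper d hd s hs hsd n).1
    have h2 : 0 ≤ C' * (n : ℝ) ^ (2 * s / d) := by positivity
    linarith
  have h1 := hav n N hN _ hm0 (hst n hn) x hx r ρ hr hr1 hρ hρ1 heq k
  have hEL : 0 ≤ EL s (κ * k * r / (1 + ρ ^ 2)) x := by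
    unfold EL KL
    apply Finset.sum_nonneg
    intro i _
    apply Finset.sum_nonneg
    intro j _
    positivity
  have ha : 0 ≤ ((n : ℝ) / N) * (r / (1 + ρ ^ 2)) ^ (-s) * EL s (κ * k * r / (1 + ρ ^ 2)) x := by
    apply mul_nonneg _ hEL
    positivity
  rw [← ENNReal.ofReal_add ha (by linarith)] at h1
  have h2 := bg_real d hd s hs hsd κ C₂ hκ hκ2 hC₂ (r * ρ) (mul_pos hr hρ)
    (mul_le_one₀ hr1 hρ.le hρ1) k hk n _ (add_nonneg ha (by linarith)) h1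
  linarith

end Pool.Agent.Helper88.SE
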