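import Pool.Agent.Helper88.SE.Defs
import Pool.Agent.Helper88.SE.P_rr_facts
import Pool.Agent.Helper88.SE.P_kk_facts

set_option autoImplicit false

open MeasureTheory Set Filter Topology
open scoped ENNReal

namespace Pool.Agent.Helper88.SE

theorem mu_lim (d N : ℕ) (hd : 1 ≤ d) (hN : 1 ≤ N) (s ρ κ lam : ℝ) (hρ : 0 < ρ) (hκ : 0 < κ)
    (hlam : 0 < lam) (hs : 0 < s) (hsd : s < d) :
    Tendsto (fun n : ℕ => (n : ℝ) ^ (1 - s / d) * (κ * (kk d N ρ κ lam n : ℝ)) ^ (s - d)) atTop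
      (𝓝 ((1 + ρ ^ 2) ^ (-((((d : ℝ) + 1) / 2) * (1 - s / d) + (d - s))) *
        ((N : ℝ) ^ (1 - s / d) * lam ^ (s - d)))) := by
  obtain ⟨hk1, -, hk3⟩ := kk_facts d N hd hN ρ κ lam hρ hκ hlam
  obtain ⟨hr1, -, -⟩ := rr_facts d N hd hN ρ hρ
  have hd0 : (0 : ℝ) < d := by exact_mod_cast hd
  have hN0 : (0 : ℝ) < N := by exact_mod_cast hN
  have hq : (0 : ℝ) < 1 + ρ ^ 2 := by positivity
  set c : ℝ := (1 + ρ ^ 2) ^ (-(((d : ℝ) + 1) / 2)) with hc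
  have hc0 : 0 < c := Real.rpow_pos_of_pos hq _
  have hlim : Tendsto (fun n : ℕ => ((N : ℝ) * c) ^ (1 - s / d) *
      (κ * (kk d N ρ κ lam n : ℝ) * rr d N ρ n) ^ (s - d)) atTop
      (𝓝 (((N : ℝ) * c) ^ (1 - s / d) * (lam * (1 + ρ ^ 2)) ^ (s - d))) := by
    refine Tendsto.const_mul _ ?_
    exact (Real.continuousAt_rpow_const _ _ (Or.inl (by positivity))).tendsto.comp hk3
  have heq : ((N : ℝ) * c) ^ (1 - s / d) * (lam * (1 + ρ ^ 2)) ^ (s - d) =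
      (1 + ρ ^ 2) ^ (-((((d : ℝ) + 1) / 2) * (1 - s / d) + (d - s))) *
        ((N : ℝ) ^ (1 - s / d) * lam ^ (s - d)) := by
    rw [Real.mul_rpow hN0.le hc0.le, Real.mul_rpow hlam.le hq.le, hc, ← Real.rpow_mul hq.le]
    have : (1 + ρ ^ 2) ^ (-((((d : ℝ) + 1) / 2) * (1 - s / d) + (d - s))) =
        (1 + ρ ^ 2) ^ (-(((d : ℝ) + 1) / 2) * (1 - s / d)) * (1 + ρ ^ 2) ^ (s - (d : ℝ)) := by
      rw [← Real.rpow_add hq]
      congr 1
      ring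
    rw [this]
    ring
  rw [← heq]
  refine hlim.congr' ?_
  filter_upwards [eventually_ge_atTop 1] with n hn
  have hn0 : (0 : ℝ) < n := by exact_mod_cast hn
  obtain ⟨hr, -⟩ := hr1 n hn
  obtain ⟨hk, -⟩ := hk1 n hn
  have hk0 : (0 : ℝ) < (kk d N ρ κ lam n : ℝ) := by exact_mod_cast hk
  have hμ : 0 < κ * (kk d N ρ κ lam n : ℝ) := mul_pos hκ hk0
  rw [Real.mul_rpow hμ.le hr.le]
  have h1 : (n : ℝ) ^ (1 - s / d) = ((N : ℝ) * c) ^ (1 - s / d) * (rr d N ρ n) ^ (s - d) := by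
    unfold rr
    rw [← hc, ← Real.rpow_mul (by positivity)]
    have h2 : 1 / (d : ℝ) * (s - d) = -(1 - s / d) := by
      field_simp
      ring
    rw [h2, Real.rpow_neg (by positivity), Real.div_rpow (by positivity) hn0.le]
    have h3 : (0 : ℝ) < ((N : ℝ) * c) ^ (1 - s / d) := Real.rpow_pos_of_pos (by positivity) _
    have h4 : (0 : ℝ) < (n : ℝ) ^ (1 - s / d) := Real.rpow_pos_of_pos hn0 _
    field_simp
  rw [h1]
  ring

end Pool.Agent.Helper88.SE
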