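import Pool.Agent.Helper88.SE.Defs
import Pool.Agent.Helper88.SE.P_rr_facts
import Pool.Agent.Helper88.SE.P_kk_facts
import Pool.Agent.Helper88.SE.P_mu_lim

set_option autoImplicit false

open MeasureTheory Set Filter Topology
open scoped ENNReal

namespace Pool.Agent.Helper88.SE



theorem bg_lim (d N : ℕ) (hd : 1 ≤ d) (hN : 1 ≤ N) (s ρ κ lam cinf C₃ : ℝ) (hρ : 0 < ρ)
    (hκ : 0 < κ) (hlam : 0 < lam) (hs : 0 < s) (hsd : s < d)
    (hJ : Tendsto (fun lam : ℝ => lam ^ ((d : ℝ) - s) * J d s lam) atTop (𝓝 cinf)) :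
    Tendsto (fun n : ℕ => (n : ℝ) ^ (1 - s / d) * (J d s (κ * (kk d N ρ κ lam n : ℝ)) -
        C₃ / (rr d N ρ n * ρ * (κ * (kk d N ρ κ lam n : ℝ))) *
          J d s (κ * (kk d N ρ κ lam n : ℝ) / 2))) atTop
      (𝓝 ((1 + ρ ^ 2) ^ (-((((d : ℝ) + 1) / 2) * (1 - s / d) + (d - s))) *
        ((N : ℝ) ^ (1 - s / d) * lam ^ (s - d)) *
        (cinf * (1 - C₃ * 2 ^ ((d : ℝ) - s) / (ρ * (lam * (1 + ρ ^ 2))))))) := by
  set μ : ℕ → ℝ := fun n => κ * (kk d N ρ κ lam n : ℝ) with hμdef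
  obtain ⟨hk1, hk2, hk3⟩ := kk_facts d N hd hN ρ κ lam hρ hκ hlam
  have hμ : Tendsto μ atTop atTop := hk2
  have hμ2 : Tendsto (fun n => μ n / 2) atTop atTop := hμ.atTop_div_const (by norm_num)
  have c1 := hJ.comp hμ
  have c2 := hJ.comp hμ2
  have hA := mu_lim d N hd hN s ρ κ lam hρ hκ hlam hs hsd
  have hq : ρ * (lam * (1 + ρ ^ 2)) ≠ 0 := by positivity
  have t3 : Tendsto (fun n => C₃ / (ρ * (μ n * rr d N ρ n))) atTop
      (𝓝 (C₃ / (ρ * (lam * (1 + ρ ^ 2))))) :=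
    tendsto_const_nhds.div (hk3.const_mul ρ) hq
  have hmain := hA.mul (c1.sub ((t3.mul_const ((2 : ℝ) ^ ((d : ℝ) - s))).mul c2))
  have hlimeq : (1 + ρ ^ 2) ^ (-((((d : ℝ) + 1) / 2) * (1 - s / d) + (d - s))) *
        ((N : ℝ) ^ (1 - s / d) * lam ^ (s - d)) *
        (cinf - C₃ / (ρ * (lam * (1 + ρ ^ 2))) * 2 ^ ((d : ℝ) - s) * cinf) =
      (1 + ρ ^ 2) ^ (-((((d : ℝ) + 1) / 2) * (1 - s / d) + (d - s))) *
        ((N : ℝ) ^ (1 - s / d) * lam ^ (s - d)) *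
        (cinf * (1 - C₃ * 2 ^ ((d : ℝ) - s) / (ρ * (lam * (1 + ρ ^ 2))))) := by
    ring
  rw [hlimeq] at hmain
  refine hmain.congr' ?_
  filter_upwards [hμ.eventually (eventually_gt_atTop 0)] with n hn
  have e1 : J d s (μ n) = μ n ^ (s - d) * (μ n ^ ((d : ℝ) - s) * J d s (μ n)) := by
    rw [← mul_assoc, ← Real.rpow_add hn]
    simp
  have e2 : J d s (μ n / 2) = μ n ^ (s - d) * (2 ^ ((d : ℝ) - s) *
      ((μ n / 2) ^ ((d : ℝ) - s) * J d s (μ n / 2))) := by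
    have h2 : (2 : ℝ) ^ ((d : ℝ) - s) * (μ n / 2) ^ ((d : ℝ) - s) = μ n ^ ((d : ℝ) - s) := by
      rw [← Real.mul_rpow (by norm_num) (by positivity)]
      congr 1
      ring
    rw [← mul_assoc (2 ^ ((d : ℝ) - s)), h2, ← mul_assoc, ← Real.rpow_add hn]
    simp
  show (n : ℝ) ^ (1 - s / d) * μ n ^ (s - d) *
      (μ n ^ ((d : ℝ) - s) * J d s (μ n) - C₃ / (ρ * (μ n * rr d N ρ n)) * 2 ^ ((d : ℝ) - s) *
        ((μ n / 2) ^ ((d : ℝ) - s) * J d s (μ n / 2))) =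
    (n : ℝ) ^ (1 - s / d) * (J d s (μ n) - C₃ / (rr d N ρ n * ρ * μ n) * J d s (μ n / 2))
  have e3 : rr d N ρ n * ρ * μ n = ρ * (μ n * rr d N ρ n) := by ring
  rw [e3]
  conv_rhs => rw [e1, e2]
  ring

end Pool.Agent.Helper88.SE
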