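import Pool.Agent.Helper88.SE.Defs
import Pool.Agent.Helper88.SE.P_J_lim
import Pool.Agent.Helper88.SE.P_TR2
import Pool.Agent.Helper88.SE.P_rr_facts
import Pool.Agent.Helper88.SE.P_kk_facts
import Pool.Agent.Helper88.SE.P_bg_lim

set_option autoImplicit false

open MeasureTheory Set Filter Topology
open scoped ENNReal

namespace Pool.Agent.Helper88.SE



theorem TR3_EL_anti {d : ℕ} (s : ℝ) {a b : ℝ} (hab : a ≤ b) {N : ℕ} (x : Fin N → S d) :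
    EL s b x ≤ EL s a x := by
  unfold EL
  refine Finset.sum_le_sum fun i _ => Finset.sum_le_sum fun j _ => ?_
  unfold KL
  refine mul_le_mul_of_nonneg_left ?_ (Real.rpow_nonneg dist_nonneg _)
  refine Real.exp_le_exp.2 (neg_le_neg ?_)
  exact mul_le_mul_of_nonneg_right hab dist_nonneg

theorem TR3_EL_nonneg {d : ℕ} (s a : ℝ) {N : ℕ} (x : Fin N → S d) : 0 ≤ EL s a x := by
  unfold EL
  refine Finset.sum_nonneg fun i _ => Finset.sum_nonneg fun j _ => ?_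
  unfold KL
  exact mul_nonneg (Real.rpow_nonneg dist_nonneg _) (Real.exp_pos _).le

theorem TR3_coef (d : ℕ) (hd : 1 ≤ d) (s n N r q : ℝ) (hn : 0 < n) (hN : 0 < N) (hr : 0 < r)
    (hq : 0 < q) (h : N * (q ^ (-(((d : ℝ) + 1) / 2)) * r ^ (-(d : ℝ))) = n) :
    n / N * (r / q) ^ (-s) / n ^ (1 + s / d) =
      q ^ ((((d : ℝ) + 1) / 2) * (s / d) + s) * N ^ (-(1 + s / d)) := by
  have hd0 : (0 : ℝ) < d := by exact_mod_cast (by omega : 0 < d)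
  have h1 : r ^ (-(d : ℝ)) = n / N * q ^ (((d : ℝ) + 1) / 2) := by
    have h2 : q ^ (-(((d : ℝ) + 1) / 2)) * q ^ (((d : ℝ) + 1) / 2) = 1 := by
      rw [← Real.rpow_add hq]; simp
    rw [← h]
    field_simp
    have h3 : q ^ (-(((d : ℝ) + 1) / 2)) * r ^ (-(d : ℝ)) * q ^ (((d : ℝ) + 1) / 2) =
        r ^ (-(d : ℝ)) * (q ^ (-(((d : ℝ) + 1) / 2)) * q ^ (((d : ℝ) + 1) / 2)) := by ring
    first
      | (rw [h3, h2, mul_one])
      | (rw [eq_comm, h3, h2, mul_one])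
      | (nlinarith [h2, h3])
  have h4 : r ^ (-s) = (n / N) ^ (s / d) * q ^ ((((d : ℝ) + 1) / 2) * (s / d)) := by
    have h5 : r ^ (-s) = (r ^ (-(d : ℝ))) ^ (s / d) := by
      rw [← Real.rpow_mul hr.le]
      congr 1
      field_simp
    rw [h5, h1, Real.mul_rpow (by positivity) (by positivity), ← Real.rpow_mul hq.le]
  have h6 : (r / q) ^ (-s) = r ^ (-s) * q ^ s := by
    rw [Real.div_rpow hr.le hq.le, Real.rpow_neg hq.le s, div_inv_eq_mul]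
  rw [h6, h4, Real.div_rpow hn.le hN.le, Real.rpow_add hq, Real.rpow_neg hN.le,
    Real.rpow_add hn, Real.rpow_add hN, Real.rpow_one, Real.rpow_one]
  have h7 : n ^ (s / d) ≠ 0 := (Real.rpow_pos_of_pos hn _).ne'
  have h8 : N ^ (s / d) ≠ 0 := (Real.rpow_pos_of_pos hN _).ne'
  field_simp

theorem TR3 (d : ℕ) (hd : 1 ≤ d) (s : ℝ) (hs : 0 < s) (hsd : s < d) :
    ∃ (cinf C₄ e₀ e₁ : ℝ), 0 < cinf ∧ 0 < C₄ ∧ 0 ≤ e₀ ∧ 0 ≤ e₁ ∧
    Tendsto (fun lam : ℝ => lam ^ ((d : ℝ) - s) * J d s lam) atTop (𝓝 cinf) ∧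
    ∀ (N : ℕ), 1 ≤ N → ∀ (x : Fin N → S d), Function.Injective x → ∀ (ρ : ℝ), 0 < ρ → ρ ≤ 1 →
    ∀ lam : ℝ, 0 < lam → ∀ ε : ℝ, 0 < ε → ∀ᶠ n : ℕ in atTop,
      F d s n / (n : ℝ) ^ (1 + s / d) ≤
        (1 + ρ ^ 2) ^ e₀ * ((N : ℝ) ^ (-(1 + s / d)) * EL s lam x) -
        (1 + ρ ^ 2) ^ (-e₁) * ((N : ℝ) ^ (1 - s / d) * lam ^ (s - d)) *
          (cinf * (1 - C₄ / (ρ * lam))) + ε := by
  obtain ⟨cinf, hc, hJ⟩ := J_lim d hd s hs hsd
  obtain ⟨κ, C', C₃, n₀, hκ, hC', hC₃, htr⟩ := TR2 d hd s hs hsd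
  have hd0 : (0 : ℝ) < d := by exact_mod_cast (by omega : 0 < d)
  have hsd1 : s / d < 1 := by rw [div_lt_one hd0]; exact hsd
  have hsd0 : 0 < s / d := by positivity
  refine ⟨cinf, C₃ * 2 ^ ((d : ℝ) - s), (((d : ℝ) + 1) / 2) * (s / d) + s,
    (((d : ℝ) + 1) / 2) * (1 - s / d) + (d - s), hc, by positivity, by positivity, ?_, hJ, ?_⟩
  · have h1 : 0 ≤ (((d : ℝ) + 1) / 2) * (1 - s / d) :=
      mul_nonneg (by positivity) (by linarith)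
    linarith
  intro N hN x hx ρ hρ hρ1 lam hlam ε hε
  have hq : (0 : ℝ) < 1 + ρ ^ 2 := by positivity
  have hq1 : (1 : ℝ) ≤ 1 + ρ ^ 2 := by nlinarith
  have hN0 : (0 : ℝ) < N := by exact_mod_cast (by omega : 0 < N)
  obtain ⟨hr1, hr2, hr3⟩ := rr_facts d N hd hN ρ hρ
  obtain ⟨hk1, hk2, hk3⟩ := kk_facts d N hd hN ρ κ lam hρ hκ hlam
  have hbg := bg_lim d N hd hN s ρ κ lam cinf C₃ hρ hκ hlam hs hsd hJ
  set Lim : ℝ := (1 + ρ ^ 2) ^ (-((((d : ℝ) + 1) / 2) * (1 - s / d) + (d - s))) *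
        ((N : ℝ) ^ (1 - s / d) * lam ^ (s - d)) *
        (cinf * (1 - C₃ * 2 ^ ((d : ℝ) - s) / (ρ * (lam * (1 + ρ ^ 2))))) with hLim
  have hev1 := (tendsto_order.1 hbg).1 (Lim - ε / 2) (by linarith)
  have hpow : Tendsto (fun n : ℕ => C' * (n : ℝ) ^ (-(1 - s / d))) atTop (𝓝 (C' * 0)) :=
    ((tendsto_rpow_neg_atTop (by linarith : 0 < 1 - s / d)).comp
      tendsto_natCast_atTop_atTop).const_mul C'
  rw [mul_zero] at hpow
  have hev2 := (tendsto_order.1 hpow).2 (ε / 2) (by linarith)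
  filter_upwards [hev1, hev2, eventually_ge_atTop n₀, eventually_ge_atTop N,
    eventually_ge_atTop 1] with n h1 h2 h3 h4 h5
  have hn0 : (0 : ℝ) < n := by exact_mod_cast (by omega : 0 < n)
  obtain ⟨hrpos, hrn⟩ := hr1 n h5
  have hrle := hr2 n h4
  obtain ⟨hk, hlk⟩ := hk1 n h5
  have hmain := htr n N h3 hN x hx (rr d N ρ n) ρ hrpos hrle hρ hρ1 hrn (kk d N ρ κ lam n) hk
  have hp : 0 < (n : ℝ) ^ (1 + s / d) := Real.rpow_pos_of_pos hn0 _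
  have hcoef := TR3_coef d hd s n N (rr d N ρ n) (1 + ρ ^ 2) hn0 hN0 hrpos hq hrn
  have hcoef0 : 0 ≤ (n : ℝ) / N * (rr d N ρ n / (1 + ρ ^ 2)) ^ (-s) := by positivity
  have hEL := TR3_EL_anti (d := d) s hlk x
  set B : ℝ := J d s (κ * (kk d N ρ κ lam n : ℝ)) -
        C₃ / (rr d N ρ n * ρ * (κ * (kk d N ρ κ lam n : ℝ))) *
          J d s (κ * (kk d N ρ κ lam n : ℝ) / 2) with hB
  have hmain2 : F d s n ≤ C' * (n : ℝ) ^ (2 * s / d) +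
      (n : ℝ) / N * (rr d N ρ n / (1 + ρ ^ 2)) ^ (-s) * EL s lam x - (n : ℝ) ^ 2 * B := by
    have h6 := mul_le_mul_of_nonneg_left hEL hcoef0
    linarith
  have hdiv : F d s n / (n : ℝ) ^ (1 + s / d) ≤ (C' * (n : ℝ) ^ (2 * s / d) +
      (n : ℝ) / N * (rr d N ρ n / (1 + ρ ^ 2)) ^ (-s) * EL s lam x - (n : ℝ) ^ 2 * B) /
      (n : ℝ) ^ (1 + s / d) := div_le_div_of_nonneg_right hmain2 hp.le
  have he1 : C' * (n : ℝ) ^ (2 * s / d) / (n : ℝ) ^ (1 + s / d) = C' * (n : ℝ) ^ (-(1 - s / d)) := by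
    rw [mul_div_assoc, ← Real.rpow_sub hn0]
    congr 2
    ring
  have he2 : (n : ℝ) / N * (rr d N ρ n / (1 + ρ ^ 2)) ^ (-s) * EL s lam x /
      (n : ℝ) ^ (1 + s / d) = (1 + ρ ^ 2) ^ ((((d : ℝ) + 1) / 2) * (s / d) + s) *
        ((N : ℝ) ^ (-(1 + s / d)) * EL s lam x) := by
    rw [mul_div_right_comm, hcoef]; ring
  have he3 : (n : ℝ) ^ 2 * B / (n : ℝ) ^ (1 + s / d) = (n : ℝ) ^ (1 - s / d) * B := by
    rw [mul_div_right_comm]
    congr 1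
    rw [← Real.rpow_natCast (n : ℝ) 2, ← Real.rpow_sub hn0]
    congr 1
    push_cast
    ring
  rw [sub_div, add_div, he1, he2, he3] at hdiv
  have hfin : (1 + ρ ^ 2) ^ (-((((d : ℝ) + 1) / 2) * (1 - s / d) + (d - s))) *
        ((N : ℝ) ^ (1 - s / d) * lam ^ (s - d)) *
        (cinf * (1 - C₃ * 2 ^ ((d : ℝ) - s) / (ρ * lam))) ≤ Lim := by
    rw [hLim]
    refine mul_le_mul_of_nonneg_left (mul_le_mul_of_nonneg_left ?_ hc.le) (by positivity)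
    refine sub_le_sub_left ?_ _
    refine div_le_div_of_nonneg_left (by positivity) (by positivity) ?_
    nlinarith [mul_pos hρ hlam]
  linarith

end Pool.Agent.Helper88.SE
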