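import Pool.Agent.Helper88.SE.Defs

set_option autoImplicit false

open MeasureTheory Set Filter Topology
open scoped ENNReal

namespace Pool.Agent.Helper88.SE



theorem cs_bound_aux (s v : ℝ) (hv0 : 0 ≤ v) (hv : v ≤ 1 / 2) :
    |(1 - v) ^ (s - 1) - 1| ≤ 2 * |s - 1| * Real.exp |s - 1| * v := by
  have h1 : 0 < 1 - v := by linarith
  set x := Real.log (1 - v) * (s - 1) with hx
  have hrp : (1 - v) ^ (s - 1) = Real.exp x := by rw [Real.rpow_def_of_pos h1]
  have hlog1 : Real.log (1 - v) ≤ 0 := Real.log_nonpos h1.le (by linarith)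
  have hlog2 : -(2 * v) ≤ Real.log (1 - v) := by
    have h2 := Real.one_sub_inv_le_log_of_pos h1
    have h3 : -(2 * v) ≤ 1 - (1 - v)⁻¹ := by
      rw [inv_eq_one_div, le_sub_iff_add_le, ← le_sub_iff_add_le', div_le_iff₀ h1]
      nlinarith
    linarith
  have hxa : |x| ≤ 2 * |s - 1| * v := by
    rw [hx, abs_mul, abs_of_nonpos hlog1]
    have := abs_nonneg (s - 1)
    nlinarith
  have hxa' : |x| ≤ |s - 1| := by
    have := abs_nonneg (s - 1)
    nlinarith
  have hup : Real.exp x - 1 ≤ |x| * Real.exp |x| := by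
    have h4 : 1 - x ≤ Real.exp (-x) := by
      have := Real.add_one_le_exp (-x)
      linarith
    have h5 : (1 - x) * Real.exp x ≤ 1 := by
      have := mul_le_mul_of_nonneg_right h4 (Real.exp_pos x).le
      rwa [← Real.exp_add, neg_add_cancel, Real.exp_zero] at this
    have h6 : x * Real.exp x ≤ |x| * Real.exp |x| :=
      mul_le_mul (le_abs_self x) (Real.exp_le_exp.2 (le_abs_self x)) (Real.exp_pos _).le
        (abs_nonneg _)
    nlinarith
  have hlo : -(|x| * Real.exp |x|) ≤ Real.exp x - 1 := by
    have h7 := Real.add_one_le_exp x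
    have h8 := neg_abs_le x
    have h9 : |x| ≤ |x| * Real.exp |x| :=
      le_mul_of_one_le_right (abs_nonneg _) (Real.one_le_exp (abs_nonneg _))
    linarith
  have h10 : |x| * Real.exp |x| ≤ 2 * |s - 1| * Real.exp |s - 1| * v := by
    calc |x| * Real.exp |x| ≤ (2 * |s - 1| * v) * Real.exp |s - 1| :=
          mul_le_mul hxa (Real.exp_le_exp.2 hxa') (Real.exp_pos _).le (by positivity)
      _ = _ := by ring
  rw [hrp, abs_le]
  constructor <;> linarith

theorem cs_bound (s : ℝ) (hs : 0 < s) : ∃ C : ℝ, 0 < C ∧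
    (∀ a b : ℝ, 0 < a → a ≤ b → b ≤ 1 →
      ∫ v in a..b, (1 - v) ^ (s - 1) / v ≤ Real.log (b / a) + C) ∧
    (∀ a b : ℝ, 0 < a → a ≤ b → b ≤ 1 / 2 →
      Real.log (b / a) - C ≤ ∫ v in a..b, (1 - v) ^ (s - 1) / v) := by
  obtain ⟨K, hK0, haux⟩ : ∃ K : ℝ, 0 ≤ K ∧ ∀ v, 0 ≤ v → v ≤ 1 / 2 →
      |(1 - v) ^ (s - 1) - 1| ≤ K * v :=
    ⟨2 * |s - 1| * Real.exp |s - 1|, by positivity, fun v => cs_bound_aux s v⟩
  have hi1 : ∀ a b : ℝ, IntervalIntegrable (fun v => (1 - v) ^ (s - 1)) volume a b := by
    intro a b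
    have h := (intervalIntegral.intervalIntegrable_rpow' (a := 1 - a) (b := 1 - b)
      (show -1 < s - 1 by linarith)).comp_sub_left 1
    simpa using h
  have hi2 : ∀ a b : ℝ, 0 < a → a ≤ b →
      IntervalIntegrable (fun v => 1 / v) volume a b := by
    intro a b ha hab
    refine ContinuousOn.intervalIntegrable ?_
    refine continuousOn_const.div continuousOn_id fun x hx => ?_
    rw [uIcc_of_le hab] at hx
    exact (lt_of_lt_of_le ha hx.1).ne'
  have hi3 : ∀ a b : ℝ, 0 < a → a ≤ b →
      IntervalIntegrable (fun v => (1 - v) ^ (s - 1) / v) volume a b := by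
    intro a b ha hab
    have h := (hi1 a b).mul_continuousOn (g := fun v => 1 / v) (by
      refine continuousOn_const.div continuousOn_id fun x hx => ?_
      rw [uIcc_of_le hab] at hx
      exact (lt_of_lt_of_le ha hx.1).ne')
    refine h.congr ?_
    intro v _
    simp [div_eq_mul_inv]
  refine ⟨K + 2 / s + 1, by positivity, fun a b ha hab hb => ?_, fun a b ha hab hb => ?_⟩
  · have hpt : ∀ v ∈ Icc a b, (1 - v) ^ (s - 1) / v ≤ (1 / v + K) + 2 * (1 - v) ^ (s - 1) := by
      intro v hv
      have hv0 : 0 < v := lt_of_lt_of_le ha hv.1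
      have hy : 0 ≤ (1 - v) ^ (s - 1) := Real.rpow_nonneg (by linarith [hv.2]) _
      rcases le_total v (1 / 2) with h | h
      · have h1 := (abs_le.1 (haux v hv0.le h)).2
        have h2 : (1 - v) ^ (s - 1) / v ≤ (1 + K * v) / v :=
          div_le_div_of_nonneg_right (by linarith) hv0.le
        have h3 : (1 + K * v) / v = 1 / v + K := by field_simp
        linarith
      · have h2 : (1 - v) ^ (s - 1) / v ≤ 2 * (1 - v) ^ (s - 1) := by
          rw [div_le_iff₀ hv0]
          nlinarith
        have h3 : 0 ≤ 1 / v := by positivity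
        linarith
    have hconst : IntervalIntegrable (fun _ : ℝ => K) volume a b := intervalIntegrable_const
    have hmono := intervalIntegral.integral_mono_on hab (hi3 a b ha hab)
      (((hi2 a b ha hab).add hconst).add ((hi1 a b).const_mul 2)) hpt
    rw [intervalIntegral.integral_add ((hi2 a b ha hab).add hconst) ((hi1 a b).const_mul 2),
      intervalIntegral.integral_add (hi2 a b ha hab) hconst,
      intervalIntegral.integral_const_mul, intervalIntegral.integral_const,
      integral_one_div_of_pos ha (lt_of_lt_of_le ha hab)] at hmono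
    have hint : ∫ v in a..b, (1 - v) ^ (s - 1) ≤ 1 / s := by
      rw [intervalIntegral.integral_comp_sub_left (fun x => x ^ (s - 1)) 1,
        integral_rpow (Or.inl (by linarith))]
      have e : s - 1 + 1 = s := by ring
      rw [e]
      refine div_le_div_of_nonneg_right ?_ hs.le
      have h1 : (1 - a) ^ s ≤ 1 := Real.rpow_le_one (by linarith) (by linarith) hs.le
      have h2 : 0 ≤ (1 - b) ^ s := Real.rpow_nonneg (by linarith) _
      linarith
    have h4 : (b - a) • K ≤ K := by
      rw [smul_eq_mul]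
      exact mul_le_of_le_one_left hK0 (by linarith)
    have h5 : 2 * (1 / s) = 2 / s := by ring
    linarith
  · have hpt : ∀ v ∈ Icc a b, 1 / v - K ≤ (1 - v) ^ (s - 1) / v := by
      intro v hv
      have hv0 : 0 < v := lt_of_lt_of_le ha hv.1
      have h1 := (abs_le.1 (haux v hv0.le (hv.2.trans hb))).1
      have h2 : (1 - K * v) / v ≤ (1 - v) ^ (s - 1) / v :=
        div_le_div_of_nonneg_right (by linarith) hv0.le
      have h3 : (1 - K * v) / v = 1 / v - K := by field_simp
      linarith
    have hconst : IntervalIntegrable (fun _ : ℝ => K) volume a b := intervalIntegrable_const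
    have hmono := intervalIntegral.integral_mono_on hab
      ((hi2 a b ha hab).sub hconst) (hi3 a b ha hab) hpt
    rw [intervalIntegral.integral_sub (hi2 a b ha hab) hconst, intervalIntegral.integral_const,
      integral_one_div_of_pos ha (lt_of_lt_of_le ha hab)] at hmono
    have h4 : (b - a) • K ≤ K := by
      rw [smul_eq_mul]
      exact mul_le_of_le_one_left hK0 (by linarith)
    have h5 : 0 ≤ 2 / s := by positivity
    linarith

end Pool.Agent.Helper88.SE
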