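import Pool.Agent.Helper88.SE.Defs
import Pool.Agent.Helper88.SE.P_cs_bound

set_option autoImplicit false

open MeasureTheory Set Filter Topology
open scoped ENNReal

namespace Pool.Agent.Helper88.SE



theorem W_bound_cut (s l L u : ℝ) (hl : 0 < l) (hlL : l ≤ L) (hlu : l < u) :
    W s l L u = ∫ lam in l..(min L u), (u - lam) ^ (s - 1) / lam := by
  unfold W
  rw [intervalIntegral.integral_of_le hlL, intervalIntegral.integral_of_le (le_min hlL hlu.le)]
  have h1 : ∀ lam : ℝ, (if lam < u then (u - lam) ^ (s - 1) else 0) / lam =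
      (Iio u).indicator (fun lam => (u - lam) ^ (s - 1) / lam) lam := by
    intro lam
    by_cases h : lam < u
    · rw [if_pos h, indicator_of_mem (mem_Iio.2 h)]
    · rw [if_neg h, indicator_of_notMem (by simpa using h), zero_div]
  simp_rw [h1]
  rw [setIntegral_indicator measurableSet_Iio]
  apply setIntegral_congr_set
  have h2 : (Ioc l L ∩ Iio u : Set ℝ) =ᵐ[volume] (Ioc l L ∩ Iic u : Set ℝ) :=
    (ae_eq_refl _).inter Iio_ae_eq_Iic
  refine h2.trans (Eventually.of_forall fun x => ?_)
  have : (Ioc l L ∩ Iic u : Set ℝ) = Ioc l (min L u) := by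
    ext y
    simp only [mem_inter_iff, mem_Ioc, mem_Iic, le_min_iff]
    tauto
  rw [this]

theorem W_bound_subst (s l m u : ℝ) (hl : 0 < l) (hlm : l ≤ m) (hmu : m ≤ u) :
    ∫ lam in l..m, (u - lam) ^ (s - 1) / lam =
      u ^ (s - 1) * ∫ v in (l / u)..(m / u), (1 - v) ^ (s - 1) / v := by
  have hu : 0 < u := by linarith
  have h1 := intervalIntegral.integral_comp_mul_left (a := l / u) (b := m / u)
    (fun lam : ℝ => (u - lam) ^ (s - 1) / lam) hu.ne'
  have e1 : u * (l / u) = l := by field_simp
  have e2 : u * (m / u) = m := by field_simp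
  rw [e1, e2] at h1
  have h2 : ∫ v in (l / u)..(m / u), (u - u * v) ^ (s - 1) / (u * v) =
      (u ^ (s - 1) / u) * ∫ v in (l / u)..(m / u), (1 - v) ^ (s - 1) / v := by
    rw [← intervalIntegral.integral_const_mul]
    apply intervalIntegral.integral_congr
    intro v hv
    rw [uIcc_of_le (by gcongr)] at hv
    have hv1 : v ≤ 1 := hv.2.trans ((div_le_one hu).2 hmu)
    have hv0 : 0 < v := lt_of_lt_of_le (by positivity) hv.1
    show (u - u * v) ^ (s - 1) / (u * v) = (u ^ (s - 1) / u) * ((1 - v) ^ (s - 1) / v)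
    have e3 : u - u * v = u * (1 - v) := by ring
    rw [e3, Real.mul_rpow hu.le (by linarith)]
    field_simp
  have h3 : ∫ v in (l / u)..(m / u), (u - u * v) ^ (s - 1) / (u * v) =
      u⁻¹ • ∫ lam in l..m, (u - lam) ^ (s - 1) / lam := h1
  rw [h3, smul_eq_mul] at h2
  have h4 : ∫ lam in l..m, (u - lam) ^ (s - 1) / lam =
      u * (u⁻¹ * ∫ lam in l..m, (u - lam) ^ (s - 1) / lam) := by
    rw [← mul_assoc, mul_inv_cancel₀ hu.ne', one_mul]
  rw [h4, h2]
  field_simp

theorem W_bound (s : ℝ) (hs : 0 < s) : ∃ C : ℝ, 0 < C ∧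
    ∀ l L u : ℝ, 0 < l → l ≤ L → 0 < u →
      0 ≤ W s l L u ∧ W s l L u ≤ u ^ (s - 1) * (Real.log (L / l) + C) ∧
      (2 * L ≤ u → u ^ (s - 1) * (Real.log (L / l) - C) ≤ W s l L u) := by
  obtain ⟨C, hC, h1, h2⟩ := cs_bound s hs
  refine ⟨C, hC, fun l L u hl hlL hu => ?_⟩
  have hL : 0 < L := by linarith
  have hup : 0 ≤ u ^ (s - 1) := Real.rpow_nonneg hu.le _
  have hlog : 0 ≤ Real.log (L / l) := Real.log_nonneg ((one_le_div hl).2 hlL)
  have hnn : 0 ≤ W s l L u := by
    unfold W
    apply intervalIntegral.integral_nonneg hlL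
    intro v hv
    have hv0 : 0 < v := lt_of_lt_of_le hl hv.1
    apply div_nonneg _ hv0.le
    by_cases h : v < u
    · rw [if_pos h]
      exact Real.rpow_nonneg (by linarith) _
    · rw [if_neg h]
  refine ⟨hnn, ?_, ?_⟩
  · rcases le_or_gt u l with hul | hlu
    · have h0 : W s l L u = 0 := by
        unfold W
        rw [intervalIntegral.integral_congr (g := fun _ => (0:ℝ))]
        · simp
        · intro v hv
          rw [uIcc_of_le hlL] at hv
          have : ¬ v < u := by
            have := hv.1
            linarith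
          show (if v < u then (u - v) ^ (s - 1) else 0) / v = 0
          rw [if_neg this, zero_div]
      rw [h0]
      exact mul_nonneg hup (by linarith)
    · rw [W_bound_cut s l L u hl hlL hlu, W_bound_subst s l (min L u) u hl (le_min hlL hlu.le)
        (min_le_right _ _)]
      apply mul_le_mul_of_nonneg_left _ hup
      have hm : 0 < min L u := lt_min hL hu
      have k1 := h1 (l / u) (min L u / u) (by positivity)
        (by gcongr; exact le_min hlL hlu.le) ((div_le_one hu).2 (min_le_right _ _))
      have e1 : min L u / u / (l / u) = min L u / l := by field_simp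
      rw [e1] at k1
      have k2 : Real.log (min L u / l) ≤ Real.log (L / l) := by
        apply Real.log_le_log (by positivity)
        gcongr
        exact min_le_left _ _
      linarith
  · intro hLu
    have hlu : l < u := by linarith
    have hm : min L u = L := min_eq_left (by linarith)
    rw [W_bound_cut s l L u hl hlL hlu, hm, W_bound_subst s l L u hl hlL (by linarith)]
    apply mul_le_mul_of_nonneg_left _ hup
    have k1 := h2 (l / u) (L / u) (by positivity) (by gcongr) (by
      rw [div_le_iff₀ hu]; linarith)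
    have e1 : L / u / (l / u) = L / l := by field_simp
    rw [e1] at k1
    exact k1

end Pool.Agent.Helper88.SE
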