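import Pool.Agent.Helper88.SE.Defs

set_option autoImplicit false

open MeasureTheory Set Filter Topology
open scoped ENNReal

namespace Pool.Agent.Helper88.SE



theorem wf_g_int (s D B : ℝ) (hs : 0 < s) (hsD : s < D) :
    IntegrableOn (fun w : ℝ => if w ≤ 1 then B * w ^ (s - 1) else B * w ^ (s - 1 - D)) (Ioi 0) := by
  have h1 : IntegrableOn (fun w : ℝ => w ^ (s - 1)) (Ioc 0 1) :=
    (intervalIntegral.intervalIntegrable_rpow' (by linarith) (a := 0) (b := 1)).1
  have h2 : IntegrableOn (fun w : ℝ => w ^ (s - 1 - D)) (Ioi 1) :=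
    integrableOn_Ioi_rpow_of_lt (by linarith) zero_lt_one
  rw [← Ioc_union_Ioi_eq_Ioi (zero_le_one (α := ℝ))]
  apply IntegrableOn.union
  · refine IntegrableOn.congr_fun (h1.const_mul B) (fun w hw => ?_) measurableSet_Ioc
    simp only [if_pos hw.2]
  · refine IntegrableOn.congr_fun (h2.const_mul B) (fun w hw => ?_) measurableSet_Ioi
    simp only [if_neg (not_le.2 (mem_Ioi.1 hw))]

theorem wf_bd (s D : ℝ) (hD : 0 < D) (f : ℝ → ℝ) (B : ℝ)
    (hB : ∀ u : ℝ, 0 < u → |f u| ≤ B ∧ |f u| ≤ B * u ^ (-D)) (c w : ℝ) (hc : 0 ≤ c) (hw : 0 < w) :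
    ‖w ^ (s - 1) * f (c + w)‖ ≤ if w ≤ 1 then B * w ^ (s - 1) else B * w ^ (s - 1 - D) := by
  have hB0 : 0 ≤ B := (abs_nonneg _).trans (hB 1 one_pos).1
  have hw1 : 0 < c + w := by linarith
  have hr : 0 ≤ w ^ (s - 1) := Real.rpow_nonneg hw.le _
  rw [norm_mul, Real.norm_of_nonneg hr, Real.norm_eq_abs]
  split_ifs with h
  · rw [mul_comm]
    exact mul_le_mul_of_nonneg_right (hB _ hw1).1 hr
  · have h1 : (c + w) ^ (-D) ≤ w ^ (-D) :=
      Real.rpow_le_rpow_of_nonpos hw (by linarith) (by linarith)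
    have h2 : |f (c + w)| ≤ B * w ^ (-D) :=
      (hB _ hw1).2.trans (mul_le_mul_of_nonneg_left h1 hB0)
    have h3 : w ^ (s - 1 - D) = w ^ (s - 1) * w ^ (-D) := by
      rw [← Real.rpow_add hw]; rfl
    rw [h3]
    calc _ ≤ w ^ (s - 1) * (B * w ^ (-D)) := mul_le_mul_of_nonneg_left h2 hr
      _ = _ := by ring

theorem wf_int (s D : ℝ) (hs : 0 < s) (hsD : s < D) (f : ℝ → ℝ) (hf : Measurable f) (B : ℝ)
    (hB : ∀ u : ℝ, 0 < u → |f u| ≤ B ∧ |f u| ≤ B * u ^ (-D)) (c : ℝ) (hc : 0 ≤ c) :
    IntegrableOn (fun w : ℝ => w ^ (s - 1) * f (c + w)) (Ioi 0) := by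
  refine Integrable.mono' (wf_g_int s D B hs hsD) ?_ ?_
  · exact (by fun_prop : Measurable fun w : ℝ => w ^ (s - 1) * f (c + w)).aestronglyMeasurable
  · filter_upwards [ae_restrict_mem measurableSet_Ioi] with w hw
    exact wf_bd s D (hs.trans hsD) f B hB c w hc hw

theorem W_fubini (s D l L : ℝ) (hs : 0 < s) (hsD : s < D) (hl : 0 < l) (hlL : l ≤ L)
    (f : ℝ → ℝ) (hf : Measurable f) (B : ℝ)
    (hB : ∀ u : ℝ, 0 < u → |f u| ≤ B ∧ |f u| ≤ B * u ^ (-D)) :
    IntegrableOn (fun w : ℝ => w ^ (s - 1) * f w) (Ioi 0) ∧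
    IntegrableOn (fun u : ℝ => W s l L u * f u) (Ioi 0) ∧
    IntervalIntegrable (fun lam => (∫ w in Ioi (0 : ℝ), w ^ (s - 1) * f (lam + w)) / lam)
      volume l L ∧
    ∫ lam in l..L, (∫ w in Ioi (0 : ℝ), w ^ (s - 1) * f (lam + w)) / lam =
      ∫ u in Ioi (0 : ℝ), W s l L u * f u := by
  set g : ℝ → ℝ := fun w => if w ≤ 1 then B * w ^ (s - 1) else B * w ^ (s - 1 - D) with hg
  have hgi : IntegrableOn g (Ioi 0) := wf_g_int s D B hs hsD
  set G : ℝ → ℝ → ℝ := fun lam w => (Ioi (0 : ℝ)).indicator (fun w => w ^ (s - 1) * f (lam + w)) w / lam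
    with hG
  set F2 : ℝ × ℝ → ℝ := fun p => (if p.1 < p.2 then (p.2 - p.1) ^ (s - 1) else 0) / p.1 * f p.2 with hF2
  have hFG : ∀ lam u, F2 (lam, u) = G lam (u - lam) := by
    intro lam u
    simp only [hF2, hG]
    by_cases h : lam < u
    · rw [if_pos h, indicator_of_mem (mem_Ioi.2 (sub_pos.2 h))]
      have : lam + (u - lam) = u := by ring
      rw [this]
      ring
    · rw [if_neg h, indicator_of_notMem (by
        rw [mem_Ioi, sub_pos]; exact h)]
      simp
  have hF2m : Measurable F2 := by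
    have h1 : Measurable fun p : ℝ × ℝ => if p.1 < p.2 then (p.2 - p.1) ^ (s - 1) else 0 :=
      Measurable.ite (measurableSet_lt measurable_fst measurable_snd)
        (by fun_prop) measurable_const
    exact (h1.div measurable_fst).mul (hf.comp measurable_snd)
  have hGi : ∀ lam, 0 < lam → Integrable (G lam) := by
    intro lam hlam
    have h := wf_int s D hs hsD f hf B hB lam hlam.le
    exact (h.integrable_indicator measurableSet_Ioi).div_const lam
  have hFi : ∀ lam, 0 < lam → Integrable (fun u => F2 (lam, u)) := by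
    intro lam hlam
    simp only [hFG]
    exact (hGi lam hlam).comp_sub_right lam
  have hFint : ∀ lam, 0 < lam → ∫ u, F2 (lam, u) =
      (∫ w in Ioi (0 : ℝ), w ^ (s - 1) * f (lam + w)) / lam := by
    intro lam hlam
    simp only [hFG]
    rw [integral_sub_right_eq_self (G lam) lam]
    simp only [hG]
    rw [integral_div, integral_indicator measurableSet_Ioi]
  have hFn : ∀ lam, 0 < lam → ∫ u, ‖F2 (lam, u)‖ ≤ (∫ w in Ioi (0 : ℝ), g w) / lam := by
    intro lam hlam
    simp only [hFG]
    rw [integral_sub_right_eq_self (fun w => ‖G lam w‖) lam]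
    have e : ∀ w, ‖G lam w‖ = (Ioi (0 : ℝ)).indicator (fun w => ‖w ^ (s - 1) * f (lam + w)‖) w / lam := by
      intro w
      simp only [hG]
      rw [norm_div, Real.norm_of_nonneg hlam.le]
      congr 1
      rw [norm_indicator_eq_indicator_norm]
    simp only [e]
    rw [integral_div, integral_indicator measurableSet_Ioi]
    apply div_le_div_of_nonneg_right _ hlam.le
    apply setIntegral_mono_on (wf_int s D hs hsD f hf B hB lam hlam.le).norm hgi measurableSet_Ioi
    intro w hw
    exact wf_bd s D (hs.trans hsD) f B hB lam w hlam.le hw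
  have hprod : Integrable F2 ((volume.restrict (Ioc l L)).prod volume) := by
    rw [integrable_prod_iff hF2m.aestronglyMeasurable]
    constructor
    · filter_upwards [ae_restrict_mem measurableSet_Ioc] with lam hlam
      exact hFi lam (hl.trans hlam.1)
    · apply Integrable.of_bound hF2m.aestronglyMeasurable.norm.integral_prod_right'
        ((∫ w in Ioi (0 : ℝ), g w) / l)
      filter_upwards [ae_restrict_mem measurableSet_Ioc] with lam hlam
      have h0 : 0 ≤ ∫ u, ‖F2 (lam, u)‖ := integral_nonneg fun _ => norm_nonneg _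
      rw [Real.norm_of_nonneg h0]
      have hlam0 := hl.trans hlam.1
      refine (hFn lam hlam0).trans ?_
      have hg0 : 0 ≤ ∫ w in Ioi (0 : ℝ), g w := by
        have := h0.trans (hFn lam hlam0)
        have h3 := mul_nonneg this hlam0.le
        rwa [div_mul_cancel₀ _ hlam0.ne'] at h3
      exact div_le_div_of_nonneg_left hg0 hl hlam.1.le
  have hW : ∀ u, ∫ lam, F2 (lam, u) ∂(volume.restrict (Ioc l L)) = W s l L u * f u := by
    intro u
    unfold W
    rw [intervalIntegral.integral_of_le hlL, ← integral_mul_const]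
  have hW0 : ∀ u, u ∉ Ioi (0 : ℝ) → W s l L u * f u = 0 := by
    intro u hu
    rw [mem_Ioi, not_lt] at hu
    rw [← hW]
    apply integral_eq_zero_of_ae
    filter_upwards [ae_restrict_mem measurableSet_Ioc] with lam hlam
    have : ¬ lam < u := by
      have := hlam.1
      intro h
      linarith
    simp only [hF2, if_neg this, zero_div, zero_mul, Pi.zero_apply]
  have hintL := hprod.integral_prod_left
  have hintR := hprod.integral_prod_right
  simp only [hW] at hintR
  have hae : (fun lam => ∫ u, F2 (lam, u)) =ᵐ[volume.restrict (Ioc l L)]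
      fun lam => (∫ w in Ioi (0 : ℝ), w ^ (s - 1) * f (lam + w)) / lam := by
    filter_upwards [ae_restrict_mem measurableSet_Ioc] with lam hlam
    exact hFint lam (hl.trans hlam.1)
  refine ⟨?_, hintR.integrableOn, ?_, ?_⟩
  · have h := wf_int s D hs hsD f hf B hB 0 le_rfl
    simpa only [zero_add] using h
  · rw [intervalIntegrable_iff_integrableOn_Ioc_of_le hlL]
    exact hintL.congr hae
  · rw [intervalIntegral.integral_of_le hlL, ← integral_congr_ae hae]
    have hswap := integral_integral_swap (f := fun lam u => F2 (lam, u)) (μ := volume.restrict (Ioc l L))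
      (ν := volume) hprod
    rw [hswap]
    simp only [hW]
    rw [setIntegral_eq_integral_of_forall_compl_eq_zero hW0]

end Pool.Agent.Helper88.SE
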