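import Pool.Agent.Helper88.SE.Defs

set_option autoImplicit false

open MeasureTheory Set Filter Topology
open scoped ENNReal

namespace Pool.Agent.Helper88.SE



theorem conv (a : ℕ → ℝ) (lo hi : ℝ) (h1 : ∀ᶠ n in atTop, lo ≤ a n)
    (h2 : ∀ᶠ n in atTop, a n ≤ hi)
    (h3 : ∀ ε : ℝ, 0 < ε → ∃ N₀ : ℕ, ∀ N : ℕ, N₀ ≤ N → ∀ᶠ n in atTop, a n ≤ a N + ε) :
    ∃ C : ℝ, Tendsto a atTop (𝓝 C) := by
  have hb : IsBoundedUnder (· ≤ ·) atTop a := Filter.isBoundedUnder_of_eventually_le h2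
  have hb' : IsBoundedUnder (· ≥ ·) atTop a := Filter.isBoundedUnder_of_eventually_ge h1
  have hcb : IsCoboundedUnder (· ≤ ·) atTop a := hb'.isCoboundedUnder_le
  refine ⟨limsup a atTop, ?_⟩
  rw [Metric.tendsto_atTop]
  intro ε hε
  obtain ⟨N₀, hN₀⟩ := h3 (ε / 2) (by linarith)
  have hup : ∀ᶠ n in atTop, a n < limsup a atTop + ε :=
    Filter.eventually_lt_of_limsup_lt (by linarith) hb
  obtain ⟨N₁, hN₁⟩ := Filter.eventually_atTop.mp hup
  refine ⟨max N₀ N₁, fun N hN => ?_⟩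
  have h4 : limsup a atTop ≤ a N + ε / 2 :=
    Filter.limsup_le_of_le hcb (hN₀ N (le_of_max_le_left hN))
  have h5 := hN₁ N (le_of_max_le_right hN)
  rw [Real.dist_eq, abs_lt]
  constructor <;> linarith

end Pool.Agent.Helper88.SE

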