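import Pool.Agent.Helper88.SE.Defs
import Pool.Agent.Helper88.SE.P_min_int
import Pool.Agent.Helper88.SE.P_W_bound
import Pool.Agent.Helper88.SE.P_W_fubini

set_option autoImplicit false

open MeasureTheory Set Filter Topology
open scoped ENNReal

namespace Pool.Agent.Helper88.SE



theorem loc1d_pt (w fu N m C2 μ p : ℝ) (hp : 0 ≤ p) (hw0 : 0 ≤ w) (hm : 0 < m) (hC2 : 0 < C2)
    (hw : w ≤ p * (m + C2)) (h1 : -N ≤ fu) (h2 : -μ ≤ fu) (hμ : 0 ≤ μ) (hN : 0 ≤ N)
    (a b : ℝ) (hab : (a = p ∧ b = p * μ) ∨ (a = 0 ∧ b = p * μ ∧ p * (m - C2) ≤ w)) :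
    w * fu ≤ (m + C2) * (p * fu) + (m + C2) * N * a + 2 * C2 * b := by
  rcases hab with ⟨ha, hb⟩ | ⟨ha, hb, hw2⟩
  · rw [ha, hb]
    have h3 : 0 ≤ (p * (m + C2) - w) * (fu + N) := mul_nonneg (by linarith) (by linarith)
    have h4 : 0 ≤ w * N := mul_nonneg hw0 hN
    have h5 : 0 ≤ C2 * (p * μ) := by positivity
    nlinarith
  · rw [ha, hb]
    have h3 : 0 ≤ (p * (m + C2) - w) * (fu + μ) := mul_nonneg (by linarith) (by linarith)
    have h4 : 0 ≤ (w - p * (m - C2)) * μ := mul_nonneg (by linarith) hμ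
    nlinarith

theorem loc1d (s D C₁ : ℝ) (hs : 0 < s) (hsD : s < D) (hC : 0 < C₁) :
    ∃ C : ℝ, 0 < C ∧ ∀ (N m B : ℝ) (f : ℝ → ℝ), 1 ≤ N → 1 ≤ m → Measurable f →
      (∀ u : ℝ, 0 < u → |f u| ≤ B ∧ |f u| ≤ B * u ^ (-D)) →
      (∀ u : ℝ, 0 < u → -N ≤ f u ∧ -(C₁ * N ^ 2 * u ^ (-D)) ≤ f u) →
      ∃ lam : ℝ, m ^ (-(1 / s)) * N ^ (1 / D) * Real.exp (-m) ≤ lam ∧
        lam ≤ m ^ (-(1 / s)) * N ^ (1 / D) ∧
        ∫ w in Ioi (0 : ℝ), w ^ (s - 1) * f (lam + w) ≤
          (∫ w in Ioi (0 : ℝ), w ^ (s - 1) * f w) +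
            C / m * (N ^ (1 + s / D) + |∫ w in Ioi (0 : ℝ), w ^ (s - 1) * f w|) := by
  obtain ⟨C3, hC3, hmin⟩ := min_int s D C₁ hs hsD hC
  obtain ⟨C2, hC2, hW⟩ := W_bound s hs
  refine ⟨C2 + (1 + C2) * 2 ^ s / s + 2 * C2 * C3, by positivity, ?_⟩
  intro N m B f hN hm hf hB hlow
  have hN0 : 0 < N := by linarith
  have hm0 : 0 < m := by linarith
  have hD : 0 < D := by linarith
  set L : ℝ := m ^ (-(1 / s)) * N ^ (1 / D) with hL
  have hL0 : 0 < L := by positivity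
  have hl0 : 0 < L * Real.exp (-m) := by positivity
  have hlL : L * Real.exp (-m) < L := by
    have h1 : Real.exp (-m) < 1 := by
      rw [show (1:ℝ) = Real.exp 0 by simp]
      exact Real.exp_lt_exp.2 (by linarith)
    nlinarith
  have hlog : Real.log (L / (L * Real.exp (-m))) = m := by
    have h1 : L / (L * Real.exp (-m)) = Real.exp m := by
      rw [Real.exp_neg]; field_simp
    rw [h1, Real.log_exp]
  have hLs : L ^ s = N ^ (s / D) / m := by
    rw [hL, Real.mul_rpow (by positivity) (by positivity), ← Real.rpow_mul hm0.le,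
      ← Real.rpow_mul hN0.le]
    have e1 : -(1 / s) * s = -1 := by field_simp
    have e2 : 1 / D * s = s / D := by ring
    rw [e1, e2, Real.rpow_neg_one]; ring
  obtain ⟨hi1, hi2, hi3, hi4⟩ := W_fubini s D (L * Real.exp (-m)) L hs hsD hl0 hlL.le f hf B hB
  obtain ⟨hm1, hm2⟩ := hmin N hN
  set Φ0 : ℝ := ∫ w in Ioi (0 : ℝ), w ^ (s - 1) * f w with hΦ0
  set C : ℝ := C2 + (1 + C2) * 2 ^ s / s + 2 * C2 * C3 with hCdef
  have hR : 0 < N ^ (1 + s / D) := by positivity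
  have hNN : N * N ^ (s / D) = N ^ (1 + s / D) := by
    rw [Real.rpow_add hN0, Real.rpow_one]
  have h2L : (2 * L) ^ s = 2 ^ s * (N ^ (s / D) / m) := by
    rw [Real.mul_rpow (by norm_num) hL0.le, hLs]
  -- integral of the indicator
  have hind : ∫ u in Ioi (0 : ℝ), (Ioc (0 : ℝ) (2 * L)).indicator (fun u : ℝ => u ^ (s - 1)) u =
      (2 * L) ^ s / s := by
    rw [MeasureTheory.setIntegral_indicator measurableSet_Ioc]
    have e : Ioi (0 : ℝ) ∩ Ioc (0 : ℝ) (2 * L) = Ioc (0 : ℝ) (2 * L) := by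
      ext x; simp only [mem_inter_iff, mem_Ioi, mem_Ioc]; tauto
    rw [e, ← intervalIntegral.integral_of_le (by positivity), integral_rpow (Or.inl (by linarith))]
    rw [show s - 1 + 1 = s by ring, Real.zero_rpow hs.ne', sub_zero]
  have hindi : IntegrableOn
      (fun u : ℝ => (Ioc (0 : ℝ) (2 * L)).indicator (fun u : ℝ => u ^ (s - 1)) u) (Ioi 0) := by
    have h1 : IntegrableOn (fun u : ℝ => u ^ (s - 1)) (Ioc (0 : ℝ) (2 * L)) := by
      rw [← intervalIntegrable_iff_integrableOn_Ioc_of_le (by positivity)]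
      exact intervalIntegral.intervalIntegrable_rpow' (by linarith)
    exact ((integrable_indicator_iff measurableSet_Ioc).2 h1).integrableOn
  have k1 : IntegrableOn (fun u : ℝ => (m + C2) * (u ^ (s - 1) * f u)) (Ioi 0) :=
    hi1.const_mul _
  have k2 : IntegrableOn (fun u : ℝ => (m + C2) * N *
      (Ioc (0 : ℝ) (2 * L)).indicator (fun u : ℝ => u ^ (s - 1)) u) (Ioi 0) :=
    hindi.const_mul _
  have k3 : IntegrableOn (fun u : ℝ => 2 * C2 *
      (u ^ (s - 1) * min N (C₁ * N ^ 2 * u ^ (-D)))) (Ioi 0) :=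
    hm1.const_mul _
  have k12 : IntegrableOn (fun u : ℝ => (m + C2) * (u ^ (s - 1) * f u) + (m + C2) * N *
      (Ioc (0 : ℝ) (2 * L)).indicator (fun u : ℝ => u ^ (s - 1)) u) (Ioi 0) := k1.add k2
  have k123 : IntegrableOn (fun u : ℝ => ((m + C2) * (u ^ (s - 1) * f u) + (m + C2) * N *
      (Ioc (0 : ℝ) (2 * L)).indicator (fun u : ℝ => u ^ (s - 1)) u) + 2 * C2 *
      (u ^ (s - 1) * min N (C₁ * N ^ 2 * u ^ (-D)))) (Ioi 0) := k12.add k3
  have hA : ∫ u in Ioi (0 : ℝ), W s (L * Real.exp (-m)) L u * f u ≤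
      m * (Φ0 + C / m * (N ^ (1 + s / D) + |Φ0|)) := by
    have hb : ∫ u in Ioi (0 : ℝ), W s (L * Real.exp (-m)) L u * f u ≤
        ∫ u in Ioi (0 : ℝ), ((m + C2) * (u ^ (s - 1) * f u) +
          (m + C2) * N * (Ioc (0 : ℝ) (2 * L)).indicator (fun u : ℝ => u ^ (s - 1)) u +
          2 * C2 * (u ^ (s - 1) * min N (C₁ * N ^ 2 * u ^ (-D)))) := by
      refine setIntegral_mono_on hi2 k123 measurableSet_Ioi ?_
      intro u hu
      have hu0 : 0 < u := hu
      obtain ⟨w1, w2, w3⟩ := hW (L * Real.exp (-m)) L u hl0 hlL.le hu0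
      rw [hlog] at w2 w3
      obtain ⟨f1, f2⟩ := hlow u hu0
      have hmin0 : 0 ≤ min N (C₁ * N ^ 2 * u ^ (-D)) := le_min hN0.le (by positivity)
      have f3 : -(min N (C₁ * N ^ 2 * u ^ (-D))) ≤ f u := by
        rcases min_choice N (C₁ * N ^ 2 * u ^ (-D)) with h | h <;> rw [h] <;> assumption
      refine loc1d_pt _ _ N m C2 _ (u ^ (s - 1)) (by positivity) w1 hm0 hC2 w2 f1 f3 hmin0 hN0.le
        _ _ ?_
      by_cases hu2 : u ≤ 2 * L
      · left
        exact ⟨Set.indicator_of_mem (show u ∈ Ioc 0 (2 * L) from ⟨hu0, hu2⟩) _, rfl⟩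
      · right
        push Not at hu2
        exact ⟨Set.indicator_of_notMem (fun h => absurd h.2 (not_le.2 hu2)) _, rfl, w3 hu2.le⟩
    have hc : ∫ u in Ioi (0 : ℝ), ((m + C2) * (u ^ (s - 1) * f u) +
          (m + C2) * N * (Ioc (0 : ℝ) (2 * L)).indicator (fun u : ℝ => u ^ (s - 1)) u +
          2 * C2 * (u ^ (s - 1) * min N (C₁ * N ^ 2 * u ^ (-D)))) =
        (m + C2) * Φ0 + (m + C2) * N * ((2 * L) ^ s / s) +
          2 * C2 * ∫ u in Ioi (0 : ℝ), u ^ (s - 1) * min N (C₁ * N ^ 2 * u ^ (-D)) := by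
      rw [integral_add k12 k3, integral_add k1 k2, integral_const_mul,
        integral_const_mul, integral_const_mul, hind]
    rw [hc] at hb
    refine hb.trans ?_
    have h3 : 2 * C2 * ∫ u in Ioi (0 : ℝ), u ^ (s - 1) * min N (C₁ * N ^ 2 * u ^ (-D)) ≤
        2 * C2 * (C3 * N ^ (1 + s / D)) := mul_le_mul_of_nonneg_left hm2 (by positivity)
    have h4 : (m + C2) * N * ((2 * L) ^ s / s) ≤ (1 + C2) * 2 ^ s / s * N ^ (1 + s / D) := by
      rw [h2L, ← hNN]
      have h5 : (m + C2) * N * (2 ^ s * (N ^ (s / D) / m) / s) =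
          ((m + C2) / m) * (2 ^ s / s * (N * N ^ (s / D))) := by
        field_simp
      have h6 : (1 + C2) * 2 ^ s / s * (N * N ^ (s / D)) =
          (1 + C2) * (2 ^ s / s * (N * N ^ (s / D))) := by ring
      rw [h5, h6]
      refine mul_le_mul_of_nonneg_right ?_ (by positivity)
      rw [div_le_iff₀ hm0]
      nlinarith
    have h7 : m * (Φ0 + C / m * (N ^ (1 + s / D) + |Φ0|)) =
        m * Φ0 + C * (N ^ (1 + s / D) + |Φ0|) := by
      field_simp
    rw [h7, hCdef]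
    have h8 : Φ0 ≤ |Φ0| := le_abs_self _
    have h9 : 0 ≤ |Φ0| := abs_nonneg _
    have h10 : 0 ≤ ((1 + C2) * 2 ^ s / s) * |Φ0| := by positivity
    have h11 : 0 ≤ (2 * C2 * C3) * |Φ0| := by positivity
    have h12 : 0 ≤ C2 * N ^ (1 + s / D) := by positivity
    have h13 : C2 * Φ0 ≤ C2 * |Φ0| := mul_le_mul_of_nonneg_left h8 hC2.le
    nlinarith
  by_contra hcon
  push Not at hcon
  have hpos : 0 < ∫ lam in (L * Real.exp (-m))..L,
      ((∫ w in Ioi (0 : ℝ), w ^ (s - 1) * f (lam + w)) / lam -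
        (Φ0 + C / m * (N ^ (1 + s / D) + |Φ0|)) * lam⁻¹) := by
    refine intervalIntegral.intervalIntegral_pos_of_pos_on (hi3.sub ?_) ?_ hlL
    · refine IntervalIntegrable.const_mul ?_ _
      refine intervalIntegral.intervalIntegrable_inv ?_ continuousOn_id
      intro x hx
      rw [uIcc_of_le hlL.le] at hx
      exact (lt_of_lt_of_le hl0 hx.1).ne'
    · intro x hx
      have hx0 : 0 < x := lt_trans hl0 hx.1
      have h1 := hcon x hx.1.le hx.2.le
      rw [div_eq_mul_inv, ← sub_mul]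
      exact mul_pos (by linarith) (inv_pos.2 hx0)
  rw [intervalIntegral.integral_sub hi3 ?_, intervalIntegral.integral_const_mul,
    integral_inv_of_pos hl0 hL0, hlog, hi4] at hpos
  · linarith
  · refine IntervalIntegrable.const_mul ?_ _
    refine intervalIntegral.intervalIntegrable_inv ?_ continuousOn_id
    intro x hx
    rw [uIcc_of_le hlL.le] at hx
    exact (lt_of_lt_of_le hl0 hx.1).ne'

end Pool.Agent.Helper88.SE
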