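import Pool.Agent.Helper88.SE.Defs
import Pool.Agent.Helper88.SE.P_ff_lower
import Pool.Agent.Helper88.SE.P_ff_bdd
import Pool.Agent.Helper88.SE.P_ff_mellin
import Pool.Agent.Helper88.SE.P_loc1d

set_option autoImplicit false

open MeasureTheory Set Filter Topology
open scoped ENNReal

namespace Pool.Agent.Helper88.SE



theorem loc (d : ℕ) (hd : 1 ≤ d) (s : ℝ) (hs : 0 < s) (hsd : s < d) :
    ∃ C : ℝ, 0 < C ∧ ∀ (N : ℕ) (m : ℝ) (x : Fin N → S d), 1 ≤ N → 1 ≤ m →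
      Function.Injective x →
      ∃ lam : ℝ, m ^ (-(1 / s)) * (N : ℝ) ^ (1 / (d : ℝ)) * Real.exp (-m) ≤ lam ∧
        lam ≤ m ^ (-(1 / s)) * (N : ℝ) ^ (1 / (d : ℝ)) ∧
        EL s lam x - (N : ℝ) ^ 2 * J d s lam ≤ (En s x - (N : ℝ) ^ 2 * Ic d s) +
            C / m * ((N : ℝ) ^ (1 + s / d) + |En s x - (N : ℝ) ^ 2 * Ic d s|) := by
  obtain ⟨C₁, hC₁, hlow⟩ := ff_lower d
  obtain ⟨C₀, hC₀, hloc⟩ := loc1d s (d : ℝ) C₁ hs hsd hC₁
  have hG : 0 < Real.Gamma s := Real.Gamma_pos_of_pos hs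
  refine ⟨C₀ * (1 / Real.Gamma s + 1), by positivity, ?_⟩
  intro N m x hN hm hx
  have hN' : (1 : ℝ) ≤ (N : ℝ) := by exact_mod_cast hN
  obtain ⟨hcont, B, hB⟩ := ff_bdd d N x hx
  obtain ⟨lam, h1, h2, h3⟩ := hloc (N : ℝ) m B (ff x) hN' hm hcont.measurable hB
    (fun u hu => hlow N x u hu)
  have hlam : 0 ≤ lam := le_trans (by positivity) h1
  refine ⟨lam, h1, h2, ?_⟩
  have e1 := ff_mellin d hd s hs hsd N x hx lam hlam
  have e0 := ff_mellin d hd s hs hsd N x hx 0 le_rfl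
  have eK : ∀ y z : S d, KL s 0 y z = K s y z := by
    intro y z
    simp [KL, K]
  have eE : EL s 0 x = En s x := by simp only [EL, En, eK]
  have eJ : J d s 0 = Ic d s := by simp only [J, Ic, eK]
  simp only [zero_add] at e0
  rw [eE, eJ] at e0
  rw [e1, e0] at h3
  set Ψ := EL s lam x - (N : ℝ) ^ 2 * J d s lam with hΨ
  set Ψ0 := En s x - (N : ℝ) ^ 2 * Ic d s with hΨ0
  rw [abs_mul, abs_of_pos hG] at h3
  have hm0 : 0 < m := by linarith
  set A : ℝ := (N : ℝ) ^ (1 + s / (d : ℝ)) with hA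
  have hA0 : 0 ≤ A := by positivity
  have h4 : Real.Gamma s * Ψ ≤ Real.Gamma s * (Ψ0 + C₀ / m * (A / Real.Gamma s + |Ψ0|)) := by
    refine h3.trans (le_of_eq ?_)
    field_simp
  have h5 := le_of_mul_le_mul_left h4 hG
  refine h5.trans ?_
  have h6 : C₀ / m * (A / Real.Gamma s + |Ψ0|) ≤ C₀ * (1 / Real.Gamma s + 1) / m * (A + |Ψ0|) := by
    have e : C₀ * (1 / Real.Gamma s + 1) / m * (A + |Ψ0|) =
        C₀ / m * (A / Real.Gamma s + |Ψ0|) + C₀ / m * (A + |Ψ0| / Real.Gamma s) := by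
      field_simp; ring
    rw [e]
    have : 0 ≤ C₀ / m * (A + |Ψ0| / Real.Gamma s) := by positivity
    linarith
  linarith

end Pool.Agent.Helper88.SE
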