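import Pool.Agent.Helper88.SE.Defs
import Pool.Agent.Helper88.SE.P_Em_basic
import Pool.Agent.Helper88.SE.P_F_upper
import Pool.Agent.Helper88.SE.P_F_lower

set_option autoImplicit false

open MeasureTheory Set Filter Topology
open scoped ENNReal

namespace Pool.Agent.Helper88.SE



theorem near (d : ℕ) (hd : 1 ≤ d) (s : ℝ) (hs : 0 < s) (hsd : s < d) :
    ∃ C : ℝ, 0 < C ∧ ∀ N : ℕ, 1 ≤ N → ∃ x : Fin N → S d, Function.Injective x ∧
      En s x - (N : ℝ) ^ 2 * Ic d s ≤ F d s N + 1 ∧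
      |En s x - (N : ℝ) ^ 2 * Ic d s| ≤ C * (N : ℝ) ^ (1 + s / d) := by
  obtain ⟨C, hC, hl⟩ := F_lower d hd s hs hsd
  refine ⟨C + 1, by linarith, ?_⟩
  intro N hN
  obtain ⟨_, _, hb, _, _⟩ := Em_basic d hd s hs N
  obtain ⟨x, hx, hxe⟩ := hb 1 one_pos
  have hF : F d s N = Em d s N - (N : ℝ) ^ 2 * Ic d s := rfl
  have h1 := (F_upper d hd s hs hsd N).1
  have h2 := (hl N hN).1 x hx
  have h3 : (1 : ℝ) ≤ (N : ℝ) ^ (1 + s / d) := by
    apply Real.one_le_rpow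
    · exact_mod_cast hN
    · positivity
  refine ⟨x, hx, by linarith, ?_⟩
  have h4 : 0 < C * (N : ℝ) ^ (1 + s / d) := by positivity
  rw [abs_le]
  constructor
  · nlinarith
  · nlinarith

end Pool.Agent.Helper88.SE
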