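import Pool.Agent.Helper88.SE.Defs

set_option autoImplicit false

open MeasureTheory Set Filter Topology
open scoped ENNReal

namespace Pool.Agent.Helper88.SE



theorem unif (d : ℕ) (hd : 1 ≤ d) (s cinf C₄ e₀ e₁ cm : ℝ) (hcinf : 0 < cinf) (hC₄ : 0 < C₄)
    (he₀ : 0 ≤ e₀) (he₁ : 0 ≤ e₁) (hcm : 0 < cm)
    (hJ : Tendsto (fun lam : ℝ => lam ^ ((d : ℝ) - s) * J d s lam) atTop (𝓝 cinf)) (η : ℝ)
    (hη : 0 < η) :
    ∃ N₀ : ℕ, ∀ N : ℕ, N₀ ≤ N → ∀ lam : ℝ, cm * (N : ℝ) ^ (1 / (d : ℝ)) ≤ lam →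
      (1 + ((N : ℝ) ^ (-(1 / (2 * (d : ℝ))))) ^ 2) ^ e₀ * (lam ^ ((d : ℝ) - s) * J d s lam) -
      (1 + ((N : ℝ) ^ (-(1 / (2 * (d : ℝ))))) ^ 2) ^ (-e₁) *
        (cinf * (1 - C₄ / ((N : ℝ) ^ (-(1 / (2 * (d : ℝ)))) * lam))) ≤ η := by
  have hd0 : (0:ℝ) < d := by exact_mod_cast hd
  set SS : Set (ℕ × ℝ) := {p | cm * (p.1 : ℝ) ^ (1 / (d : ℝ)) ≤ p.2} with hSS
  set G : Filter (ℕ × ℝ) := comap Prod.fst atTop ⊓ 𝓟 SS with hG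
  have h1 : Tendsto (fun p : ℕ × ℝ => (p.1 : ℝ)) G atTop :=
    tendsto_natCast_atTop_atTop.comp (tendsto_comap.mono_left inf_le_left)
  have hpos : ∀ᶠ p in G, 0 < (p.1 : ℝ) := h1.eventually_gt_atTop 0
  have h2 : Tendsto (fun p : ℕ × ℝ => cm * (p.1 : ℝ) ^ (1 / (d : ℝ))) G atTop :=
    ((tendsto_rpow_atTop (by positivity)).comp h1).const_mul_atTop hcm
  have hS : ∀ᶠ p in G, cm * (p.1 : ℝ) ^ (1 / (d : ℝ)) ≤ p.2 :=
    mem_inf_of_right (mem_principal_self _)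
  have h3 : Tendsto (fun p : ℕ × ℝ => p.2) G atTop := tendsto_atTop_mono' G hS h2
  have h4 : Tendsto (fun p : ℕ × ℝ => (p.1 : ℝ) ^ (-(1 / (2 * (d : ℝ))))) G (𝓝 0) :=
    (tendsto_rpow_neg_atTop (by positivity)).comp h1
  have h5 : Tendsto (fun p : ℕ × ℝ => 1 + ((p.1 : ℝ) ^ (-(1 / (2 * (d : ℝ))))) ^ 2) G (𝓝 1) := by
    simpa using (h4.pow 2).const_add 1
  have hA : Tendsto (fun p : ℕ × ℝ => (1 + ((p.1 : ℝ) ^ (-(1 / (2 * (d : ℝ))))) ^ 2) ^ e₀) G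
      (𝓝 1) := by
    simpa using h5.rpow_const (p := e₀) (Or.inl one_ne_zero)
  have hB : Tendsto (fun p : ℕ × ℝ => (1 + ((p.1 : ℝ) ^ (-(1 / (2 * (d : ℝ))))) ^ 2) ^ (-e₁)) G
      (𝓝 1) := by
    simpa using h5.rpow_const (p := -e₁) (Or.inl one_ne_zero)
  have h6 : Tendsto (fun p : ℕ × ℝ => (p.1 : ℝ) ^ (-(1 / (2 * (d : ℝ)))) * p.2) G atTop := by
    have h7 : Tendsto (fun p : ℕ × ℝ => cm * (p.1 : ℝ) ^ (1 / (2 * (d : ℝ)))) G atTop :=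
      ((tendsto_rpow_atTop (by positivity)).comp h1).const_mul_atTop hcm
    refine tendsto_atTop_mono' G ?_ h7
    filter_upwards [hS, hpos] with p hp hp0
    have e : (p.1 : ℝ) ^ (1 / (2 * (d : ℝ)))
        = (p.1 : ℝ) ^ (-(1 / (2 * (d : ℝ)))) * (p.1 : ℝ) ^ (1 / (d : ℝ)) := by
      rw [← Real.rpow_add hp0]
      congr 1
      field_simp
      ring
    calc cm * (p.1 : ℝ) ^ (1 / (2 * (d : ℝ)))
        = (p.1 : ℝ) ^ (-(1 / (2 * (d : ℝ)))) * (cm * (p.1 : ℝ) ^ (1 / (d : ℝ))) := by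
          rw [e]; ring
      _ ≤ _ := mul_le_mul_of_nonneg_left hp (Real.rpow_nonneg hp0.le _)
  have h8 : Tendsto (fun p : ℕ × ℝ => C₄ / ((p.1 : ℝ) ^ (-(1 / (2 * (d : ℝ)))) * p.2)) G (𝓝 0) :=
    h6.const_div_atTop C₄
  have h9 : Tendsto (fun p : ℕ × ℝ => p.2 ^ ((d : ℝ) - s) * J d s p.2) G (𝓝 cinf) := hJ.comp h3
  have h10 := (hA.mul h9).sub (hB.mul ((h8.const_sub 1).const_mul cinf))
  have h11 : (1 : ℝ) * cinf - 1 * (cinf * (1 - 0)) < η := by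
    have : (1 : ℝ) * cinf - 1 * (cinf * (1 - 0)) = 0 := by ring
    rw [this]
    exact hη
  have h12 := h10.eventually_le_const h11
  rw [hG, eventually_inf_principal, eventually_comap, eventually_atTop] at h12
  obtain ⟨N₀, hN₀⟩ := h12
  exact ⟨N₀, fun N hN lam hlam => hN₀ N hN (N, lam) rfl hlam⟩

end Pool.Agent.Helper88.SE
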