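import Pool.Agent.Helper88.SE.Defs
import Pool.Agent.Helper88.SE.P_F_upper
import Pool.Agent.Helper88.SE.P_loc
import Pool.Agent.Helper88.SE.P_TR3
import Pool.Agent.Helper88.SE.P_unif
import Pool.Agent.Helper88.SE.P_near

set_option autoImplicit false

open MeasureTheory Set Filter Topology
open scoped ENNReal

namespace Pool.Agent.Helper88.SE



theorem s_alg (AI A N2 FN J X T Tm Q R Y EL D ε η B Qm : ℝ) (hAI : 0 < AI) (hA : AI * A = 1)
    (hT0 : 0 ≤ T) (hTm : T ≤ Tm) (hη : Tm * η ≤ ε / 4) (hη0 : 0 ≤ η)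
    (hJ : AI * N2 * J = T * X) (hQ1 : 1 ≤ Q) (hQm : Q ≤ Qm) (hFN : FN ≤ 0) (hD0 : 0 ≤ D)
    (hD : Qm * D ≤ ε / 4) (hQA : Qm * AI ≤ ε / 4)
    (hEL : EL ≤ N2 * J + FN + 1 + D * A) (hun : Q * X - R * Y ≤ η)
    (hTR : B ≤ Q * (AI * EL) - R * T * Y + ε / 4) : B ≤ FN * AI + ε := by
  have h1 : AI * EL ≤ AI * (N2 * J + FN + 1 + D * A) := mul_le_mul_of_nonneg_left hEL hAI.le
  have h2 : Q * (AI * EL) ≤ Q * (AI * (N2 * J + FN + 1 + D * A)) :=
    mul_le_mul_of_nonneg_left h1 (by linarith)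
  have h3 : Q * (AI * (N2 * J + FN + 1 + D * A)) =
      T * (Q * X) + Q * (FN * AI) + Q * AI + Q * D := by
    have : AI * (N2 * J + FN + 1 + D * A) = AI * N2 * J + FN * AI + AI + D * (AI * A) := by ring
    rw [this, hJ, hA]
    ring
  have h4 : T * (Q * X - R * Y) ≤ ε / 4 := by
    calc T * (Q * X - R * Y) ≤ T * η := mul_le_mul_of_nonneg_left hun hT0
      _ ≤ Tm * η := mul_le_mul_of_nonneg_right hTm hη0
      _ ≤ ε / 4 := hη
  have h5 : Q * (FN * AI) ≤ FN * AI := by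
    have : FN * AI ≤ 0 := mul_nonpos_of_nonpos_of_nonneg hFN hAI.le
    nlinarith
  have h6 : Q * AI ≤ ε / 4 := (mul_le_mul_of_nonneg_right hQm hAI.le).trans hQA
  have h7 : Q * D ≤ ε / 4 := (mul_le_mul_of_nonneg_right hQm hD0).trans hD
  have h8 : T * (Q * X - R * Y) = T * (Q * X) - R * T * Y := by ring
  linarith

theorem step (d : ℕ) (hd : 1 ≤ d) (s : ℝ) (hs : 0 < s) (hsd : s < d) (ε : ℝ) (hε : 0 < ε) :
    ∃ N₀ : ℕ, ∀ N : ℕ, N₀ ≤ N → ∀ᶠ n : ℕ in atTop,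
      F d s n / (n : ℝ) ^ (1 + s / d) ≤ F d s N / (N : ℝ) ^ (1 + s / d) + ε := by
  obtain ⟨C5, hC5, hnear⟩ := near d hd s hs hsd
  obtain ⟨C, hC, hloc⟩ := loc d hd s hs hsd
  obtain ⟨cinf, C4, e0, e1, hcinf, hC4, he0, he1, hJt, hTR⟩ := TR3 d hd s hs hsd
  have hd0 : (0 : ℝ) < d := by exact_mod_cast hd
  set Qm : ℝ := (2 : ℝ) ^ e0 with hQm
  have hQm0 : 0 < Qm := by positivity
  set m : ℝ := max 1 (4 * Qm * (C * (1 + C5)) / ε) with hm
  have hm1 : 1 ≤ m := le_max_left _ _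
  have hm2 : 4 * Qm * (C * (1 + C5)) / ε ≤ m := le_max_right _ _
  have hm0 : 0 < m := by linarith
  set D : ℝ := C * (1 + C5) / m with hD
  have hD0 : 0 ≤ D := by positivity
  have hDε : Qm * D ≤ ε / 4 := by
    rw [div_le_iff₀ hε] at hm2
    rw [hD, ← mul_div_assoc, div_le_iff₀ hm0]
    linarith
  set cm : ℝ := m ^ (-(1 / s)) * Real.exp (-m) with hcm
  have hcm0 : 0 < cm := by positivity
  set Tm : ℝ := cm ^ (s - d) with hTmdef
  have hTm0 : 0 < Tm := by positivity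
  set η : ℝ := ε / (4 * Tm) with hη
  have hη0 : 0 < η := by positivity
  obtain ⟨N₀, hN₀⟩ := unif d hd s cinf C4 e0 e1 cm hcinf hC4 he0 he1 hcm0 hJt η hη0
  obtain ⟨N₁, hN₁⟩ := exists_nat_ge (4 * Qm / ε)
  refine ⟨max (max N₀ N₁) 1, ?_⟩
  intro N hN
  have hNa : N₀ ≤ N := le_trans (le_trans (le_max_left _ _) (le_max_left _ _)) hN
  have hNb : N₁ ≤ N := le_trans (le_trans (le_max_right _ _) (le_max_left _ _)) hN
  have hNc : 1 ≤ N := le_trans (le_max_right _ _) hN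
  have hN1 : (1 : ℝ) ≤ N := by exact_mod_cast hNc
  have hN0 : (0 : ℝ) < N := by linarith
  have hNb' : 4 * Qm / ε ≤ N := hN₁.trans (by exact_mod_cast hNb)
  obtain ⟨x, hx, hx1, hx2⟩ := hnear N hNc
  obtain ⟨lam, hl1, _, hl3⟩ := hloc N m x hNc hm1 hx
  have hl1' : cm * (N : ℝ) ^ (1 / (d : ℝ)) ≤ lam := by
    refine le_trans (le_of_eq ?_) hl1
    rw [hcm]
    ring
  have hNd : 0 < (N : ℝ) ^ (1 / (d : ℝ)) := Real.rpow_pos_of_pos hN0 _
  have hlam : 0 < lam := lt_of_lt_of_le (mul_pos hcm0 hNd) hl1'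
  set ρ : ℝ := (N : ℝ) ^ (-(1 / (2 * (d : ℝ)))) with hρ
  have hρ0 : 0 < ρ := Real.rpow_pos_of_pos hN0 _
  have hρ1 : ρ ≤ 1 := by
    apply Real.rpow_le_one_of_one_le_of_nonpos hN1
    have : 0 < 1 / (2 * (d : ℝ)) := by positivity
    linarith
  have hq1 : 1 ≤ 1 + ρ ^ 2 := by nlinarith
  have hq2 : 1 + ρ ^ 2 ≤ 2 := by nlinarith
  have hun := hN₀ N hNa lam hl1'
  filter_upwards [hTR N hNc x hx ρ hρ0 hρ1 lam hlam (ε / 4) (by positivity)] with n hn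
  set A : ℝ := (N : ℝ) ^ (1 + s / d) with hA
  have hA0 : 0 < A := Real.rpow_pos_of_pos hN0 _
  set AI : ℝ := (N : ℝ) ^ (-(1 + s / d)) with hAI
  have hAI0 : 0 < AI := Real.rpow_pos_of_pos hN0 _
  have hAIA : AI * A = 1 := by
    rw [hAI, hA, ← Real.rpow_add hN0]
    simp
  have hdiv : F d s N / A = F d s N * AI := by
    rw [div_eq_iff hA0.ne', mul_assoc, hAIA, mul_one]
  rw [hdiv]
  have hJ : AI * (N : ℝ) ^ 2 * J d s lam =
      ((N : ℝ) ^ (1 - s / d) * lam ^ (s - d)) * (lam ^ ((d : ℝ) - s) * J d s lam) := by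
    have e1 : AI * (N : ℝ) ^ 2 = (N : ℝ) ^ (1 - s / d) := by
      rw [hAI, ← Real.rpow_natCast (N : ℝ) 2, ← Real.rpow_add hN0]
      congr 1
      push_cast
      ring
    have e2 : lam ^ (s - d) * lam ^ ((d : ℝ) - s) = 1 := by
      rw [← Real.rpow_add hlam]
      simp
    rw [e1]
    calc (N : ℝ) ^ (1 - s / d) * J d s lam
        = (N : ℝ) ^ (1 - s / d) * (lam ^ (s - d) * lam ^ ((d : ℝ) - s)) * J d s lam := by
          rw [e2, mul_one]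
      _ = _ := by ring
  have hT0 : 0 ≤ (N : ℝ) ^ (1 - s / d) * lam ^ (s - d) := by positivity
  have hTm : (N : ℝ) ^ (1 - s / d) * lam ^ (s - d) ≤ Tm := by
    have h1 : lam ^ (s - d) ≤ (cm * (N : ℝ) ^ (1 / (d : ℝ))) ^ (s - d) :=
      Real.rpow_le_rpow_of_nonpos (mul_pos hcm0 hNd) hl1' (by linarith)
    have h2 : (cm * (N : ℝ) ^ (1 / (d : ℝ))) ^ (s - d) = Tm * (N : ℝ) ^ (s / d - 1) := by
      rw [Real.mul_rpow hcm0.le hNd.le, ← Real.rpow_mul hN0.le, hTmdef]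
      congr 2
      field_simp
    have h3 : (N : ℝ) ^ (1 - s / d) * (N : ℝ) ^ (s / d - 1) = 1 := by
      rw [← Real.rpow_add hN0]
      simp
    calc (N : ℝ) ^ (1 - s / d) * lam ^ (s - d)
        ≤ (N : ℝ) ^ (1 - s / d) * (Tm * (N : ℝ) ^ (s / d - 1)) := by
          rw [← h2]
          exact mul_le_mul_of_nonneg_left h1 (Real.rpow_pos_of_pos hN0 _).le
      _ = Tm * ((N : ℝ) ^ (1 - s / d) * (N : ℝ) ^ (s / d - 1)) := by ring
      _ = Tm := by rw [h3, mul_one]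
  have hηε : Tm * η ≤ ε / 4 := by
    rw [hη]
    apply le_of_eq
    field_simp
  have hQ1 : 1 ≤ (1 + ρ ^ 2) ^ e0 := Real.one_le_rpow hq1 he0
  have hQ2 : (1 + ρ ^ 2) ^ e0 ≤ Qm := Real.rpow_le_rpow (by linarith) hq2 he0
  have hFN := (F_upper d hd s hs hsd N).1
  have hQA : Qm * AI ≤ ε / 4 := by
    have h1 : AI ≤ (N : ℝ)⁻¹ := by
      rw [hAI, Real.rpow_neg hN0.le]
      apply inv_anti₀ hN0
      calc (N : ℝ) = (N : ℝ) ^ (1 : ℝ) := (Real.rpow_one _).symm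
        _ ≤ (N : ℝ) ^ (1 + s / d) := by
          apply Real.rpow_le_rpow_of_exponent_le hN1
          have : 0 < s / d := by positivity
          linarith
    have h2 : Qm * AI ≤ Qm * (N : ℝ)⁻¹ := mul_le_mul_of_nonneg_left h1 hQm0.le
    refine h2.trans ?_
    rw [← div_eq_mul_inv, div_le_iff₀ hN0]
    rw [div_le_iff₀ hε] at hNb'
    linarith
  have hEL : EL s lam x ≤ (N : ℝ) ^ 2 * J d s lam + F d s N + 1 + D * A := by
    have h1 : C / m * (A + |En s x - (N : ℝ) ^ 2 * Ic d s|) ≤ D * A := by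
      have : A + |En s x - (N : ℝ) ^ 2 * Ic d s| ≤ (1 + C5) * A := by linarith
      calc C / m * (A + |En s x - (N : ℝ) ^ 2 * Ic d s|) ≤ C / m * ((1 + C5) * A) :=
            mul_le_mul_of_nonneg_left this (by positivity)
        _ = D * A := by rw [hD]; ring
    linarith
  exact s_alg AI A ((N : ℝ) ^ 2) (F d s N) (J d s lam) (lam ^ ((d : ℝ) - s) * J d s lam)
    ((N : ℝ) ^ (1 - s / d) * lam ^ (s - d)) Tm ((1 + ρ ^ 2) ^ e0) ((1 + ρ ^ 2) ^ (-e1))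
    (cinf * (1 - C4 / (ρ * lam))) (EL s lam x) D ε η _ Qm hAI0 hAIA hT0 hTm hηε hη0.le hJ hQ1 hQ2
    hFN hD0 hDε hQA hEL hun hn

end Pool.Agent.Helper88.SE
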