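import Pool.Agent.Helper88.SE.Defs
import Pool.Agent.Helper88.SE.P_F_upper
import Pool.Agent.Helper88.SE.P_F_lower
import Pool.Agent.Helper88.SE.P_step
import Pool.Agent.Helper88.SE.P_conv

set_option autoImplicit false

open MeasureTheory Set Filter Topology
open scoped ENNReal

namespace Pool.Agent.Helper88.SE



theorem main (d : ℕ) (hd : 1 ≤ d) (s : ℝ) (hs : 0 < s) (hsd : s < d) :
    ∃ C : ℝ, Tendsto (fun N : ℕ => F d s N / (N : ℝ) ^ (1 + s / d)) atTop (𝓝 C) := by
  obtain ⟨C, hC, hlow⟩ := F_lower d hd s hs hsd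
  refine conv (fun N : ℕ => F d s N / (N : ℝ) ^ (1 + s / d)) (-C) 0 ?_ ?_ ?_
  · filter_upwards [eventually_ge_atTop 1] with N hN
    have h := (hlow N hN).2
    have hpos : (0 : ℝ) < (N : ℝ) ^ (1 + s / d) := by
      apply Real.rpow_pos_of_pos
      exact_mod_cast hN
    rw [le_div_iff₀ hpos]
    linarith
  · filter_upwards with N
    have h := (F_upper d hd s hs hsd N).1
    exact div_nonpos_of_nonpos_of_nonneg h (by positivity)
  · intro ε hε
    exact step d hd s hs hsd ε hε

end Pool.Agent.Helper88.SE
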