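import Pool.Agent.Helper88.SE.Defs
import Pool.Agent.Helper88.SE.P_Em_basic
import Pool.Agent.Helper88.SE.P_IU_low
import Pool.Agent.Helper88.SE.P_LOC2
import Pool.Agent.Helper88.SE.P_EL_split
import Pool.Agent.Helper88.SE.P_TR32
import Pool.Agent.Helper88.SE.P_G_hi

set_option autoImplicit false

open MeasureTheory Set Filter Topology
open scoped ENNReal

namespace Pool.Agent.Helper88.SE



theorem step22 (ε : ℝ) (hε : 0 < ε) : ∃ N₀ : ℕ, ∀ N : ℕ, N₀ ≤ N → ∀ᶠ n : ℕ in atTop,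
    Em 2 2 n / (n : ℝ) ^ 2 - 1 / 4 * Real.log n ≤
      Em 2 2 N / (N : ℝ) ^ 2 - 1 / 4 * Real.log N + ε := by
  obtain ⟨CL, hCL, hLOC⟩ := LOC2
  obtain ⟨C₅, hC₅, hTR⟩ := TR32
  obtain ⟨Ch, hCh, hG⟩ := G_hi
  obtain ⟨ε', hε'⟩ : ∃ ε' : ℝ, ε' = min 1 (ε / (8 * CL)) := ⟨_, rfl⟩
  have hε'0 : 0 < ε' := by rw [hε']; exact lt_min one_pos (by positivity)
  have hε'1 : ε' ≤ 1 := by rw [hε']; exact min_le_left _ _
  have hCε : CL * ε' ≤ ε / 8 := by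
    have h1 : ε' ≤ ε / (8 * CL) := by rw [hε']; exact min_le_right _ _
    calc CL * ε' ≤ CL * (ε / (8 * CL)) := mul_le_mul_of_nonneg_left h1 hCL.le
      _ = ε / 8 := by field_simp
  obtain ⟨B, hB⟩ : ∃ B : ℝ, B = Ch + 2 + CL * ε' - 1 / 2 * Real.log ε' := ⟨_, rfl⟩
  have hcast : Tendsto (fun N : ℕ => (N : ℝ)) atTop atTop := tendsto_natCast_atTop_atTop
  have hρ : Tendsto (fun N : ℕ => (N : ℝ) ^ (-(1 / 4 : ℝ))) atTop (𝓝 0) :=
    (tendsto_rpow_neg_atTop (by norm_num)).comp hcast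
  have hq : Tendsto (fun N : ℕ => 1 + ((N : ℝ) ^ (-(1 / 4 : ℝ))) ^ 2) atTop (𝓝 1) := by
    simpa using (hρ.pow 2).const_add 1
  have hq72 : Tendsto (fun N : ℕ => ((1 + ((N : ℝ) ^ (-(1 / 4 : ℝ))) ^ 2) ^ (7 / 2 : ℝ) - 1) * B)
      atTop (𝓝 0) := by
    have := ((hq.rpow_const (p := (7 / 2 : ℝ)) (Or.inl one_ne_zero)).sub_const 1).mul_const B
    simpa using this
  have hlog : Tendsto (fun N : ℕ => Real.log (1 + ((N : ℝ) ^ (-(1 / 4 : ℝ))) ^ 2)) atTop (𝓝 0) := by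
    have := (Real.continuousAt_log one_ne_zero).tendsto.comp hq
    rw [Real.log_one] at this
    exact this
  have hlam : Tendsto (fun N : ℕ => ε' * Real.sqrt N) atTop atTop :=
    (Real.tendsto_sqrt_atTop.comp hcast).const_mul_atTop hε'0
  have hρlam : Tendsto (fun N : ℕ => (N : ℝ) ^ (-(1 / 4 : ℝ)) * (ε' * Real.sqrt N)) atTop atTop := by
    have h1 : Tendsto (fun N : ℕ => ε' * (N : ℝ) ^ (1 / 4 : ℝ)) atTop atTop :=
      ((tendsto_rpow_atTop (by norm_num)).comp hcast).const_mul_atTop hε'0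
    refine h1.congr' ?_
    filter_upwards [eventually_ge_atTop 1] with N hN
    have hNp : (0 : ℝ) < N := by exact_mod_cast hN
    rw [Real.sqrt_eq_rpow, mul_left_comm, ← Real.rpow_add hNp]
    norm_num
  have hC5 : Tendsto (fun N : ℕ => C₅ / ((N : ℝ) ^ (-(1 / 4 : ℝ)) * (ε' * Real.sqrt N))) atTop (𝓝 0) :=
    tendsto_const_nhds.div_atTop hρlam
  have hN2 : Tendsto (fun N : ℕ => 1 / (N : ℝ) ^ 2) atTop (𝓝 0) :=
    tendsto_const_nhds.div_atTop ((tendsto_pow_atTop two_ne_zero).comp hcast)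
  have hε8 : (0 : ℝ) < ε / 8 := by positivity
  obtain ⟨N₀, hN₀⟩ := eventually_atTop.1 ((eventually_ge_atTop 1).and (hG.and
    ((hlam.eventually_ge_atTop 1).and ((hq72.eventually (gt_mem_nhds hε8)).and
    ((hlog.eventually (gt_mem_nhds hε8)).and ((hC5.eventually (gt_mem_nhds hε8)).and
    ((hN2.eventually (gt_mem_nhds hε8)).and (hN2.eventually (gt_mem_nhds one_pos)))))))))
  refine ⟨N₀, fun N hN => ?_⟩
  obtain ⟨hN1, hGN, hlam1, hq1, hlog1, hC51, hN21, hN22⟩ := hN₀ N hN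
  have hNp : (0 : ℝ) < N := by exact_mod_cast hN1
  have hN2p : (0 : ℝ) < (N : ℝ) ^ 2 := by positivity
  obtain ⟨x, hxinj, hxE⟩ := (Em_basic 2 (by norm_num) 2 (by norm_num) N).2.2.1 1 one_pos
  obtain ⟨lam, hlamd⟩ : ∃ lam : ℝ, lam = ε' * Real.sqrt N := ⟨_, rfl⟩
  obtain ⟨ρ, hρd⟩ : ∃ ρ : ℝ, ρ = (N : ℝ) ^ (-(1 / 4 : ℝ)) := ⟨_, rfl⟩
  have hLOC1 := hLOC N x ε' hN1 hxinj hε'0 hε'1
  rw [← hlamd] at hLOC1 hlam1 hC51
  rw [← hρd] at hq1 hlog1 hC51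
  have hρ0 : 0 < ρ := by rw [hρd]; positivity
  have hρ1 : ρ ≤ 1 := by
    rw [hρd]
    exact Real.rpow_le_one_of_one_le_of_nonpos (by exact_mod_cast hN1) (by norm_num)
  have hlam0 : 0 < lam := by linarith
  obtain ⟨hEL, hEL0⟩ := EL_split N x lam hlam0.le
  have hIU := IU_low lam hlam1
  have hloglam : Real.log lam = Real.log ε' + 1 / 2 * Real.log N := by
    rw [hlamd, Real.log_mul hε'0.ne' (Real.sqrt_pos.2 hNp).ne', Real.log_sqrt hNp.le]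
    ring
  -- the quantity e
  obtain ⟨e, he⟩ : ∃ e : ℝ, e = EL 2 lam x / (N : ℝ) ^ 2 := ⟨_, rfl⟩
  have he0 : 0 ≤ e := by rw [he]; positivity
  have heb : e ≤ Em 2 2 N / (N : ℝ) ^ 2 + 1 / (N : ℝ) ^ 2 - IU lam + CL * ε' := by
    rw [he, div_le_iff₀ hN2p, hEL]
    have h1 : (Em 2 2 N / (N : ℝ) ^ 2 + 1 / (N : ℝ) ^ 2 - IU lam + CL * ε') * (N : ℝ) ^ 2
        = Em 2 2 N + 1 - (N : ℝ) ^ 2 * IU lam + CL * ε' * (N : ℝ) ^ 2 := by
      field_simp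
    rw [h1]
    linarith
  have heB : e ≤ B := by
    rw [hB]
    rw [hloglam] at hIU
    linarith
  have hq1' : 1 ≤ (1 + ρ ^ 2) ^ (7 / 2 : ℝ) :=
    Real.one_le_rpow (by nlinarith [sq_nonneg ρ]) (by norm_num)
  have hqe : (1 + ρ ^ 2) ^ (7 / 2 : ℝ) * e ≤ e + ((1 + ρ ^ 2) ^ (7 / 2 : ℝ) - 1) * B := by
    have h1 := mul_le_mul_of_nonneg_left heB (sub_nonneg.2 hq1')
    linarith
  filter_upwards [hTR N hN1 x hxinj ρ hρ0 hρ1 lam hlam0 (ε / 8) hε8] with n hn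
  rw [← he] at hn
  linarith

end Pool.Agent.Helper88.SE
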