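import Pool.Agent.Helper88.SE.Defs
import Pool.Agent.Helper88.SE.P_conv
import Pool.Agent.Helper88.SE.P_Em2_low
import Pool.Agent.Helper88.SE.P_G_hi
import Pool.Agent.Helper88.SE.P_step22

set_option autoImplicit false

open MeasureTheory Set Filter Topology
open scoped ENNReal

namespace Pool.Agent.Helper88.SE



theorem main22 : ∃ C : ℝ,
    Tendsto (fun N : ℕ => Em 2 2 N / (N : ℝ) ^ 2 - 1 / 4 * Real.log N) atTop (𝓝 C) := by
  obtain ⟨C1, hC1, h1⟩ := Em2_low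
  obtain ⟨C2, hC2, h2⟩ := G_hi
  refine conv (fun N : ℕ => Em 2 2 N / (N : ℝ) ^ 2 - 1 / 4 * Real.log N) (-C1) C2 ?_ h2
    (fun ε hε => step22 ε hε)
  filter_upwards [eventually_ge_atTop 1] with n hn
  have hn' : (0 : ℝ) < (n : ℝ) ^ 2 := by positivity
  have h3 := h1 n hn
  have h4 : (1 / 4 * (n : ℝ) ^ 2 * Real.log n - C1 * (n : ℝ) ^ 2) / (n : ℝ) ^ 2 ≤
      Em 2 2 n / (n : ℝ) ^ 2 := div_le_div_of_nonneg_right h3 hn'.le
  have h5 : (1 / 4 * (n : ℝ) ^ 2 * Real.log n - C1 * (n : ℝ) ^ 2) / (n : ℝ) ^ 2 =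
      1 / 4 * Real.log n - C1 := by
    field_simp
  rw [h5] at h4
  linarith

end Pool.Agent.Helper88.SE
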