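import Pool.Agent.Helper88.SE.P_main
import Pool.Agent.Helper88.SE.P_F_neg

set_option autoImplicit false

open MeasureTheory Set Filter Topology
open scoped ENNReal

namespace Pool.Agent.Helper88.SE

theorem main2 (d : ℕ) (hd : 1 ≤ d) (s : ℝ) (hs : 0 < s) (hsd : s < d) :
    ∃ C : ℝ, C < 0 ∧ Tendsto (fun N : ℕ => F d s N / (N : ℝ) ^ (1 + s / d)) atTop (𝓝 C) := by
  obtain ⟨C, hC⟩ := main d hd s hs hsd
  obtain ⟨c, n₀, hc, h⟩ := F_neg d hd s hs hsd
  refine ⟨C, ?_, hC⟩
  have h1 : C ≤ -c := by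
    refine le_of_tendsto hC ?_
    filter_upwards [eventually_ge_atTop n₀, eventually_ge_atTop 1] with n hn hn1
    have hpos : (0 : ℝ) < (n : ℝ) ^ (1 + s / d) :=
      Real.rpow_pos_of_pos (by exact_mod_cast hn1) _
    rw [div_le_iff₀ hpos]
    have := h n hn
    linarith
  linarith

/-- The energy with the sum over `j ≠ i` written out. -/
theorem En_eq {d N : ℕ} (s : ℝ) (hs : 0 < s) (x : Fin N → S d) :
    En s x = ∑ i, ∑ j ∈ Finset.univ.erase i, ‖((x i : E d) - (x j : E d))‖ ^ (-s) := by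
  have h0 : (0 : ℝ) ^ (-s) = 0 := Real.zero_rpow (by linarith [hs])
  unfold En K
  refine Finset.sum_congr rfl fun i _ => ?_
  rw [← Finset.add_sum_erase Finset.univ _ (Finset.mem_univ i)]
  rw [dist_self, h0, zero_add]
  refine Finset.sum_congr rfl fun j _ => ?_
  rw [Subtype.dist_eq, dist_eq_norm]

/-- The energy is twice the sum over pairs `i < j`. -/
theorem En_eq_lt {d N : ℕ} (s : ℝ) (hs : 0 < s) (x : Fin N → S d) :
    En s x = 2 * ∑ i, ∑ j ∈ Finset.Ioi i, ‖((x i : E d) - (x j : E d))‖ ^ (-s) := by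
  have h0 : (0 : ℝ) ^ (-s) = 0 := Real.zero_rpow (by linarith [hs])
  have h1 : En s x = ∑ i, ∑ j, ((if i < j then K s (x i) (x j) else 0) +
      (if j < i then K s (x i) (x j) else 0)) := by
    unfold En
    refine Finset.sum_congr rfl fun i _ => Finset.sum_congr rfl fun j _ => ?_
    rcases lt_trichotomy i j with h | h | h
    · simp [h, h.le, not_lt.2 h.le]
    · subst h
      simp [K, h0]
    · simp [h, not_lt.2 h.le]
  have h2 : ∑ i, ∑ j, (if j < i then K s (x i) (x j) else 0) =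
      ∑ i, ∑ j, (if i < j then K s (x i) (x j) else 0) := by
    rw [Finset.sum_comm]
    refine Finset.sum_congr rfl fun i _ => Finset.sum_congr rfl fun j _ => ?_
    unfold K
    rw [dist_comm]
  have h3 : ∑ i, ∑ j, (if i < j then K s (x i) (x j) else 0) =
      ∑ i, ∑ j ∈ Finset.Ioi i, ‖((x i : E d) - (x j : E d))‖ ^ (-s) := by
    refine Finset.sum_congr rfl fun i _ => ?_
    rw [← Finset.sum_filter]
    refine Finset.sum_congr ?_ fun j _ => ?_
    · ext j
      simp
    · unfold K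
      rw [Subtype.dist_eq, dist_eq_norm]
  rw [h1]
  simp only [Finset.sum_add_distrib]
  rw [h2, h3]
  ring

end Pool.Agent.Helper88.SE
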